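import Mathlib

/-!
Words over a finite alphabet, marginals, conditional laws, and the functionals used in the lower
bound: truncated entropy, squared chord, Huber cost, push-forward.
-/

namespace Pool.Agent.P.MP_0b0f5a_al.Fo

open Finset

/-- The words of length `n`. -/
def Wd (U : Type) [Fintype U] : ℕ → Finset (List U)
  | 0 => {[]}
  | n + 1 => ((univ : Finset U) ×ˢ Wd U n).map
      ⟨fun p => p.1 :: p.2, fun _ _ h => Prod.ext (List.cons.inj h).1 (List.cons.inj h).2⟩

section words

variable {U : Type} [Fintype U]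

/-- The marginal of `f` (a function on words of length `N`) at the suffix `z`. -/
def marg (N : ℕ) (f : List U → ℝ) (z : List U) : ℝ := ∑ w ∈ Wd U (N - z.length), f (w ++ z)

/-- The conditional law of the next letter, given the suffix `z`. -/
noncomputable def cnd (N : ℕ) (f : List U → ℝ) (z : List U) (u : U) : ℝ :=
  marg N f (u :: z) / marg N f z

lemma sum_Wd_zero (f : List U → ℝ) : ∑ z ∈ Wd U 0, f z = f [] := by simp [Wd]

lemma sum_Wd_succ (n : ℕ) (f : List U → ℝ) :
    ∑ z ∈ Wd U (n + 1), f z = ∑ z ∈ Wd U n, ∑ u, f (u :: z) := by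
  rw [Wd, sum_map, sum_product, sum_comm]; rfl

lemma mem_Wd {n : ℕ} {z : List U} : z ∈ Wd U n ↔ z.length = n := by
  induction n generalizing z with
  | zero => simp [Wd]
  | succ n ih =>
    cases z with
    | nil => simp [Wd]
    | cons u z => simp [Wd, ih]

lemma sum_Wd_succ' (n : ℕ) (f : List U → ℝ) :
    ∑ z ∈ Wd U (n + 1), f z = ∑ u, ∑ z ∈ Wd U n, f (z ++ [u]) := by
  induction n generalizing f with
  | zero => simp [sum_Wd_succ, sum_Wd_zero]
  | succ n ih =>
    rw [sum_Wd_succ, ih]
    refine sum_congr rfl fun u _ => ?_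
    rw [sum_Wd_succ]; rfl

lemma marg_full {N : ℕ} (f : List U → ℝ) {z : List U} (h : z.length = N) : marg N f z = f z := by
  simp [marg, h, sum_Wd_zero]

lemma marg_cons {N : ℕ} (f : List U → ℝ) {z : List U} (h : z.length < N) :
    marg N f z = ∑ u, marg N f (u :: z) := by
  obtain ⟨k, hk⟩ : ∃ k, N - z.length = k + 1 := ⟨N - z.length - 1, by omega⟩
  have h2 : N - (z.length + 1) = k := by omega
  simp only [marg, hk, sum_Wd_succ', List.length_cons, h2, List.append_assoc, List.singleton_append]

lemma marg_nil (N : ℕ) (f : List U → ℝ) : marg N f [] = ∑ y ∈ Wd U N, f y := by simp [marg]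

lemma sum_marg {N q : ℕ} (h : q ≤ N) (f : List U → ℝ) :
    ∑ z ∈ Wd U q, marg N f z = ∑ y ∈ Wd U N, f y := by
  induction q with
  | zero => rw [sum_Wd_zero, marg_nil]
  | succ q ih =>
    rw [sum_Wd_succ, ← ih (by omega)]
    exact sum_congr rfl fun z hz => (marg_cons f (by rw [mem_Wd.1 hz]; omega)).symm

lemma marg_add (N : ℕ) (f g : List U → ℝ) (z) :
    marg N (fun y => f y + g y) z = marg N f z + marg N g z := sum_add_distrib

lemma marg_sub (N : ℕ) (f g : List U → ℝ) (z) :
    marg N (fun y => f y - g y) z = marg N f z - marg N g z := sum_sub_distrib _ _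

lemma marg_mul (N : ℕ) (c : ℝ) (f : List U → ℝ) (z) :
    marg N (fun y => c * f y) z = c * marg N f z := (mul_sum _ _ _).symm

lemma marg_sum {ι : Type} (s : Finset ι) (N : ℕ) (f : ι → List U → ℝ) (z) :
    marg N (fun y => ∑ i ∈ s, f i y) z = ∑ i ∈ s, marg N (f i) z := sum_comm

lemma append_mem_Wd {N : ℕ} {z w : List U} (hz : z.length ≤ N) (hw : w ∈ Wd U (N - z.length)) :
    w ++ z ∈ Wd U N := by
  rw [mem_Wd] at hw ⊢; rw [List.length_append]; omega

lemma marg_mono {N : ℕ} {f g : List U → ℝ} (h : ∀ y ∈ Wd U N, f y ≤ g y) {z : List U}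
    (hz : z.length ≤ N) : marg N f z ≤ marg N g z :=
  sum_le_sum fun _ hw => h _ (append_mem_Wd hz hw)

lemma marg_congr {N : ℕ} {f g : List U → ℝ} (h : ∀ y ∈ Wd U N, f y = g y) {z : List U}
    (hz : z.length ≤ N) : marg N f z = marg N g z :=
  sum_congr rfl fun _ hw => h _ (append_mem_Wd hz hw)

lemma marg_nonneg {N : ℕ} {f : List U → ℝ} (h : ∀ y, 0 ≤ f y) (z : List U) : 0 ≤ marg N f z :=
  sum_nonneg fun _ _ => h _

lemma abs_marg_le (N : ℕ) (f : List U → ℝ) (z : List U) :
    |marg N f z| ≤ marg N (fun y => |f y|) z := abs_sum_le_sum_abs _ _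

lemma marg_cons_le {N : ℕ} {f : List U → ℝ} (h : ∀ y, 0 ≤ f y) {z : List U} (hz : z.length < N)
    (u : U) : marg N f (u :: z) ≤ marg N f z := by
  rw [marg_cons f hz]
  exact single_le_sum (f := fun u => marg N f (u :: z)) (fun _ _ => marg_nonneg h _) (mem_univ u)

lemma marg_le_nil {N : ℕ} {f : List U → ℝ} (h : ∀ y, 0 ≤ f y) {z : List U} (hz : z.length ≤ N) :
    marg N f z ≤ marg N f [] := by
  induction z with
  | nil => exact le_rfl
  | cons u z ih =>
    rw [List.length_cons] at hz
    exact (marg_cons_le h (by omega) u).trans (ih (by omega))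

lemma exists_of_marg_ne_zero {N : ℕ} {f : List U → ℝ} {z : List U} (hz : z.length ≤ N)
    (h : marg N f z ≠ 0) : ∃ w, w ++ z ∈ Wd U N ∧ f (w ++ z) ≠ 0 := by
  obtain ⟨w, hw, h⟩ := exists_ne_zero_of_sum_ne_zero h
  exact ⟨w, append_mem_Wd hz hw, h⟩

lemma cnd_nonneg {N : ℕ} {f : List U → ℝ} (h : ∀ y, 0 ≤ f y) (z : List U) (u : U) :
    0 ≤ cnd N f z u := div_nonneg (marg_nonneg h _) (marg_nonneg h _)

lemma sum_cnd {N : ℕ} {f : List U → ℝ} {z : List U} (hz : z.length < N) (h : marg N f z ≠ 0) :
    ∑ u, cnd N f z u = 1 := by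
  simp only [cnd]; rw [← sum_div, ← marg_cons f hz, div_self h]

lemma marg_mul_cnd {N : ℕ} {f : List U → ℝ} (h : ∀ y, 0 ≤ f y) {z : List U} (hz : z.length < N)
    (u : U) : marg N f z * cnd N f z u = marg N f (u :: z) := by
  by_cases h0 : marg N f z = 0
  · have h1 := marg_cons_le h hz u
    have h2 := marg_nonneg (N := N) h (u :: z)
    rw [h0, zero_mul]; linarith
  · rw [cnd, mul_div_cancel₀ _ h0]

lemma cnd_mul (N : ℕ) {c : ℝ} (hc : c ≠ 0) (f : List U → ℝ) (z u) :
    cnd N (fun y => c * f y) z u = cnd N f z u := by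
  rw [cnd, marg_mul, marg_mul, mul_div_mul_left _ _ hc, cnd]

end words

/-- Apply `f` to the letter that has exactly `q` letters after it. -/
def togAt {X : Type} (q : ℕ) (f : X → X) : List X → List X
  | [] => []
  | u :: z => if z.length = q then f u :: z else u :: togAt q f z

/-- Every letter is admissible for the number of letters after it. -/
def AdmL {X : Type} (Adm : ℕ → X → Prop) : List X → Prop
  | [] => True
  | u :: z => Adm z.length u ∧ AdmL Adm z

lemma length_togAt {X : Type} (q : ℕ) (f : X → X) (y : List X) :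
    (togAt q f y).length = y.length := by
  induction y with
  | nil => rfl
  | cons u z ih => unfold togAt; split_ifs <;> simp [ih]

lemma togAt_of_le {X : Type} {q : ℕ} (f : X → X) {z : List X} (h : z.length ≤ q) :
    togAt q f z = z := by
  induction z with
  | nil => rfl
  | cons u z ih =>
    rw [List.length_cons] at h
    rw [togAt, if_neg (by omega), ih (by omega)]

lemma togAt_append {X : Type} {q : ℕ} (f : X → X) (w : List X) {z : List X} (h : q < z.length) :
    togAt q f (w ++ z) = w ++ togAt q f z := by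
  induction w with
  | nil => rfl
  | cons u w ih => rw [List.cons_append, togAt, if_neg (by simp; omega), ih]; rfl

lemma togAt_togAt {X : Type} (q : ℕ) {f g : X → X} (h : ∀ x, g (f x) = x) (y : List X) :
    togAt q g (togAt q f y) = y := by
  induction y with
  | nil => rfl
  | cons u z ih =>
    by_cases h1 : z.length = q
    · simp [togAt, h1, h]
    · simp [togAt, h1, length_togAt, ih]

lemma togAt_comm {X : Type} (q q' : ℕ) (f : X → X) (y : List X) :
    togAt q f (togAt q' f y) = togAt q' f (togAt q f y) := by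
  by_cases hq : q = q'
  · rw [hq]
  induction y with
  | nil => rfl
  | cons u z ih =>
    by_cases h1 : z.length = q
    · have h2 : ¬ z.length = q' := fun h => hq (h1.symm.trans h)
      simp [togAt, h1, hq, length_togAt]
    · by_cases h2 : z.length = q'
      · simp [togAt, h2, Ne.symm hq, length_togAt]
      · simp [togAt, h1, h2, length_togAt, ih]

lemma map_togAt {X Y : Type} (q : ℕ) {f : X → X} {g : Y → Y} {b : X → Y}
    (h : ∀ x, b (f x) = g (b x)) (y : List X) : (togAt q f y).map b = togAt q g (y.map b) := by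
  induction y with
  | nil => rfl
  | cons u z ih => by_cases h1 : z.length = q <;> simp [togAt, h1, h, ih]

lemma AdmL.of_append {X : Type} {Adm : ℕ → X → Prop} {w z : List X} (h : AdmL Adm (w ++ z)) :
    AdmL Adm z := by
  induction w with
  | nil => exact h
  | cons u w ih => exact ih h.2

lemma marg_togAt {U : Type} [Fintype U] {N q : ℕ} {f g : List U → ℝ} {k : U → U}
    (h : ∀ y ∈ Wd U N, g (togAt q k y) = f y) {z : List U} (h1 : q < z.length)
    (h2 : z.length ≤ N) : marg N g (togAt q k z) = marg N f z := by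
  unfold marg
  rw [length_togAt]
  refine sum_congr rfl fun w hw => ?_
  rw [← togAt_append k w h1, h _ (append_mem_Wd h2 hw)]

lemma sum_togAt {U : Type} [Fintype U] (n q : ℕ) (k : Equiv.Perm U) (f : List U → ℝ) :
    ∑ y ∈ Wd U n, f (togAt q k y) = ∑ y ∈ Wd U n, f y := by
  refine sum_nbij' (togAt q k) (togAt q k.symm) ?_ ?_ ?_ ?_ fun _ _ => rfl
  · intro y hy; rwa [mem_Wd, length_togAt, ← mem_Wd]
  · intro y hy; rwa [mem_Wd, length_togAt, ← mem_Wd]
  · intro y _; exact togAt_togAt q k.symm_apply_apply y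
  · intro y _; exact togAt_togAt q k.apply_symm_apply y

/-- The truncated surprisal. -/
noncomputable def sur (B x : ℝ) : ℝ := max 0 (min (-Real.log x) B)

section functionals

variable {X : Type}

/-- The truncated entropy, with the scale `c` inside the logarithm. -/
noncomputable def ent (s : Finset X) (c B : ℝ) (μ : X → ℝ) : ℝ := ∑ x ∈ s, μ x * sur B (c * μ x)

/-- The squared chord (Hellinger) distance. -/
noncomputable def ch2 (s : Finset X) (μ ν : X → ℝ) : ℝ := ∑ x ∈ s, (√(μ x) - √(ν x)) ^ 2

/-- The quadratic part of the Huber cost. -/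
def cQ (s : Finset X) (μ ν w : X → ℝ) : ℝ := ∑ x ∈ s, w x ^ 2 * (μ x + ν x)

/-- The linear part of the Huber cost. -/
def cL (s : Finset X) (μ ν w : X → ℝ) : ℝ := ∑ x ∈ s, |ν x - μ x - w x * (μ x + ν x)|

/-- The Huber cost of the pair `μ, ν` for the splitting `w`. -/
def cost (s : Finset X) (T Θ : ℝ) (μ ν w : X → ℝ) : ℝ := T * cQ s μ ν w + Θ * cL s μ ν w

/-- The `ℓ¹` distance. -/
def l1 (s : Finset X) (μ ν : X → ℝ) : ℝ := ∑ x ∈ s, |μ x - ν x|

/-- The push-forward. -/
def push {Y : Type} [DecidableEq Y] (s : Finset X) (f : X → Y) (μ : X → ℝ) (y : Y) : ℝ :=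
  ∑ x ∈ s with f x = y, μ x

end functionals

/-- The vertex of the cycle that carries the flag `(i, θ)`. -/
def own (i : ℕ) (θ : Bool) : ℕ := if θ then i + 1 else i

/-- The other vertex of the edge `i`. -/
def par (i : ℕ) (θ : Bool) : ℕ := if θ then i else i + 1

/-- The restriction of `f` to the words with prescribed bits. -/
def res {U : Type} (bit : U → ZMod 2) (f : List U → ℝ) (s : List (ZMod 2)) (y : List U) : ℝ :=
  if y.map bit = s then f y else 0

/-- The flags and bit words of the class `c`. -/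
def Ix {C : Type} [DecidableEq C] (N : ℕ) (Cl : ℕ → Bool → List (ZMod 2) → C) (c : C) :
    Finset ((ℕ × Bool) × List (ZMod 2)) :=
  ((range (4 * N) ×ˢ univ) ×ˢ Wd (ZMod 2) N).filter fun x => Cl x.1.1 x.1.2 x.2 = c

end Pool.Agent.P.MP_0b0f5a_al.Fo
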