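import Pool.Agent.P.MP_0b0f5a_al.Fo.Fam

/-!
The base cases of the two inductions, and the passage from the chord cost to the Huber cost.
-/

namespace Pool.Agent.P.MP_0b0f5a_al.Fo

open Finset

private lemma four_pow (D : ℕ) : (4 : ℝ) ^ D = (2 ^ D) ^ 2 := by
  rw [← pow_mul, mul_comm, pow_mul]; norm_num

private lemma min_ge {P x : ℝ} (hP : 1 ≤ P) (hx : Real.log 2 / 32 * P ≤ x) :
    0.02165 * P ≤ min x P := by
  have := Real.log_two_gt_d9
  exact le_min (by nlinarith) (by linarith)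

theorem baseI {ω : ℕ → Fin 3} {s : Fin 3} {D : ℕ} (h : ∀ i < D, ω i = s) {T Θ b : ℝ} (hb : 0 < b)
    (h1 : b ≤ 2 ^ D / 100) (h2 : 200000000 * 4 ^ D * b ≤ T) (h3 : 1000 * 2 ^ D * b ≤ Θ) :
    SI ω D T Θ b (2 ^ D) := by
  intro β w hβ
  obtain ⟨S, γ, hS, hγ, hγ1, hγS, hlog, hl⟩ := spread h hβ
  rw [four_pow] at h2
  have hP : (1 : ℝ) ≤ 2 ^ D := one_le_pow₀ (by norm_num)
  generalize (2 : ℝ) ^ D = P at *
  have ha : ∀ x, 0 ≤ β (aA (D + 1) x) := fun x => hβ.nonneg _
  have ha1 : ∑ x, β (aA (D + 1) x) = 1 := by rw [Equiv.sum_comp (aA (D + 1)) β, hβ.total]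
  have hc := l1_le_cost univ hβ.nonneg ha w
  rw [hβ.total, ha1] at hc
  have hQ := cQ_nonneg univ hβ.nonneg ha w
  have hL := cL_nonneg univ β (fun x => β (aA (D + 1) x)) w
  have hE := ent_nonneg univ 8 P hβ.nonneg
  have hge := ent_ge univ (c := 8) (B := P) (S := S / 8) (by norm_num) hγ fun x _ => by
    have := hγS x
    rw [show 1 / (S / 8) = 8 * (1 / S) by field_simp]
    linarith
  rw [hγ1, mul_one] at hge
  have hlip := ent_lip univ (c := 8) (by norm_num) hP hγ hβ.nonneg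
  rw [l1_comm] at hlip
  have hm : 0.02165 * P ≤ min (Real.log (S / 8)) P :=
    min_ge hP (hlog.trans (Real.log_le_log (by positivity) (by linarith)))
  unfold cost
  generalize cQ univ β (fun x => β (aA (D + 1) x)) w = Q at *
  generalize cL univ β (fun x => β (aA (D + 1) x)) w = L at *
  generalize (l1 univ β fun x => β (aA (D + 1) x)) = lam at *
  by_contra hcon
  rw [not_le] at hcon
  have hTQ : 200000000 * P ^ 2 * b * Q ≤ T * Q := mul_le_mul_of_nonneg_right h2 hQ
  have hΘL : 1000 * P * b * L ≤ Θ * L := mul_le_mul_of_nonneg_right h3 hL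
  have hn1 : 0 ≤ 200000000 * P ^ 2 * b * Q := by positivity
  have hn2 : 0 ≤ 1000 * P * b * L := by positivity
  have hQ1 : 200000000 * P ^ 2 * Q ≤ 1 := by
    refine le_of_mul_le_mul_left ?_ hb
    nlinarith
  have hL1 : 1000 * P * L ≤ 1 := by
    refine le_of_mul_le_mul_left ?_ hb
    nlinarith
  have hs : P * (√Q * √(1 + 1)) ≤ 1 / 10000 := by
    refine (pow_le_pow_iff_left₀ (by positivity) (by norm_num) two_ne_zero).1 ?_
    rw [mul_pow, mul_pow, Real.sq_sqrt hQ, Real.sq_sqrt (by norm_num)]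
    nlinarith
  have hlam : P * lam ≤ 11 / 10000 := by
    have := mul_le_mul_of_nonneg_left hc (show 0 ≤ P by linarith)
    rw [mul_add] at this
    generalize P * (√Q * √(1 + 1)) = y at this hs
    linarith
  have hd : P * l1 univ β γ ≤ P * (22 / 10000) :=
    mul_le_mul_of_nonneg_left (by linarith) (by linarith)
  nlinarith

private lemma sum_clF (o n : Fin 3) (m : ℕ) (f : W (m + 1) → ℝ) :
    ∑ c : C16, ∑ x ∈ clF o n m c, f x = ∑ x, f x :=
  sum_fiberwise_of_maps_to (fun _ _ => mem_univ _) f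

private lemma clA_clA (c : C16) : clA (clA c) = c := by simp [clA]

private lemma sum_clF_aA (o n : Fin 3) (m : ℕ) (c : C16) (f : W (m + 1) → ℝ) :
    ∑ x ∈ clF o n m c, f (aA (m + 1) x) = ∑ x ∈ clF o n m (clA c), f x := by
  refine sum_nbij' (aA (m + 1)) (aA (m + 1)) ?_ ?_ (fun x _ => aA_aA _ x) (fun x _ => aA_aA _ x)
    fun _ _ => rfl
  · intro x hx
    simp only [clF, mem_filter, mem_univ, true_and] at hx ⊢
    rw [cls_aA, hx]
  · intro x hx
    simp only [clF, mem_filter, mem_univ, true_and] at hx ⊢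
    rw [cls_aA, hx, clA_clA]

private lemma l1_scale {X : Type} (s : Finset X) (μ ν : X → ℝ) :
    l1 s (fun x => 16 * μ x) (fun x => 16 * ν x) = 16 * l1 s μ ν := by
  rw [l1, l1, mul_sum]
  refine sum_congr rfl fun x _ => ?_
  rw [← mul_sub, abs_mul, abs_of_pos (by norm_num : (0 : ℝ) < 16)]

theorem baseII {ω : ℕ → Fin 3} {s : Fin 3} {D : ℕ} (h : ∀ i < D, ω i = s) (o : Fin 3) {T b : ℝ}
    (hb : 0 < b) (h1 : b ≤ 2 ^ D / 100) (h2 : 200000000 * 4 ^ D * b ≤ T) :
    PII o ω D T b (2 ^ D) := by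
  intro β hβ hcl
  obtain ⟨S, γ, hS, hγ, hγ1, hγS, hlog, hl⟩ := spread h hβ
  rw [four_pow] at h2
  have hP : (1 : ℝ) ≤ 2 ^ D := one_le_pow₀ (by norm_num)
  generalize (2 : ℝ) ^ D = P at *
  have hT : 0 ≤ T := le_trans (by positivity) h2
  have hb16 : ∀ x, 0 ≤ 16 * β x := fun x => by have := hβ.nonneg x; positivity
  have ha16 : ∀ x, 0 ≤ 16 * β (aA (D + 1) x) := fun x => hb16 _
  have hg16 : ∀ x, 0 ≤ 16 * γ x := fun x => by have := hγ x; positivity
  have hm1 : ∀ c, ∑ x ∈ clF o (ω 0) D c, 16 * β x = 1 := fun c => by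
    rw [← mul_sum, hcl]; norm_num
  have hm2 : ∀ c, ∑ x ∈ clF o (ω 0) D c, 16 * β (aA (D + 1) x) = 1 := fun c => by
    rw [sum_clF_aA o (ω 0) D c fun x => 16 * β x, hm1]
  set q : C16 → ℝ := fun c =>
    ch2 (clF o (ω 0) D c) (fun x => 16 * β x) fun x => 16 * β (aA (D + 1) x) with hq
  set e : C16 → ℝ := fun c => ent (clF o (ω 0) D c) 1 P fun x => 16 * β x with he
  change 16 * √b ≤ ∑ c, √(e c + T * q c)
  have hq0 : ∀ c, 0 ≤ q c := fun c => ch2_nonneg _ _ _
  have he0 : ∀ c, 0 ≤ e c := fun c => ent_nonneg _ _ _ hb16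
  by_contra hcon
  rw [not_le] at hcon
  have hsb : 0 < √b := Real.sqrt_pos.2 hb
  have hsT : 14000 * P * √b ≤ √T := by
    refine Real.le_sqrt_of_sq_le ?_
    rw [mul_pow, mul_pow, Real.sq_sqrt hb.le]
    have : 0 ≤ P ^ 2 * b := by positivity
    nlinarith
  have hs1 : ∑ c, 14000 * P * √b * √(q c) ≤ ∑ c, √(e c + T * q c) := by
    refine sum_le_sum fun c _ => ?_
    refine (mul_le_mul_of_nonneg_right hsT (Real.sqrt_nonneg _)).trans ?_
    rw [← Real.sqrt_mul hT]
    exact Real.sqrt_le_sqrt (by linarith [he0 c])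
  rw [← mul_sum] at hs1
  have hs2 : 14000 * P * ∑ c, √(q c) ≤ 16 := by
    refine le_of_mul_le_mul_left ?_ hsb
    nlinarith
  have hs3 : 16 * l1 univ β (fun x => β (aA (D + 1) x)) ≤ 2 * ∑ c, √(q c) := by
    rw [← l1_scale, l1, ← sum_clF o (ω 0) D, mul_sum]
    refine sum_le_sum fun c _ => ?_
    have := l1_le_chord (clF o (ω 0) D c) hb16 ha16
    rw [hm1, hm2, Real.sqrt_one] at this
    exact this.trans (le_of_eq (by rw [hq]; ring))
  have hd : l1 univ β γ ≤ 2 / 7000 := by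
    have := mul_le_mul_of_nonneg_left hs3 (show 0 ≤ P by linarith)
    nlinarith
  have hm := min_ge hP hlog
  have hcls : ∀ c, b ≤ e c := by
    intro c
    have hl1 : l1 (clF o (ω 0) D c) (fun x => 16 * γ x) (fun x => 16 * β x) ≤ 32 / 7000 := by
      rw [l1_scale, l1_comm]
      have : l1 (clF o (ω 0) D c) β γ ≤ l1 univ β γ :=
        sum_le_sum_of_subset_of_nonneg (subset_univ _) fun _ _ _ => abs_nonneg _
      linarith
    have hmass : 1 - 32 / 7000 ≤ ∑ x ∈ clF o (ω 0) D c, 16 * γ x := by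
      have h4 : ∑ x ∈ clF o (ω 0) D c, (16 * β x - 16 * γ x) ≤
          l1 (clF o (ω 0) D c) (fun x => 16 * γ x) (fun x => 16 * β x) :=
        sum_le_sum fun x _ => by rw [abs_sub_comm]; exact le_abs_self _
      rw [sum_sub_distrib, hm1] at h4
      linarith
    have hge := ent_ge (clF o (ω 0) D c) (c := 1) (B := P) (S := S / 16) one_pos hg16
      fun x _ => by
        have := hγS x
        rw [show 1 / (S / 16) = 16 * (1 / S) by field_simp]
        linarith
    have hlip := ent_lip (clF o (ω 0) D c) one_pos hP hg16 hb16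
    have h5 : 0.02165 * P * (1 - 32 / 7000) ≤
        min (Real.log (S / 16)) P * ∑ x ∈ clF o (ω 0) D c, 16 * γ x :=
      mul_le_mul hm hmass (by norm_num) (le_trans (by positivity) hm)
    have h6 := mul_le_mul_of_nonneg_left hl1 (show 0 ≤ P by linarith)
    change b ≤ ent (clF o (ω 0) D c) 1 P fun x => 16 * β x
    nlinarith
  have hfin : ∑ _c : C16, √b ≤ ∑ c, √(e c + T * q c) :=
    sum_le_sum fun c _ => Real.sqrt_le_sqrt (by
      have := mul_nonneg hT (hq0 c)
      linarith [hcls c])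
  rw [sum_const, card_univ, show Fintype.card C16 = 16 by simp, nsmul_eq_mul] at hfin
  norm_num at hfin
  linarith

end Pool.Agent.P.MP_0b0f5a_al.Fo
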