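import Pool.Agent.P.MP_0b0f5a_al.Fo.Dih

/-!
The inductive statements of the child, read on the four vertices of the small cycle.
-/

namespace Pool.Agent.P.MP_0b0f5a_al.Fo

open Finset

variable {s : Fin 3} {m : ℕ} {ω : ℕ → Fin 3}

private lemma per_mod {X : Type} {G : ℕ → X} {n : ℕ} (hG : ∀ f, G (f + n) = G f) (f : ℕ) :
    G (f % n) = G f := by
  have h : ∀ k r, G (r + n * k) = G r := by
    intro k r
    induction k with
    | zero => rfl
    | succ k ih => rw [mul_add, mul_one, ← add_assoc, hG, ih]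
  conv_rhs => rw [← Nat.mod_add_div f n, h]

/-- A function on all portraits with prescribed values in the coordinates `(f, u)`. -/
private lemma glue (h : ω 0 ≠ s) {c : ℕ} (hc : c < 8) (G : ℕ → W (m + 1) → ℝ)
    (hG : ∀ f, G (f + 8) = G f) :
    ∃ β : W (m + 1) → ℝ, ∀ f u, jt s m ω u = c → β (dd m ω (f + 1) u) = G f u := by
  choose F hF1 hF2 using fun x : W (m + 1) => exists_dd (ω := ω) h hc x
  refine ⟨fun x => G (F x) ((dd m ω (F x + 1))⁻¹ x), fun f u hu => ?_⟩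
  have e : dd m ω (f + 1) = dd m ω (f % 8 + 1) := by
    rw [← dd_mod (f + 1), ← dd_mod (f % 8 + 1), Nat.mod_add_mod]
  have e2 : F (dd m ω (f + 1) u) = f % 8 := by
    refine dd_free h (hF1 _) (Nat.mod_lt _ (by norm_num)) ((hF2 (dd m ω (f + 1) u)).trans hu.symm) ?_
    rw [dd_inv_self, e]
  show G (F (dd m ω (f + 1) u)) ((dd m ω (F (dd m ω (f + 1) u) + 1))⁻¹ (dd m ω (f + 1) u)) = G f u
  rw [e2, ← e, inv_dd_self, per_mod hG]

/-- Sums over all portraits along the four edges. -/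
private lemma sum_dd2 (h : ω 0 ≠ s) {c : ℕ} (hc : c < 8) (φ : W (m + 1) → ℝ) :
    ∑ x, φ x = ∑ j ∈ range 4, ∑ u with jt s m ω u = c,
      (φ (dd m ω (2 * j + 1 + 1) u) + φ (dd m ω (2 * j + 2 + 1) u)) := by
  rw [sum_dd h hc]
  have e : dd m ω (2 * 3 + 2 + 1) = dd m ω (0 + 1) := dd_add_eight 1
  simp only [sum_range_succ, sum_range_zero, sum_add_distrib, e]
  ring

private lemma exists_beta (h : ω 0 ≠ s) (c : ℕ) (η : ℕ → W (m + 1) → ℝ)
    (h0 : ∀ j u, 0 ≤ η j u) (h1 : ∀ j, ∑ u, η j u = 1)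
    (h2 : ∀ j u, η j u ≠ 0 → Reach (m + 1) ω u ∧ jt s m ω u = c) (h3 : ∀ j, η (j + 4) = η j)
    (h4 : ∀ j u, η j (kk s m ω j u) = η j u) :
    c < 8 ∧ ∃ β : W (m + 1) → ℝ, Meas ω (m + 1) β ∧
      ∀ f u, jt s m ω u = c → β (dd m ω (f + 1) u) = η (f / 2) u / 8 := by
  have hc : c < 8 := by
    obtain ⟨u, _, hu⟩ := exists_ne_zero_of_sum_ne_zero (s := univ) (f := η 0) (by rw [h1]; norm_num)
    rw [← (h2 0 u hu).2]; exact jt_lt u
  obtain ⟨β, hβ⟩ := glue h hc (fun f u => η (f / 2) u / 8) fun f => by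
    rw [show (f + 8) / 2 = f / 2 + 4 by omega, h3]
  have hx : ∀ x, ∃ f u, jt s m ω u = c ∧ x = dd m ω (f + 1) u := fun x => by
    obtain ⟨f, _, hf⟩ := exists_dd h hc x
    exact ⟨f, _, hf, (dd_inv_self _ _).symm⟩
  have hT : ∀ x, β (aS (ω 0) (m + 1) ω x) = β x := by
    intro x
    obtain ⟨f, u, hu, rfl⟩ := hx x
    rcases Nat.mod_two_eq_zero_or_one f with e | e
    · rw [← Equiv.Perm.mul_apply, dd_odd (by omega), hβ _ _ hu, hβ _ _ hu,
        show (f + 1) / 2 = f / 2 by omega]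
    · obtain ⟨g, rfl⟩ : ∃ g, f = g + 1 := ⟨f - 1, by omega⟩
      rw [← Equiv.Perm.mul_apply, dd_odd' e, hβ _ _ hu, hβ _ _ hu,
        show (g + 1) / 2 = g / 2 by omega]
  have hK : ∀ x, β (aS s (m + 1) ω x) = β x := by
    intro x
    obtain ⟨f, u, hu, rfl⟩ := hx x
    obtain ⟨j, rfl | rfl⟩ := Nat.even_or_odd' f
    · rw [← dd_kk', hβ _ _ hu, hβ _ _ ((jt_kk h j u).trans hu), show 2 * j / 2 = j by omega, h4]
    · rw [show 2 * j + 1 + 1 = 2 * j + 2 from rfl, ← dd_kk]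
      have e1 := hβ (2 * j + 1) _ hu
      have e2 := hβ (2 * j + 1) _ ((jt_kk h j u).trans hu)
      rw [show (2 * j + 1) / 2 = j by omega] at e1 e2
      rw [h4] at e2
      exact e2.trans e1.symm
  refine ⟨hc, β, ⟨fun x => ?_, fun x hβx => ?_, fun k x => ?_, ?_⟩, hβ⟩
  · obtain ⟨f, u, hu, rfl⟩ := hx x
    rw [hβ _ _ hu]; exact div_nonneg (h0 _ _) (by norm_num)
  · obtain ⟨f, u, hu, rfl⟩ := hx x
    rw [hβ _ _ hu] at hβx
    exact (h2 _ u fun e => hβx (by rw [e, zero_div])).1.dd _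
  · by_cases e1 : k = ω 0
    · rw [e1, hT]
    by_cases e2 : k = s
    · rw [e2, hK]
    rw [aS_third h e1 e2, hT, hK]
  · rw [sum_dd h hc]
    have : ∀ f ∈ range 8, ∑ u with jt s m ω u = c, β (dd m ω (f + 1) u) = 1 / 8 := by
      intro f _
      rw [sum_congr rfl fun u hu => hβ f u (mem_filter.1 hu).2, ← sum_div,
        sum_filter_of_ne fun u _ hu => (h2 _ u hu).2, h1]
    rw [sum_congr rfl this]; simp

theorem childI {T Θ b B : ℝ} (h : ω 0 ≠ s) (H : SI ω m T Θ b B) (c : ℕ) (η : ℕ → W (m + 1) → ℝ)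
    (h0 : ∀ j u, 0 ≤ η j u) (h1 : ∀ j, ∑ u, η j u = 1)
    (h2 : ∀ j u, η j u ≠ 0 → Reach (m + 1) ω u ∧ jt s m ω u = c) (h3 : ∀ j, η (j + 4) = η j)
    (h4 : ∀ j u, η j (kk s m ω j u) = η j u) (w : ℕ → W (m + 1) → ℝ) :
    4 * b ≤ ∑ j ∈ range 4, (ent univ 1 B (η j) + cost univ T Θ (η j) (η (j + 1)) (w j)) := by
  obtain ⟨hc, β, hM, hβ⟩ := exists_beta h c η h0 h1 h2 h3 h4
  obtain ⟨v, hv⟩ := glue h hc
    (fun f u => if f % 2 = 1 then w (f % 8 / 2) u else - w ((f + 7) % 8 / 2) u) fun f => by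
      rw [show (f + 8) % 2 = f % 2 by omega, show (f + 8) % 8 = f % 8 by omega,
        show (f + 8 + 7) % 8 = (f + 7) % 8 by omega]
  have b1 : ∀ j u, jt s m ω u = c → β (dd m ω (2 * j + 1 + 1) u) = η j u / 8 := fun j u hu => by
    rw [hβ _ _ hu, show (2 * j + 1) / 2 = j by omega]
  have b2 : ∀ j u, jt s m ω u = c → β (dd m ω (2 * j + 2 + 1) u) = η (j + 1) u / 8 :=
    fun j u hu => by rw [hβ _ _ hu, show (2 * j + 2) / 2 = j + 1 by omega]
  have a1 : ∀ j u, aA (m + 1) (dd m ω (2 * j + 1 + 1) u) = dd m ω (2 * j + 2 + 1) u := fun j u => by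
    rw [← Equiv.Perm.mul_apply, dd_even (by omega)]
  have a2 : ∀ j u, aA (m + 1) (dd m ω (2 * j + 2 + 1) u) = dd m ω (2 * j + 1 + 1) u := fun j u => by
    rw [← a1, aA_aA]
  have v1 : ∀ j < 4, ∀ u, jt s m ω u = c → v (dd m ω (2 * j + 1 + 1) u) = w j u := fun j hj u hu => by
    rw [hv _ _ hu, if_pos (by omega), show (2 * j + 1) % 8 / 2 = j by omega]
  have v2 : ∀ j < 4, ∀ u, jt s m ω u = c → v (dd m ω (2 * j + 2 + 1) u) = - w j u :=
    fun j hj u hu => by
      rw [hv _ _ hu, if_neg (by omega), show (2 * j + 2 + 7) % 8 / 2 = j by omega]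
  have z : ∀ j u, jt s m ω u ≠ c → η j u = 0 := fun j u hu => by
    by_contra e; exact hu (h2 j u e).2
  have hE : ent univ 8 B β =
      ∑ j ∈ range 4, (ent univ 1 B (η j) + ent univ 1 B (η (j + 1))) / 8 := by
    rw [ent, sum_dd2 h hc]
    refine sum_congr rfl fun j _ => ?_
    rw [ent, ent, ← sum_add_distrib, sum_div, sum_filter]
    refine sum_congr rfl fun u _ => ?_
    split_ifs with hu
    · rw [b1 j u hu, b2 j u hu, mul_div_cancel₀ _ (by norm_num : (8 : ℝ) ≠ 0),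
        mul_div_cancel₀ _ (by norm_num : (8 : ℝ) ≠ 0), one_mul, one_mul]
      ring
    · rw [z j u hu, z (j + 1) u hu]; simp
  have hQ : cQ univ β (fun x => β (aA (m + 1) x)) v =
      ∑ j ∈ range 4, cQ univ (η j) (η (j + 1)) (w j) / 4 := by
    rw [cQ, sum_dd2 h hc]
    refine sum_congr rfl fun j hj => ?_
    rw [cQ, sum_div, sum_filter]
    refine sum_congr rfl fun u _ => ?_
    split_ifs with hu
    · rw [a1, a2, b1 j u hu, b2 j u hu, v1 j (mem_range.1 hj) u hu, v2 j (mem_range.1 hj) u hu]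
      ring
    · rw [z j u hu, z (j + 1) u hu]; simp
  have hL : cL univ β (fun x => β (aA (m + 1) x)) v =
      ∑ j ∈ range 4, cL univ (η j) (η (j + 1)) (w j) / 4 := by
    rw [cL, sum_dd2 h hc]
    refine sum_congr rfl fun j hj => ?_
    rw [cL, sum_div, sum_filter]
    refine sum_congr rfl fun u _ => ?_
    split_ifs with hu
    · rw [a1, a2, b1 j u hu, b2 j u hu, v1 j (mem_range.1 hj) u hu, v2 j (mem_range.1 hj) u hu]
      have p1 : η (j + 1) u / 8 - η j u / 8 - w j u * (η j u / 8 + η (j + 1) u / 8) =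
          (η (j + 1) u - η j u - w j u * (η j u + η (j + 1) u)) / 8 := by ring
      have p2 : η j u / 8 - η (j + 1) u / 8 - -w j u * (η (j + 1) u / 8 + η j u / 8) =
          -((η (j + 1) u - η j u - w j u * (η j u + η (j + 1) u)) / 8) := by ring
      rw [p1, p2, abs_neg, abs_div, abs_of_pos (by norm_num : (0 : ℝ) < 8)]
      ring
    · rw [z j u hu, z (j + 1) u hu]; simp
  have key := H β v hM
  rw [cost, hE, hQ, hL] at key
  have e4 : η (3 + 1) = η 0 := h3 0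
  simp only [sum_range_succ, sum_range_zero, cost, zero_add] at key ⊢
  rw [e4] at key ⊢
  norm_num at key ⊢
  linarith

/-- The class with the dihedral part of `c0` and the last component `e`. -/
private def c1 (c0 : C16) (e : ZMod 2) : C16 := (c0.1, c0.2.1, c0.2.2.1, e)

private lemma clD_inj' (f : ℕ) {c c' : C16} (h : clD f c = clD f c') : c = c' := by
  induction f with
  | zero => exact h
  | succ f ih =>
    have hA : ∀ x y : C16, clA x = clA y → x = y := by decide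
    have hT : ∀ x y : C16, clT x = clT y → x = y := by decide
    rw [clD, clD] at h
    split_ifs at h
    · exact ih (hA _ _ h)
    · exact ih (hT _ _ h)

private lemma cl_bij (c0 : C16) : Function.Bijective fun p : Fin 4 × ZMod 2 × Bool =>
    clD (2 * p.1.val + (if p.2.2 then 2 else 1) + 1) (c1 c0 p.2.1) := by
  rw [Fintype.bijective_iff_injective_and_card]
  refine ⟨?_, by simp⟩
  revert c0
  unfold Function.Injective
  decide +kernel

private lemma sum_cl (h : ω 0 ≠ s) (c0 : C16) (f : ℕ) (e : ZMod 2) (φ ψ : W (m + 1) → ℝ)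
    (p1 : ∀ u, jt s m ω u = jtab c0 → bt m ω u = e → φ (dd m ω f u) = ψ u)
    (p2 : ∀ u, ψ u ≠ 0 → jt s m ω u = jtab c0 ∧ bt m ω u = e) :
    ∑ x ∈ clF s (ω 0) m (clD f (c1 c0 e)), φ x = ∑ u, ψ u := by
  have q : ∀ u, cls s (ω 0) m u = c1 c0 e ↔ jt s m ω u = jtab c0 ∧ bt m ω u = e := fun u =>
    ⟨fun hu => ⟨by rw [jt, hu]; rfl, congrArg (fun c : C16 => c.2.2.2) hu⟩,
      fun hu => cls_ext hu.1 hu.2⟩
  rw [← sum_filter_of_ne (p := fun u => cls s (ω 0) m u = c1 c0 e) fun u _ hu => (q u).2 (p2 u hu)]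
  symm
  refine sum_equiv (dd m ω f) (fun u => ?_) fun u hu => ?_
  · simp only [clF, mem_filter, mem_univ, true_and, cls_dd h]
    exact ⟨fun e => by rw [e], clD_inj' f⟩
  · have := (q u).1 (mem_filter.1 hu).2
    exact (p1 u this.1 this.2).symm

theorem childII {T b B : ℝ} (h : ω 0 ≠ s) (H : PII s ω m T b B) (c : ℕ)
    (η : ℕ → ZMod 2 → W (m + 1) → ℝ) (h0 : ∀ j e u, 0 ≤ η j e u) (h1 : ∀ j e, ∑ u, η j e u = 1)
    (h2 : ∀ j e u, η j e u ≠ 0 → (Reach (m + 1) ω u ∧ jt s m ω u = c) ∧ bt m ω u = e)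
    (h3 : ∀ j, η (j + 4) = η j) (h4 : ∀ j e u, η j (e + 1) (kk s m ω j u) = η j e u) :
    16 * √b ≤ ∑ j ∈ range 4, ∑ e, ∑ θ : Bool,
      √(ent univ 1 B (η (own j θ) e) + T * ch2 univ (η j e) (η (j + 1) e)) := by
  have m1 : ∀ j, ∑ u, η j (bt m ω u) u / 2 = 1 := by
    intro j
    have : ∀ u, η j (bt m ω u) u = ∑ e, η j e u := fun u =>
      (sum_eq_single (bt m ω u) (fun e _ he => by
        by_contra hne; exact he (h2 j e u hne).2.symm) fun hh => absurd (mem_univ _) hh).symm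
    rw [← sum_div, sum_congr rfl fun u _ => this u, sum_comm, sum_congr rfl fun e _ => h1 j e]
    simp
  obtain ⟨hc, β, hM, hβ⟩ := exists_beta h c (fun j u => η j (bt m ω u) u / 2)
    (fun j u => div_nonneg (h0 _ _ _) (by norm_num)) m1
    (fun j u hu => (h2 j (bt m ω u) u fun e => hu (by rw [e, zero_div])).1)
    (fun j => by rw [h3]) fun j u => by rw [bt_kk h, h4]
  obtain ⟨c0, rfl⟩ : ∃ c0 : C16, jtab c0 = c := by
    obtain ⟨u, _, hu⟩ := exists_ne_zero_of_sum_ne_zero (s := univ) (f := η 0 0)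
      (by rw [h1]; norm_num)
    exact ⟨_, (h2 0 0 u hu).1.2⟩
  have hβ' : ∀ f u e, jt s m ω u = jtab c0 → bt m ω u = e →
      16 * β (dd m ω (f + 1) u) = η (f / 2) e u := fun f u e hu he => by
    rw [hβ f u hu, he]; ring
  have z : ∀ j e u, η j e u ≠ 0 → jt s m ω u = jtab c0 ∧ bt m ω u = e := fun j e u hu =>
    ⟨(h2 j e u hu).1.2, (h2 j e u hu).2⟩
  have hmass : ∀ c', ∑ x ∈ clF s (ω 0) m c', β x = 1 / 16 := by
    intro c'
    obtain ⟨p, rfl⟩ := (cl_bij c0).2 c'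
    have := sum_cl h c0 (2 * p.1.val + (if p.2.2 then 2 else 1) + 1) p.2.1 (fun x => 16 * β x) _
      (fun u hu he => hβ' _ u _ hu he) (z _ _)
    rw [h1, ← mul_sum] at this
    linarith
  have key := H β hM hmass
  rw [← (cl_bij c0).sum_comp, Fintype.sum_prod_type] at key
  refine key.trans (le_of_eq ?_)
  rw [sum_range]
  refine sum_congr rfl fun j _ => ?_
  rw [Fintype.sum_prod_type]
  refine sum_congr rfl fun e _ => sum_congr rfl fun θ _ => ?_
  have a1 : ∀ u, aA (m + 1) (dd m ω (2 * j + 1 + 1) u) = dd m ω (2 * j + 2 + 1) u := fun u => by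
    rw [← Equiv.Perm.mul_apply, dd_even (by omega)]
  have a2 : ∀ u, aA (m + 1) (dd m ω (2 * j + 2 + 1) u) = dd m ω (2 * j + 1 + 1) u := fun u => by
    rw [← a1, aA_aA]
  have d1 : (2 * j.val + 1) / 2 = j := by omega
  have d2 : (2 * j.val + 2) / 2 = j + 1 := by omega
  have zE : ∀ i u, η i e u * sur B (1 * η i e u) ≠ 0 → jt s m ω u = jtab c0 ∧ bt m ω u = e :=
    fun i u hu => z i e u (left_ne_zero_of_mul hu)
  have zC : ∀ i i' u, (√(η i e u) - √(η i' e u)) ^ 2 ≠ 0 →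
      jt s m ω u = jtab c0 ∧ bt m ω u = e := fun i i' u hu => by
    by_cases e1 : η i e u = 0
    · refine z i' e u fun e2 => hu ?_
      rw [e1, e2]; simp
    · exact z i e u e1
  cases θ with
  | false =>
    simp only [own, Bool.false_eq_true, if_false]
    rw [ent, ch2, ent, ch2,
      sum_cl h c0 _ e _ _ (fun u hu he => by rw [hβ' _ u e hu he, d1]) (zE j),
      sum_cl h c0 _ e _ _
        (fun u hu he => by rw [a1, hβ' _ u e hu he, hβ' _ u e hu he, d1, d2]) (zC j (j + 1))]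
  | true =>
    simp only [own, if_true]
    rw [ch2_comm univ, ent, ch2, ent, ch2,
      sum_cl h c0 _ e _ _ (fun u hu he => by rw [hβ' _ u e hu he, d2]) (zE (j + 1)),
      sum_cl h c0 _ e _ _
        (fun u hu he => by rw [a2, hβ' _ u e hu he, hβ' _ u e hu he, d1, d2]) (zC (j + 1) j)]

end Pool.Agent.P.MP_0b0f5a_al.Fo
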