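import Pool.Agent.P.MP_0b0f5a_al.Fo.Dih

/-!
The class as a function of the coordinates, and the balance of the classes.
-/

namespace Pool.Agent.P.MP_0b0f5a_al.Fo

open Finset

private def Cl0 (e : ZMod 2) (c : ZMod 2 × ZMod 2 × ZMod 2) (i : ℕ) (θ : Bool)
    (p : ZMod 2 × ZMod 2) : C16 :=
  (xor θ (decide (i % 2 = 1)), e * ((i + 1) / 2 : ℕ) + p.1 + c.1,
    e * (i / 2 : ℕ) + p.2 + c.2.1, (i : ZMod 2) + c.2.2)

private lemma Cl_eq (e c i θ z) : Cl e c i θ z = Cl0 e c (i % 4) θ (hs z) := by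
  have h1 : (((i + 1) / 2 : ℕ) : ZMod 2) = ((i % 4 + 1) / 2 : ℕ) :=
    (ZMod.natCast_eq_natCast_iff' _ _ 2).2 (by omega)
  have h2 : ((i / 2 : ℕ) : ZMod 2) = (i % 4 / 2 : ℕ) :=
    (ZMod.natCast_eq_natCast_iff' _ _ 2).2 (by omega)
  have h3 : (i : ZMod 2) = (i % 4 : ℕ) := (ZMod.natCast_eq_natCast_iff' _ _ 2).2 (by omega)
  have h4 : i % 2 = i % 4 % 2 := by omega
  rw [Cl, Cl0, h1, h2, h4, ← h3]

private def stepT (e : ZMod 2) (d : C16) : C16 :=
  (d.1, d.2.1 + (if d.1 then e else 0), d.2.2.1 + (if d.1 then 0 else e), d.2.2.2 + 1)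

private lemma Cl0_step : ∀ r < 4, ∀ e c p,
    Cl0 e c ((r + 1) % 4) false p = stepT e (Cl0 e c r true p) ∧
      Cl0 e c r true p = stepT e (Cl0 e c ((r + 1) % 4) false p) := by
  intro r hr
  interval_cases r <;> decide

private lemma Cl_step (e c z) {i i' : ℕ} (h : i' % 4 = (i + 1) % 4) :
    Cl e c i' false z = stepT e (Cl e c i true z) ∧
      Cl e c i true z = stepT e (Cl e c i' false z) := by
  rw [Cl_eq, Cl_eq, h, show (i + 1) % 4 = (i % 4 + 1) % 4 by omega]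
  exact Cl0_step _ (Nat.mod_lt _ (by norm_num)) _ _ _

private lemma hs_togAt (q : ℕ) (z : List (ZMod 2)) (h : q < z.length) :
    hs (togAt q (· + 1) z) = hs z + if q % 2 = 0 then (0, 1) else (1, 0) := by
  induction z with
  | nil => simp at h
  | cons u z ih =>
    by_cases h1 : z.length = q
    · rw [togAt, if_pos h1, hs, hs, h1, add_assoc]
      split_ifs <;> simp
    · rw [List.length_cons] at h
      rw [togAt, if_neg h1, hs, hs, length_togAt, ih (by omega), add_right_comm]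

theorem class_formula {s o : Fin 3} {L m : ℕ} {ω : ℕ → Fin 3} {fl Yl cj} (h : ω 0 ≠ s) (ho : o ≠ s)
    (hc : Coord s L m ω fl Yl cj) :
    ∃ e c, ∀ x, Reach (m + 1 + L + 1) (pre s (L + 1) ω) x →
      cls o s (m + 1 + L) x = Cl e c (fl x).1 (fl x).2 ((Yl x).map (bt m ω)) := by
  obtain ⟨c, h0⟩ : ∃ c, cls o s (m + 1 + L) (base (m + 1 + L + 1)) =
      Cl (chi o (ev (ω 0))) c (fl (base _)).1 (fl (base _)).2 ((Yl (base _)).map (bt m ω)) := by
    have h1 := hc.sig (base _)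
    generalize base (m + 1 + L + 1) = x at h1 ⊢
    set d := cls o s (m + 1 + L) x with hd
    set d' := Cl (chi o (ev (ω 0))) 0 (fl x).1 (fl x).2 ((Yl x).map (bt m ω)) with hd'
    refine ⟨d.2 - d'.2, Prod.ext h1 ?_⟩
    simp only [hd', Cl, Prod.fst_zero, Prod.snd_zero, add_zero, Prod.fst_sub, Prod.snd_sub,
      add_sub_cancel]
  refine ⟨chi o (ev (ω 0)), c, fun x hx => ?_⟩
  refine Reach.ind (P := fun x => cls o s (m + 1 + L) x =
    Cl (chi o (ev (ω 0))) c (fl x).1 (fl x).2 ((Yl x).map (bt m ω))) h.symm h0 ?_ ?_ ?_ hx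
  · intro x ih
    rw [cls_aA, ih, hc.fl_a, hc.Yl_a]
    simp only [clA, Cl, Bool.not_xor]
  · intro x ih
    have hN : 0 < 2 ^ (L + 1) := by positivity
    have h1 := hc.Yl_s x (own (fl x).1 (fl x).2 % (4 * 2 ^ (L + 1)) % 2 ^ (L + 1))
      (Nat.mod_lt _ hN) (own (fl x).1 (fl x).2 % (4 * 2 ^ (L + 1)) / 2 ^ (L + 1))
      (by rw [Nat.mod_add_div', Nat.mod_mod])
    have h2 : own (fl x).1 (fl x).2 % (4 * 2 ^ (L + 1)) % 2 ^ (L + 1) % 2 =
        own (fl x).1 (fl x).2 % 2 := by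
      rw [Nat.mod_mod_of_dvd _ (dvd_pow_self 2 (by omega)),
        Nat.mod_mod_of_dvd _ (Dvd.dvd.mul_right (by norm_num) _)]
    rw [cls_aS, ih, hc.fl_s, h1, map_togAt _ (g := (· + 1)) (bt_kk h _)]
    unfold Cl
    rw [hs_togAt _ _ (by rw [List.length_map, hc.len]; exact Nat.mod_lt _ hN), h2]
    generalize (fl x).1 = i
    generalize (fl x).2 = θ
    have h3 : chi o (ev s) = 1 := by rw [chi_ev, if_neg ho.symm]
    have h4 : chi s (ev s) = 0 := by rw [chi_ev, if_pos rfl]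
    rcases Nat.mod_two_eq_zero_or_one i with h5 | h5 <;> cases θ <;>
      simp [clS, own, h3, h4, h5, Nat.add_mod] <;> ring
  · intro x ih
    obtain ⟨h1, h2⟩ := hc.fl_t x
    have h3 : clS o s (ω 0) = stepT (chi o (ev (ω 0))) := by
      funext d
      rw [clS, stepT, chi_ev s, if_neg h]
    have h4 := congrArg (· % 4) h2
    simp only [Nat.mod_mod_of_dvd _ (dvd_mul_right 4 _)] at h4
    rw [cls_aS, ih, hc.Yl_t, h3, h1]
    rw [h1] at h4
    generalize (fl (aS (ω 0) _ (pre s (L + 1) ω) x)).1 = i' at h4 ⊢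
    generalize (fl x).1 = i at h4 ⊢
    generalize (fl x).2 = θ at h4 ⊢
    cases θ
    · exact (Cl_step _ _ _ (by simpa [own] using h4.symm)).2.symm
    · exact (Cl_step _ _ _ (by simpa [own] using h4)).1.symm

private lemma sum_parity (a b : ZMod 2) (r : ℝ) (n : ℕ) :
    ∑ i ∈ range (2 * n), (if (i : ZMod 2) + a = b then r else 0) = n * r := by
  induction n with
  | zero => simp
  | succ n ih =>
    have h1 : ((2 * n : ℕ) : ZMod 2) = 0 :=
      (ZMod.natCast_eq_natCast_iff' _ 0 2).2 (by omega)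
    have h2 : ((2 * n + 1 : ℕ) : ZMod 2) = 1 :=
      (ZMod.natCast_eq_natCast_iff' _ 1 2).2 (by omega)
    have h3 : (0 + a = b ∧ ¬ 1 + a = b) ∨ (¬ 0 + a = b ∧ 1 + a = b) := by
      clear ih; revert a b; decide
    rw [mul_add, mul_one, sum_range_succ, sum_range_succ, ih, h1, h2]
    rcases h3 with ⟨h3, h4⟩ | ⟨h3, h4⟩
    · rw [if_pos h3, if_neg h4]; push_cast; ring
    · rw [if_neg h3, if_pos h4]; push_cast; ring

private lemma fibre_shift {N q : ℕ} (hq : q < N) {v : List (ZMod 2) → ℝ}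
    (hv : ∀ s ∈ Wd (ZMod 2) N, v (togAt q (· + 1) s) = v s) (p : ZMod 2 × ZMod 2) :
    ∑ s ∈ Wd (ZMod 2) N, (if hs s = p + (if q % 2 = 0 then (0, 1) else (1, 0)) then v s else 0) =
      ∑ s ∈ Wd (ZMod 2) N, if hs s = p then v s else 0 := by
  rw [← sum_togAt N q (Equiv.addRight 1)]
  refine sum_congr rfl fun s hs' => ?_
  have h1 : ((Equiv.addRight (1 : ZMod 2) : Equiv.Perm (ZMod 2)) : ZMod 2 → ZMod 2) = (· + 1) := rfl
  rw [h1, hv s hs', hs_togAt q s (by rw [mem_Wd.1 hs']; exact hq)]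
  simp only [add_left_inj]

theorem balance (e : ZMod 2) (c : ZMod 2 × ZMod 2 × ZMod 2) {N : ℕ} (hN : 2 ≤ N) :
    ∀ q < N, ∃ q' < N, ∀ v : List (ZMod 2) → ℝ,
      (∀ s ∈ Wd (ZMod 2) N, v (togAt q (· + 1) s) = v s) →
      (∀ s ∈ Wd (ZMod 2) N, v (togAt q' (· + 1) s) = v s) →
        ∀ c', ∑ x ∈ Ix N (Cl e c) c', v x.2 = N / 2 * ∑ s ∈ Wd (ZMod 2) N, v s := by
  intro q hq
  obtain ⟨q', hq', hpar⟩ : ∃ q' < N, q' % 2 = (q + 1) % 2 := by
    by_cases h : q + 1 < N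
    · exact ⟨q + 1, h, rfl⟩
    · exact ⟨q - 1, by omega, by omega⟩
  refine ⟨q', hq', fun v h1 h2 c' => ?_⟩
  set F : ZMod 2 × ZMod 2 → ℝ := fun p => ∑ s ∈ Wd (ZMod 2) N, if hs s = p then v s else 0 with hF
  have hF1 : (∀ p, F (p + (0, 1)) = F p) ∧ ∀ p, F (p + (1, 0)) = F p := by
    have h3 := fibre_shift hq h1
    have h4 := fibre_shift hq' h2
    rcases Nat.mod_two_eq_zero_or_one q with h5 | h5
    · rw [if_pos h5] at h3
      rw [if_neg (by omega)] at h4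
      exact ⟨h3, h4⟩
    · rw [if_neg (by omega)] at h3
      rw [if_pos (by omega)] at h4
      exact ⟨h4, h3⟩
  have hF2 : ∀ p, F p = F 0 := by
    intro p
    have h3 : p = 0 ∨ p = 0 + (0, 1) ∨ p = 0 + (1, 0) ∨ p = 0 + (0, 1) + (1, 0) := by
      revert p; decide
    rcases h3 with h3 | h3 | h3 | h3 <;> simp only [h3, hF1.1, hF1.2]
  have hF3 : ∑ s ∈ Wd (ZMod 2) N, v s = 4 * F 0 := by
    have h3 : ∑ p, F p = ∑ s ∈ Wd (ZMod 2) N, v s := by
      rw [hF, sum_comm]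
      exact sum_congr rfl fun s _ => by simp
    rw [← h3, sum_congr rfl fun p _ => hF2 p]
    simp
  have key : ∀ i : ℕ, ∑ θ : Bool, ∑ s ∈ Wd (ZMod 2) N, (if Cl e c i θ s = c' then v s else 0) =
      if (i : ZMod 2) + c.2.2 = c'.2.2.2 then F 0 else 0 := by
    intro i
    have h3 : ∀ θ : Bool, ∑ s ∈ Wd (ZMod 2) N, (if Cl e c i θ s = c' then v s else 0) =
        if xor θ (decide (i % 2 = 1)) = c'.1 ∧ (i : ZMod 2) + c.2.2 = c'.2.2.2 then F 0 else 0 := by
      intro θ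
      split_ifs with h4
      · rw [← hF2 (c'.2.1 - c.1 - e * ((i + 1) / 2 : ℕ), c'.2.2.1 - c.2.1 - e * (i / 2 : ℕ))]
        refine sum_congr rfl fun s _ => if_congr ?_ rfl rfl
        simp only [Cl, Prod.ext_iff, h4.1, h4.2, true_and, and_true]
        exact and_congr ⟨fun h => by rw [← h]; ring, fun h => by rw [h]; ring⟩
          ⟨fun h => by rw [← h]; ring, fun h => by rw [h]; ring⟩
      · refine sum_eq_zero fun s _ => if_neg ?_
        rintro rfl
        exact h4 ⟨rfl, rfl⟩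
    simp only [h3, Fintype.sum_bool]
    generalize decide (i % 2 = 1) = d
    generalize c'.1 = d'
    cases d <;> cases d' <;> simp
  rw [Ix, sum_filter, sum_product, sum_product]
  simp only [key]
  rw [show 4 * N = 2 * (2 * N) by ring, sum_parity, hF3]
  push_cast
  ring

end Pool.Agent.P.MP_0b0f5a_al.Fo
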