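import Pool.Agent.P.MP_0b0f5a_al.Fo.Dih

/-!
Existence of the coordinates attached to a run.
-/

namespace Pool.Agent.P.MP_0b0f5a_al.Fo

open Finset

/-- The position of the half that is selected by the flag `Q`. -/
def letter (Q : ℕ) : Bool := decide (Q % 2 = Q / 2 % 2)

/-- The dihedral coordinate. -/
def Jf (s : Fin 3) (m : ℕ) (ω : ℕ → Fin 3) : (L : ℕ) → W (m + 1 + L) → ℕ
  | 0, x => jt s m ω x
  | L + 1, x => 2 * Jf s m ω L x.2.1 +
      if x.2.2 then 1 - Jf s m ω L x.2.1 % 2 else Jf s m ω L x.2.1 % 2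

/-- The normalised section that is selected by the flag `Q`. -/
def Yq (m : ℕ) (ω : ℕ → Fin 3) : (L : ℕ) → ℕ → W (m + 1 + L) → W (m + 1)
  | 0, Q, x => (dd m ω Q)⁻¹ x
  | L + 1, Q, x => Yq m ω L (Q / 2) (if letter Q = x.2.2 then x.1 else x.2.1)

/-- The list `f (n - 1), …, f 0`. -/
def lst {X : Type} (f : ℕ → X) : ℕ → List X
  | 0 => []
  | n + 1 => f n :: lst f n

lemma length_lst {X : Type} (f : ℕ → X) (n : ℕ) : (lst f n).length = n := by
  induction n with
  | zero => rfl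
  | succ n ih => simp [lst, ih]

lemma lst_tog {X : Type} {f g : ℕ → X} {k : X → X} {q n : ℕ}
    (h : ∀ p < n, g p = if p = q then k (f p) else f p) : lst g n = togAt q k (lst f n) := by
  induction n with
  | zero => rfl
  | succ n ih =>
    rw [lst, lst, togAt, length_lst, h n (by omega), ih fun p hp => h p (by omega)]
    split_ifs with h1
    · rw [togAt_of_le k (by rw [length_lst]; omega)]
    · rfl

lemma lst_congr {X : Type} {f g : ℕ → X} {n : ℕ} (h : ∀ p < n, g p = f p) :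
    lst g n = lst f n := by
  induction n with
  | zero => rfl
  | succ n ih => rw [lst, lst, h n (by omega), ih fun p hp => h p (by omega)]

lemma admL_lst {X : Type} {Adm : ℕ → X → Prop} {f : ℕ → X} {n : ℕ} (h : ∀ q < n, Adm q (f q)) :
    AdmL Adm (lst f n) := by
  induction n with
  | zero => trivial
  | succ n ih => exact ⟨(length_lst f n).symm ▸ h n (by omega), ih fun q hq => h q (by omega)⟩

lemma AdmL.tog {X : Type} {Adm : ℕ → X → Prop} {k : X → X} (h : ∀ q u, Adm q u → Adm q (k u))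
    (q : ℕ) {y : List X} (hy : AdmL Adm y) : AdmL Adm (togAt q k y) := by
  induction y with
  | nil => trivial
  | cons u z ih =>
    rw [togAt]
    split_ifs
    · exact ⟨h _ _ hy.1, hy.2⟩
    · exact ⟨(length_togAt q k z).symm ▸ hy.1, ih hy.2⟩

variable {s : Fin 3} {m : ℕ} {ω : ℕ → Fin 3}

lemma Jf_false (L) (x y : W (m + 1 + L)) :
    Jf s m ω (L + 1) (x, y, false) = 2 * Jf s m ω L y + Jf s m ω L y % 2 := rfl

lemma Jf_true (L) (x y : W (m + 1 + L)) :
    Jf s m ω (L + 1) (x, y, true) = 2 * Jf s m ω L y + (1 - Jf s m ω L y % 2) := rfl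

lemma Yq_succ (L Q) (x y : W (m + 1 + L)) (σ : Bool) :
    Yq m ω (L + 1) Q (x, y, σ) = Yq m ω L (Q / 2) (if letter Q = σ then x else y) := rfl

lemma t_false (h : ω 0 ≠ s) (L) (x y : W (m + 1 + L)) :
    aS (ω 0) (m + 1 + (L + 1)) (pre s (L + 1) ω) (x, y, false) =
      ((aA _ x, aS (ω 0) _ (pre s L ω) y, false) : W (m + 1 + L + 1)) :=
  (aS_false _ _ _ x y).trans (by rw [pre_zero, if_neg h.symm]; rfl)

lemma t_true (h : ω 0 ≠ s) (L) (x y : W (m + 1 + L)) :
    aS (ω 0) (m + 1 + (L + 1)) (pre s (L + 1) ω) (x, y, true) =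
      ((aS (ω 0) _ (pre s L ω) x, aA _ y, true) : W (m + 1 + L + 1)) :=
  (aS_true _ _ _ x y).trans (by rw [pre_zero, if_neg h.symm]; rfl)

lemma s_false (L) (x y : W (m + 1 + L)) :
    aS s (m + 1 + (L + 1)) (pre s (L + 1) ω) (x, y, false) =
      ((x, aS s _ (pre s L ω) y, false) : W (m + 1 + L + 1)) :=
  (aS_false _ _ _ x y).trans (by rw [pre_zero, if_pos rfl]; rfl)

lemma s_true (L) (x y : W (m + 1 + L)) :
    aS s (m + 1 + (L + 1)) (pre s (L + 1) ω) (x, y, true) =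
      ((aS s _ (pre s L ω) x, y, true) : W (m + 1 + L + 1)) :=
  (aS_true _ _ _ x y).trans (by rw [pre_zero, if_pos rfl]; rfl)

lemma a_succ (L) (x y : W (m + 1 + L)) (σ : Bool) :
    aA (m + 1 + (L + 1)) (x, y, σ) = ((x, y, !σ) : W (m + 1 + L + 1)) := rfl

lemma Jf_lt (L) (x : W (m + 1 + L)) : Jf s m ω L x < 8 * 2 ^ L := by
  induction L with
  | zero => exact jt_lt x
  | succ L ih =>
    obtain ⟨x, y, _ | _⟩ := x
    · rw [Jf_false, pow_succ]; have := ih y; omega
    · rw [Jf_true, pow_succ]; have := ih y; omega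

lemma Jf_a (L) (x : W (m + 1 + L)) :
    Jf s m ω L x % 2 = 0 ∧ Jf s m ω L (aA _ x) = Jf s m ω L x + 1 ∨
      Jf s m ω L x % 2 = 1 ∧ Jf s m ω L (aA _ x) + 1 = Jf s m ω L x := by
  cases L with
  | zero =>
    have := jt_aA (s := s) (ω := ω) x
    change _ ∧ jt s m ω (aA (m + 1) x) = jt s m ω x + 1 ∨ _ ∧ jt s m ω (aA (m + 1) x) + 1 = jt s m ω x
    change jt s m ω x % 2 = 0 ∧ _ ∨ jt s m ω x % 2 = 1 ∧ _
    split_ifs at this <;> omega
  | succ L =>
    obtain ⟨x, y, _ | _⟩ := x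
    · rw [a_succ, Bool.not_false, Jf_false, Jf_true]; omega
    · rw [a_succ, Bool.not_true, Jf_false, Jf_true]; omega

/-- The flags `j` (odd) and `j'` are neighbours on the cycle of length `M`. -/
def Nx (M j j' : ℕ) : Prop := j % 2 = 1 ∧ (j' = j + 1 ∨ j + 1 = M ∧ j' = 0)

lemma Jf_t (h : ω 0 ≠ s) (L) (x : W (m + 1 + L)) :
    Nx (8 * 2 ^ L) (Jf s m ω L x) (Jf s m ω L (aS (ω 0) _ (pre s L ω) x)) ∨
      Nx (8 * 2 ^ L) (Jf s m ω L (aS (ω 0) _ (pre s L ω) x)) (Jf s m ω L x) := by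
  induction L with
  | zero =>
    have h1 := jt_T (m := m) h x
    have h2 := jt_lt (s := s) (ω := ω) x
    change Nx 8 (jt s m ω x) (jt s m ω (aS (ω 0) (m + 1) ω x)) ∨
      Nx 8 (jt s m ω (aS (ω 0) (m + 1) ω x)) (jt s m ω x)
    unfold Nx
    split_ifs at h1 <;> omega
  | succ L ih =>
    obtain ⟨x, y, _ | _⟩ := x
    · rw [t_false h, Jf_false, Jf_false, pow_succ]
      have := ih y
      unfold Nx at this ⊢
      omega
    · rw [t_true h, Jf_true, Jf_true]
      have := Jf_a (s := s) (ω := ω) L y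
      unfold Nx
      omega

lemma Jf_s (h : ω 0 ≠ s) (L) (x : W (m + 1 + L)) :
    Jf s m ω L (aS s _ (pre s L ω) x) = Jf s m ω L x := by
  induction L with
  | zero => exact jt_K h x
  | succ L ih =>
    obtain ⟨x, y, _ | _⟩ := x
    · rw [s_false, Jf_false, Jf_false, ih]
    · rw [s_true, Jf_true, Jf_true]

lemma Yq_per (L Q) (x : W (m + 1 + L)) : Yq m ω L (Q + 8 * 2 ^ L) x = Yq m ω L Q x := by
  induction L generalizing Q with
  | zero => exact congrArg (fun g : Equiv.Perm (W (m + 1)) => g⁻¹ x) (dd_add_eight Q)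
  | succ L ih =>
    obtain ⟨x, y, σ⟩ := x
    have h1 : letter (Q + 8 * 2 ^ (L + 1)) = letter Q := by
      unfold letter
      rw [pow_succ, show (Q + 8 * (2 ^ L * 2)) % 2 = Q % 2 by omega,
        show (Q + 8 * (2 ^ L * 2)) / 2 % 2 = Q / 2 % 2 by omega]
    rw [Yq_succ, Yq_succ, h1, show (Q + 8 * 2 ^ (L + 1)) / 2 = Q / 2 + 8 * 2 ^ L by
      rw [pow_succ]; omega, ih]

lemma Yq_a (L) {Q : ℕ} (hQ : Q % 2 = 0) (x : W (m + 1 + L)) :
    Yq m ω L (Q + 1) (aA _ x) = Yq m ω L Q x := by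
  cases L with
  | zero =>
    change (dd m ω (Q + 1))⁻¹ (aA (m + 1) x) = (dd m ω Q)⁻¹ x
    rw [← dd_even hQ, mul_inv_rev, aA_inv, Equiv.Perm.mul_apply, aA_aA]
  | succ L =>
    obtain ⟨x, y, σ⟩ := x
    have h1 : letter (Q + 1) = !letter Q := by
      unfold letter; rw [← decide_not]; congr 1; apply propext; omega
    rw [a_succ, Yq_succ, Yq_succ, h1, show (Q + 1) / 2 = Q / 2 by omega]
    simp only [Bool.not_inj_iff]

lemma Yq_t (h : ω 0 ≠ s) (L) {Q : ℕ} (hQ : Q % 2 = 1) (x : W (m + 1 + L)) :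
    Yq m ω L (Q + 1) (aS (ω 0) _ (pre s L ω) x) = Yq m ω L Q x := by
  induction L generalizing Q with
  | zero =>
    change (dd m ω (Q + 1))⁻¹ (aS (ω 0) (m + 1) ω x) = (dd m ω Q)⁻¹ x
    rw [← dd_odd hQ, mul_inv_rev, aS_inv, Equiv.Perm.mul_apply, aS_aS]
  | succ L ih =>
    have h2 : (Q + 1) / 2 = Q / 2 + 1 := by omega
    rcases Nat.mod_two_eq_zero_or_one (Q / 2) with e | e
    · have l1 : letter Q = false := by unfold letter; rw [decide_eq_false_iff_not]; omega
      have l2 : letter (Q + 1) = false := by unfold letter; rw [decide_eq_false_iff_not]; omega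
      obtain ⟨x, y, _ | _⟩ := x
      · rw [t_false h, Yq_succ, Yq_succ, l1, l2, h2]; exact Yq_a L e x
      · rw [t_true h, Yq_succ, Yq_succ, l1, l2, h2]; exact Yq_a L e y
    · have l1 : letter Q = true := by unfold letter; rw [decide_eq_true_iff]; omega
      have l2 : letter (Q + 1) = true := by unfold letter; rw [decide_eq_true_iff]; omega
      obtain ⟨x, y, _ | _⟩ := x
      · rw [t_false h, Yq_succ, Yq_succ, l1, l2, h2]; exact ih e y
      · rw [t_true h, Yq_succ, Yq_succ, l1, l2, h2]; exact ih e x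

lemma Yq_s (L) {Q i : ℕ} (hQ : Q = 2 * i ∨ Q + 1 = 2 * i) (x : W (m + 1 + L)) :
    (∀ j, i = (j + 1) * 2 ^ L →
      Yq m ω L Q (aS s _ (pre s L ω) x) = kk s m ω j (Yq m ω L Q x)) ∧
    (¬ 2 ^ L ∣ i → Yq m ω L Q (aS s _ (pre s L ω) x) = Yq m ω L Q x) := by
  induction L generalizing Q i with
  | zero =>
    refine ⟨fun j hj => ?_, fun h => absurd (by simp) h⟩
    change (dd m ω Q)⁻¹ (aS s (m + 1) ω x) = kk s m ω j ((dd m ω Q)⁻¹ x)
    rw [Equiv.Perm.inv_eq_iff_eq]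
    rcases hQ with e | e
    · rw [show Q = 2 * j + 2 by omega, dd_kk, dd_inv_self]
    · rw [show Q = 2 * j + 1 by omega, dd_kk', dd_inv_self]
  | succ L ih =>
    rcases Nat.even_or_odd' i with ⟨i', rfl | rfl⟩
    · have l1 : letter Q = true := by unfold letter; rw [decide_eq_true_iff]; omega
      have h1 : Q / 2 = 2 * i' ∨ Q / 2 + 1 = 2 * i' := by omega
      have h2 : ∀ j, 2 * i' = (j + 1) * 2 ^ (L + 1) → i' = (j + 1) * 2 ^ L := by
        intro j hj; rw [pow_succ, ← mul_assoc] at hj; omega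
      have h3 : ¬ 2 ^ (L + 1) ∣ 2 * i' → ¬ 2 ^ L ∣ i' := fun h h' =>
        h (by rw [pow_succ']; exact Nat.mul_dvd_mul_left 2 h')
      obtain ⟨x, y, _ | _⟩ := x
      · rw [s_false, Yq_succ, Yq_succ, l1]
        exact ⟨fun j hj => (ih h1 y).1 j (h2 j hj), fun h => (ih h1 y).2 (h3 h)⟩
      · rw [s_true, Yq_succ, Yq_succ, l1]
        exact ⟨fun j hj => (ih h1 x).1 j (h2 j hj), fun h => (ih h1 x).2 (h3 h)⟩
    · have l1 : letter Q = false := by unfold letter; rw [decide_eq_false_iff_not]; omega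
      refine ⟨fun j hj => ?_, fun _ => ?_⟩
      · rw [pow_succ, ← mul_assoc] at hj; omega
      · obtain ⟨x, y, _ | _⟩ := x
        · rw [s_false, Yq_succ, Yq_succ, l1]; rfl
        · rw [s_true, Yq_succ, Yq_succ, l1]; rfl

lemma Yq_base (L Q) : Reach (m + 1) ω (Yq m ω L Q (base _)) := by
  induction L generalizing Q with
  | zero => exact Reach.base.dd_inv Q
  | succ L ih =>
    change Reach _ _ (Yq m ω L (Q / 2) (if letter Q = false then base _ else base _))
    rw [ite_self]; exact ih _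

lemma kk_mod (j : ℕ) : kk s m ω (j % 4) = kk s m ω j := by
  have : ∀ a b, kk s m ω (a + 4 * b) = kk s m ω a := by
    intro a b
    induction b with
    | zero => rfl
    | succ b ih => rw [mul_add, ← add_assoc, kk_add_four, ih]
  conv_rhs => rw [← Nat.mod_add_div j 4, this]

/-- The list of the normalised sections. -/
def Ylst (s : Fin 3) (m : ℕ) (ω : ℕ → Fin 3) (L : ℕ) (x : W (m + 1 + L)) : List (W (m + 1)) :=
  lst (fun q => Yq m ω L (Jf s m ω L x + 2 * (2 ^ L - q)) x) (2 ^ L)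

lemma Ylst_a (L) (x : W (m + 1 + L)) : Ylst s m ω L (aA _ x) = Ylst s m ω L x := by
  refine lst_congr fun p _ => ?_
  rcases Jf_a (s := s) (ω := ω) L x with ⟨h1, h2⟩ | ⟨h1, h2⟩
  · rw [h2, add_right_comm, Yq_a L (by omega)]
  · rw [← Yq_a L (by omega) (aA _ x), aA_aA]
    congr 1; omega

lemma Ylst_t (h : ω 0 ≠ s) (L) (x : W (m + 1 + L)) :
    Ylst s m ω L (aS (ω 0) _ (pre s L ω) x) = Ylst s m ω L x := by
  have key : ∀ x : W (m + 1 + L),
      Nx (8 * 2 ^ L) (Jf s m ω L x) (Jf s m ω L (aS (ω 0) _ (pre s L ω) x)) →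
        Ylst s m ω L (aS (ω 0) _ (pre s L ω) x) = Ylst s m ω L x := by
    intro x ⟨h1, h2⟩
    refine lst_congr fun p _ => ?_
    rcases h2 with h2 | ⟨h2, h3⟩
    · rw [h2, add_right_comm, Yq_t h L (by omega)]
    · rw [h3, ← Yq_per, ← h2, ← Yq_t h L (by omega) x]
      congr 1; omega
  rcases Jf_t h L x with h1 | h1
  · exact key x h1
  · have := key (aS (ω 0) _ (pre s L ω) x) (by rwa [aS_aS])
    rw [aS_aS] at this
    exact this.symm

lemma Ylst_s (h : ω 0 ≠ s) (L) (x : W (m + 1 + L)) {q : ℕ} (hq : q < 2 ^ L) {j : ℕ}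
    (hj : (Jf s m ω L x + 1) / 2 % (4 * 2 ^ L) = (q + j * 2 ^ L) % (4 * 2 ^ L)) :
    Ylst s m ω L (aS s _ (pre s L ω) x) = togAt q (kk s m ω j) (Ylst s m ω L x) := by
  unfold Ylst
  rw [Jf_s h]
  generalize Jf s m ω L x = J at hj ⊢
  set N := 2 ^ L with hN
  set v := (J + 1) / 2 with hv
  have h1 : v % N = q := by
    have := congrArg (· % N) hj
    simp only [Nat.mod_mul_left_mod] at this
    rw [this, Nat.add_mul_mod_self_right, Nat.mod_eq_of_lt hq]
  have h2 : v = q + v / N * N := by rw [← h1, Nat.mod_add_div']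
  have h3 : v / N % 4 = j % 4 := by
    have e : q + v / N * N ≡ q + j * N [MOD 4 * N] := by rw [← h2]; exact hj
    exact Nat.ModEq.mul_right_cancel' (by omega) (Nat.ModEq.add_left_cancel' q e)
  refine lst_tog fun p hp => ?_
  have h4 := Yq_s (s := s) (ω := ω) L (Q := J + 2 * (N - p)) (i := v + (N - p)) (by omega) x
  split_ifs with h5
  · rw [← kk_mod j, ← h3, kk_mod]
    exact h4.1 _ (by rw [add_mul, ← hN]; omega)
  · refine h4.2 fun ⟨c, hc⟩ => h5 ?_
    have e : v + N = p + N * c := by rw [← hN] at hc; omega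
    have := congrArg (· % N) e
    simp only [Nat.add_mod_right, Nat.add_mul_mod_self_left, Nat.mod_eq_of_lt hp] at this
    omega

lemma own_half (J : ℕ) : own (J / 2) (decide (J % 2 = 1)) = (J + 1) / 2 := by
  unfold own
  by_cases h : J % 2 = 1
  · rw [if_pos (by simpa using h)]; omega
  · rw [if_neg (by simpa using h)]; omega

theorem coord_exists (s : Fin 3) (L m : ℕ) {ω : ℕ → Fin 3} (h : ω 0 ≠ s) :
    ∃ fl Yl cj, Coord s L m ω fl Yl cj := by
  refine ⟨fun x => (Jf s m ω (L + 1) x / 2, decide (Jf s m ω (L + 1) x % 2 = 1)),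
    Ylst s m ω (L + 1), fun q => jt s m ω (Yq m ω (L + 1)
      (Jf s m ω (L + 1) (base _) + 2 * (2 ^ (L + 1) - q)) (base _)),
    fun x => ?_, fun x => length_lst _ _, fun x => ?_, Ylst_a (L + 1), fun x => ?_,
    Ylst_t h (L + 1), fun x => ?_, fun x q hq j hj => ?_, fun x => ?_, fun x hx => ?_⟩
  · have := Jf_lt (s := s) (ω := ω) (L + 1) x
    dsimp only; omega
  · have := Jf_a (s := s) (ω := ω) (L + 1) x
    change (Jf s m ω (L + 1) (aA (m + 1 + (L + 1)) x) / 2,
      decide (Jf s m ω (L + 1) (aA (m + 1 + (L + 1)) x) % 2 = 1)) = _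
    rw [← decide_not]
    refine Prod.ext (by dsimp only; omega) ?_
    dsimp only; congr 1; apply propext; omega
  · have h1 := Jf_t h (L + 1) x
    dsimp only
    rw [own_half, own_half, ← decide_not]
    change decide (Jf s m ω (L + 1) (aS (ω 0) (m + 1 + (L + 1)) _ x) % 2 = 1) = _ ∧
      (Jf s m ω (L + 1) (aS (ω 0) (m + 1 + (L + 1)) _ x) + 1) / 2 % _ = _
    generalize Jf s m ω (L + 1) (aS (ω 0) (m + 1 + (L + 1)) (pre s (L + 1) ω) x) = j' at h1 ⊢
    generalize Jf s m ω (L + 1) x = j at h1 ⊢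
    unfold Nx at h1
    refine ⟨by congr 1; apply propext; omega, ?_⟩
    rcases h1 with ⟨h1, h2 | ⟨h2, h3⟩⟩ | ⟨h1, h2 | ⟨h2, h3⟩⟩
    · congr 1; omega
    · rw [h3, h2, show 8 * 2 ^ (L + 1) / 2 = 4 * 2 ^ (L + 1) by omega]; simp
    · congr 1; omega
    · rw [h3, h2, show 8 * 2 ^ (L + 1) / 2 = 4 * 2 ^ (L + 1) by omega]; simp
  · exact congrArg (fun j => (j / 2, decide (j % 2 = 1))) (Jf_s h (L + 1) x)
  · dsimp only at hj
    rw [own_half] at hj
    exact Ylst_s h (L + 1) x hq hj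
  · obtain ⟨x, y, _ | _⟩ := x
    · dsimp only
      rw [Jf_false, show (2 * Jf s m ω L y + Jf s m ω L y % 2) / 2 = Jf s m ω L y by omega,
        show (2 * Jf s m ω L y + Jf s m ω L y % 2) % 2 = Jf s m ω L y % 2 by omega]
      simp
    · dsimp only
      rw [Jf_true, show (2 * Jf s m ω L y + (1 - Jf s m ω L y % 2)) / 2 = Jf s m ω L y by omega,
        show (2 * Jf s m ω L y + (1 - Jf s m ω L y % 2)) % 2 = 1 - Jf s m ω L y % 2 by omega]
      rcases Nat.mod_two_eq_zero_or_one (Jf s m ω L y) with e | e <;> simp [e]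
  · refine Reach.ind h.symm (P := fun x => AdmL _ (Ylst s m ω (L + 1) x)) ?_ ?_ ?_ ?_ hx
    · exact admL_lst fun q _ => ⟨Yq_base _ _, rfl⟩
    · intro x hx; exact (Ylst_a (L + 1) x).symm ▸ hx
    · intro x hx
      have := Ylst_s h (L + 1) x (q := (Jf s m ω (L + 1) x + 1) / 2 % 2 ^ (L + 1))
        (Nat.mod_lt _ (by positivity)) (j := (Jf s m ω (L + 1) x + 1) / 2 / 2 ^ (L + 1))
        (by rw [Nat.mod_add_div'])
      exact this.symm ▸ hx.tog (fun q u hu => ⟨hu.1.kk s _, (jt_kk h _ u).trans hu.2⟩) _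
    · intro x hx; exact (Ylst_t h (L + 1) x).symm ▸ hx

end Pool.Agent.P.MP_0b0f5a_al.Fo
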