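import Pool.Agent.P.MP_0b0f5a_al.Fo.Model

/-!
The dihedral group of order eight at the end of a run.
-/

namespace Pool.Agent.P.MP_0b0f5a_al.Fo

open Finset

variable {s : Fin 3} {m : ℕ} {ω : ℕ → Fin 3}

lemma dd_zero : dd m ω 0 = 1 := by simp [dd]

lemma dd_inv_self (f : ℕ) (x : W (m + 1)) : dd m ω f ((dd m ω f)⁻¹ x) = x := by simp

lemma inv_dd_self (f : ℕ) (x : W (m + 1)) : (dd m ω f)⁻¹ (dd m ω f x) = x := by simp

lemma dd_even {f : ℕ} (h : f % 2 = 0) : aA (m + 1) * dd m ω f = dd m ω (f + 1) := by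
  rw [dd, dd, if_pos h, if_neg (by omega), one_mul, show (f + 1) / 2 = f / 2 by omega]

lemma dd_odd {f : ℕ} (h : f % 2 = 1) : aS (ω 0) (m + 1) ω * dd m ω f = dd m ω (f + 1) := by
  rw [dd, dd, if_neg (by omega), if_pos (by omega), one_mul, ← mul_assoc, ← pow_succ',
    show (f + 1) / 2 = f / 2 + 1 by omega]

lemma dd_even' {f : ℕ} (h : f % 2 = 0) : aA (m + 1) * dd m ω (f + 1) = dd m ω f := by
  rw [← dd_even h, ← mul_assoc, aA_sq, one_mul]

lemma dd_odd' {f : ℕ} (h : f % 2 = 1) : aS (ω 0) (m + 1) ω * dd m ω (f + 1) = dd m ω f := by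
  rw [← dd_odd h, ← mul_assoc, aS_sq, one_mul]

lemma ta_four : (aS (ω 0) (m + 1) ω * aA (m + 1)) ^ 4 = 1 := by
  have h : ∀ x y σ, (aS (ω 0) (m + 1) ω * aA (m + 1)) ((aS (ω 0) (m + 1) ω * aA (m + 1)) (x, y, σ)) =
      ((aS (ω 0) m (sh ω) x, aS (ω 0) m (sh ω) y, σ) : W (m + 1)) := by
    intro x y σ
    cases σ <;> simp [aA_succ, aS_true, aS_false]
  ext1 ⟨x, y, σ⟩
  simp only [pow_succ, pow_zero, one_mul, Equiv.Perm.mul_apply, Equiv.Perm.one_apply] at h ⊢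
  rw [h, h, aS_aS, aS_aS]

lemma dd_add_eight (f : ℕ) : dd m ω (f + 8) = dd m ω f := by
  rw [dd, dd, show (f + 8) / 2 = f / 2 + 4 by omega, pow_add, ta_four, mul_one,
    show (f + 8) % 2 = f % 2 by omega]

lemma dd_add_mul (f j : ℕ) : dd m ω (f + 8 * j) = dd m ω f := by
  induction j with
  | zero => rfl
  | succ j ih => rw [mul_add, ← add_assoc, dd_add_eight, ih]

lemma dd_mod (f : ℕ) : dd m ω (f % 8) = dd m ω f := by
  conv_rhs => rw [← Nat.mod_add_div f 8, dd_add_mul]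

/-- Induction along the dihedral elements. -/
lemma dd_ind {P : W (m + 1) → Prop} (hA : ∀ x, P x → P (aA (m + 1) x))
    (hT : ∀ x, P x → P (aS (ω 0) (m + 1) ω x)) (f : ℕ) {x : W (m + 1)} (h : P x) :
    P (dd m ω f x) := by
  induction f with
  | zero => rwa [dd_zero]
  | succ f ih =>
    rcases Nat.mod_two_eq_zero_or_one f with e | e
    · rw [← dd_even e]; exact hA _ ih
    · rw [← dd_odd e]; exact hT _ ih

lemma dd_ind_inv {P : W (m + 1) → Prop} (hA : ∀ x, P x → P (aA (m + 1) x))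
    (hT : ∀ x, P x → P (aS (ω 0) (m + 1) ω x)) (f : ℕ) {x : W (m + 1)} (h : P x) :
    P ((dd m ω f)⁻¹ x) := by
  induction f generalizing x with
  | zero => rwa [dd_zero]
  | succ f ih =>
    rcases Nat.mod_two_eq_zero_or_one f with e | e
    · rw [← dd_even e, mul_inv_rev, aA_inv]; exact ih (hA _ h)
    · rw [← dd_odd e, mul_inv_rev, aS_inv]; exact ih (hT _ h)

lemma Reach.dd {x : W (m + 1)} (h : Reach (m + 1) ω x) (f : ℕ) : Reach (m + 1) ω (dd m ω f x) :=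
  dd_ind (P := Reach (m + 1) ω) (fun _ => Reach.a) (fun _ => Reach.s _) f h

lemma Reach.dd_inv {x : W (m + 1)} (h : Reach (m + 1) ω x) (f : ℕ) :
    Reach (m + 1) ω ((Fo.dd m ω f)⁻¹ x) :=
  dd_ind_inv (P := Reach (m + 1) ω) (fun _ => Reach.a) (fun _ => Reach.s _) f h

lemma Reach.kk {x : W (m + 1)} (h : Reach (m + 1) ω x) (s : Fin 3) (j : ℕ) :
    Reach (m + 1) ω (kk s m ω j x) := ((h.dd _).s s).dd_inv _

lemma bt_aA (x : W (m + 1)) : bt m ω (aA (m + 1) x) = bt m ω x := by rw [bt, gs_aA, bt]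

lemma bt_aS (k) (x : W (m + 1)) :
    bt m ω (aS k (m + 1) ω x) = bt m ω x + if k = ω 0 then 0 else 1 := by
  rw [bt, gs_aS, chi_add, chi_ev, bt]

lemma bt_dd (f : ℕ) (x : W (m + 1)) : bt m ω (dd m ω f x) = bt m ω x :=
  dd_ind (P := fun y => bt m ω y = bt m ω x) (fun y h => (bt_aA y).trans h)
    (fun y h => by rw [bt_aS, if_pos rfl, add_zero, h]) f rfl

lemma bt_dd_inv (f : ℕ) (x : W (m + 1)) : bt m ω ((dd m ω f)⁻¹ x) = bt m ω x := by
  rw [← bt_dd f ((dd m ω f)⁻¹ x), dd_inv_self]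

lemma bt_kk (h : ω 0 ≠ s) (j : ℕ) (x : W (m + 1)) : bt m ω (kk s m ω j x) = bt m ω x + 1 := by
  rw [kk, Equiv.Perm.mul_apply, Equiv.Perm.mul_apply, bt_dd_inv, bt_aS, if_neg h.symm, bt_dd]

lemma kk_kk (j : ℕ) (x : W (m + 1)) : kk s m ω j (kk s m ω j x) = x := by
  simp [kk, aS_aS]

lemma kk_add_four (j : ℕ) : kk s m ω (j + 4) = kk s m ω j := by
  rw [kk, show 2 * (j + 4) + 2 = 2 * j + 2 + 8 by ring, dd_add_eight, kk]

lemma dd_kk (j : ℕ) (x : W (m + 1)) :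
    dd m ω (2 * j + 2) (kk s m ω j x) = aS s (m + 1) ω (dd m ω (2 * j + 2) x) := by
  simp [kk]

lemma dd_kk' (j : ℕ) (x : W (m + 1)) :
    dd m ω (2 * j + 1) (kk s m ω j x) = aS s (m + 1) ω (dd m ω (2 * j + 1) x) := by
  rw [← dd_odd' (by omega : (2 * j + 1) % 2 = 1), Equiv.Perm.mul_apply, dd_kk, aS_comm]
  rfl

/-- The action of `aS (ω 0)` on the classes. -/
def clT (c : C16) : C16 :=
  (c.1, c.2.1 + (if c.1 then 1 else 0), c.2.2.1 + (if c.1 then 0 else 1), c.2.2.2)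

/-- The action of `aS s` on the classes. -/
def clK (c : C16) : C16 := (c.1, c.2.1, c.2.2.1, c.2.2.2 + 1)

/-- The action of the dihedral elements on the classes. -/
def clD : ℕ → C16 → C16
  | 0, c => c
  | f + 1, c => if f % 2 = 0 then clA (clD f c) else clT (clD f c)

lemma cls_T (h : ω 0 ≠ s) (x : W (m + 1)) :
    cls s (ω 0) m (aS (ω 0) (m + 1) ω x) = clT (cls s (ω 0) m x) := by
  rw [cls_aS]; simp [clS, clT, chi_ev, h]

lemma cls_K (h : ω 0 ≠ s) (x : W (m + 1)) :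
    cls s (ω 0) m (aS s (m + 1) ω x) = clK (cls s (ω 0) m x) := by
  rw [cls_aS]; simp [clS, clK, chi_ev, h.symm]

lemma cls_dd (h : ω 0 ≠ s) (f : ℕ) (x : W (m + 1)) :
    cls s (ω 0) m (dd m ω f x) = clD f (cls s (ω 0) m x) := by
  induction f with
  | zero => rw [dd_zero]; rfl
  | succ f ih =>
    rcases Nat.mod_two_eq_zero_or_one f with e | e
    · rw [← dd_even e, Equiv.Perm.mul_apply, cls_aA, ih, clD, if_pos e]
    · rw [← dd_odd e, Equiv.Perm.mul_apply, cls_T h, ih, clD, if_neg (by omega)]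

lemma jtab_lt (c : C16) : jtab c < 8 := by revert c; decide

lemma jt_lt (x : W (m + 1)) : jt s m ω x < 8 := jtab_lt _

lemma cls_ext {c c' : C16} (h1 : jtab c = jtab c') (h2 : c.2.2.2 = c'.2.2.2) : c = c' := by
  revert c c'; decide

lemma clD_inj : ∀ f < 8, ∀ c c' : C16, clD f c = clD f c' → c = c' := by
  intro f hf; interval_cases f <;> decide

lemma clD_clK : ∀ f < 8, ∀ c : C16, clD f (clK c) = clK (clD f c) := by decide

lemma cls_kk (h : ω 0 ≠ s) (j : ℕ) (x : W (m + 1)) :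
    cls s (ω 0) m (kk s m ω j x) = clK (cls s (ω 0) m x) := by
  have h1 := congrArg (cls s (ω 0) m) (dd_kk (s := s) (ω := ω) j x)
  rw [cls_K h, ← dd_mod, cls_dd h, cls_dd h, ← clD_clK _ (Nat.mod_lt _ (by norm_num))] at h1
  exact clD_inj _ (Nat.mod_lt _ (by norm_num)) _ _ h1

lemma jt_kk (h : ω 0 ≠ s) (j : ℕ) (x : W (m + 1)) : jt s m ω (kk s m ω j x) = jt s m ω x := by
  rw [jt, cls_kk h]; rfl

lemma jt_aA (x : W (m + 1)) :
    jt s m ω (aA (m + 1) x) = if jt s m ω x % 2 = 0 then jt s m ω x + 1 else jt s m ω x - 1 := by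
  rw [jt, jt, cls_aA]; generalize cls s (ω 0) m x = c; revert c; decide

lemma jt_T (h : ω 0 ≠ s) (x : W (m + 1)) : jt s m ω (aS (ω 0) (m + 1) ω x) =
    if jt s m ω x % 2 = 0 then (jt s m ω x + 7) % 8 else (jt s m ω x + 1) % 8 := by
  rw [jt, jt, cls_T h]; generalize cls s (ω 0) m x = c; revert c; decide

lemma jt_K (h : ω 0 ≠ s) (x : W (m + 1)) : jt s m ω (aS s (m + 1) ω x) = jt s m ω x := by
  rw [jt, cls_K h]; rfl

lemma clD_free : ∀ f < 8, ∀ g < 8, ∀ c c' : C16, jtab c = jtab c' →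
    jtab (clD (f + 1) c) = jtab (clD (g + 1) c') → f = g := by
  intro f hf g hg; interval_cases f <;> interval_cases g <;> decide

lemma clD_surj : ∀ j < 8, ∀ c : C16, ∃ f < 8, ∀ c' : C16, clD (f + 1) c' = c → jtab c' = j := by
  have h : ∀ j < 8, ∀ c : C16, ∃ f < 8, ∀ c' : C16, jtab (clD (f + 1) c') = jtab c → jtab c' = j := by
    intro j hj; interval_cases j <;> decide
  intro j hj c
  obtain ⟨f, h1, h2⟩ := h j hj c
  exact ⟨f, h1, fun c' e => h2 c' (by rw [e])⟩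

/-- Every portrait is `dd (f + 1) u` with `f < 8` and a prescribed dihedral part of `u`. -/
lemma exists_dd (h : ω 0 ≠ s) {j : ℕ} (hj : j < 8) (x : W (m + 1)) :
    ∃ f < 8, jt s m ω ((dd m ω (f + 1))⁻¹ x) = j := by
  obtain ⟨f, h1, h2⟩ := clD_surj j hj (cls s (ω 0) m x)
  exact ⟨f, h1, h2 _ (by rw [← cls_dd h, dd_inv_self])⟩

/-- The index `f` is unique. -/
lemma dd_free (h : ω 0 ≠ s) {f g : ℕ} (hf : f < 8) (hg : g < 8) {u v : W (m + 1)}
    (h1 : jt s m ω u = jt s m ω v)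
    (h2 : jt s m ω (dd m ω (f + 1) u) = jt s m ω (dd m ω (g + 1) v)) : f = g := by
  rw [jt, jt, cls_dd h, cls_dd h] at h2
  exact clD_free f hf g hg _ _ h1 h2

/-- Sums over all portraits in the coordinates `(f, u)`. -/
lemma sum_dd (h : ω 0 ≠ s) {j : ℕ} (hj : j < 8) (φ : W (m + 1) → ℝ) :
    ∑ x, φ x = ∑ f ∈ range 8, ∑ u with jt s m ω u = j, φ (dd m ω (f + 1) u) := by
  rw [← sum_product']
  symm
  refine sum_bij (fun p _ => dd m ω (p.1 + 1) p.2) (fun _ _ => mem_univ _) ?_ ?_ fun _ _ => rfl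
  · rintro ⟨f, u⟩ h1 ⟨g, v⟩ h2 e
    simp only [mem_product, mem_range, mem_filter, mem_univ, true_and] at h1 h2 e
    obtain rfl := dd_free h h1.1 h2.1 (h1.2.trans h2.2.symm) (by rw [e])
    rw [(dd m ω (f + 1)).injective e]
  · intro x _
    obtain ⟨f, h1, h2⟩ := exists_dd h hj x
    exact ⟨(f, (dd m ω (f + 1))⁻¹ x),
      mem_product.2 ⟨mem_range.2 h1, mem_filter.2 ⟨mem_univ _, h2⟩⟩, dd_inv_self _ _⟩

end Pool.Agent.P.MP_0b0f5a_al.Fo
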