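import Pool.Agent.P.MP_0b0f5a_al.Fo.EvU

/-!
Eventually constant sequences: a free abelian subgroup of rank `2 ^ K`.
-/

namespace Pool.Agent.P.MP_0b0f5a_al.Fo

open Finset

private lemma memA (ω : ℕ → Fin 3) : genA ∈ grig ω :=
  Subgroup.subset_closure (by simp [gens])

private lemma memS (k : Fin 3) (ω : ℕ → Fin 3) : genS k ω ∈ grig ω := by
  refine Subgroup.subset_closure ?_
  fin_cases k <;> simp [gens]

private lemma third {s k m : Fin 3} (h : s ≠ k) (h1 : m ≠ s) (h2 : m ≠ k) (ω : ℕ → Fin 3) :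
    genS m ω = genS k ω * genS s ω := by
  ext1 w
  induction w generalizing ω with
  | nil => rfl
  | cons x w ih =>
    rw [genS_eq m, genS_eq k, genS_eq s, pair_mul]
    cases x
    · simp only [pair_false]
      have h3 : ω 0 = m ∨ ω 0 = k ∨ ω 0 = s := by
        generalize ω 0 = i
        clear ih
        revert i s k m; decide
      rcases h3 with h3 | h3 | h3
      · simp [h3, h1, h2, genA_sq]
      · simp [h3, h.symm, h2.symm]
      · simp [h3, h, h1.symm]
    · simp only [pair_true]; rw [ih]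

private lemma lift_right {ω : ℕ → Fin 3} {g : Γ} (hg : g ∈ grig fun i => ω (i + 1)) :
    ∃ g0, pair (g0, g) ∈ grig ω := by
  induction hg using Subgroup.closure_induction with
  | mem x hx =>
    have hS : ∀ k, ∃ g0, pair (g0, genS k fun i => ω (i + 1)) ∈ grig ω := fun k =>
      ⟨_, genS_eq k ω ▸ memS k ω⟩
    simp only [gens, Set.mem_insert_iff, Set.mem_singleton_iff] at hx
    rcases hx with rfl | rfl | rfl | rfl
    · obtain ⟨k, hk⟩ : ∃ k, ω 0 ≠ k := ⟨ω 0 + 1, by generalize ω 0 = i; revert i; decide⟩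
      refine ⟨genS k fun i => ω (i + 1), ?_⟩
      have h := mul_mem (mul_mem (memA ω) (memS k ω)) (memA ω)
      rwa [genS_eq k ω, if_neg hk, genA_conj] at h
    · exact hS _
    · exact hS _
    · exact hS _
  | one => exact ⟨1, by rw [show ((1 : Γ), (1 : Γ)) = 1 from rfl, map_one]; exact one_mem _⟩
  | mul x y _ _ hx hy =>
    obtain ⟨x0, hx⟩ := hx
    obtain ⟨y0, hy⟩ := hy
    exact ⟨x0 * y0, pair_mul _ _ _ _ ▸ mul_mem hx hy⟩
  | inv x _ hx =>
    obtain ⟨x0, hx⟩ := hx
    refine ⟨x0⁻¹, ?_⟩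
    have h := inv_mem hx
    rwa [← map_inv] at h

/-- The elements `b` whose copy below the letter 1 lies in the group. -/
private def BB (ω : ℕ → Fin 3) : Subgroup Γ :=
  (grig ω).comap (pair.comp (MonoidHom.inr Γ Γ))

private lemma mem_BB {ω : ℕ → Fin 3} {b : Γ} : b ∈ BB ω ↔ pair (1, b) ∈ grig ω := Iff.rfl

private lemma BB_conj {ω : ℕ → Fin 3} {g b : Γ} (hg : g ∈ grig fun i => ω (i + 1))
    (hb : b ∈ BB ω) : g⁻¹ * b * g ∈ BB ω := by
  obtain ⟨g0, h0⟩ := lift_right hg
  have h := mul_mem (mul_mem (inv_mem h0) (mem_BB.1 hb)) h0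
  rw [← map_inv, Prod.inv_mk, pair_mul, pair_mul, mul_one, inv_mul_cancel] at h
  exact h

private lemma kappa_mem (ω : ℕ → Fin 3) : (genS (ω 0) fun i => ω (i + 1)) ∈ BB ω := by
  have h := memS (ω 0) ω
  rw [genS_eq, if_pos rfl] at h
  exact h

private lemma order_at (k : Fin 3) (j : ℕ) :
    ∀ υ : ℕ → Fin 3, υ j = k → (genA * genS k υ) ^ 2 ^ (j + 2) = 1 := by
  have sq2 : ∀ υ : ℕ → Fin 3, (genA * genS k υ) ^ 2 =
      pair ((genS k fun i => υ (i + 1)) * (if υ 0 = k then 1 else genA),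
        (if υ 0 = k then 1 else genA) * genS k fun i => υ (i + 1)) := by
    intro υ
    rw [← pair_mul, ← genA_conj, ← genS_eq, sq]
    simp only [mul_assoc]
  have base : ∀ (υ : ℕ → Fin 3) (n : ℕ), υ 0 = k → (genA * genS k υ) ^ 2 ^ (n + 2) = 1 := by
    intro υ n h
    rw [show 2 ^ (n + 2) = 2 * (2 * 2 ^ n) by ring, pow_mul, pow_mul, sq2, if_pos h, mul_one,
      one_mul, sq, pair_mul, genS_sq, show ((1 : Γ), (1 : Γ)) = 1 from rfl, map_one, one_pow]
  induction j with
  | zero => exact fun υ h => base υ 0 h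
  | succ j ih =>
    intro υ h
    by_cases h0 : υ 0 = k
    · exact base υ _ h0
    · have h1 := ih (fun i => υ (i + 1)) h
      have h2 : ((genS k fun i => υ (i + 1)) * genA) ^ 2 ^ (j + 2) = 1 := by
        have h3 := congrArg (·⁻¹) h1
        simp only [← inv_pow, mul_inv_rev, genA_inv, genS_inv, inv_one] at h3
        exact h3
      rw [show 2 ^ (j + 1 + 2) = 2 * 2 ^ (j + 2) by ring, pow_mul, sq2, if_neg h0, ← map_pow,
        Prod.pow_mk, h1, h2, show ((1 : Γ), (1 : Γ)) = 1 from rfl, map_one]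

private lemma decomp {ω : ℕ → Fin 3} {k : Fin 3} (hk : ω 0 ≠ k) {g : Γ}
    (hg : g ∈ grig fun i => ω (i + 1)) :
    ∃ (i : ℤ) (b : Γ), b ∈ BB ω ∧ (g = (genA * genS k fun i => ω (i + 1)) ^ i * b ∨
      g = genA * (genA * genS k fun i => ω (i + 1)) ^ i * b) := by
  set ω' : ℕ → Fin 3 := fun i => ω (i + 1) with hω'
  set t := genS k ω' with ht
  set r := genA * t with hr
  have hr' : r ∈ grig ω' := mul_mem (memA _) (memS _ _)
  have e1 : t = genA * r := by rw [hr, ← mul_assoc, genA_sq, one_mul]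
  have e2 : t * genA = r⁻¹ := by rw [hr, mul_inv_rev, genA_inv, ht, genS_inv]
  let P : Γ → Prop := fun g => ∃ (i : ℤ) (b : Γ), b ∈ BB ω ∧ (g = r ^ i * b ∨ g = genA * r ^ i * b)
  have hA : ∀ y, P y → P (genA * y) := by
    rintro y ⟨i, b, hb, rfl | rfl⟩
    · exact ⟨i, b, hb, Or.inr (by simp only [mul_assoc])⟩
    · exact ⟨i, b, hb, Or.inl (by rw [← mul_assoc, ← mul_assoc, genA_sq, one_mul])⟩
  have hT : ∀ y, P y → P (t * y) := by
    rintro y ⟨i, b, hb, rfl | rfl⟩
    · refine ⟨1 + i, b, hb, Or.inr ?_⟩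
      rw [e1, zpow_add, zpow_one]; simp only [mul_assoc]
    · refine ⟨-1 + i, b, hb, Or.inl ?_⟩
      rw [← mul_assoc, ← mul_assoc, e2, zpow_add, zpow_neg_one]
  have hK : ∀ y, P y → P (genS (ω 0) ω' * y) := by
    rintro y ⟨i, b, hb, rfl | rfl⟩
    · refine ⟨i, _, mul_mem (BB_conj (zpow_mem hr' i) (kappa_mem ω)) hb, Or.inl ?_⟩
      simp only [mul_assoc, mul_inv_cancel_left, hω']
    · refine ⟨i, _, mul_mem (BB_conj (mul_mem (memA _) (zpow_mem hr' i)) (kappa_mem ω)) hb,
        Or.inr ?_⟩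
      simp only [← mul_assoc, mul_inv_cancel, one_mul, hω']
  have hS : ∀ m y, P y → P (genS m ω' * y) := by
    intro m y hy
    by_cases h1 : m = ω 0
    · rw [h1]; exact hK y hy
    by_cases h2 : m = k
    · rw [h2]; exact hT y hy
    rw [third hk h1 h2, mul_assoc]
    exact hT _ (hK y hy)
  have hgen : ∀ x ∈ gens ω', ∀ y, P y → P (x * y) := by
    intro x hx y hy
    simp only [gens, Set.mem_insert_iff, Set.mem_singleton_iff] at hx
    rcases hx with rfl | rfl | rfl | rfl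
    · exact hA y hy
    · exact hS _ y hy
    · exact hS _ y hy
    · exact hS _ y hy
  have hinv : ∀ x ∈ gens ω', x⁻¹ = x := by
    intro x hx
    simp only [gens, Set.mem_insert_iff, Set.mem_singleton_iff] at hx
    rcases hx with rfl | rfl | rfl | rfl
    · exact genA_inv
    · exact genS_inv _ _
    · exact genS_inv _ _
    · exact genS_inv _ _
  change P g
  induction hg using Subgroup.closure_induction_left with
  | one => exact ⟨0, 1, one_mem _, Or.inl (by simp)⟩
  | mul_left x hx y _ hy => exact hgen x hx y hy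
  | inv_mul_cancel x hx y _ hy => rw [hinv x hx]; exact hgen x hx y hy

private lemma pow_coset {ω : ℕ → Fin 3} {d b : Γ} (hd : d ∈ grig fun i => ω (i + 1))
    (hb : b ∈ BB ω) (n : ℕ) : ∃ c ∈ BB ω, (d * b) ^ n = d ^ n * c := by
  induction n with
  | zero => exact ⟨1, one_mem _, by simp⟩
  | succ n ih =>
    obtain ⟨c, hc, e⟩ := ih
    refine ⟨_, mul_mem (BB_conj hd hc) hb, ?_⟩
    rw [pow_succ, e, pow_succ]
    simp only [mul_assoc, mul_inv_cancel_left]

private lemma pow_mem_BB {ω : ℕ → Fin 3} {k : Fin 3} (hk : ω 0 ≠ k) {j : ℕ} (hj : ω (j + 1) = k)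
    {g : Γ} (hg : g ∈ grig fun i => ω (i + 1)) : g ^ 2 ^ (j + 2) ∈ BB ω := by
  have ho := order_at k j (fun i => ω (i + 1)) hj
  obtain ⟨i, b, hb, h⟩ := decomp hk hg
  set r := genA * genS k fun i => ω (i + 1) with hr
  have hr' : r ∈ grig fun i => ω (i + 1) := mul_mem (memA _) (memS _ _)
  rcases h with rfl | rfl
  · obtain ⟨c, hc, e⟩ := pow_coset (zpow_mem hr' i) hb (2 ^ (j + 2))
    rw [e, ← zpow_natCast, ← zpow_mul, mul_comm i, zpow_mul, zpow_natCast, ho, one_zpow, one_mul]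
    exact hc
  · obtain ⟨c, hc, e⟩ := pow_coset (mul_mem (memA _) (zpow_mem hr' i)) hb (2 ^ (j + 2))
    have h1 : genA * r * genA⁻¹ = r⁻¹ := by
      rw [hr, ← mul_assoc, genA_sq, one_mul, mul_inv_rev, genS_inv]
    have h2 : (genA * r ^ i) ^ 2 = 1 := by
      have h3 : genA * r ^ i * genA⁻¹ = r⁻¹ ^ i := by rw [← h1, conj_zpow]
      rw [genA_inv] at h3
      rw [sq, ← mul_assoc, h3, inv_zpow, inv_mul_cancel]
    rw [e, show 2 ^ (j + 2) = 2 * 2 ^ (j + 1) by ring, pow_mul, h2, one_pow, one_mul]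
    exact hc

theorem ev_hom {ω : ℕ → Fin 3} {K : ℕ} (h : ∀ i ≥ K, ω i = ω K) (h' : K = 0 ∨ ω (K - 1) ≠ ω K) :
    ∃ (ι : Type) (_ : Fintype ι) (φ : (ι → ℤ) → Γ), Fintype.card ι = 2 ^ K ∧
      (∀ x y, φ (x + y) = φ x * φ y) ∧ Function.Injective φ ∧ ∀ x, φ x ∈ grig ω := by
  induction K generalizing ω with
  | zero =>
    obtain ⟨k, hk⟩ : ∃ k, ω 0 ≠ k := ⟨ω 0 + 1, by generalize ω 0 = i; revert i; decide⟩
    have hB : genS k ω = genB := genS_const fun i => by rw [h i (Nat.zero_le i)]; exact hk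
    have hr : rho ∈ grig ω := by
      rw [rho, ← hB]; exact mul_mem (memA ω) (memS k ω)
    refine ⟨Unit, inferInstance, fun x => rho ^ x (), by simp, fun x y => ?_, fun x y hxy => ?_,
      fun x => zpow_mem hr _⟩
    · simp only [Pi.add_apply, zpow_add]
    · funext u
      exact rho_zpow_inj hxy
  | succ K ih =>
    have hne : ω K ≠ ω (K + 1) := by
      rcases h' with h' | h'
      · omega
      · simpa using h'
    obtain ⟨ι, inst, φ, hc, hadd, hinj, hmem⟩ := @ih (fun i => ω (i + 1))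
      (fun i hi => h (i + 1) (by omega)) (by
        rcases Nat.eq_zero_or_pos K with h0 | h0
        · exact Or.inl h0
        · right
          show ω (K - 1 + 1) ≠ ω (K + 1)
          rwa [Nat.sub_add_cancel h0])
    obtain ⟨j, hj⟩ : ∃ j, ω 0 ≠ ω (j + 1) := by
      by_cases h0 : ω 0 = ω (K + 1)
      · rcases Nat.eq_zero_or_pos K with h1 | h1
        · subst h1; exact absurd h0 hne
        · refine ⟨K - 1, ?_⟩
          rw [Nat.sub_add_cancel h1, h0]; exact hne.symm
      · exact ⟨K, h0⟩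
    have h0 : φ 0 = 1 := by
      have h1 := hadd 0 0
      rw [add_zero] at h1
      exact (mul_eq_left.1 h1.symm)
    have hpow : ∀ (n : ℕ) (y : ι → ℤ), φ (n • y) = φ y ^ n := by
      intro n y
      induction n with
      | zero => rw [zero_smul, h0, pow_zero]
      | succ n ihn => rw [succ_nsmul, hadd, ihn, pow_succ]
    have hBB : ∀ y : ι → ℤ, φ ((2 ^ (j + 2) : ℕ) • y) ∈ BB ω := fun y => by
      rw [hpow]; exact pow_mem_BB hj rfl (hmem y)
    have hcancel : ∀ y y' : ι → ℤ, φ ((2 ^ (j + 2) : ℕ) • y) = φ ((2 ^ (j + 2) : ℕ) • y') →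
        y = y' := by
      intro y y' hy
      funext u
      have h1 := congrFun (hinj hy) u
      simp only [Pi.smul_apply, nsmul_eq_mul] at h1
      exact mul_left_cancel₀ (by positivity) h1
    refine ⟨ι ⊕ ι, inferInstance, fun x => pair (φ ((2 ^ (j + 2) : ℕ) • fun u => x (Sum.inl u)),
      φ ((2 ^ (j + 2) : ℕ) • fun u => x (Sum.inr u))), ?_, fun x y => ?_, fun x y hxy => ?_,
      fun x => ?_⟩
    · rw [Fintype.card_sum, hc]; ring
    · rw [pair_mul, ← hadd, ← hadd, ← smul_add, ← smul_add]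
      rfl
    · have h1 := pair_inj hxy
      have h2 := hcancel _ _ (congrArg Prod.fst h1)
      have h3 := hcancel _ _ (congrArg Prod.snd h1)
      funext u
      rcases u with u | u
      · exact congrFun h2 u
      · exact congrFun h3 u
    · have h1 := mul_mem (mul_mem (memA ω) (mem_BB.1 (hBB fun u => x (Sum.inl u)))) (memA ω)
      rw [genA_conj] at h1
      have h2 := mul_mem h1 (mem_BB.1 (hBB fun u => x (Sum.inr u)))
      rw [pair_mul, mul_one, one_mul] at h2
      exact h2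

end Pool.Agent.P.MP_0b0f5a_al.Fo
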