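import Pool.Agent.P.MP_0b0f5a_al.Fo.Gen

/-!
Eventually constant sequences: the upper bound, and the counting argument for the lower bound.
-/

namespace Pool.Agent.P.MP_0b0f5a_al.Fo

open Finset

lemma genS_const {ω : ℕ → Fin 3} {k : Fin 3} (h : ∀ i, ω i ≠ k) : genS k ω = genB := by
  ext1 w
  induction w generalizing ω with
  | nil => rfl
  | cons x w ih =>
    rw [genS_eq, genB_eq, if_neg (h 0)]
    cases x
    · rfl
    · simp only [pair_true]; rw [ih fun i => h (i + 1)]

lemma genS_triv {ω : ℕ → Fin 3} {k : Fin 3} (h : ∀ i, ω i = k) : genS k ω = 1 := by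
  ext1 w
  induction w generalizing ω with
  | nil => rfl
  | cons x w ih =>
    rw [genS_eq, if_pos (h 0)]
    cases x
    · rfl
    · simp only [pair_true]; rw [ih fun i => h (i + 1)]; rfl

lemma rho_zpow_inj : Function.Injective fun i : ℤ => rho ^ i := by
  have key : ∀ i : ℤ, rho ^ i = 1 → i = 0 := by
    intro i hi
    have hd : ∀ n : ℕ, (2 : ℤ) ^ n ∣ i := by
      intro n
      by_contra hn
      have h1 := iota_disj_En hn genA genA
      rw [iota_apply, hi, one_mul, inv_one, mul_one, Equiv.Perm.disjoint_refl_iff] at h1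
      exact genA_ne_one (En_inj n (h1.trans (map_one _).symm))
    refine Int.eq_zero_of_abs_lt_dvd (hd i.natAbs) ?_
    rw [Int.abs_eq_natAbs]
    exact_mod_cast Nat.lt_two_pow_self
  intro i j hij
  have h1 : rho ^ i = rho ^ j := hij
  have := key (i - j) (by rw [zpow_sub, h1, mul_inv_cancel])
  omega

private lemma bd_one (E : Finset Γ) : bd E 1 = 0 := by
  classical
  rw [bd, card_eq_zero, filter_eq_empty_iff]
  intro x hx
  simpa using hx

open Classical in
/-- The union of `P` and `a P`. -/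
private noncomputable def dbl (P : Finset Γ) : Finset Γ := P ∪ P.image (genA * ·)

private lemma aa (x : Γ) : genA * (genA * x) = x := by rw [← mul_assoc, genA_sq, one_mul]

private lemma mem_dbl {P : Finset Γ} {x : Γ} : x ∈ dbl P ↔ x ∈ P ∨ genA * x ∈ P := by
  simp only [dbl, mem_union, mem_image]
  constructor
  · rintro (h | ⟨y, hy, rfl⟩)
    · exact Or.inl h
    · right; rwa [aa]
  · rintro (h | h)
    · exact Or.inl h
    · exact Or.inr ⟨_, h, aa x⟩

private lemma le_card_dbl (P : Finset Γ) : P.card ≤ (dbl P).card :=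
  card_le_card fun _ hx => mem_dbl.2 (Or.inl hx)

private lemma card_dbl_le (P : Finset Γ) : (dbl P).card ≤ 2 * P.card := by
  classical
  refine (card_union_le _ _).trans ?_
  have := card_image_le (s := P) (f := (genA * ·))
  omega

private lemma bd_dbl_a (P : Finset Γ) : bd (dbl P) genA = 0 := by
  classical
  rw [bd, card_eq_zero, filter_eq_empty_iff]
  intro x hx
  rw [not_not, mem_dbl, aa]
  exact (mem_dbl.1 hx).symm

private lemma bd_dbl (P : Finset Γ) (g u v : Γ) (hu : u = g ∨ u = genA * g)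
    (hv : v = g * genA ∨ v = genA * g * genA) : bd (dbl P) g ≤ bd P u + bd P v := by
  classical
  have h1 : ((dbl P).filter fun x => g * x ∉ dbl P) ⊆
      (P.filter fun x => u * x ∉ P) ∪ (P.filter fun x => v * x ∉ P).image (genA * ·) := by
    intro x hx
    obtain ⟨h2, h3⟩ := mem_filter.1 hx
    rw [mem_dbl, not_or] at h3
    rcases mem_dbl.1 h2 with h4 | h4
    · refine mem_union_left _ (mem_filter.2 ⟨h4, ?_⟩)
      rcases hu with rfl | rfl
      · exact h3.1
      · rw [mul_assoc]; exact h3.2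
    · refine mem_union_right _ (mem_image.2 ⟨genA * x, mem_filter.2 ⟨h4, ?_⟩, aa x⟩)
      rcases hv with rfl | rfl
      · rw [mul_assoc, aa]; exact h3.1
      · rw [mul_assoc, aa, mul_assoc]; exact h3.2
  have h2 := (card_le_card h1).trans (card_union_le _ _)
  have h3 := card_image_le (s := P.filter fun x => v * x ∉ P) (f := (genA * ·))
  unfold bd
  convert h2.trans (Nat.add_le_add_left h3 _) using 1

open Classical in
/-- The set of all `pair (x, y)` with `x, y` in `E`. -/
private noncomputable def sqr (E : Finset Γ) : Finset Γ := (E ×ˢ E).image pair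

private lemma card_sqr (E : Finset Γ) : (sqr E).card = E.card * E.card := by
  classical
  rw [sqr, card_image_of_injective _ pair_inj, card_product]

private lemma bd_sqr (E : Finset Γ) (u v : Γ) :
    bd (sqr E) (pair (u, v)) ≤ (bd E u + bd E v) * E.card := by
  classical
  have h1 : ((sqr E).filter fun x => pair (u, v) * x ∉ sqr E) ⊆
      ((E.filter fun x => u * x ∉ E) ×ˢ E ∪ E ×ˢ (E.filter fun x => v * x ∉ E)).image pair := by
    intro x hx
    obtain ⟨h2, h3⟩ := mem_filter.1 hx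
    obtain ⟨⟨y, z⟩, h4, rfl⟩ := mem_image.1 h2
    obtain ⟨h5, h6⟩ := mem_product.1 h4
    refine mem_image_of_mem _ ?_
    rw [pair_mul] at h3
    by_cases h7 : u * y ∈ E
    · refine mem_union_right _ (mem_product.2 ⟨h5, mem_filter.2 ⟨h6, fun h8 => h3 ?_⟩⟩)
      exact mem_image_of_mem _ (mem_product.2 ⟨h7, h8⟩)
    · exact mem_union_left _ (mem_product.2 ⟨mem_filter.2 ⟨h5, h7⟩, h6⟩)
  have h2 := ((card_le_card h1).trans card_image_le).trans (card_union_le _ _)
  rw [card_product, card_product, mul_comm E.card, ← add_mul] at h2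
  unfold bd
  convert h2 using 1

private lemma mem_gens {ω : ℕ → Fin 3} {s : Γ} : s ∈ gens ω ↔ s = genA ∨ ∃ k, s = genS k ω := by
  simp only [gens, Set.mem_insert_iff, Set.mem_singleton_iff]
  constructor
  · rintro (h | h | h | h)
    · exact Or.inl h
    all_goals exact Or.inr ⟨_, h⟩
  · rintro (h | ⟨k, h⟩)
    · exact Or.inl h
    · fin_cases k
      · exact Or.inr (Or.inr (Or.inr h))
      · exact Or.inr (Or.inr (Or.inl h))
      · exact Or.inr (Or.inl h)

private lemma base_set (R : ℕ) : ∃ P : Finset Γ, P.card = R ∧ bd P rho ≤ 1 ∧ bd P rho⁻¹ ≤ 1 := by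
  classical
  have hi : Function.Injective fun i : ℕ => rho ^ i := fun i j hij => by
    have h1 : rho ^ (i : ℤ) = rho ^ (j : ℤ) := by
      rw [zpow_natCast, zpow_natCast]; exact hij
    exact_mod_cast rho_zpow_inj h1
  refine ⟨(range R).image fun i => rho ^ i, by rw [card_image_of_injective _ hi, card_range], ?_, ?_⟩
  · refine (card_le_card (t := {rho ^ (R - 1)}) fun x hx => ?_).trans (card_singleton _).le
    obtain ⟨h1, h2⟩ := mem_filter.1 hx
    obtain ⟨i, h3, rfl⟩ := mem_image.1 h1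
    rw [mem_range] at h3
    by_cases h4 : i + 1 < R
    · exact absurd (mem_image.2 ⟨i + 1, mem_range.2 h4, pow_succ' _ _⟩) h2
    · rw [mem_singleton, show R - 1 = i by omega]
  · refine (card_le_card (t := {1}) fun x hx => ?_).trans (card_singleton _).le
    obtain ⟨h1, h2⟩ := mem_filter.1 hx
    obtain ⟨i, h3, rfl⟩ := mem_image.1 h1
    rw [mem_range] at h3
    rcases i with _ | i
    · simp
    · refine absurd (mem_image.2 ⟨i, mem_range.2 (by omega), ?_⟩) h2
      rw [pow_succ', inv_mul_cancel_left]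

private lemma ev_sets (K : ℕ) : ∀ ω : ℕ → Fin 3, (∀ i ≥ K, ω i = ω K) →
    ∃ A C : ℕ, ∀ R ≥ 1, ∃ E : Finset Γ, 0 < E.card ∧ bd E genA = 0 ∧
      (∀ k, R * bd E (genS k ω) ≤ A * E.card) ∧ E.card ≤ C * R ^ 2 ^ K := by
  induction K with
  | zero =>
    intro ω h
    refine ⟨2, 2, fun R hR => ?_⟩
    obtain ⟨P, p1, p2, p3⟩ := base_set R
    have h1 := le_card_dbl P
    have h2 := card_dbl_le P
    refine ⟨dbl P, by omega, bd_dbl_a P, fun k => ?_, by simpa [p1] using h2⟩
    by_cases hk : ω 0 = k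
    · rw [genS_triv fun i => (h i (Nat.zero_le i)).trans hk, bd_one]; simp
    · rw [genS_const fun i => by rw [h i (Nat.zero_le i)]; exact hk]
      have h3 := bd_dbl P genB rho rho⁻¹ (Or.inr rfl) (Or.inl rho_inv)
      have h4 : bd (dbl P) genB ≤ 2 := by omega
      calc R * bd (dbl P) genB ≤ R * 2 := Nat.mul_le_mul_left _ h4
        _ ≤ 2 * (dbl P).card := by omega
  | succ K ih =>
    intro ω h
    obtain ⟨A, C, hAC⟩ := ih (fun i => ω (i + 1)) fun i hi => h (i + 1) (by omega)
    refine ⟨2 * A, 2 * (C * C), fun R hR => ?_⟩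
    obtain ⟨E, e1, e2, e3, e4⟩ := hAC R hR
    have h1 := le_card_dbl (sqr E)
    have h2 := card_dbl_le (sqr E)
    rw [card_sqr] at h1 h2
    refine ⟨dbl (sqr E), lt_of_lt_of_le (Nat.mul_pos e1 e1) h1, bd_dbl_a _, fun k => ?_, ?_⟩
    · rw [genS_eq]
      set u : Γ := if ω 0 = k then 1 else genA with hu
      set v : Γ := genS k fun i => ω (i + 1) with hv
      have hu0 : bd E u = 0 := by
        rw [hu]; split_ifs
        · exact bd_one E
        · exact e2
      have h3 := bd_dbl (sqr E) (pair (u, v)) (pair (u, v)) (pair (v, u)) (Or.inl rfl)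
        (Or.inr (genA_conj u v).symm)
      have h4 := bd_sqr E u v
      have h5 := bd_sqr E v u
      rw [hu0] at h4 h5
      have h6 : bd (dbl (sqr E)) (pair (u, v)) ≤ 2 * (bd E v * E.card) := by
        simp only [zero_add, add_zero] at h4 h5
        omega
      calc R * bd (dbl (sqr E)) (pair (u, v)) ≤ R * (2 * (bd E v * E.card)) :=
            Nat.mul_le_mul_left _ h6
        _ = 2 * E.card * (R * bd E v) := by ring
        _ ≤ 2 * E.card * (A * E.card) := Nat.mul_le_mul_left _ (e3 k)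
        _ = 2 * A * (E.card * E.card) := by ring
        _ ≤ 2 * A * (dbl (sqr E)).card := Nat.mul_le_mul_left _ h1
    · calc (dbl (sqr E)).card ≤ 2 * (E.card * E.card) := h2
        _ ≤ 2 * ((C * R ^ 2 ^ K) * (C * R ^ 2 ^ K)) :=
            Nat.mul_le_mul_left _ (Nat.mul_le_mul e4 e4)
        _ = 2 * (C * C) * R ^ 2 ^ (K + 1) := by rw [pow_succ 2 K, pow_mul]; ring

theorem ev_upper {ω : ℕ → Fin 3} {K : ℕ} (h : ∀ i ≥ K, ω i = ω K) :
    ∃ c : ℕ, ∀ n ≥ 1, ∃ E : Finset Γ, (E : Set Γ) ⊆ grig ω ∧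
      (∀ s ∈ gens ω, n * (2 * bd E s) < E.card) ∧ E.card ≤ c * n ^ 2 ^ K := by
  classical
  obtain ⟨A, C, hAC⟩ := ev_sets K ω h
  refine ⟨C * (6 * A + 1) ^ 2 ^ K, fun n hn => ?_⟩
  obtain ⟨E, e1, e2, e3, e4⟩ := hAC ((6 * A + 1) * n) (Nat.mul_pos (by omega) hn)
  set g : Option (Fin 3) → Γ := fun o => o.elim genA fun k => genS k ω with hg
  have hn' : (0 : ℝ) < n := by exact_mod_cast hn
  have hgs : ∀ s, g s ∈ gens ω := by
    rintro (_ | k)
    · exact mem_gens.2 (Or.inl rfl)
    · exact mem_gens.2 (Or.inr ⟨k, rfl⟩)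
  have hsum : ∀ x : Γ, ∑ ξ ∈ E, max ((if ξ ∈ E then (1 : ℝ) else 0) -
      (if x * ξ ∈ E then (1 : ℝ) else 0)) 0 = bd E x := by
    intro x
    rw [bd, card_filter]
    push_cast
    refine sum_congr rfl fun ξ hξ => ?_
    by_cases h1 : x * ξ ∈ E <;> simp [hξ, h1]
  obtain ⟨F, f1, f2, f3⟩ := folner_of_weight (Z := Γ) (grig ω) g
    (fun s => Subgroup.subset_closure (hgs s)) (1 / (2 * n)) E
    (fun ξ => if ξ ∈ E then 1 else 0) (fun ξ => by split_ifs <;> norm_num)
    (fun ξ hξ => if_neg hξ) (fun s ξ => g s * ξ) (fun s => mul_right_injective _) id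
    (fun s ξ _ => rfl) (B := 1)
    (fun ξ _ => ⟨{1}, (card_singleton _).le, fun x => by
      simp only [mem_singleton, id, smul_eq_mul, mul_eq_right]
      exact ⟨fun hx => ⟨hx ▸ one_mem _, hx⟩, fun hx => hx.2⟩⟩)
    (by
      simp only [hsum]
      rw [sum_congr rfl fun ξ hξ => if_pos hξ, sum_const, nsmul_eq_mul, mul_one,
        Fintype.sum_option, Fin.sum_univ_three]
      have a0 : ((6 * A + 1) * n * bd E (genS 0 ω) : ℝ) ≤ A * E.card := by exact_mod_cast e3 0
      have a1 : ((6 * A + 1) * n * bd E (genS 1 ω) : ℝ) ≤ A * E.card := by exact_mod_cast e3 1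
      have a2 : ((6 * A + 1) * n * bd E (genS 2 ω) : ℝ) ≤ A * E.card := by exact_mod_cast e3 2
      have a3 : (0 : ℝ) < E.card := by exact_mod_cast e1
      have a4 : (0 : ℝ) < 6 * A + 1 := by positivity
      simp only [hg, Option.elim, e2, Nat.cast_zero, zero_add]
      rw [one_div, inv_mul_eq_div, lt_div_iff₀ (by positivity)]
      refine lt_of_mul_lt_mul_left ?_ a4.le
      nlinarith)
  refine ⟨F, f1, fun s hs => ?_, ?_⟩
  · obtain ⟨o, rfl⟩ : ∃ o, s = g o := by
      rcases mem_gens.1 hs with rfl | ⟨k, rfl⟩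
      · exact ⟨none, rfl⟩
      · exact ⟨some k, rfl⟩
    have h1 : (bd F (g o) : ℝ) ≤ ∑ s, (bd F (g s) : ℝ) :=
      single_le_sum (f := fun s => (bd F (g s) : ℝ)) (fun _ _ => Nat.cast_nonneg _) (mem_univ o)
    have h2 := h1.trans_lt f2
    rw [one_div, inv_mul_eq_div, lt_div_iff₀ (by positivity)] at h2
    have h3 : (n * (2 * bd F (g o)) : ℝ) < F.card := by linarith
    exact_mod_cast h3
  · rw [mul_one] at f3
    refine f3.trans (e4.trans (le_of_eq ?_))
    rw [mul_pow, mul_assoc]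

private lemma bd_word {ω : ℕ → Fin 3} {g : Γ} (hg : g ∈ grig ω) :
    ∃ C : ℕ, ∀ (E : Finset Γ) (δ : ℕ), (∀ s ∈ gens ω, bd E s ≤ δ) → bd E g ≤ C * δ := by
  have step : ∀ x ∈ gens ω, ∀ y : Γ,
      (∃ C : ℕ, ∀ (E : Finset Γ) (δ : ℕ), (∀ s ∈ gens ω, bd E s ≤ δ) → bd E y ≤ C * δ) →
      ∃ C : ℕ, ∀ (E : Finset Γ) (δ : ℕ), (∀ s ∈ gens ω, bd E s ≤ δ) → bd E (x * y) ≤ C * δ := by
    rintro x hx y ⟨C, hC⟩
    refine ⟨C + 1, fun E δ h => (bd_mul E x y).trans ?_⟩
    have h1 := h x hx
    have h2 := hC E δ h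
    rw [add_mul]; omega
  induction hg using Subgroup.closure_induction_left with
  | one => exact ⟨0, fun E δ _ => by rw [bd_one]; exact Nat.zero_le _⟩
  | mul_left x hx y _ ih => exact step x hx y ih
  | inv_mul_cancel x hx y _ ih =>
    have : x⁻¹ = x := by
      rcases mem_gens.1 hx with rfl | ⟨k, rfl⟩
      · exact genA_inv
      · exact genS_inv _ _
    rw [this]; exact step x hx y ih

theorem ev_count {ω : ℕ → Fin 3} {ι : Type} [Fintype ι] (φ : (ι → ℤ) → Γ)
    (h1 : ∀ x y, φ (x + y) = φ x * φ y) (h2 : Function.Injective φ) (h3 : ∀ x, φ x ∈ grig ω) :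
    ∃ c : ℕ, 1 ≤ c ∧ ∀ n ≥ 1, ∀ E : Finset Γ, (∀ s ∈ gens ω, c * n * (2 * bd E s) < E.card) →
      n ^ Fintype.card ι ≤ 2 * E.card := by
  classical
  choose C hC using fun i : ι => bd_word (h3 (Pi.single i 1))
  have h0 : φ 0 = 1 := by
    have := h1 0 0
    rw [add_zero] at this
    exact left_eq_mul.1 this
  refine ⟨∑ i, C i + 1, by omega, fun n hn E hE => ?_⟩
  set c := ∑ i, C i + 1 with hc
  have hcn : 0 < 2 * (c * n) := Nat.mul_pos (by omega) (Nat.mul_pos (by omega) hn)
  have hE0 : 0 < E.card := lt_of_le_of_lt (Nat.zero_le _) (hE genA (mem_gens.2 (Or.inl rfl)))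
  set δ := (E.card - 1) / (2 * (c * n)) with hδ
  have d1 : ∀ s ∈ gens ω, bd E s ≤ δ := by
    intro s hs
    rw [hδ, Nat.le_div_iff_mul_le hcn]
    have := hE s hs
    have e : bd E s * (2 * (c * n)) = c * n * (2 * bd E s) := by ring
    omega
  have d2 : δ * (2 * (c * n)) ≤ E.card := (Nat.div_mul_le_self _ _).trans (Nat.sub_le _ _)
  have s1 : ∀ (i : ι) (m : ℕ), bd E (φ (Pi.single i (m : ℤ))) ≤ m * (C i * δ) := by
    intro i m
    induction m with
    | zero => simp [h0, bd_one]
    | succ m ih =>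
      rw [Nat.cast_succ, Pi.single_add, h1, add_mul, one_mul]
      exact (bd_mul _ _ _).trans (add_le_add ih (hC i E δ d1))
  have s2 : ∀ (t : Finset ι) (f : ι → ι → ℤ), bd E (φ (∑ i ∈ t, f i)) ≤ ∑ i ∈ t, bd E (φ (f i)) := by
    intro t f
    induction t using Finset.induction_on with
    | empty => simp [h0, bd_one]
    | insert i t hi ih =>
      rw [sum_insert hi, sum_insert hi, h1]
      exact (bd_mul _ _ _).trans (add_le_add le_rfl ih)
  set X : Finset (ι → ℕ) := Fintype.piFinset fun _ => range n with hX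
  set ψ : (ι → ℕ) → Γ := fun x => φ fun i => (x i : ℤ) with hψ
  have hXc : X.card = n ^ Fintype.card ι := by
    rw [hX, Fintype.card_piFinset, prod_const, card_range, card_univ]
  have hψi : Function.Injective ψ := fun x y hxy => by
    have := h2 hxy
    funext i
    exact_mod_cast congrFun this i
  have s3 : ∀ x ∈ X, 2 * bd E (ψ x) ≤ E.card := by
    intro x hx
    have a1 : ψ x = φ (∑ i, Pi.single i (x i : ℤ)) := by
      rw [univ_sum_single]
    have a2 : bd E (ψ x) ≤ ∑ i, n * (C i * δ) := by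
      rw [a1]
      refine (s2 _ _).trans (sum_le_sum fun i _ => (s1 i (x i)).trans ?_)
      exact Nat.mul_le_mul_right _ (mem_range.1 (Fintype.mem_piFinset.1 hx i)).le
    rw [← mul_sum, ← sum_mul] at a2
    calc 2 * bd E (ψ x) ≤ 2 * (n * ((∑ i, C i) * δ)) := Nat.mul_le_mul_left _ a2
      _ ≤ 2 * (n * (c * δ)) := by gcongr; omega
      _ = δ * (2 * (c * n)) := by ring
      _ ≤ E.card := d2
  have s4 : ∀ g ∈ E, X.card ≤ (X.filter fun x => ψ x * g ∉ E).card + E.card := by
    intro g _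
    have a1 : (X.filter fun x => ψ x * g ∈ E).card ≤ E.card :=
      card_le_card_of_injOn (fun x => ψ x * g) (fun x hx => (mem_filter.1 hx).2)
        ((mul_left_injective g).comp hψi).injOn
    have a2 := card_filter_add_card_filter_not (s := X) fun x => ψ x * g ∈ E
    omega
  have s5 : ∑ g ∈ E, (X.filter fun x => ψ x * g ∉ E).card = ∑ x ∈ X, bd E (ψ x) := by
    simp only [bd, card_filter]
    rw [sum_comm]
  have s6 := sum_le_sum s4
  rw [sum_add_distrib, s5, sum_const, sum_const, smul_eq_mul, smul_eq_mul] at s6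
  have s7 := sum_le_sum s3
  rw [← mul_sum, sum_const, smul_eq_mul] at s7
  rw [← hXc]
  refine Nat.le_of_mul_le_mul_left ?_ hE0
  have e1 : E.card * (2 * E.card) = 2 * (E.card * E.card) := by ring
  have e2 : X.card * E.card = E.card * X.card := by ring
  omega

end Pool.Agent.P.MP_0b0f5a_al.Fo
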