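import Pool.Agent.P.MP_0b0f5a_al.Fo.Model

/-!
Inside one run, short words move every portrait to many different portraits.
-/

namespace Pool.Agent.P.MP_0b0f5a_al.Fo

open Finset

/-- The permutation `g` moves `β` by at most `n` times what `a` does. -/
private def Cheap {m : ℕ} (β : W m → ℝ) (n : ℕ) (g : Equiv.Perm (W m)) : Prop :=
  l1 univ β (fun x => β (g x)) ≤ n * l1 univ β fun x => β (aA m x)

private lemma cheap_one {m : ℕ} (β : W m → ℝ) : Cheap β 0 1 := by
  simp [Cheap, l1]

private lemma cheap_a {m : ℕ} (β : W m → ℝ) : Cheap β 1 (aA m) := by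
  simp [Cheap]

private lemma cheap_s {m : ℕ} {ω : ℕ → Fin 3} {β : W m → ℝ} (hβ : Meas ω m β) (k : Fin 3) :
    Cheap β 0 (aS k m ω) := by
  simp [Cheap, l1, hβ.inv]

private lemma cheap_mul {m : ℕ} {β : W m → ℝ} {n n' : ℕ} {g g' : Equiv.Perm (W m)}
    (h : Cheap β n g) (h' : Cheap β n' g') : Cheap β (n + n') (g * g') := by
  unfold Cheap at *
  have h1 := l1_triangle univ β (fun x => β (g' x)) (fun x => β ((g * g') x))
  have h2 : l1 univ (fun x => β (g' x)) (fun x => β ((g * g') x)) =
      l1 univ β (fun x => β (g x)) := by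
    unfold l1
    exact Equiv.sum_comp g' (fun y => |β y - β (g y)|)
  rw [Nat.cast_add, add_mul]
  linarith

private lemma cheap_mono {m : ℕ} {β : W m → ℝ} {n n' : ℕ} {g : Equiv.Perm (W m)}
    (h : Cheap β n g) (hn : n ≤ n') : Cheap β n' g := by
  unfold Cheap at *
  refine h.trans (mul_le_mul_of_nonneg_right (by exact_mod_cast hn) (l1_nonneg _ _ _))

private lemma family {m : ℕ} {ω : ℕ → Fin 3} {β : W m → ℝ} (hβ : Meas ω m β) {ι : Type}
    [Fintype ι] [Nonempty ι] (g : ι → Equiv.Perm (W m)) (n : ℕ) (hc : ∀ j, Cheap β n (g j))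
    (hi : ∀ x, Function.Injective fun j => g j x) :
    ∃ γ : W m → ℝ, (∀ x, 0 ≤ γ x) ∧ ∑ x, γ x = 1 ∧ (∀ x, γ x ≤ 1 / (Fintype.card ι : ℝ)) ∧
      l1 univ β γ ≤ n * l1 univ β fun x => β (aA m x) := by
  classical
  have hS : (0 : ℝ) < Fintype.card ι := by exact_mod_cast Fintype.card_pos
  refine ⟨fun x => (∑ j, β (g j x)) / Fintype.card ι, fun x => ?_, ?_, fun x => ?_, ?_⟩
  · exact div_nonneg (sum_nonneg fun j _ => hβ.nonneg _) hS.le
  · rw [← sum_div, sum_comm]
    have : ∀ j, ∑ x, β (g j x) = 1 := fun j => (Equiv.sum_comp (g j) β).trans hβ.total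
    simp only [this, sum_const, card_univ, nsmul_eq_mul, mul_one]
    exact div_self hS.ne'
  · refine div_le_div_of_nonneg_right ?_ hS.le
    rw [← hβ.total, ← sum_image (s := univ) (g := fun j => g j x) (f := β)
      (fun a _ b _ h => hi x h)]
    exact sum_le_sum_of_subset_of_nonneg (subset_univ _) fun y _ _ => hβ.nonneg y
  · have h1 : l1 univ β (fun x => (∑ j, β (g j x)) / Fintype.card ι) ≤
        (∑ j, l1 univ β fun x => β (g j x)) / Fintype.card ι := by
      unfold l1
      rw [sum_comm, sum_div]
      refine sum_le_sum fun x _ => ?_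
      have e : β x - (∑ j, β (g j x)) / Fintype.card ι =
          (∑ j, (β x - β (g j x))) / Fintype.card ι := by
        rw [sum_sub_distrib, sum_const, card_univ, nsmul_eq_mul]
        field_simp
      rw [e, abs_div, abs_of_pos hS]
      exact div_le_div_of_nonneg_right (abs_sum_le_sum_abs _ _) hS.le
    refine h1.trans ?_
    rw [div_le_iff₀ hS]
    calc ∑ j, l1 univ β (fun x => β (g j x))
        ≤ ∑ _j : ι, n * l1 univ β fun x => β (aA m x) := sum_le_sum fun j _ => hc j
      _ = _ := by rw [sum_const, card_univ, nsmul_eq_mul]; ring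

/-! Short runs. -/

private def evO : Option (Fin 3) → V
  | none => 0
  | some k => ev k

private lemma evO_inj : Function.Injective evO := by decide

private def sV (m : ℕ) (ω : ℕ → Fin 3) : Option (Fin 3) → Equiv.Perm (W m)
  | none => 1
  | some k => aS k m ω

private def tri (m : ℕ) (x : W (m + 1)) : Bool × V × V := (x.2.2, gs m x.1, gs m x.2.1)

private lemma tri_a (m : ℕ) (x : W (m + 1)) :
    tri m (aA (m + 1) x) = (!(tri m x).1, (tri m x).2) := rfl

private lemma tri_s (m : ℕ) (ω : ℕ → Fin 3) (o : Option (Fin 3)) (x : W (m + 1)) :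
    tri m (sV (m + 1) ω o x) = ((tri m x).1, (tri m x).2.1 + (if (tri m x).1 then evO o else 0),
      (tri m x).2.2 + (if (tri m x).1 then 0 else evO o)) := by
  obtain ⟨x, y, _ | _⟩ := x
  · cases o with
    | none =>
      change tri m (x, y, false) = _
      simp [evO, tri]
    | some k =>
      change tri m (aS k (m + 1) ω (x, y, false)) = _
      rw [aS_false]
      simp [tri, evO, gs_aS, gs_ite]
  · cases o with
    | none =>
      change tri m (x, y, true) = _
      simp [evO, tri]
    | some k =>
      change tri m (aS k (m + 1) ω (x, y, true)) = _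
      rw [aS_true]
      simp [tri, evO, gs_aS, gs_ite]

private def gsm (m : ℕ) (ω : ℕ → Fin 3) (j : Option (Fin 3) × Option (Fin 3) × Bool) :
    Equiv.Perm (W (m + 1)) :=
  sV (m + 1) ω j.1 * aA (m + 1) * sV (m + 1) ω j.2.1 * (if j.2.2 then aA (m + 1) else 1)

private lemma gsm_cheap {m : ℕ} {ω : ℕ → Fin 3} {β : W (m + 1) → ℝ} (hβ : Meas ω (m + 1) β)
    (j : Option (Fin 3) × Option (Fin 3) × Bool) : Cheap β 2 (gsm m ω j) := by
  have hs : ∀ o, Cheap β 0 (sV (m + 1) ω o) := by
    intro o
    cases o with
    | none => exact cheap_one β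
    | some k => exact cheap_s hβ k
  have h4 : Cheap β 1 (if j.2.2 then aA (m + 1) else 1) := by
    split_ifs
    · exact cheap_a β
    · exact cheap_mono (cheap_one β) (by norm_num)
  exact cheap_mul (cheap_mul (cheap_mul (hs _) (cheap_a β)) (hs _)) h4

private lemma gsm_inj (m : ℕ) (ω : ℕ → Fin 3) (x : W (m + 1)) :
    Function.Injective fun j => gsm m ω j x := by
  rintro ⟨o1, o2, σ⟩ ⟨p1, p2, τ⟩ h
  have h' := congrArg (tri m) h
  simp only [gsm, Equiv.Perm.mul_apply, tri_s, tri_a] at h'
  have key : ∀ ρ : Bool, tri m ((if ρ then aA (m + 1) else 1) x) =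
      (xor ρ (tri m x).1, (tri m x).2) := by
    intro ρ
    cases ρ
    · simp
    · simp [tri_a]
  rw [key, key] at h'
  generalize tri m x = c at h'
  obtain ⟨b, u, v⟩ := c
  cases b <;> cases σ <;> cases τ <;> simp [evO_inj.eq_iff] at h' ⊢ <;> tauto

/-! Long runs. -/

private def aL : List Bool → List Bool
  | [] => []
  | b :: v => (!b) :: v

private def tL : List Bool → List Bool
  | [] => []
  | false :: v => false :: aL v
  | true :: v => true :: tL v

private lemma aL_aL (v : List Bool) : aL (aL v) = v := by cases v <;> simp [aL]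

private lemma tL_tL (v : List Bool) : tL (tL v) = v := by
  induction v with
  | nil => rfl
  | cons b v ih => cases b <;> simp [tL, aL_aL, ih]

private lemma aL_len (v : List Bool) : (aL v).length = v.length := by cases v <;> simp [aL]

private lemma tL_len (v : List Bool) : (tL v).length = v.length := by
  induction v with
  | nil => rfl
  | cons b v ih => cases b <;> simp [tL, aL_len, ih]

private lemma tL_one (n : ℕ) : tL (List.replicate n true) = List.replicate n true := by
  induction n with
  | zero => rfl
  | succ n ih => simp [List.replicate_succ, tL, ih]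

private def oL (v : List Bool) : List Bool := tL (aL v)

private lemma oL_len (j : ℕ) (v : List Bool) : (oL^[j] v).length = v.length := by
  induction j with
  | zero => rfl
  | succ j ih => rw [Function.iterate_succ_apply', oL, tL_len, aL_len, ih]

private lemma oL_even (q : ℕ) (v : List Bool) : oL^[2 * q] (true :: v) = true :: oL^[q] v := by
  induction q with
  | zero => rfl
  | succ q ih =>
    rw [show 2 * (q + 1) = 2 * q + 1 + 1 by ring, Function.iterate_succ_apply',
      Function.iterate_succ_apply', ih, Function.iterate_succ_apply']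
    rfl

private lemma oL_dvd (D p : ℕ) (h : oL^[p] (List.replicate D true) = List.replicate D true) :
    2 ^ D ∣ p := by
  induction D generalizing p with
  | zero => simp
  | succ D ih =>
    rw [List.replicate_succ] at h
    rcases Nat.even_or_odd' p with ⟨q, rfl | rfl⟩
    · rw [oL_even] at h
      rw [pow_succ']
      exact Nat.mul_dvd_mul_left 2 (ih q (List.cons.inj h).2)
    · rw [Function.iterate_succ_apply', oL_even] at h
      simp [oL, aL, tL] at h

private def chiP (t : Fin 3) : (m : ℕ) → List Bool → W m → ZMod 2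
  | m, [], x => chi t (gs m x)
  | 0, _ :: _, _ => 0
  | m + 1, b :: v, x => chiP t m v (if b = x.2.2 then x.1 else x.2.1)

private lemma chiP_nil (t m) (x : W m) : chiP t m [] x = chi t (gs m x) := by
  cases m <;> rfl

private lemma chiP_cons (t m b v) (x y : W m) (σ : Bool) :
    chiP t (m + 1) (b :: v) (x, y, σ) = chiP t m v (if b = σ then x else y) := rfl

private lemma chiP_a (t m v) (x : W m) : chiP t m v (aA m x) = chiP t m (aL v) x := by
  cases v with
  | nil => rw [aL, chiP_nil, chiP_nil, gs_aA]
  | cons b v =>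
    cases m with
    | zero => rfl
    | succ m =>
      obtain ⟨x, y, σ⟩ := x
      rw [aA_succ, aL, chiP_cons, chiP_cons]
      cases b <;> cases σ <;> rfl

private lemma chiP_t {s t : Fin 3} (hst : s ≠ t) (m : ℕ) (v : List Bool) (ω : ℕ → Fin 3)
    (h : ∀ i < v.length, ω i = s) (x : W m) :
    chiP t m v (aS t m ω x) = chiP t m (tL v) x := by
  induction v generalizing m ω with
  | nil => rw [tL, chiP_nil, chiP_nil, gs_aS, chi_add, chi_ev, if_pos rfl, add_zero]
  | cons b v ih =>
    cases m with
    | zero => cases b <;> rfl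
    | succ m =>
      have h0 : ¬ ω 0 = t := by rw [h 0 (by simp)]; exact hst
      have h1 : ∀ i < v.length, sh ω i = s := fun i hi => h (i + 1) (by simpa using hi)
      obtain ⟨x, y, _ | _⟩ := x
      · rw [aS_false, if_neg h0]
        cases b
        · rw [tL, chiP_cons, chiP_cons, if_pos rfl, if_pos rfl, chiP_a]
        · rw [tL, chiP_cons, chiP_cons, if_neg (by simp), if_neg (by simp), ih _ _ h1]
      · rw [aS_true, if_neg h0]
        cases b
        · rw [tL, chiP_cons, chiP_cons, if_neg (by simp), if_neg (by simp), chiP_a]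
        · rw [tL, chiP_cons, chiP_cons, if_pos rfl, if_pos rfl, ih _ _ h1]

private lemma chiP_s {s t : Fin 3} (hst : s ≠ t) (m : ℕ) (v : List Bool) (hv : v.length ≤ m)
    (ω : ℕ → Fin 3) (h : ∀ i < v.length, ω i = s) (x : W m) :
    chiP t m v (aS s m ω x) =
      chiP t m v x + if v = List.replicate v.length true then 1 else 0 := by
  induction v generalizing m ω with
  | nil => rw [chiP_nil, chiP_nil, gs_aS, chi_add, chi_ev, if_neg hst]; rfl
  | cons b v ih =>
    cases m with
    | zero => simp at hv
    | succ m =>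
      have h0 : ω 0 = s := h 0 (by simp)
      have h1 : ∀ i < v.length, sh ω i = s := fun i hi => h (i + 1) (by simpa using hi)
      have hv' : v.length ≤ m := by simpa using hv
      have e1 : (true :: v = List.replicate (true :: v).length true) ↔
          v = List.replicate v.length true := by
        rw [List.length_cons, List.replicate_succ, List.cons.injEq]
        simp
      have e2 : ¬ (false :: v = List.replicate (false :: v).length true) := by
        rw [List.length_cons, List.replicate_succ, List.cons.injEq]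
        simp
      obtain ⟨x, y, _ | _⟩ := x
      · rw [aS_false, if_pos h0]
        cases b
        · rw [chiP_cons, chiP_cons, if_pos rfl, if_pos rfl, if_neg e2, add_zero]
        · rw [chiP_cons, chiP_cons, if_neg (by simp), if_neg (by simp), ih _ hv' _ h1]
          simp only [e1]
      · rw [aS_true, if_pos h0]
        cases b
        · rw [chiP_cons, chiP_cons, if_neg (by simp), if_neg (by simp), if_neg e2, add_zero]
        · rw [chiP_cons, chiP_cons, if_pos rfl, if_pos rfl, ih _ hv' _ h1]
          simp only [e1]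

private def word (s t : Fin 3) (m : ℕ) (ω : ℕ → Fin 3) : List Bool → Equiv.Perm (W m)
  | [] => 1
  | e :: l => aS t m ω * (if e then aS s m ω else 1) * aA m * word s t m ω l

private lemma word_cheap {m : ℕ} {ω : ℕ → Fin 3} {β : W m → ℝ} (hβ : Meas ω m β) (s t : Fin 3)
    (l : List Bool) : Cheap β l.length (word s t m ω l) := by
  induction l with
  | nil => exact cheap_one β
  | cons e l ih =>
    have h2 : Cheap β 0 (if e then aS s m ω else 1) := by
      split_ifs
      · exact cheap_s hβ s
      · exact cheap_one β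
    refine cheap_mono (cheap_mul (cheap_mul (cheap_mul (cheap_s hβ t) h2) (cheap_a β)) ih) ?_
    simp [add_comm]

private lemma chiP_word {s t : Fin 3} (hst : s ≠ t) {D m : ℕ} (hm : D ≤ m) {ω : ℕ → Fin 3}
    (h : ∀ i < D, ω i = s) (e : Bool) (l : List Bool) (v : List Bool) (hv : v.length = D)
    (x : W m) :
    chiP t m v (word s t m ω (e :: l) x) = chiP t m (aL (tL v)) (word s t m ω l x) +
      if e = true ∧ v = List.replicate D true then 1 else 0 := by
  have hl : (tL v).length = D := (tL_len v).trans hv
  simp only [word, Equiv.Perm.mul_apply]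
  rw [chiP_t hst m v ω (hv ▸ h)]
  cases e
  · simp [chiP_a]
  · rw [if_pos rfl, chiP_s hst m (tL v) (hl ▸ hm) ω (hl ▸ h), chiP_a, hl]
    have : tL v = List.replicate D true ↔ v = List.replicate D true := by
      constructor
      · intro h1
        rw [← tL_tL v, h1, tL_one]
      · intro h1
        rw [h1, tL_one]
    simp only [this, true_and]

private lemma word_inj {s t : Fin 3} (hst : s ≠ t) {D m : ℕ} (hm : D ≤ m) {ω : ℕ → Fin 3}
    (h : ∀ i < D, ω i = s) (x : W m) (l l' : List Bool) (hl : l.length = l'.length)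
    (hn : l.length ≤ 2 ^ D)
    (he : ∀ j < l.length, chiP t m (oL^[j] (List.replicate D true)) (word s t m ω l x) =
      chiP t m (oL^[j] (List.replicate D true)) (word s t m ω l' x)) : l = l' := by
  induction l generalizing l' with
  | nil => exact (List.length_eq_zero_iff.1 hl.symm).symm
  | cons e l ih =>
    cases l' with
    | nil => simp at hl
    | cons e' l' =>
      simp only [List.length_cons] at hl hn he
      have hlen : ∀ j, (oL^[j] (List.replicate D true)).length = D := fun j => by
        rw [oL_len, List.length_replicate]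
      have h1 : l = l' := by
        refine ih l' (by omega) (by omega) fun j hj => ?_
        have h2 := he (j + 1) (by omega)
        have h3 : ¬ oL^[j + 1] (List.replicate D true) = List.replicate D true := by
          intro h4
          have := Nat.le_of_dvd (by omega) (oL_dvd D _ h4)
          omega
        rw [chiP_word hst hm h e l _ (hlen _), chiP_word hst hm h e' l' _ (hlen _),
          if_neg (fun h5 => h3 h5.2), if_neg (fun h5 => h3 h5.2), add_zero, add_zero,
          Function.iterate_succ_apply', oL, tL_tL, aL_aL] at h2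
        exact h2
      subst h1
      have h2 := he 0 (by omega)
      rw [chiP_word hst hm h e l _ (hlen _), chiP_word hst hm h e' l _ (hlen _)] at h2
      have h3 := add_left_cancel h2
      cases e <;> cases e' <;> simp at h3 ⊢

theorem spread {ω : ℕ → Fin 3} {s : Fin 3} {D : ℕ} (h : ∀ i < D, ω i = s) {β : W (D + 1) → ℝ}
    (hβ : Meas ω (D + 1) β) :
    ∃ (S : ℝ) (γ : W (D + 1) → ℝ), 0 < S ∧ (∀ x, 0 ≤ γ x) ∧ ∑ x, γ x = 1 ∧ (∀ x, γ x ≤ 1 / S) ∧
      Real.log 2 / 32 * 2 ^ D ≤ Real.log (S / 16) ∧
      l1 univ β γ ≤ 2 * 2 ^ D * l1 univ β fun x => β (aA (D + 1) x) := by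
  have hlog : 0 < Real.log 2 := Real.log_pos (by norm_num)
  rcases le_or_gt D 5 with hD | hD
  · obtain ⟨γ, h1, h2, h3, h4⟩ := family hβ (gsm D ω) (2 * 2 ^ D)
      (fun j => cheap_mono (gsm_cheap hβ j) (Nat.le_mul_of_pos_right 2 (by positivity)))
      (gsm_inj D ω)
    have hc : (Fintype.card (Option (Fin 3) × Option (Fin 3) × Bool) : ℝ) = 32 := by
      simp
    refine ⟨32, γ, by norm_num, h1, h2, hc ▸ h3, ?_, by exact_mod_cast h4⟩
    have h5 : (2 : ℝ) ^ D ≤ 2 ^ 5 := pow_le_pow_right₀ (by norm_num) hD
    rw [show (32 : ℝ) / 16 = 2 by norm_num]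
    nlinarith
  · obtain ⟨t, hts⟩ : ∃ t, t ≠ s := exists_ne s
    have hst : s ≠ t := hts.symm
    obtain ⟨γ, h1, h2, h3, h4⟩ := family hβ
      (fun j : Fin (2 ^ D) → Bool => word s t (D + 1) ω (List.ofFn j)) (2 * 2 ^ D)
      (fun j => cheap_mono (word_cheap hβ s t _) (by rw [List.length_ofFn]; omega))
      (fun x j j' hj => List.ofFn_injective (word_inj hst (Nat.le_succ D) h x _ _ (by simp)
        (by simp) fun i _ => by rw [show word s t (D + 1) ω (List.ofFn j) x = _ from hj]))
    have hc : (Fintype.card (Fin (2 ^ D) → Bool) : ℝ) = 2 ^ 2 ^ D := by simp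
    refine ⟨2 ^ 2 ^ D, γ, by positivity, h1, h2, hc ▸ h3, ?_, by exact_mod_cast h4⟩
    have h5 : (2 : ℝ) ^ 6 ≤ 2 ^ D := pow_le_pow_right₀ (by norm_num) hD
    rw [Real.log_div (by positivity) (by norm_num), show (16 : ℝ) = 2 ^ 4 by norm_num,
      Real.log_pow, Real.log_pow]
    push_cast
    nlinarith

end Pool.Agent.P.MP_0b0f5a_al.Fo
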