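import Pool.Agent.P.MP_0b0f5a_al.Fo.Fun

/-!
The finite model: portraits of bounded depth with leaves in the Klein group, the action of the
generators on them, the sixteen classes, and the two inductive statements of the lower bound.
-/

namespace Pool.Agent.P.MP_0b0f5a_al.Fo

open Finset

/-- The Klein group. -/
abbrev V := ZMod 2 × ZMod 2

/-- The three non-zero elements of the Klein group. -/
def ev : Fin 3 → V := ![(1, 0), (1, 1), (0, 1)]

/-- The character of the Klein group that kills `ev k`. -/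
def chi (k : Fin 3) (v : V) : ZMod 2 := ![v.2, v.1 + v.2, v.1] k

lemma chi_add (k : Fin 3) (v w : V) : chi k (v + w) = chi k v + chi k w := by
  revert k v w; decide

lemma chi_zero (k : Fin 3) : chi k 0 = 0 := by revert k; decide

lemma chi_ev (k j : Fin 3) : chi k (ev j) = if j = k then 0 else 1 := by revert k j; decide

lemma ev_add_self (k : Fin 3) : ev k + ev k = 0 := by revert k; decide

lemma ev_third {s t k : Fin 3} (h : s ≠ t) (h1 : k ≠ s) (h2 : k ≠ t) : ev k = ev s + ev t := by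
  revert s t k; decide

lemma chi_ext {k j : Fin 3} (h : k ≠ j) {v w : V} (h1 : chi k v = chi k w)
    (h2 : chi j v = chi j w) : v = w := by
  revert k j v w; decide

/-- The shift. -/
def sh (ω : ℕ → Fin 3) : ℕ → Fin 3 := fun i => ω (i + 1)

/-- A symbol followed by a sequence. -/
def cns (s : Fin 3) (ω : ℕ → Fin 3) : ℕ → Fin 3
  | 0 => s
  | i + 1 => ω i

/-- `L` copies of a symbol followed by a sequence. -/
def pre (s : Fin 3) : ℕ → (ℕ → Fin 3) → ℕ → Fin 3
  | 0, ω => ω
  | L + 1, ω => cns s (pre s L ω)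

lemma sh_pre (s L ω) : sh (pre s (L + 1) ω) = pre s L ω := rfl

lemma pre_zero (s L ω) : pre s (L + 1) ω 0 = s := rfl

lemma pre_lt (s : Fin 3) {L i : ℕ} (ω) (h : i < L) : pre s L ω i = s := by
  induction L generalizing i with
  | zero => omega
  | succ L ih =>
    cases i with
    | zero => rfl
    | succ i => exact ih (by omega)

lemma pre_add (s : Fin 3) (L i : ℕ) (ω) : pre s L ω (i + L) = ω i := by
  induction L with
  | zero => rfl
  | succ L ih => exact ih

lemma eq_pre {s : Fin 3} {L : ℕ} {ω : ℕ → Fin 3} (h : ∀ i < L, ω i = s) :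
    ω = pre s L fun i => ω (i + L) := by
  funext i
  rcases lt_or_ge i L with h1 | h1
  · rw [pre_lt s _ h1, h i h1]
  · obtain ⟨j, rfl⟩ := Nat.exists_eq_add_of_le' h1
    rw [pre_add]

/-- Portraits of depth `m`. -/
def W : ℕ → Type
  | 0 => V
  | m + 1 => W m × W m × Bool

instance instFintypeW : (m : ℕ) → Fintype (W m)
  | 0 => inferInstanceAs (Fintype V)
  | m + 1 => letI := instFintypeW m; inferInstanceAs (Fintype (W m × W m × Bool))

instance instDecEqW : (m : ℕ) → DecidableEq (W m)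
  | 0 => inferInstanceAs (DecidableEq V)
  | m + 1 => letI := instDecEqW m; inferInstanceAs (DecidableEq (W m × W m × Bool))

/-- The action of `a`. -/
def fA : (m : ℕ) → W m → W m
  | 0, x => x
  | _ + 1, x => (x.1, x.2.1, !x.2.2)

/-- The action of `a`, or the identity. -/
def fO (p : Prop) [Decidable p] (m : ℕ) (x : W m) : W m := if p then x else fA m x

/-- The action of `b`, `c`, `d`. -/
def fS (k : Fin 3) : (m : ℕ) → (ℕ → Fin 3) → W m → W m
  | 0, _, x => (show V from x) + ev k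
  | m + 1, ω, (x, y, false) => (fO (ω 0 = k) m x, fS k m (sh ω) y, false)
  | m + 1, ω, (x, y, true) => (fS k m (sh ω) x, fO (ω 0 = k) m y, true)

lemma fA_invol (m : ℕ) : Function.Involutive (fA m) := by
  intro x
  cases m with
  | zero => rfl
  | succ m => obtain ⟨x, y, _ | _⟩ := x <;> rfl

lemma fO_invol (p : Prop) [Decidable p] (m : ℕ) : Function.Involutive (fO p m) := by
  intro x
  by_cases h : p <;> simp [fO, h, fA_invol m x]

lemma fS_invol (k : Fin 3) (m : ℕ) (ω : ℕ → Fin 3) : Function.Involutive (fS k m ω) := by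
  intro x
  induction m generalizing ω with
  | zero =>
    change (show V from x) + ev k + ev k = x
    rw [add_assoc, ev_add_self, add_zero]
  | succ m ih => obtain ⟨x, y, _ | _⟩ := x <;> simp only [fS, ih, fO_invol _ m _]

/-- The action of `a`. -/
def aA (m : ℕ) : Equiv.Perm (W m) := (fA_invol m).toPerm

/-- The action of `b`, `c`, `d`. -/
def aS (k : Fin 3) (m : ℕ) (ω : ℕ → Fin 3) : Equiv.Perm (W m) := (fS_invol k m ω).toPerm

lemma aA_zero (x : W 0) : aA 0 x = x := rfl

lemma aA_succ (m : ℕ) (x y : W m) (σ : Bool) :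
    aA (m + 1) (x, y, σ) = ((x, y, !σ) : W (m + 1)) := rfl

lemma aS_zero (k ω) (x : V) : aS k 0 ω x = (x + ev k : V) := rfl

lemma aS_false (k m ω) (x y : W m) : aS k (m + 1) ω (x, y, false) =
    ((if ω 0 = k then x else aA m x, aS k m (sh ω) y, false) : W (m + 1)) := rfl

lemma aS_true (k m ω) (x y : W m) : aS k (m + 1) ω (x, y, true) =
    ((aS k m (sh ω) x, if ω 0 = k then y else aA m y, true) : W (m + 1)) := rfl

lemma aA_aA (m) (x : W m) : aA m (aA m x) = x := fA_invol m x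

lemma aS_aS (k m ω) (x : W m) : aS k m ω (aS k m ω x) = x := fS_invol k m ω x

lemma aA_sq (m) : aA m * aA m = 1 := Equiv.ext (aA_aA m)

lemma aS_sq (k m ω) : aS k m ω * aS k m ω = 1 := Equiv.ext (aS_aS k m ω)

lemma aA_inv (m) : (aA m)⁻¹ = aA m := inv_eq_of_mul_eq_one_right (aA_sq m)

lemma aS_inv (k m ω) : (aS k m ω)⁻¹ = aS k m ω := inv_eq_of_mul_eq_one_right (aS_sq k m ω)

lemma aS_third {s t k : Fin 3} (h : s ≠ t) (h1 : k ≠ s) (h2 : k ≠ t) (m ω) (x : W m) :
    aS k m ω x = aS s m ω (aS t m ω x) := by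
  induction m generalizing ω with
  | zero =>
    change (show V from x) + ev k = (show V from x) + ev t + ev s
    rw [ev_third h h1 h2, add_assoc, add_comm (ev t)]
  | succ m ih =>
    have key : ∀ y : W m, (if ω 0 = k then y else aA m y) =
        if ω 0 = s then (if ω 0 = t then y else aA m y)
        else aA m (if ω 0 = t then y else aA m y) := by
      intro y
      have : ω 0 = k ∨ ω 0 = s ∨ ω 0 = t := by omega
      rcases this with e | e | e <;> simp [e, h, h1, h2, h.symm, h1.symm, h2.symm, aA_aA]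
    obtain ⟨x, y, _ | _⟩ := x
    · rw [aS_false, aS_false, aS_false, ih, key]
    · rw [aS_true, aS_true, aS_true, ih, key]

lemma aS_comm (s t m ω) (x : W m) : aS s m ω (aS t m ω x) = aS t m ω (aS s m ω x) := by
  by_cases h : s = t
  · rw [h]
  obtain ⟨k, h1, h2⟩ : ∃ k, k ≠ s ∧ k ≠ t := by revert s t; decide
  rw [← aS_third h h1 h2, ← aS_third (Ne.symm h) h2 h1]

/-- The sum of the leaves. -/
def gs : (m : ℕ) → W m → V
  | 0, x => x
  | m + 1, x => gs m x.1 + gs m x.2.1

lemma gs_succ (m) (x y : W m) (σ : Bool) : gs (m + 1) (x, y, σ) = gs m x + gs m y := rfl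

lemma gs_aA (m) (x : W m) : gs m (aA m x) = gs m x := by cases m <;> rfl

lemma gs_ite (p : Prop) [Decidable p] (m) (x : W m) :
    gs m (if p then x else aA m x) = gs m x := by
  split_ifs
  · rfl
  · exact gs_aA m x

lemma gs_aS (k m ω) (x : W m) : gs m (aS k m ω x) = gs m x + ev k := by
  induction m generalizing ω with
  | zero => rfl
  | succ m ih =>
    obtain ⟨x, y, _ | _⟩ := x
    · rw [aS_false, gs_succ, gs_succ, ih, gs_ite, add_assoc]
    · rw [aS_true, gs_succ, gs_succ, ih, gs_ite, add_right_comm]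

/-- The portrait of the identity. -/
def base : (m : ℕ) → W m
  | 0 => (0 : V)
  | m + 1 => (base m, base m, false)

/-- The orbit of the portrait of the identity. -/
inductive Reach (m : ℕ) (ω : ℕ → Fin 3) : W m → Prop
  | base : Reach m ω (base m)
  | a {x : W m} : Reach m ω x → Reach m ω (aA m x)
  | s (k : Fin 3) {x : W m} : Reach m ω x → Reach m ω (aS k m ω x)

lemma Reach.ind {m : ℕ} {ω : ℕ → Fin 3} {s t : Fin 3} (h : s ≠ t) {P : W m → Prop}
    (h0 : P (Fo.base m)) (hA : ∀ x, P x → P (aA m x)) (hs : ∀ x, P x → P (aS s m ω x))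
    (ht : ∀ x, P x → P (aS t m ω x)) {x : W m} (hx : Reach m ω x) : P x := by
  induction hx with
  | base => exact h0
  | a _ ih => exact hA _ ih
  | s k _ ih =>
    by_cases h1 : k = s
    · exact h1 ▸ hs _ ih
    by_cases h2 : k = t
    · exact h2 ▸ ht _ ih
    rw [aS_third h h1 h2]
    exact hs _ (ht _ ih)

lemma reach_aA {m ω} {x : W m} : Reach m ω (aA m x) ↔ Reach m ω x :=
  ⟨fun h => aA_aA m x ▸ h.a, Reach.a⟩

lemma reach_aS {k m ω} {x : W m} : Reach m ω (aS k m ω x) ↔ Reach m ω x :=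
  ⟨fun h => aS_aS k m ω x ▸ h.s k, Reach.s k⟩

/-- The sixteen classes. -/
abbrev C16 := Bool × ZMod 2 × ZMod 2 × ZMod 2

/-- The class of a portrait; `o` is the symbol of the preceding run, `n` the first symbol. -/
def cls (o n : Fin 3) (m : ℕ) (x : W (m + 1)) : C16 :=
  (x.2.2, chi o (gs m x.1), chi o (gs m x.2.1), chi n (gs (m + 1) x))

/-- The action of `a` on the classes. -/
def clA (c : C16) : C16 := (!c.1, c.2)

/-- The action of `b`, `c`, `d` on the classes. -/
def clS (o n k : Fin 3) (c : C16) : C16 :=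
  (c.1, c.2.1 + (if c.1 then chi o (ev k) else 0), c.2.2.1 + (if c.1 then 0 else chi o (ev k)),
    c.2.2.2 + chi n (ev k))

lemma cls_aA (o n m) (x : W (m + 1)) : cls o n m (aA (m + 1) x) = clA (cls o n m x) := rfl

lemma cls_aS (o n k m ω) (x : W (m + 1)) :
    cls o n m (aS k (m + 1) ω x) = clS o n k (cls o n m x) := by
  have h := gs_aS k (m + 1) ω x
  obtain ⟨x, y, _ | _⟩ := x
  · unfold cls clS
    rw [h, aS_false]
    simp [gs_aS, gs_ite, chi_add]
  · unfold cls clS
    rw [h, aS_true]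
    simp [gs_aS, gs_ite, chi_add]

/-- Probability vectors on the orbit that are invariant under `b`, `c`, `d`. -/
structure Meas (ω : ℕ → Fin 3) (m : ℕ) (β : W m → ℝ) : Prop where
  nonneg : ∀ x, 0 ≤ β x
  supp : ∀ x, β x ≠ 0 → Reach m ω x
  inv : ∀ k x, β (aS k m ω x) = β x
  total : ∑ x, β x = 1

/-- The portraits of class `c`. -/
def clF (o n : Fin 3) (m : ℕ) (c : C16) : Finset (W (m + 1)) := univ.filter fun x => cls o n m x = c

/-- The inductive statement with the chord cost. -/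
def PII (o : Fin 3) (ω : ℕ → Fin 3) (m : ℕ) (T b B : ℝ) : Prop :=
  ∀ β : W (m + 1) → ℝ, Meas ω (m + 1) β → (∀ c, ∑ x ∈ clF o (ω 0) m c, β x = 1 / 16) →
    16 * √b ≤ ∑ c : C16, √(ent (clF o (ω 0) m c) 1 B (fun x => 16 * β x) +
      T * ch2 (clF o (ω 0) m c) (fun x => 16 * β x) fun x => 16 * β (aA (m + 1) x))

/-- The inductive statement with the Huber cost. -/
def SI (ω : ℕ → Fin 3) (m : ℕ) (T Θ b B : ℝ) : Prop :=
  ∀ β w : W (m + 1) → ℝ, Meas ω (m + 1) β →
    b ≤ ent univ 8 B β + cost univ T Θ β (fun x => β (aA (m + 1) x)) w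

lemma PII.mono {o ω m T b b' B} (h : PII o ω m T b B) (hb : b' ≤ b) : PII o ω m T b' B :=
  fun β h1 h2 => le_trans (by gcongr) (h β h1 h2)

lemma SI.mono {ω m T Θ b B T' Θ' b'} (h : SI ω m T Θ b B) (hT : T ≤ T') (hΘ : Θ ≤ Θ')
    (hb : b' ≤ b) : SI ω m T' Θ' b' B := by
  intro β w h1
  refine hb.trans ((h β w h1).trans (add_le_add le_rfl (add_le_add ?_ ?_)))
  · exact mul_le_mul_of_nonneg_right hT (cQ_nonneg _ h1.nonneg (fun _ => h1.nonneg _) w)
  · exact mul_le_mul_of_nonneg_right hΘ (cL_nonneg _ _ _ _)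

/-! The coordinates attached to a run of the symbol `s` followed by the sequence `ω`. -/

/-- The elements of the dihedral group of order eight generated by `a` and `aS (ω 0)`. -/
def dd (m : ℕ) (ω : ℕ → Fin 3) (f : ℕ) : Equiv.Perm (W (m + 1)) :=
  (if f % 2 = 0 then 1 else aA (m + 1)) * (aS (ω 0) (m + 1) ω * aA (m + 1)) ^ (f / 2)

/-- The numbering of the dihedral group of order eight. -/
def jtab (c : C16) : ℕ :=
  if c.2.1 = 0 then (if c.2.2.1 = 0 then (if c.1 then 1 else 0) else (if c.1 then 6 else 7))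
  else (if c.2.2.1 = 0 then (if c.1 then 2 else 3) else (if c.1 then 5 else 4))

/-- The dihedral part of a portrait. -/
def jt (s : Fin 3) (m : ℕ) (ω : ℕ → Fin 3) (x : W (m + 1)) : ℕ := jtab (cls s (ω 0) m x)

/-- The bit of a portrait. -/
def bt (m : ℕ) (ω : ℕ → Fin 3) (x : W (m + 1)) : ZMod 2 := chi (ω 0) (gs (m + 1) x)

/-- The conjugates of the generator that the run kills. -/
def kk (s : Fin 3) (m : ℕ) (ω : ℕ → Fin 3) (j : ℕ) : Equiv.Perm (W (m + 1)) :=
  (dd m ω (2 * j + 2))⁻¹ * aS s (m + 1) ω * dd m ω (2 * j + 2)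

/-- The sums of the bits with an odd and with an even number of letters after them. -/
def hs : List (ZMod 2) → ZMod 2 × ZMod 2
  | [] => 0
  | u :: z => hs z + if z.length % 2 = 0 then (0, u) else (u, 0)

/-- The class as a function of the flag and of the bits. -/
def Cl (e : ZMod 2) (c : ZMod 2 × ZMod 2 × ZMod 2) (i : ℕ) (θ : Bool) (z : List (ZMod 2)) : C16 :=
  (xor θ (decide (i % 2 = 1)), e * ((i + 1) / 2 : ℕ) + (hs z).1 + c.1,
    e * (i / 2 : ℕ) + (hs z).2 + c.2.1, (i : ZMod 2) + c.2.2)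

/-- The coordinates `(fl, Yl)` on the portraits of depth `m + 1 + (L + 1)`. -/
structure Coord (s : Fin 3) (L m : ℕ) (ω : ℕ → Fin 3) (fl : W (m + 1 + L + 1) → ℕ × Bool)
    (Yl : W (m + 1 + L + 1) → List (W (m + 1))) (cj : ℕ → ℕ) : Prop where
  fl_lt : ∀ x, (fl x).1 < 4 * 2 ^ (L + 1)
  len : ∀ x, (Yl x).length = 2 ^ (L + 1)
  fl_a : ∀ x, fl (aA _ x) = ((fl x).1, !(fl x).2)
  Yl_a : ∀ x, Yl (aA _ x) = Yl x
  fl_t : ∀ x, (fl (aS (ω 0) _ (pre s (L + 1) ω) x)).2 = (!(fl x).2) ∧
    own (fl (aS (ω 0) _ (pre s (L + 1) ω) x)).1 (fl (aS (ω 0) _ (pre s (L + 1) ω) x)).2 %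
      (4 * 2 ^ (L + 1)) = own (fl x).1 (fl x).2 % (4 * 2 ^ (L + 1))
  Yl_t : ∀ x, Yl (aS (ω 0) _ (pre s (L + 1) ω) x) = Yl x
  fl_s : ∀ x, fl (aS s _ (pre s (L + 1) ω) x) = fl x
  Yl_s : ∀ x, ∀ q < 2 ^ (L + 1), ∀ j, own (fl x).1 (fl x).2 % (4 * 2 ^ (L + 1)) =
    (q + j * 2 ^ (L + 1)) % (4 * 2 ^ (L + 1)) →
      Yl (aS s _ (pre s (L + 1) ω) x) = togAt q (kk s m ω j) (Yl x)
  sig : ∀ x, x.2.2 = xor (fl x).2 (decide ((fl x).1 % 2 = 1))
  adm : ∀ x, Reach _ (pre s (L + 1) ω) x →
    AdmL (fun q u => Reach (m + 1) ω u ∧ jt s m ω u = cj q) (Yl x)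

end Pool.Agent.P.MP_0b0f5a_al.Fo
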