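import Pool.Agent.P.MP_0b0f5a_al.Fo.Gen
import Pool.Agent.P.MP_0b0f5a_al.Fo.Model

/-!
From the group to the portraits.
-/

namespace Pool.Agent.P.MP_0b0f5a_al.Fo

open Finset

/-- The graph of the portrait map. -/
inductive Rel_Root (m : ℕ) (ω : ℕ → Fin 3) : Γ → W m → Prop
  | one : Rel_Root m ω 1 (base m)
  | a {g : Γ} {x : W m} : Rel_Root m ω g x → Rel_Root m ω (genA * g) (aA m x)
  | s (k : Fin 3) {g : Γ} {x : W m} :
      Rel_Root m ω g x → Rel_Root m ω (genS k ω * g) (aS k m ω x)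

private lemma genS_mem (k : Fin 3) (ω : ℕ → Fin 3) : genS k ω ∈ gens ω := by
  fin_cases k <;> simp [gens]

private lemma genA_mem (ω : ℕ → Fin 3) : genA ∈ gens ω := by simp [gens]

private lemma gens_cases {ω : ℕ → Fin 3} {s : Γ} (hs : s ∈ gens ω) :
    s = genA ∨ ∃ k, s = genS k ω := by
  rcases hs with h | h | h | h
  · exact Or.inl h
  · exact Or.inr ⟨_, h⟩
  · exact Or.inr ⟨_, h⟩
  · exact Or.inr ⟨_, h⟩

private lemma rel_exists (m : ℕ) {ω : ℕ → Fin 3} {g : Γ} (hg : g ∈ grig ω) :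
    ∃ x, Rel_Root m ω g x := by
  have key : ∀ s ∈ gens ω, ∀ g : Γ, (∃ x, Rel_Root m ω g x) → ∃ x, Rel_Root m ω (s * g) x := by
    rintro s hs g ⟨x, hx⟩
    rcases gens_cases hs with rfl | ⟨k, rfl⟩
    · exact ⟨_, hx.a⟩
    · exact ⟨_, hx.s k⟩
  induction hg using Subgroup.closure_induction_left with
  | one => exact ⟨_, Rel_Root.one⟩
  | mul_left s hs g _ ih => exact key s hs g ih
  | inv_mul_cancel s hs g _ ih =>
    have : s⁻¹ = s := by
      rcases gens_cases hs with rfl | ⟨k, rfl⟩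
      · exact genA_inv
      · exact genS_inv k ω
    rw [this]
    exact key s hs g ih

private lemma rel_reach {m : ℕ} {ω : ℕ → Fin 3} {g : Γ} {x : W m} (h : Rel_Root m ω g x) :
    Reach m ω x := by
  induction h with
  | one => exact Reach.base
  | a _ ih => exact ih.a
  | s k _ ih => exact ih.s k

private lemma rel_ite {m : ℕ} {ω : ℕ → Fin 3} {g : Γ} {x : W m} (h : Rel_Root m ω g x) (p : Prop)
    [Decidable p] : Rel_Root m ω ((if p then 1 else genA) * g) (if p then x else aA m x) := by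
  split_ifs
  · rwa [one_mul]
  · exact h.a

private lemma pair_genA (u v : Γ) : pair (u, v) * genA = genA * pair (v, u) := by
  rw [← genA_conj v u, mul_assoc, mul_assoc, genA_sq, mul_one]

private lemma flip_A (σ : Bool) (p : Γ) :
    genA * ((if σ then genA else 1) * p) = (if (!σ) then genA else 1) * p := by
  cases σ
  · simp
  · simp [← mul_assoc, genA_sq]

private lemma flip_S0 (k : Fin 3) (ω : ℕ → Fin 3) (g0 g1 : Γ) :
    genS k ω * ((if false then genA else 1) * pair (g0, g1)) = (if false then genA else 1) *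
      pair ((if ω 0 = k then 1 else genA) * g0, genS k (sh ω) * g1) := by
  rw [genS_eq]
  simp only [Bool.false_eq_true, if_false, one_mul]
  exact pair_mul _ _ _ _

private lemma flip_S1 (k : Fin 3) (ω : ℕ → Fin 3) (g0 g1 : Γ) :
    genS k ω * ((if true then genA else 1) * pair (g0, g1)) = (if true then genA else 1) *
      pair (genS k (sh ω) * g0, (if ω 0 = k then 1 else genA) * g1) := by
  rw [genS_eq]
  simp only [if_true]
  rw [← mul_assoc, pair_genA, mul_assoc, pair_mul]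
  rfl

private lemma split_unique {σ τ : Bool} {g0 g1 h0 h1 : Γ}
    (h : (if σ then genA else 1) * pair (g0, g1) = (if τ then genA else 1) * pair (h0, h1)) :
    σ = τ ∧ g0 = h0 ∧ g1 = h1 := by
  have e : σ = τ := by
    have := congrArg (fun g : Γ => (g [false]).head?) h
    cases σ <;> cases τ
    · rfl
    · simp at this
    · simp at this
    · rfl
  subst e
  have := pair_inj (mul_left_cancel h)
  exact ⟨rfl, congrArg Prod.fst this, congrArg Prod.snd this⟩

private lemma rel_split {m : ℕ} {ω : ℕ → Fin 3} {g : Γ} {x : W (m + 1)}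
    (h : Rel_Root (m + 1) ω g x) :
    ∃ g0 g1, g = (if x.2.2 then genA else 1) * pair (g0, g1) ∧ Rel_Root m (sh ω) g0 x.1 ∧
      Rel_Root m (sh ω) g1 x.2.1 := by
  induction h with
  | one =>
    refine ⟨1, 1, ?_, Rel_Root.one, Rel_Root.one⟩
    change (1 : Γ) = (if false then genA else 1) * pair 1
    simp
  | @a g x _ ih =>
    obtain ⟨g0, g1, e, h0, h1⟩ := ih
    obtain ⟨x0, x1, σ⟩ := x
    exact ⟨g0, g1, by rw [e]; exact flip_A σ _, h0, h1⟩
  | @s k g x _ ih =>
    obtain ⟨g0, g1, e, h0, h1⟩ := ih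
    obtain ⟨x0, x1, _ | _⟩ := x
    · rw [aS_false]
      exact ⟨_, _, by rw [e]; exact flip_S0 k ω g0 g1, rel_ite h0 _, h1.s k⟩
    · rw [aS_true]
      exact ⟨_, _, by rw [e]; exact flip_S1 k ω g0 g1, h0.s k, rel_ite h1 _⟩

open Classical in
/-- The activity at the root. -/
noncomputable def act_Root (g : Γ) : ZMod 2 := if g [false] = [false] then 0 else 1

private lemma genS_false (k : Fin 3) (ω : ℕ → Fin 3) : genS k ω [false] = [false] := by
  rw [genS_eq, pair_false]
  split_ifs <;> simp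

private lemma genS_true (k : Fin 3) (ω : ℕ → Fin 3) : genS k ω [true] = [true] := rfl

private lemma rel_val {m : ℕ} {ω : ℕ → Fin 3} {g : Γ} {x : W m} (h : Rel_Root m ω g x) :
    g [false] = [false] ∨ g [false] = [true] := by
  induction h with
  | one => exact Or.inl rfl
  | a _ ih => rcases ih with e | e <;> simp [e]
  | s k _ ih => rcases ih with e | e <;> simp [e, genS_false, genS_true]

private lemma act_S {m : ℕ} {ω : ℕ → Fin 3} {g : Γ} {x : W m} (h : Rel_Root m ω g x)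
    (k : Fin 3) (υ : ℕ → Fin 3) : act_Root (genS k υ * g) = act_Root g := by
  rcases rel_val h with e | e <;> simp [act_Root, e, genS_false, genS_true]

private lemma act_ite {m : ℕ} {ω : ℕ → Fin 3} {g : Γ} {x : W m} (h : Rel_Root m ω g x)
    (s k : Fin 3) :
    act_Root ((if s = k then 1 else genA) * g) = act_Root g + chi s (ev k) := by
  rw [chi_ev]
  by_cases e : s = k
  · simp [e]
  · rw [if_neg e, if_neg (Ne.symm e)]
    rcases rel_val h with e | e
    · simp [act_Root, e]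
    · simp only [act_Root, Equiv.Perm.coe_mul, Function.comp_apply, e, genA_cons]
      simp only [Bool.not_true, if_true, List.cons.injEq, and_true, Bool.true_eq_false, if_false]
      decide

private lemma rel_ite0 {ω : ℕ → Fin 3} {g : Γ} {x : W 0} (h : Rel_Root 0 ω g x) (p : Prop)
    [Decidable p] : Rel_Root 0 ω ((if p then 1 else genA) * g) x := by
  split_ifs
  · rwa [one_mul]
  · exact h.a

private lemma rel_split0 {ω : ℕ → Fin 3} {g : Γ} {v : W 0} (h : Rel_Root 0 ω g v) :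
    ∃ (σ : Bool) (g0 g1 : Γ) (v0 v1 : V), g = (if σ then genA else 1) * pair (g0, g1) ∧
      Rel_Root 0 (sh ω) g0 v0 ∧ Rel_Root 0 (sh ω) g1 v1 ∧ (show V from v) = v0 + v1 ∧
      chi (ω 0) v = act_Root g0 + act_Root g1 := by
  induction h with
  | one =>
    refine ⟨false, 1, 1, 0, 0, ?_, Rel_Root.one, Rel_Root.one, (add_zero _).symm, ?_⟩
    · change (1 : Γ) = (if false then genA else 1) * pair 1
      simp
    · change chi (ω 0) 0 = _
      simp [chi_zero, act_Root]
  | a _ ih =>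
    obtain ⟨σ, g0, g1, v0, v1, e, h0, h1, e1, e2⟩ := ih
    exact ⟨!σ, g0, g1, v0, v1, by rw [e]; exact flip_A σ _, h0, h1, e1, e2⟩
  | @s k g v _ ih =>
    obtain ⟨σ, g0, g1, v0, v1, e, h0, h1, e1, e2⟩ := ih
    have e3 : chi (ω 0) (aS k 0 ω v) = chi (ω 0) v + chi (ω 0) (ev k) := chi_add _ _ _
    have e4 : (show V from aS k 0 ω v) = v0 + v1 + ev k := by rw [← e1]; rfl
    cases σ
    · refine ⟨false, _, _, v0, v1 + ev k, by rw [e]; exact flip_S0 k ω g0 g1, rel_ite0 h0 _,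
        h1.s k, by rw [e4, add_assoc], ?_⟩
      rw [e3, e2, act_ite h0, act_S h1, add_right_comm]
    · refine ⟨true, _, _, v0 + ev k, v1, by rw [e]; exact flip_S1 k ω g0 g1, h0.s k,
        rel_ite0 h1 _, by rw [e4, add_right_comm], ?_⟩
      rw [e3, e2, act_ite h1, act_S h0, add_assoc]

private lemma rel_chi (n : ℕ) : ∀ {ω : ℕ → Fin 3} {g : Γ} {v v' : W 0}, Rel_Root 0 ω g v →
    Rel_Root 0 ω g v' → chi (ω n) v = chi (ω n) v' := by
  induction n with
  | zero =>
    intro ω g v v' h h'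
    obtain ⟨σ, g0, g1, v0, v1, e, -, -, -, e2⟩ := rel_split0 h
    obtain ⟨τ, f0, f1, u0, u1, e', -, -, -, e2'⟩ := rel_split0 h'
    obtain ⟨-, rfl, rfl⟩ := split_unique (e.symm.trans e')
    rw [e2, e2']
  | succ n ih =>
    intro ω g v v' h h'
    obtain ⟨σ, g0, g1, v0, v1, e, h0, h1, e1, -⟩ := rel_split0 h
    obtain ⟨τ, f0, f1, u0, u1, e', k0, k1, e1', -⟩ := rel_split0 h'
    obtain ⟨-, rfl, rfl⟩ := split_unique (e.symm.trans e')
    have a0 : chi (ω (n + 1)) v0 = chi (ω (n + 1)) u0 := ih h0 k0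
    have a1 : chi (ω (n + 1)) v1 = chi (ω (n + 1)) u1 := ih h1 k1
    have b0 : chi (ω (n + 1)) v = chi (ω (n + 1)) (v0 + v1) := congrArg _ e1
    have b1 : chi (ω (n + 1)) v' = chi (ω (n + 1)) (u0 + u1) := congrArg _ e1'
    rw [b0, b1, chi_add, chi_add, a0, a1]

private lemma rel_fun (m : ℕ) : ∀ {ω : ℕ → Fin 3}, (∀ K, ∃ i ≥ K, ω i ≠ ω K) →
    ∀ {g : Γ} {x y : W m}, Rel_Root m ω g x → Rel_Root m ω g y → x = y := by
  induction m with
  | zero =>
    intro ω h g x y hx hy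
    obtain ⟨i, -, hi⟩ := h 0
    exact chi_ext hi (rel_chi i hx hy) (rel_chi 0 hx hy)
  | succ m ih =>
    intro ω h g x y hx hy
    have h' : ∀ K, ∃ i ≥ K, sh ω i ≠ sh ω K := by
      intro K
      obtain ⟨i, h1, h2⟩ := h (K + 1)
      obtain ⟨j, rfl⟩ : ∃ j, i = j + 1 := ⟨i - 1, by omega⟩
      exact ⟨j, by omega, h2⟩
    obtain ⟨g0, g1, e, h0, h1⟩ := rel_split hx
    obtain ⟨f0, f1, e', k0, k1⟩ := rel_split hy
    obtain ⟨e0, rfl, rfl⟩ := split_unique (e.symm.trans e')
    exact Prod.ext (ih h' h0 k0) (Prod.ext (ih h' h1 k1) e0)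

theorem root_map {ω : ℕ → Fin 3} (h : ∀ K, ∃ i ≥ K, ω i ≠ ω K) (m : ℕ) :
    ∃ Φ : Γ → W m, ∀ g ∈ grig ω, Reach m ω (Φ g) ∧ Φ (genA * g) = aA m (Φ g) ∧
      ∀ k, Φ (genS k ω * g) = aS k m ω (Φ g) := by
  classical
  have key : ∀ g : Γ, ∃ x : W m, g ∈ grig ω → Rel_Root m ω g x := by
    intro g
    by_cases hg : g ∈ grig ω
    · obtain ⟨x, hx⟩ := rel_exists m hg
      exact ⟨x, fun _ => hx⟩
    · exact ⟨base m, fun h => absurd h hg⟩
  choose Φ hΦ using key
  refine ⟨Φ, fun g hg => ⟨rel_reach (hΦ g hg), ?_, fun k => ?_⟩⟩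
  · exact rel_fun m h (hΦ _ (mul_mem (Subgroup.subset_closure (genA_mem ω)) hg)) (hΦ g hg).a
  · exact rel_fun m h (hΦ _ (mul_mem (Subgroup.subset_closure (genS_mem k ω)) hg))
      ((hΦ g hg).s k)

private lemma count_l1 {X : Type} [Fintype X] [DecidableEq X] (E : Finset Γ) (Φ : Γ → X) (s : Γ)
    (p : Equiv.Perm X) (hp : ∀ x, p (p x) = x) (hΦ : ∀ g ∈ E, Φ (s * g) = p (Φ g)) :
    ∑ x, |((E.filter fun g => Φ g = x).card : ℝ) - (E.filter fun g => Φ g = p x).card| ≤
      2 * bd E s := by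
  classical
  set b : X → ℕ := fun x => ((E.filter fun g => s * g ∉ E).filter fun g => Φ g = x).card with hb
  have h1 : ∀ x, (E.filter fun g => Φ g = x).card ≤ (E.filter fun g => Φ g = p x).card + b x := by
    intro x
    have h2 : (E.filter fun g => Φ g = x ∧ s * g ∈ E).card ≤
        (E.filter fun g => Φ g = p x).card := by
      refine card_le_card_of_injOn (s * ·) (fun g hg => ?_) (mul_right_injective _).injOn
      obtain ⟨g1, g2, g3⟩ := mem_filter.1 hg
      exact mem_filter.2 ⟨g3, by rw [hΦ g g1, g2]⟩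
    refine le_trans (card_le_card fun g hg => ?_) ((card_union_le _ _).trans (add_le_add h2 le_rfl))
    simp only [mem_filter, mem_union] at hg ⊢
    tauto
  have h3 : ∑ x, (b x : ℝ) = bd E s := by
    rw [← Nat.cast_sum, hb, bd]
    congr 1
    exact (card_eq_sum_card_fiberwise fun g _ => mem_univ (Φ g)).symm
  have h4 : ∑ x, (b (p x) : ℝ) = bd E s := by rw [← h3]; exact Equiv.sum_comp p fun x => (b x : ℝ)
  rw [two_mul]
  nth_rewrite 1 [← h3]
  rw [← h4, ← sum_add_distrib]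
  refine sum_le_sum fun x _ => ?_
  have a1 : ((E.filter fun g => Φ g = x).card : ℝ) ≤ (E.filter fun g => Φ g = p x).card + b x := by
    exact_mod_cast h1 x
  have a2 : ((E.filter fun g => Φ g = p x).card : ℝ) ≤
      (E.filter fun g => Φ g = x).card + b (p x) := by
    have := h1 (p x)
    rw [hp] at this
    exact_mod_cast this
  have a3 : (0 : ℝ) ≤ b x := Nat.cast_nonneg _
  have a4 : (0 : ℝ) ≤ b (p x) := Nat.cast_nonneg _
  rw [abs_le]
  constructor <;> linarith

theorem root_meas {ω : ℕ → Fin 3} (h : ∀ K, ∃ i ≥ K, ω i ≠ ω K) (m : ℕ) {n : ℕ} {E : Finset Γ}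
    (h1 : (E : Set Γ) ⊆ grig ω) (h2 : ∀ s ∈ gens ω, n * (2 * bd E s) < E.card) :
    ∃ β : W m → ℝ, Meas ω m β ∧ (univ.filter fun x => β x ≠ 0).card ≤ 4 * E.card ∧
      n * l1 univ β (fun x => β (aA m x)) ≤ 5 / 2 := by
  classical
  obtain ⟨Φ, hΦ⟩ := root_map h m
  have hE : (0 : ℝ) < E.card := by
    have := h2 _ (genA_mem ω)
    exact_mod_cast (by omega : 0 < E.card)
  set μ : W m → ℝ := fun x => ((E.filter fun g => Φ g = x).card : ℝ) / E.card with hμ
  have m0 : ∀ x, 0 ≤ μ x := fun x => by positivity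
  have m1 : ∑ x, μ x = 1 := by
    rw [hμ, ← sum_div, ← Nat.cast_sum, ← card_eq_sum_card_fiberwise fun g _ => mem_univ (Φ g),
      div_self hE.ne']
  have m2 : ∀ x, μ x ≠ 0 → ∃ g ∈ E, Φ g = x := by
    intro x hx
    have : (E.filter fun g => Φ g = x).Nonempty := by
      rw [nonempty_iff_ne_empty]
      intro e
      exact hx (by simp [hμ, e])
    obtain ⟨g, hg⟩ := this
    exact ⟨g, (mem_filter.1 hg).1, (mem_filter.1 hg).2⟩
  have m3 : ∀ s ∈ gens ω, ∀ p : Equiv.Perm (W m), (∀ x, p (p x) = x) →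
      (∀ g ∈ E, Φ (s * g) = p (Φ g)) → n * l1 univ μ (fun x => μ (p x)) ≤ 1 := by
    intro s hs p hp hg
    have a1 := count_l1 E Φ s p hp hg
    have a2 : (n : ℝ) * (2 * bd E s) ≤ E.card := by exact_mod_cast (h2 s hs).le
    have a3 : l1 univ μ (fun x => μ (p x)) = (∑ x, |((E.filter fun g => Φ g = x).card : ℝ) -
        (E.filter fun g => Φ g = p x).card|) / E.card := by
      rw [l1, sum_div]
      refine sum_congr rfl fun x _ => ?_
      rw [hμ, ← sub_div, abs_div, abs_of_pos hE]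
    rw [a3, ← mul_div_assoc, div_le_one hE]
    exact (mul_le_mul_of_nonneg_left a1 (Nat.cast_nonneg n)).trans a2
  have mA := m3 _ (genA_mem ω) (aA m) (aA_aA m) fun g hg => (hΦ g (h1 hg)).2.1
  have mS := fun k => m3 _ (genS_mem k ω) (aS k m ω) (aS_aS k m ω)
    fun g hg => (hΦ g (h1 hg)).2.2 k
  set β : W m → ℝ := fun x => (μ x + μ (aS 0 m ω x) + μ (aS 1 m ω x) + μ (aS 2 m ω x)) / 4 with hβ
  have b1 : ∀ x, β x ≠ 0 → (∃ g ∈ E, Φ g = x) ∨ ∃ k, ∃ g ∈ E, aS k m ω (Φ g) = x := by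
    intro x hx
    by_cases c : μ x = 0
    · have : ∃ k, μ (aS k m ω x) ≠ 0 := by
        by_contra hc
        push Not at hc
        exact hx (by simp [hβ, c, hc])
      obtain ⟨k, hk⟩ := this
      obtain ⟨g, hg, e⟩ := m2 _ hk
      exact Or.inr ⟨k, g, hg, by rw [e, aS_aS]⟩
    · exact Or.inl (m2 x c)
  have t0 : ∀ x, aS 0 m ω x = aS 1 m ω (aS 2 m ω x) :=
    aS_third (by decide) (by decide) (by decide) m ω
  have t1 : ∀ x, aS 1 m ω x = aS 0 m ω (aS 2 m ω x) :=
    aS_third (by decide) (by decide) (by decide) m ω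
  have t2 : ∀ x, aS 2 m ω x = aS 0 m ω (aS 1 m ω x) :=
    aS_third (by decide) (by decide) (by decide) m ω
  refine ⟨β, ⟨fun x => ?_, fun x hx => ?_, fun k x => ?_, ?_⟩, ?_, ?_⟩
  · have := m0 x
    have := m0 (aS 0 m ω x)
    have := m0 (aS 1 m ω x)
    have := m0 (aS 2 m ω x)
    simp only [hβ]
    linarith
  · rcases b1 x hx with ⟨g, hg, rfl⟩ | ⟨k, g, hg, rfl⟩
    · exact (hΦ g (h1 hg)).1
    · exact (hΦ g (h1 hg)).1.s k
  · have : k = 0 ∨ k = 1 ∨ k = 2 := by omega
    rcases this with rfl | rfl | rfl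
    · simp only [hβ]
      rw [aS_aS, aS_comm 1 0, aS_comm 2 0, ← t1, ← t2]; ring
    · simp only [hβ]
      rw [aS_aS, aS_comm 2 1, ← t0, ← t2]; ring
    · simp only [hβ]
      rw [aS_aS, ← t0, ← t1]; ring
  · simp only [hβ]
    rw [← sum_div, sum_add_distrib, sum_add_distrib, sum_add_distrib, Equiv.sum_comp (aS 0 m ω) μ,
      Equiv.sum_comp (aS 1 m ω) μ, Equiv.sum_comp (aS 2 m ω) μ, m1]
    norm_num
  · have : (univ.filter fun x => β x ≠ 0) ⊆ E.image Φ ∪
        univ.biUnion fun k : Fin 3 => E.image fun g => aS k m ω (Φ g) := by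
      intro x hx
      rcases b1 x (mem_filter.1 hx).2 with ⟨g, hg, e⟩ | ⟨k, g, hg, e⟩
      · exact mem_union_left _ (mem_image.2 ⟨g, hg, e⟩)
      · exact mem_union_right _ (mem_biUnion.2 ⟨k, mem_univ _, mem_image.2 ⟨g, hg, e⟩⟩)
    have a1 := (card_le_card this).trans (card_union_le _ _)
    have a2 : (univ.biUnion fun k : Fin 3 => E.image fun g => aS k m ω (Φ g)).card ≤
        3 * E.card :=
      card_biUnion_le.trans ((sum_le_sum fun k _ => card_image_le).trans (by simp))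
    have a3 : (E.image Φ).card ≤ E.card := card_image_le
    omega
  · have a1 : 4 * l1 univ μ β ≤ l1 univ μ (fun x => μ (aS 0 m ω x)) +
        l1 univ μ (fun x => μ (aS 1 m ω x)) + l1 univ μ (fun x => μ (aS 2 m ω x)) := by
      simp only [l1, mul_sum, ← sum_add_distrib]
      refine sum_le_sum fun x _ => ?_
      have c0 := abs_le.1 (le_refl |μ x - μ (aS 0 m ω x)|)
      have c1 := abs_le.1 (le_refl |μ x - μ (aS 1 m ω x)|)
      have c2 := abs_le.1 (le_refl |μ x - μ (aS 2 m ω x)|)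
      rw [← abs_of_pos (by norm_num : (0 : ℝ) < 4), ← abs_mul, abs_le]
      simp only [hβ]
      constructor <;> linarith [c0.1, c0.2, c1.1, c1.2, c2.1, c2.2]
    have a2 : l1 univ (fun x => μ (aA m x)) (fun x => β (aA m x)) = l1 univ μ β :=
      Equiv.sum_comp (aA m) fun x => |μ x - β x|
    have a3 := l1_triangle univ β μ fun x => β (aA m x)
    have a4 := l1_triangle univ μ (fun x => μ (aA m x)) fun x => β (aA m x)
    rw [l1_comm univ β μ] at a3
    rw [a2] at a4
    have hn : (0 : ℝ) ≤ n := Nat.cast_nonneg n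
    have c1 := mul_le_mul_of_nonneg_left a1 hn
    have c2 := mul_le_mul_of_nonneg_left (a3.trans (add_le_add le_rfl a4)) hn
    have := mS 0
    have := mS 1
    have := mS 2
    nlinarith

end Pool.Agent.P.MP_0b0f5a_al.Fo
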