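import Pool.Agent.P.MP_0b0f5a_al.DefsF
import Pool.Agent.P.MP_0b0f5a_al.Fo.Model

/-!
Arithmetic of the sums `resist`.
-/

namespace Pool.Agent.P.MP_0b0f5a_al.Fo

open Finset

private lemma runLen_succ_le (ω : ℕ → Fin 3) (k : ℕ) : runLen ω (k + 1) ≤ runLen ω k + 1 := by
  rw [runLen]
  split_ifs <;> omega

private lemma resist_succ (ω : ℕ → Fin 3) (D : ℕ) :
    resist ω (D + 1) = resist ω D + 2 ^ (D + runLen ω D) := by
  unfold resist
  rw [sum_range_succ]

lemma resist_succ_le (ω : ℕ → Fin 3) (D : ℕ) : resist ω (D + 1) ≤ 5 * resist ω D + 1 := by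
  cases D with
  | zero => simp [resist, runLen]
  | succ k =>
    have h1 := resist_succ ω (k + 1)
    have h2 := resist_succ ω k
    have h3 : 2 ^ (k + 1 + runLen ω (k + 1)) ≤ 2 ^ (k + runLen ω k + 2) :=
      Nat.pow_le_pow_right (by norm_num) (by have := runLen_succ_le ω k; omega)
    rw [pow_add 2 (k + runLen ω k) 2] at h3
    omega

lemma resist_succ_ge (ω : ℕ → Fin 3) (D : ℕ) : resist ω D + 2 ^ D ≤ resist ω (D + 1) := by
  rw [resist_succ]
  have h3 : 2 ^ D ≤ 2 ^ (D + runLen ω D) := Nat.pow_le_pow_right (by norm_num) (by omega)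
  omega

private lemma runLen_const {ω : ℕ → Fin 3} {s : Fin 3} {D : ℕ} (h : ∀ i < D, ω i = s) :
    ∀ k < D, runLen ω k = k := by
  intro k
  induction k with
  | zero => intro _; rfl
  | succ k ih =>
    intro hk
    rw [runLen, if_pos (by rw [h _ hk, h k (by omega)]), ih (by omega)]

lemma resist_const {ω : ℕ → Fin 3} {s : Fin 3} {D : ℕ} (h : ∀ i < D, ω i = s) :
    3 * resist ω D + 1 = 4 ^ D := by
  induction D with
  | zero => simp [resist]
  | succ D ih =>
    have h1 := ih fun i hi => h i (by omega)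
    rw [resist_succ, runLen_const h D (by omega)]
    have h2 : 2 ^ (D + D) = 4 ^ D := by
      rw [← two_mul, pow_mul]; norm_num
    rw [h2, pow_succ]
    omega

private lemma runLen_pre {ω : ℕ → Fin 3} {s : Fin 3} (h : ω 0 ≠ s) (L i : ℕ) :
    runLen (pre s L ω) (i + L) = runLen ω i := by
  induction i with
  | zero =>
    cases L with
    | zero => rfl
    | succ L =>
      have h1 : pre s (L + 1) ω (L + 1) = ω 0 := by
        have := pre_add s (L + 1) 0 ω
        rwa [zero_add] at this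
      rw [zero_add]
      show (if pre s (L + 1) ω (L + 1) = pre s (L + 1) ω L then
        runLen (pre s (L + 1) ω) L + 1 else 0) = 0
      rw [if_neg (by rw [h1, pre_lt s ω (Nat.lt_succ_self L)]; exact h)]
  | succ i ih =>
    have h1 : pre s L ω (i + L + 1) = ω (i + 1) := by
      have := pre_add s L (i + 1) ω
      rwa [show i + 1 + L = i + L + 1 by omega] at this
    rw [show i + 1 + L = i + L + 1 by omega, runLen, runLen, h1, pre_add, ih]

lemma resist_pre {ω : ℕ → Fin 3} {s : Fin 3} (h : ω 0 ≠ s) (L D : ℕ) :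
    3 * resist (pre s L ω) (D + L) + 1 = 4 ^ L + 3 * 2 ^ L * resist ω D := by
  induction D with
  | zero =>
    rw [zero_add, resist_const (s := s) fun i hi => pre_lt s ω hi]
    simp [resist]
  | succ D ih =>
    rw [show D + 1 + L = D + L + 1 by omega, resist_succ, resist_succ, runLen_pre h,
      show D + L + runLen ω D = L + (D + runLen ω D) by omega, pow_add 2 L, mul_add, mul_add]
    have : 3 * (2 ^ L * 2 ^ (D + runLen ω D)) = 3 * 2 ^ L * 2 ^ (D + runLen ω D) := by ring
    omega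

lemma run_cases (ω : ℕ → Fin 3) (D : ℕ) :
    (∀ i < D, ω i = ω 0) ∨
      ∃ L m ω', D = m + 1 + L ∧ ω = pre (ω 0) (L + 1) ω' ∧ ω' 0 ≠ ω 0 := by
  classical
  by_cases h : ∀ i < D, ω i = ω 0
  · exact Or.inl h
  right
  push Not at h
  have hex : ∃ i, i < D ∧ ω i ≠ ω 0 := h
  obtain ⟨h1, h2⟩ := Nat.find_spec hex
  have h3 : ∀ i < Nat.find hex, ω i = ω 0 := by
    intro i hi
    by_contra hne
    exact Nat.find_min hex hi ⟨by omega, hne⟩
  obtain ⟨j, hj⟩ : ∃ j, Nat.find hex = j := ⟨_, rfl⟩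
  rw [hj] at h1 h2 h3
  cases j with
  | zero => exact absurd rfl h2
  | succ L =>
    refine ⟨L, D - (L + 1), fun i => ω (i + (L + 1)), by omega, eq_pre h3, ?_⟩
    simpa using h2

lemma run_split (ω : ℕ → Fin 3) {D : ℕ} (hD : 1 ≤ D) :
    ∃ L m ω', D = m + 1 + L ∧ ω = pre (ω 0) (L + 1) ω' ∧
      3 * resist ω D + 1 = 4 ^ (L + 1) + 3 * 2 ^ (L + 1) * resist ω' m := by
  rcases run_cases ω D with h | ⟨L, m, ω', h1, h2, h3⟩
  · obtain ⟨L, rfl⟩ : ∃ L, D = L + 1 := ⟨D - 1, by omega⟩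
    refine ⟨L, 0, fun i => ω (i + (L + 1)), by omega, eq_pre h, ?_⟩
    rw [resist_const h]
    simp [resist]
  · refine ⟨L, m, ω', h1, h2, ?_⟩
    have := resist_pre h3 (L + 1) m
    rw [← h2, show m + (L + 1) = D by omega] at this
    exact this

end Pool.Agent.P.MP_0b0f5a_al.Fo
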