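import Pool.Agent.P.MP_0b0f5a_al.Fo.UStep
import Pool.Agent.P.MP_0b0f5a_al.Fo.Res

/-!
The upper bound.
-/

namespace Pool.Agent.P.MP_0b0f5a_al.Fo

open Finset

private lemma ub_iter {ω : ℕ → Fin 3} {r : ℝ} {m : ℕ} (H : UB ω r (5 * 2 ^ m - 2)) (hr : 2 ≤ r)
    (s : Fin 3) (l : ℕ) : UB (pre s l ω) (2 ^ l * r) (5 * 2 ^ (m + l) - 2) := by
  induction l with
  | zero => simpa [pre] using H
  | succ l ih =>
    have h1 : (1 : ℝ) ≤ 2 ^ l := one_le_pow₀ one_le_two
    have h2 := ub_step (r' := 2 ^ (l + 1) * r) ih (by nlinarith) s 0 fun x _ _ hx =>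
      ⟨fun _ => 1, by simp [Q0], by
        simp only [Q0, Q1, pow_zero, sum_range_one, Nat.dist]
        norm_num
        rw [pow_succ]
        linarith⟩
    refine UB.mono h2 le_rfl ?_
    have h3 : 1 ≤ 2 ^ (m + l) := Nat.one_le_two_pow
    rw [← add_assoc, pow_succ 2 (m + l)]
    omega

theorem ub_all (D : ℕ) (ω : ℕ → Fin 3) : UB ω (resist ω D / 256 + 2) (5 * 2 ^ D - 2) := by
  induction D using Nat.strong_induction_on generalizing ω with
  | _ D ih =>
    rcases Nat.eq_zero_or_pos D with rfl | hD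
    · simpa [resist] using ub_base ω
    obtain ⟨L, m, ω', h1, h2, h3⟩ := run_split ω hD
    have H := ih m (by omega) ω'
    have hR : (0 : ℝ) ≤ resist ω' m := Nat.cast_nonneg _
    have hr : (2 : ℝ) ≤ resist ω' m / 256 + 2 := by linarith
    have h4 : (3 : ℝ) * resist ω D + 1 = (2 ^ (L + 1)) ^ 2 + 3 * 2 ^ (L + 1) * resist ω' m := by
      rw [← pow_mul, mul_comm (L + 1) 2, pow_mul]
      norm_num
      exact_mod_cast h3
    generalize (resist ω D : ℝ) = R at h4 ⊢
    rw [h2]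
    by_cases hL : 7 ≤ L
    · have hh : 128 ≤ 2 ^ L := Nat.pow_le_pow_right (n := 2) (by norm_num) hL
      refine UB.mono (ub_step H hr (ω 0) L fun x a b c => unum hh a b c) ?_ ?_
      · have hh' : (128 : ℝ) ≤ 2 ^ L := by exact_mod_cast hh
        push_cast
        rw [pow_succ 2 L] at h4
        generalize (2 : ℝ) ^ L = h at h4 hh' ⊢
        nlinarith
      · have a1 : L + 1 < 2 ^ (L + 1) := Nat.lt_two_pow_self
        have a2 : 1 ≤ 2 ^ m := Nat.one_le_two_pow
        rw [h1, show m + 1 + L = (L + 1) + m by omega, pow_add 2 (L + 1) m, Nat.mul_sub,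
          show 2 ^ (L + 1) * (5 * 2 ^ m) = 5 * (2 ^ (L + 1) * 2 ^ m) by ring]
        have a3 : 2 ^ (L + 1) * 1 ≤ 2 ^ (L + 1) * 2 ^ m := Nat.mul_le_mul_left _ a2
        omega
    · refine UB.mono (ub_iter H hr (ω 0) (L + 1)) ?_ (by rw [h1, add_assoc, add_comm 1 L])
      have a1 : (2 : ℝ) ^ (L + 1) ≤ 2 ^ 7 := pow_le_pow_right₀ one_le_two (by omega)
      have a2 : (1 : ℝ) ≤ 2 ^ (L + 1) := one_le_pow₀ one_le_two
      generalize (2 : ℝ) ^ (L + 1) = h at h4 a1 a2 ⊢
      nlinarith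

theorem ub_folner {ω : ℕ → Fin 3} {r : ℝ} {M : ℕ} (H : UB ω r M) {n : ℕ} (hn : 1 ≤ n)
    (hr : 64 * (n : ℝ) ^ 2 < r) :
    ∃ E : Finset Γ, (E : Set Γ) ⊆ grig ω ∧ (∀ s ∈ gens ω, n * (2 * bd E s) < E.card) ∧
      E.card ≤ 2 ^ M := by
  classical
  obtain ⟨Z, _, Φ, A, S, β, -, hA, hS, hΦ, h1, hc, h2⟩ := H
  have hn' : (1 : ℝ) ≤ n := by exact_mod_cast hn
  have hn0 : (0 : ℝ) < n := by linarith
  have h3 : ∑ z, β (A z) ^ 2 = 1 := by rw [← h1]; exact Equiv.sum_comp A fun z => β z ^ 2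
  set g := ∑ z, β z * β (A z) with hg
  have e1 : ∑ z, (β z - β (A z)) ^ 2 = 2 - 2 * g := by
    simp only [sub_sq, sum_add_distrib, sum_sub_distrib, mul_assoc, ← mul_sum]
    rw [h1, h3]; ring
  have e2 : ∑ z, (β z + β (A z)) ^ 2 = 2 + 2 * g := by
    simp only [add_sq, sum_add_distrib, mul_assoc, ← mul_sum]
    rw [h1, h3]; ring
  have g1 : 0 ≤ 2 - 2 * g := e1 ▸ sum_nonneg fun _ _ => sq_nonneg _
  have g2 : 64 * (n : ℝ) ^ 2 * (1 - g) < 2 := by
    rcases (show 0 ≤ 1 - g by linarith).eq_or_lt with h | h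
    · rw [← h]; norm_num
    · exact (mul_lt_mul_of_pos_right hr h).trans_le h2
  have hmem : ∀ s ∈ gens ω, s ∈ grig ω := fun s hs => Subgroup.subset_closure hs
  obtain ⟨E, E1, E2, E3⟩ := folner_of_weight (Z := Γ) (ι := Option (Fin 3)) (grig ω)
    (fun o => o.elim genA fun k => genS k ω)
    (by
      rintro (_ | k)
      · exact hmem _ (by simp [gens])
      · refine hmem _ ?_
        fin_cases k <;> simp [gens])
    (1 / (2 * n)) (univ.filter fun z => β z ≠ 0) (fun z => β z ^ 2) (fun _ => sq_nonneg _)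
    (fun z hz => by
      have : β z = 0 := by simpa using hz
      simp [this])
    (fun o => o.elim A fun k => S k)
    (by
      rintro (_ | k)
      · exact A.injective
      · exact (S k).injective)
    Φ
    (by
      rintro (_ | k) z hz
      · exact hA z
      · exact hΦ k z (mem_filter.1 hz).2)
    (B := 1)
    (fun z _ => ⟨{1}, by simp, fun x => by
      rw [mem_singleton, smul_eq_mul, mul_eq_right]
      exact ⟨fun h => ⟨h ▸ one_mem _, h⟩, fun h => h.2⟩⟩)
    (by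
      have a1 : ∑ z ∈ univ.filter fun z => β z ≠ 0, β z ^ 2 = 1 := by
        rw [← h1]
        refine sum_subset (filter_subset _ _) fun z _ hz => ?_
        have : β z = 0 := by simpa using hz
        simp [this]
      rw [a1, Fintype.sum_option]
      simp only [Option.elim, hS, sub_self, max_self, sum_const_zero, add_zero, mul_one]
      have a2 : ∑ z ∈ univ.filter fun z => β z ≠ 0, max (β z ^ 2 - β (A z) ^ 2) 0 ≤
          ∑ z, (4 * n * (β z - β (A z)) ^ 2 + 1 / (16 * n) * (β z + β (A z)) ^ 2) := by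
        refine (sum_le_sum_of_subset_of_nonneg (filter_subset _ _)
          fun _ _ _ => le_max_right _ _).trans (sum_le_sum fun z _ => max_le ?_ (by positivity))
        have b1 : 4 * n * (β z - β (A z)) ^ 2 + 1 / (16 * n) * (β z + β (A z)) ^ 2 -
            (β z ^ 2 - β (A z) ^ 2) =
            1 / (16 * n) * (8 * n * (β z - β (A z)) - (β z + β (A z))) ^ 2 := by
          field_simp; ring
        have b2 : 0 ≤ 1 / (16 * n) * (8 * n * (β z - β (A z)) - (β z + β (A z))) ^ 2 := by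
          positivity
        linarith
      rw [sum_add_distrib, ← mul_sum, ← mul_sum, e1, e2] at a2
      refine a2.trans_lt ?_
      rw [lt_div_iff₀ (by positivity)]
      have b3 : (4 * n * (2 - 2 * g) + 1 / (16 * n) * (2 + 2 * g)) * (2 * n) =
          16 * (n : ℝ) ^ 2 * (1 - g) + (1 + g) / 4 := by field_simp; ring
      rw [b3]
      linarith)
  refine ⟨E, E1, fun s hs => ?_, ?_⟩
  · obtain ⟨o, rfl⟩ : ∃ o : Option (Fin 3), s = o.elim genA fun k => genS k ω := by
      rcases hs with rfl | rfl | rfl | rfl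
      exacts [⟨none, rfl⟩, ⟨some 2, rfl⟩, ⟨some 1, rfl⟩, ⟨some 0, rfl⟩]
    have a1 := (single_le_sum
      (f := fun o : Option (Fin 3) => (bd E (o.elim genA fun k => genS k ω) : ℝ))
      (fun _ _ => Nat.cast_nonneg _) (mem_univ o)).trans_lt E2
    rw [one_div, inv_mul_eq_div, lt_div_iff₀ (by positivity)] at a1
    have a2 : (n : ℝ) * (2 * bd E (o.elim genA fun k => genS k ω)) < E.card := by linarith
    exact_mod_cast a2
  · rw [mul_one] at E3
    exact E3.trans ((card_le_univ _).trans hc)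

theorem upper (ω : ℕ → Fin 3) {n D : ℕ} (hn : 1 ≤ n) (h : 16384 * n ^ 2 ≤ resist ω D) :
    ∃ E : Finset Γ, (E : Set Γ) ⊆ grig ω ∧ (∀ s ∈ gens ω, n * (2 * bd E s) < E.card) ∧
      E.card ≤ 2 ^ (5 * 2 ^ D) := by
  have h' : (16384 : ℝ) * n ^ 2 ≤ resist ω D := by exact_mod_cast h
  obtain ⟨E, E1, E2, E3⟩ := ub_folner (ub_all D ω) hn (by linarith)
  exact ⟨E, E1, E2, E3.trans (Nat.pow_le_pow_right (by norm_num) (Nat.sub_le _ _))⟩

end Pool.Agent.P.MP_0b0f5a_al.Fo
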