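import Pool.Agent.P.MP_0b0f5a_al.Fo.Led1
import Pool.Agent.P.MP_0b0f5a_al.Fo.Root
import Pool.Agent.P.MP_0b0f5a_al.Fo.UAll
import Pool.Agent.P.MP_0b0f5a_al.Fo.EvL

/-!
The two halves of the theorem.
-/

namespace Pool.Agent.P.MP_0b0f5a_al.Fo

open Finset

theorem lower {ω : ℕ → Fin 3} (h : ∀ K, ∃ i ≥ K, ω i ≠ ω K) {n D : ℕ} {E : Finset Γ}
    (h1 : (E : Set Γ) ⊆ grig ω) (h2 : ∀ s ∈ gens ω, n * (2 * bd E s) < E.card)
    (h3 : 10 ^ 130 * resist ω (D + 1) ≤ n ^ 2) : (2 : ℝ) ^ D ≤ 4000 * Real.log (4 * E.card) := by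
  have h4 : (resist ω D : ℝ) + 2 ^ D ≤ resist ω (D + 1) := by exact_mod_cast resist_succ_ge ω D
  have h5 : (10 : ℝ) ^ 130 * resist ω (D + 1) ≤ (n : ℝ) ^ 2 := by exact_mod_cast h3
  have h6 : (0 : ℝ) < 2 ^ D := by positivity
  have h7 : (0 : ℝ) ≤ resist ω D := Nat.cast_nonneg _
  have hn : (0 : ℝ) < n := by
    rcases Nat.eq_zero_or_pos n with rfl | hn
    · simp only [Nat.cast_zero] at h5
      nlinarith
    · exact_mod_cast hn
  obtain ⟨T, hT⟩ := ledgerI (D := D) (ω := ω) (κ := n / 20000) (by positivity) (by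
    rw [div_pow, le_div_iff₀ (by positivity)]
    nlinarith)
  obtain ⟨β, b1, b2, b3⟩ := root_meas h (D + 1) h1 h2
  have k1 := hT β (fun _ => 0) b1
  have k2 := ent_le_log univ (c := 8) (B := 2 ^ D) (by norm_num) b1.nonneg b1.total b2
  have k3 : cost univ T (2 * (n / 20000) * 2 ^ D) β (fun x => β (aA (D + 1) x)) (fun _ => 0) =
      2 ^ D / 10000 * (n * l1 univ β fun x => β (aA (D + 1) x)) := by
    rw [l1_comm]
    simp only [cost, cQ, cL, l1, zero_mul, sub_zero, ne_eq, OfNat.ofNat_ne_zero, not_false_eq_true,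
      zero_pow, sum_const_zero, mul_zero, zero_add]
    ring
  rw [k3] at k1
  push_cast at k2
  have k4 := mul_le_mul_of_nonneg_left b3 (show (0 : ℝ) ≤ 2 ^ D / 10000 by positivity)
  linarith

theorem main_const {ω : ℕ → Fin 3} {K : ℕ} (h : ∀ i ≥ K, ω i = ω K)
    (h' : K = 0 ∨ ω (K - 1) ≠ ω K) : Equivalent (folner ω) fun n => n ^ 2 ^ K := by
  obtain ⟨c1, u⟩ := ev_upper h
  obtain ⟨ι, _, φ, p0, p1, p2, p3⟩ := ev_hom h h'
  obtain ⟨c2, -, l⟩ := ev_count φ p1 p2 p3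
  refine ⟨c1 + c2 + 2, fun n hn => ⟨?_, ?_⟩⟩
  · obtain ⟨E, e1, e2, e3⟩ := u n hn
    refine (folner_le e1 e2).trans (e3.trans (Nat.mul_le_mul (by omega) ?_))
    exact Nat.pow_le_pow_left (Nat.le_mul_of_pos_left _ (by omega)) _
  · obtain ⟨E0, e1, e2, -⟩ := u ((c1 + c2 + 2) * n) (Nat.mul_pos (by omega) hn)
    obtain ⟨E, -, f2, f3⟩ := folner_spec e1 e2
    have := l n hn E fun s hs => lt_of_le_of_lt
      (Nat.mul_le_mul_right _ (Nat.mul_le_mul_right _ (by omega))) (f3 s hs)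
    rw [p0, f2] at this
    exact this.trans (Nat.mul_le_mul_right _ (by omega))

private lemma le_resist (ω : ℕ → Fin 3) (D : ℕ) : D ≤ resist ω D := by
  induction D with
  | zero => exact Nat.zero_le _
  | succ D ih =>
    have := resist_succ_ge ω D
    have : 1 ≤ 2 ^ D := Nat.one_le_two_pow
    omega

private lemma resist_mono (ω : ℕ → Fin 3) : Monotone (resist ω) :=
  monotone_nat_of_le_succ fun D => le_trans (Nat.le_add_right _ _) (resist_succ_ge ω D)

private lemma resist_add (ω : ℕ → Fin 3) (D j : ℕ) :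
    resist ω (D + j) + 1 ≤ 5 ^ j * (resist ω D + 1) := by
  induction j with
  | zero => simp
  | succ j ih =>
    have := resist_succ_le ω (D + j)
    rw [← add_assoc, pow_succ', mul_assoc]
    omega

private lemma depth_spec (ω : ℕ → Fin 3) (n : ℕ) : n ^ 2 ≤ resist ω (depth ω n) :=
  Nat.sInf_mem (s := {D | n ^ 2 ≤ resist ω D}) ⟨n ^ 2, le_resist ω _⟩

private lemma depth_add (ω : ℕ → Fin 3) {n : ℕ} (hn : 1 ≤ n) (j : ℕ) :
    resist ω (depth ω n + j) + 1 ≤ 5 ^ (j + 1) * n ^ 2 := by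
  have h1 := depth_spec ω n
  obtain h0 | ⟨d, hd⟩ : depth ω n = 0 ∨ ∃ d, depth ω n = d + 1 := by
    rcases depth ω n with _ | d
    · exact Or.inl rfl
    · exact Or.inr ⟨d, rfl⟩
  · rw [h0] at h1
    have : 0 < n ^ 2 := by positivity
    simp only [resist, range_zero, sum_empty] at h1
    omega
  · have h2 : d ∉ {D | n ^ 2 ≤ resist ω D} := Nat.notMem_of_lt_sInf (by
      change d < depth ω n
      omega)
    have h3 : resist ω d + 1 ≤ n ^ 2 := Nat.succ_le_of_lt (not_le.1 h2)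
    rw [hd, add_assoc, add_comm 1 j]
    exact (resist_add ω d (j + 1)).trans (Nat.mul_le_mul_left _ h3)

theorem main_gen {ω : ℕ → Fin 3} (h : ∀ K, ∃ i ≥ K, ω i ≠ ω K) :
    Equivalent (folner ω) fun n => 2 ^ 2 ^ depth ω n := by
  have u : ∀ n, 1 ≤ n → ∃ E : Finset Γ, (E : Set Γ) ⊆ grig ω ∧
      (∀ s ∈ gens ω, n * (2 * bd E s) < E.card) ∧ E.card ≤ 2 ^ (5 * 2 ^ depth ω (128 * n)) :=
    fun n hn => upper ω hn (by
      have := depth_spec ω (128 * n)
      rwa [mul_pow] at this)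
  obtain ⟨c, hc⟩ : ∃ c : ℕ, c = 10 ^ 70 := ⟨_, rfl⟩
  have hc1 : 1500 ≤ c := by rw [hc]; norm_num
  refine ⟨c, fun n hn => ⟨?_, ?_⟩⟩
  · obtain ⟨E, e1, e2, e3⟩ := u n hn
    refine (folner_le e1 e2).trans (e3.trans (le_trans ?_ (Nat.le_mul_of_pos_left _ (by omega))))
    refine Nat.pow_le_pow_right (by norm_num) ?_
    have h1 : depth ω (128 * n) + 3 ≤ depth ω (c * n) := by
      by_contra hlt
      have h2 := resist_mono ω (show depth ω (c * n) ≤ depth ω (128 * n) + 2 by omega)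
      have h3 := depth_add ω (show 1 ≤ 128 * n by omega) 2
      have h4 := depth_spec ω (c * n)
      have h5 : (1500 * n) ^ 2 ≤ (c * n) ^ 2 :=
        Nat.pow_le_pow_left (Nat.mul_le_mul_right _ hc1) _
      rw [mul_pow] at h3 h5
      omega
    have h2 := Nat.pow_le_pow_right (show 0 < 2 by norm_num) h1
    rw [pow_add] at h2
    omega
  · obtain ⟨E0, e1, e2, -⟩ := u (c * n) (Nat.mul_pos (by omega) hn)
    obtain ⟨E, f1, f2, f3⟩ := folner_spec e1 e2
    have h1 := lower h (D := depth ω n + 12) f1 f3 (by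
      have h3 := depth_add ω hn 13
      rw [add_assoc, mul_pow, hc]
      generalize resist ω (depth ω n + (12 + 1)) = R at *
      generalize n ^ 2 = m at *
      omega)
    have hE : 0 < E.card := lt_of_le_of_lt (Nat.zero_le _) (f3 genA (by simp [gens]))
    have hE' : (0 : ℝ) < 4 * E.card := by positivity
    have h2 : ((2 ^ 2 ^ depth ω n : ℕ) : ℝ) ≤ 4 * E.card := by
      rw [← Real.log_le_log_iff (by positivity) hE']
      push_cast
      rw [Real.log_pow]
      push_cast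
      rw [pow_add] at h1
      have h3 := Real.log_two_lt_d9
      have h4 : (0 : ℝ) < 2 ^ depth ω n := by positivity
      nlinarith
    have h3 : 2 ^ 2 ^ depth ω n ≤ 4 * E.card := by exact_mod_cast h2
    rw [← f2]
    exact h3.trans (Nat.mul_le_mul_right _ (by omega))

end Pool.Agent.P.MP_0b0f5a_al.Fo
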