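import Pool.Agent.P.MP_0b0f5a_al.Fo.Base

/-!
Elementary inequalities for the truncated entropy, the chord distance and the Huber cost.
-/

namespace Pool.Agent.P.MP_0b0f5a_al.Fo

open Finset

lemma sur_nonneg (B x : ℝ) : 0 ≤ sur B x := le_max_left _ _

lemma sur_le {B : ℝ} (hB : 0 ≤ B) (x : ℝ) : sur B x ≤ B := max_le hB (min_le_right _ _)

lemma sur_anti (B : ℝ) {x y : ℝ} (hx : 0 < x) (h : x ≤ y) : sur B y ≤ sur B x :=
  max_le_max le_rfl (min_le_min (neg_le_neg (Real.log_le_log hx h)) le_rfl)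

lemma sur_mul {B B' x y : ℝ} (hB : 0 ≤ B) (hB' : 0 ≤ B') (hx : 0 < x) (hx1 : x ≤ 1) (hy : 0 < y)
    (hy1 : y ≤ 1) : sur B x + sur B' y ≤ sur (B + B') (x * y) := by
  have h1 := Real.log_nonpos hx.le hx1
  have h2 := Real.log_nonpos hy.le hy1
  unfold sur
  rw [Real.log_mul hx.ne' hy.ne', max_eq_right (le_min (by linarith) hB),
    max_eq_right (le_min (by linarith) hB')]
  refine le_max_of_le_right (le_min ?_ ?_)
  · linarith [min_le_left (-Real.log x) B, min_le_left (-Real.log y) B']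
  · linarith [min_le_right (-Real.log x) B, min_le_right (-Real.log y) B']

lemma mul_sur_lip_one {B x y : ℝ} (hB : 1 ≤ B) (hx : 0 ≤ x) (hy : 0 ≤ y) :
    x * sur B x ≤ y * sur B y + B * |x - y| := by
  have hB0 : 0 ≤ B := by linarith
  rcases le_total x y with h | h
  · rw [abs_of_nonpos (by linarith)]
    rcases hx.eq_or_lt with rfl | hx
    · have := mul_nonneg hy (sur_nonneg B y); nlinarith
    have hy' : 0 < y := hx.trans_le h
    have h3 : sur B x ≤ sur B y + (y - x) / x := by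
      have h4 : Real.log y - Real.log x ≤ (y - x) / x := by
        rw [← Real.log_div hy'.ne' hx.ne']
        have := Real.log_le_sub_one_of_pos (div_pos hy' hx)
        rw [sub_div, div_self hx.ne']; exact this
      have h5 : 0 ≤ (y - x) / x := div_nonneg (by linarith) hx.le
      unfold sur
      refine max_le (by linarith [le_max_left 0 (min (-Real.log y) B)]) ?_
      have h6 := le_max_right 0 (min (-Real.log y) B)
      rcases le_total (-Real.log y) B with h7 | h7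
      · rw [min_eq_left h7] at h6 ⊢
        linarith [min_le_left (-Real.log x) B]
      · rw [min_eq_right h7] at h6 ⊢
        linarith [min_le_right (-Real.log x) B]
    have h8 : x * sur B x ≤ x * sur B y + (y - x) := by
      have := mul_le_mul_of_nonneg_left h3 hx.le
      rwa [mul_add, mul_div_cancel₀ _ hx.ne'] at this
    have h9 := sur_nonneg B y
    nlinarith
  · rw [abs_of_nonneg (by linarith)]
    rcases hy.eq_or_lt with rfl | hy
    · have := sur_le hB0 x; nlinarith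
    have h1 := sur_anti B hy h
    have h2 := sur_le hB0 x
    have h3 := sur_nonneg B x
    nlinarith

lemma mul_sur_lip {B c x y : ℝ} (hB : 1 ≤ B) (hc : 0 < c) (hx : 0 ≤ x) (hy : 0 ≤ y) :
    x * sur B (c * x) ≤ y * sur B (c * y) + B * |x - y| := by
  have h := mul_sur_lip_one hB (mul_nonneg hc.le hx) (mul_nonneg hc.le hy)
  rw [← mul_sub, abs_mul, abs_of_pos hc] at h
  refine le_of_mul_le_mul_left ?_ hc
  nlinarith

variable {X Y : Type}

lemma ent_nonneg (s : Finset X) (c B : ℝ) {μ : X → ℝ} (h : ∀ x, 0 ≤ μ x) : 0 ≤ ent s c B μ :=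
  sum_nonneg fun x _ => mul_nonneg (h x) (sur_nonneg _ _)

lemma ent_le (s : Finset X) (c : ℝ) {B : ℝ} (hB : 0 ≤ B) {μ : X → ℝ} (h : ∀ x, 0 ≤ μ x) :
    ent s c B μ ≤ B * ∑ x ∈ s, μ x := by
  rw [mul_sum]
  exact sum_le_sum fun x _ => by rw [mul_comm]; exact mul_le_mul_of_nonneg_right (sur_le hB _) (h x)

lemma ent_lip (s : Finset X) {c B : ℝ} (hc : 0 < c) (hB : 1 ≤ B) {μ ν : X → ℝ}
    (hμ : ∀ x, 0 ≤ μ x) (hν : ∀ x, 0 ≤ ν x) : ent s c B μ ≤ ent s c B ν + B * l1 s μ ν := by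
  rw [ent, ent, l1, mul_sum, ← sum_add_distrib]
  exact sum_le_sum fun x _ => mul_sur_lip hB hc (hμ x) (hν x)

lemma ent_scale (s : Finset X) (a c B : ℝ) (μ : X → ℝ) :
    ent s c B (fun x => a * μ x) = a * ent s (c * a) B μ := by
  simp only [ent, mul_sum, mul_assoc]

lemma ent_ge (s : Finset X) {c B S : ℝ} (hc : 0 < c) {μ : X → ℝ}
    (hμ : ∀ x, 0 ≤ μ x) (h : ∀ x ∈ s, c * μ x ≤ 1 / S) :
    min (Real.log S) B * ∑ x ∈ s, μ x ≤ ent s c B μ := by
  rw [mul_sum]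
  refine sum_le_sum fun x hx => ?_
  rcases (hμ x).eq_or_lt with h0 | h0
  · rw [← h0]; simp
  rw [mul_comm]
  refine mul_le_mul_of_nonneg_left (le_trans ?_ (sur_anti B (mul_pos hc h0) (h x hx))) h0.le
  refine le_max_of_le_right (le_of_eq ?_)
  rw [one_div, Real.log_inv, neg_neg]

lemma ent_le_log (s : Finset X) {c B : ℝ} (hc : 1 ≤ c) {μ : X → ℝ} (hμ : ∀ x, 0 ≤ μ x)
    (h1 : ∑ x ∈ s, μ x = 1) {n : ℕ} (hn : (s.filter fun x => μ x ≠ 0).card ≤ n) :
    ent s c B μ ≤ Real.log n := by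
  set t := s.filter fun x => μ x ≠ 0 with ht
  have h2 : ∑ x ∈ t, μ x = 1 := by rw [ht, sum_filter_ne_zero, h1]
  have h3 : 0 < t.card := by
    rcases t.eq_empty_or_nonempty with h | h
    · rw [h] at h2; simp at h2
    · exact h.card_pos
  have h4 : (0 : ℝ) < n := by exact_mod_cast h3.trans_le hn
  have h5 : ent s c B μ = ∑ x ∈ t, μ x * sur B (c * μ x) := by
    rw [ent, ht, sum_filter_of_ne]
    intro x _ h h0; rw [h0] at h; simp at h
  have h6 : ∀ x ∈ t, μ x * sur B (c * μ x) ≤ μ x * Real.log n + (1 / n - μ x) := by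
    intro x hx
    have p0 : 0 < μ x := (hμ x).lt_of_ne' (mem_filter.1 hx).2
    have p1 : μ x ≤ 1 := h2 ▸ single_le_sum (fun y _ => hμ y) hx
    have p2 : sur B (c * μ x) ≤ -Real.log (μ x) :=
      (sur_anti B p0 (by nlinarith)).trans
        (max_le (by linarith [Real.log_nonpos p0.le p1]) (min_le_left _ _))
    have p3 := Real.log_le_sub_one_of_pos (x := 1 / (n * μ x)) (by positivity)
    rw [one_div, Real.log_inv, Real.log_mul h4.ne' p0.ne'] at p3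
    have p4 : μ x * (n * μ x)⁻¹ = 1 / n := by field_simp
    nlinarith
  rw [h5]
  refine (sum_le_sum h6).trans ?_
  rw [sum_add_distrib, ← sum_mul, h2, sum_sub_distrib, h2, sum_const, nsmul_eq_mul]
  have : (t.card : ℝ) * (1 / n) ≤ 1 := by
    rw [mul_one_div, div_le_one h4]; exact_mod_cast hn
  linarith

lemma push_nonneg [DecidableEq Y] (s : Finset X) (f : X → Y) {μ : X → ℝ} (h : ∀ x, 0 ≤ μ x)
    (y : Y) : 0 ≤ push s f μ y := sum_nonneg fun x _ => h x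

lemma sum_push [DecidableEq Y] {s : Finset X} {t : Finset Y} {f : X → Y} (hf : ∀ x ∈ s, f x ∈ t)
    (μ : X → ℝ) : ∑ y ∈ t, push s f μ y = ∑ x ∈ s, μ x := sum_fiberwise_of_maps_to hf μ

lemma sum_push_mul [DecidableEq Y] {s : Finset X} {t : Finset Y} {f : X → Y}
    (hf : ∀ x ∈ s, f x ∈ t) (μ : X → ℝ) (g : Y → ℝ) :
    ∑ y ∈ t, push s f μ y * g y = ∑ x ∈ s, μ x * g (f x) := by
  rw [← sum_fiberwise_of_maps_to hf]
  refine sum_congr rfl fun y _ => ?_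
  rw [push, sum_mul]
  exact sum_congr rfl fun x hx => by rw [(mem_filter.1 hx).2]

lemma ent_push [DecidableEq Y] {s : Finset X} {t : Finset Y} {f : X → Y} (hf : ∀ x ∈ s, f x ∈ t)
    {c : ℝ} (hc : 0 < c) (B : ℝ) {μ : X → ℝ} (hμ : ∀ x, 0 ≤ μ x) :
    ent t c B (push s f μ) ≤ ent s c B μ := by
  rw [ent, sum_push_mul hf μ fun y => sur B (c * push s f μ y)]
  refine sum_le_sum fun x hx => ?_
  rcases (hμ x).eq_or_lt with h0 | h0
  · rw [← h0]; simp
  refine mul_le_mul_of_nonneg_left (sur_anti B (mul_pos hc h0) ?_) h0.le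
  exact mul_le_mul_of_nonneg_left
    (single_le_sum (f := μ) (fun y _ => hμ y) (mem_filter.2 ⟨hx, rfl⟩)) hc.le

lemma ch2_nonneg (s : Finset X) (μ ν : X → ℝ) : 0 ≤ ch2 s μ ν := sum_nonneg fun _ _ => sq_nonneg _

lemma ch2_comm (s : Finset X) (μ ν : X → ℝ) : ch2 s μ ν = ch2 s ν μ :=
  sum_congr rfl fun _ _ => by ring

lemma ch2_eq (s : Finset X) {μ ν : X → ℝ} (hμ : ∀ x, 0 ≤ μ x) (hν : ∀ x, 0 ≤ ν x) :
    ch2 s μ ν = ∑ x ∈ s, μ x + ∑ x ∈ s, ν x - 2 * ∑ x ∈ s, √(μ x) * √(ν x) := by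
  rw [ch2, mul_sum, ← sum_add_distrib, ← sum_sub_distrib]
  refine sum_congr rfl fun x _ => ?_
  have h1 := Real.sq_sqrt (hμ x)
  have h2 := Real.sq_sqrt (hν x)
  nlinarith

lemma ch2_scale (s : Finset X) {a : ℝ} (ha : 0 ≤ a) (μ ν : X → ℝ) :
    ch2 s (fun x => a * μ x) (fun x => a * ν x) = a * ch2 s μ ν := by
  rw [ch2, ch2, mul_sum]
  refine sum_congr rfl fun x _ => ?_
  rw [Real.sqrt_mul ha, Real.sqrt_mul ha, ← mul_sub, mul_pow, Real.sq_sqrt ha]

lemma sum_sqrt_mul_le (s : Finset X) {μ ν : X → ℝ} (hμ : ∀ x, 0 ≤ μ x) (hν : ∀ x, 0 ≤ ν x) :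
    ∑ x ∈ s, √(μ x) * √(ν x) ≤ √(∑ x ∈ s, μ x) * √(∑ x ∈ s, ν x) :=
  Real.sum_sqrt_mul_sqrt_le s hμ hν

lemma ch2_push [DecidableEq Y] {s : Finset X} {t : Finset Y} {f : X → Y} (hf : ∀ x ∈ s, f x ∈ t)
    {μ ν : X → ℝ} (hμ : ∀ x, 0 ≤ μ x) (hν : ∀ x, 0 ≤ ν x) :
    ch2 t (push s f μ) (push s f ν) ≤ ch2 s μ ν := by
  rw [ch2_eq t (push_nonneg s f hμ) (push_nonneg s f hν), ch2_eq s hμ hν, sum_push hf, sum_push hf,
    ← sum_fiberwise_of_maps_to hf fun x => √(μ x) * √(ν x)]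
  have := sum_le_sum fun y (_ : y ∈ t) => sum_sqrt_mul_le (s.filter fun x => f x = y) hμ hν
  unfold push
  linarith

lemma sqrt_sum_sq_add (s : Finset X) (f g : X → ℝ) :
    √(∑ x ∈ s, (f x + g x) ^ 2) ≤ √(∑ x ∈ s, f x ^ 2) + √(∑ x ∈ s, g x ^ 2) := by
  have h1 : 0 ≤ ∑ x ∈ s, f x ^ 2 := sum_nonneg fun _ _ => sq_nonneg _
  have h2 : 0 ≤ ∑ x ∈ s, g x ^ 2 := sum_nonneg fun _ _ => sq_nonneg _
  rw [Real.sqrt_le_left (by positivity), add_sq, Real.sq_sqrt h1, Real.sq_sqrt h2]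
  have h3 := Real.sum_mul_le_sqrt_mul_sqrt s f g
  have h4 : ∑ x ∈ s, (f x + g x) ^ 2 =
      ∑ x ∈ s, f x ^ 2 + 2 * ∑ x ∈ s, f x * g x + ∑ x ∈ s, g x ^ 2 := by
    rw [mul_sum, ← sum_add_distrib, ← sum_add_distrib]
    exact sum_congr rfl fun _ _ => by ring
  rw [h4]; nlinarith

lemma chord_triangle (s : Finset X) (μ ν ξ : X → ℝ) :
    √(ch2 s μ ξ) ≤ √(ch2 s μ ν) + √(ch2 s ν ξ) := by
  have := sqrt_sum_sq_add s (fun x => √(μ x) - √(ν x)) fun x => √(ν x) - √(ξ x)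
  simpa [ch2] using this

lemma l1_nonneg (s : Finset X) (μ ν : X → ℝ) : 0 ≤ l1 s μ ν := sum_nonneg fun _ _ => abs_nonneg _

lemma l1_comm (s : Finset X) (μ ν : X → ℝ) : l1 s μ ν = l1 s ν μ :=
  sum_congr rfl fun _ _ => abs_sub_comm _ _

lemma l1_triangle (s : Finset X) (μ ν ξ : X → ℝ) : l1 s μ ξ ≤ l1 s μ ν + l1 s ν ξ := by
  rw [l1, l1, l1, ← sum_add_distrib]
  exact sum_le_sum fun _ _ => abs_sub_le _ _ _

lemma l1_le_chord (s : Finset X) {μ ν : X → ℝ} (hμ : ∀ x, 0 ≤ μ x) (hν : ∀ x, 0 ≤ ν x) :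
    l1 s μ ν ≤ √(ch2 s μ ν) * (√(∑ x ∈ s, μ x) + √(∑ x ∈ s, ν x)) := by
  have h1 : l1 s μ ν = ∑ x ∈ s, |√(μ x) - √(ν x)| * (√(μ x) + √(ν x)) := by
    refine sum_congr rfl fun x _ => ?_
    rw [← abs_of_nonneg (show 0 ≤ √(μ x) + √(ν x) by positivity), ← abs_mul]
    congr 1
    have h1 := Real.sq_sqrt (hμ x)
    have h2 := Real.sq_sqrt (hν x)
    nlinarith
  have h2 := Real.sum_mul_le_sqrt_mul_sqrt s (fun x => |√(μ x) - √(ν x)|)
    fun x => √(μ x) + √(ν x)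
  have h3 := sqrt_sum_sq_add s (fun x => √(μ x)) fun x => √(ν x)
  simp only [sq_abs, Real.sq_sqrt (hμ _), Real.sq_sqrt (hν _)] at h2 h3
  rw [h1]
  exact h2.trans (mul_le_mul_of_nonneg_left h3 (Real.sqrt_nonneg _))

lemma cQ_nonneg (s : Finset X) {μ ν : X → ℝ} (hμ : ∀ x, 0 ≤ μ x) (hν : ∀ x, 0 ≤ ν x) (w : X → ℝ) :
    0 ≤ cQ s μ ν w := sum_nonneg fun x _ => mul_nonneg (sq_nonneg _) (add_nonneg (hμ x) (hν x))

lemma cL_nonneg (s : Finset X) (μ ν w : X → ℝ) : 0 ≤ cL s μ ν w :=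
  sum_nonneg fun _ _ => abs_nonneg _

lemma l1_le_cost (s : Finset X) {μ ν : X → ℝ} (hμ : ∀ x, 0 ≤ μ x) (hν : ∀ x, 0 ≤ ν x)
    (w : X → ℝ) :
    l1 s μ ν ≤ √(cQ s μ ν w) * √(∑ x ∈ s, μ x + ∑ x ∈ s, ν x) + cL s μ ν w := by
  have h1 := sum_sqrt_mul_le s (μ := fun x => w x ^ 2 * (μ x + ν x)) (ν := fun x => μ x + ν x)
    (fun x => mul_nonneg (sq_nonneg _) (add_nonneg (hμ x) (hν x)))
    fun x => add_nonneg (hμ x) (hν x)
  rw [← sum_add_distrib]
  refine le_trans ?_ (add_le_add h1 le_rfl)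
  rw [l1, cL, ← sum_add_distrib]
  refine sum_le_sum fun x _ => ?_
  have h0 := add_nonneg (hμ x) (hν x)
  rw [Real.sqrt_mul (sq_nonneg _), Real.sqrt_sq_eq_abs, mul_assoc, Real.mul_self_sqrt h0,
    ← abs_of_nonneg h0, ← abs_mul, abs_of_nonneg h0, abs_sub_comm (μ x)]
  have := abs_add_le (w x * (μ x + ν x)) (ν x - μ x - w x * (μ x + ν x))
  simpa using this

lemma ch2_le_cost (s : Finset X) {μ ν : X → ℝ} (hμ : ∀ x, 0 ≤ μ x) (hν : ∀ x, 0 ≤ ν x)
    (w : X → ℝ) : ch2 s μ ν ≤ 4 * cQ s μ ν w + 2 * cL s μ ν w := by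
  rw [ch2, cQ, cL, mul_sum, mul_sum, ← sum_add_distrib]
  refine sum_le_sum fun x _ => ?_
  obtain ⟨a, ha, h1⟩ : ∃ a, 0 ≤ a ∧ μ x = a ^ 2 := ⟨_, Real.sqrt_nonneg _, (Real.sq_sqrt (hμ x)).symm⟩
  obtain ⟨b, hb, h2⟩ : ∃ b, 0 ≤ b ∧ ν x = b ^ 2 := ⟨_, Real.sqrt_nonneg _, (Real.sq_sqrt (hν x)).symm⟩
  rw [h1, h2, Real.sqrt_sq ha, Real.sqrt_sq hb]
  set r := |b ^ 2 - a ^ 2 - w x * (a ^ 2 + b ^ 2)| with hr
  have hr0 : 0 ≤ r := abs_nonneg _
  have h3 : |b ^ 2 - a ^ 2| ≤ |w x| * (a ^ 2 + b ^ 2) + r := by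
    have := abs_add_le (w x * (a ^ 2 + b ^ 2)) (b ^ 2 - a ^ 2 - w x * (a ^ 2 + b ^ 2))
    rw [abs_mul, abs_of_nonneg (show 0 ≤ a ^ 2 + b ^ 2 by positivity)] at this
    simpa using this
  have h4 : |b ^ 2 - a ^ 2| = |a - b| * (a + b) := by
    rw [← abs_of_nonneg (add_nonneg ha hb), ← abs_mul, abs_sub_comm]; congr 1; ring
  have h5 : |a - b| ≤ a + b := abs_le.2 ⟨by linarith, by linarith⟩
  have h6 : (a - b) ^ 2 = |a - b| ^ 2 := (sq_abs _).symm
  have h7 : w x ^ 2 = |w x| ^ 2 := (sq_abs _).symm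
  have h8 := abs_nonneg (a - b)
  have h9 := abs_nonneg (w x)
  rw [h6, h7]
  rw [h4] at h3
  generalize |a - b| = d at *
  generalize |w x| = v at *
  rcases le_total r (v * (a ^ 2 + b ^ 2)) with h | h
  · rcases (add_nonneg ha hb).eq_or_lt with h0 | h0
    · have : d = 0 := by linarith
      have p0 : 0 ≤ v ^ 2 * (a ^ 2 + b ^ 2) := by positivity
      rw [this]; linarith
    have p1 : d * (a + b) ≤ 2 * v * (a ^ 2 + b ^ 2) := by linarith
    have p2 : (d * (a + b)) ^ 2 ≤ (2 * v * (a ^ 2 + b ^ 2)) ^ 2 := by gcongr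
    have p3 : a ^ 2 + b ^ 2 ≤ (a + b) ^ 2 := by nlinarith [mul_nonneg ha hb]
    have p4 : 0 < a ^ 2 + b ^ 2 := by nlinarith [sq_nonneg (a - b)]
    have p5 : d ^ 2 * (a ^ 2 + b ^ 2) ≤ 4 * (v ^ 2 * (a ^ 2 + b ^ 2)) * (a ^ 2 + b ^ 2) := by
      nlinarith [mul_le_mul_of_nonneg_left p3 (sq_nonneg d)]
    have := le_of_mul_le_mul_right p5 p4
    linarith
  · have p1 : d ^ 2 ≤ d * (a + b) := by nlinarith
    have p2 : 0 ≤ v ^ 2 * (a ^ 2 + b ^ 2) := by positivity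
    linarith

lemma cost_push [DecidableEq Y] {s : Finset X} {t : Finset Y} {f : X → Y} (hf : ∀ x ∈ s, f x ∈ t)
    {μ ν : X → ℝ} (hμ : ∀ x, 0 ≤ μ x) (hν : ∀ x, 0 ≤ ν x) (w : X → ℝ) :
    ∃ w' : Y → ℝ, cQ t (push s f μ) (push s f ν) w' ≤ cQ s μ ν w ∧
      cL t (push s f μ) (push s f ν) w' ≤ cL s μ ν w := by
  have hS : ∀ y, push s f μ y + push s f ν y = ∑ x ∈ s with f x = y, (μ x + ν x) :=
    fun y => sum_add_distrib.symm
  have key : ∀ y, (∑ x ∈ s with f x = y, w x * (μ x + ν x)) / (push s f μ y + push s f ν y) *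
      (push s f μ y + push s f ν y) = ∑ x ∈ s with f x = y, w x * (μ x + ν x) := by
    intro y
    by_cases h0 : push s f μ y + push s f ν y = 0
    · rw [h0, mul_zero]
      rw [hS, sum_eq_zero_iff_of_nonneg fun x _ => add_nonneg (hμ x) (hν x)] at h0
      exact (sum_eq_zero fun x hx => by rw [h0 x hx, mul_zero]).symm
    · exact div_mul_cancel₀ _ h0
  refine ⟨fun y => (∑ x ∈ s with f x = y, w x * (μ x + ν x)) / (push s f μ y + push s f ν y),
    ?_, ?_⟩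
  · rw [cQ, cQ, ← sum_fiberwise_of_maps_to hf]
    refine sum_le_sum fun y _ => ?_
    have h0 : 0 ≤ push s f μ y + push s f ν y :=
      add_nonneg (push_nonneg s f hμ y) (push_nonneg s f hν y)
    rcases h0.eq_or_lt with h1 | h1
    · rw [← h1, mul_zero]
      exact sum_nonneg fun x _ => mul_nonneg (sq_nonneg _) (add_nonneg (hμ x) (hν x))
    rw [div_pow, div_mul_eq_mul_div, div_le_iff₀ (pow_pos h1 2), sq (push s f μ y + _),
      ← mul_assoc]
    refine mul_le_mul_of_nonneg_right ?_ h0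
    rw [hS]
    refine sum_sq_le_sum_mul_sum_of_sq_le_mul _
      (fun x _ => mul_nonneg (sq_nonneg _) (add_nonneg (hμ x) (hν x)))
      (fun x _ => add_nonneg (hμ x) (hν x)) fun x _ => le_of_eq (by ring)
  · rw [cL, cL, ← sum_fiberwise_of_maps_to hf]
    refine sum_le_sum fun y _ => ?_
    rw [key, push, push, ← sum_sub_distrib, ← sum_sub_distrib]
    exact abs_sum_le_sum_abs _ _

variable {U : Type} [Fintype U]

/-- The chain rule for the truncated entropy. -/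
lemma ent_chain {N : ℕ} {c B : ℝ} (hc : 0 < c) (hB : 0 ≤ B) {f : List U → ℝ} (hf : ∀ y, 0 ≤ f y)
    (h1 : c * ∑ y ∈ Wd U N, f y ≤ 1) :
    ∑ q ∈ range N, ∑ z ∈ Wd U q, marg N f z * ent univ 1 B (cnd N f z) ≤
      ent (Wd U N) c (N * B) f := by
  have key : ∀ q ≤ N, ∑ p ∈ range q, ∑ z ∈ Wd U p, marg N f z * ent univ 1 B (cnd N f z) ≤
      ent (Wd U q) c (q * B) (marg N f) := by
    intro q hq
    induction q with
    | zero => simpa using ent_nonneg _ _ _ (marg_nonneg hf)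
    | succ q ih =>
      rw [sum_range_succ]
      refine (add_le_add (ih (by omega)) le_rfl).trans ?_
      rw [ent, ent, sum_Wd_succ, ← sum_add_distrib]
      refine sum_le_sum fun z hz => ?_
      have hz' : z.length < N := by rw [mem_Wd.1 hz]; omega
      rw [ent, mul_sum]
      conv_lhs => rw [marg_cons f hz', sum_mul]
      rw [← marg_cons f hz', ← sum_add_distrib]
      refine sum_le_sum fun u _ => ?_
      rw [← mul_assoc, marg_mul_cnd hf hz', ← mul_add]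
      rcases (marg_nonneg (N := N) hf (u :: z)).eq_or_lt with h0 | h0
      · rw [← h0]; simp
      refine mul_le_mul_of_nonneg_left ?_ h0.le
      have h2 := marg_cons_le hf hz' u
      have h3 : 0 < marg N f z := h0.trans_le h2
      have h4 : c * marg N f z ≤ 1 := by
        refine le_trans (mul_le_mul_of_nonneg_left (marg_le_nil hf hz'.le) hc.le) ?_
        rwa [marg_nil]
      have h5 := sur_mul (B := q * B) (B' := B) (by positivity) hB (mul_pos hc h3) h4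
        (y := 1 * cnd N f z u) (by rw [one_mul]; exact div_pos h0 h3)
        (by rw [one_mul]; exact (div_le_one h3).2 h2)
      have h6 : c * marg N f z * (1 * cnd N f z u) = c * marg N f (u :: z) := by
        rw [one_mul, mul_assoc, marg_mul_cnd hf hz']
      rw [h6] at h5
      push_cast
      rw [add_mul, one_mul B]
      exact h5
  refine (key N le_rfl).trans (le_of_eq ?_)
  exact sum_congr rfl fun y hy => by rw [marg_full f (mem_Wd.1 hy)]

end Pool.Agent.P.MP_0b0f5a_al.Fo
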