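import Pool.Agent.P.MP_0b0f5a_al.Tree

/-!
General facts on Følner sets: boundary counts, the coarea step, passage to one orbit.
-/

namespace Pool.Agent.P.MP_0b0f5a_al.Fo

open Equiv Finset

variable {ω : ℕ → Fin 3}

open Classical in
/-- The number of points of `E` that leave `E` under `g`. -/
noncomputable def bd (E : Finset Γ) (g : Γ) : ℕ := (E.filter fun x => g * x ∉ E).card

open Classical in
lemma bd_mul (E : Finset Γ) (g h : Γ) : bd E (g * h) ≤ bd E g + bd E h := by
  have h1 : (E.filter fun x => h * x ∈ E ∧ g * (h * x) ∉ E).card ≤ bd E g :=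
    card_le_card_of_injOn (h * ·) (fun x hx => mem_filter.2 (mem_filter.1 hx).2)
      (mul_right_injective _).injOn
  refine le_trans (card_le_card fun x hx => ?_) ((card_union_le _ _).trans (add_le_add h1 le_rfl))
  simp only [mem_filter, mem_union, mul_assoc] at hx ⊢
  tauto


open Classical in
lemma coarea {Z ι : Type} [Fintype ι] (m : ι → Z → Z) (U : Finset Z) (ε : ℝ) (n : ℕ) :
    ∀ f : Z → ℝ, (U.filter fun z => 0 < f z).card ≤ n → (∀ z, 0 ≤ f z) → (∀ z ∉ U, f z = 0) →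
      ∑ s, ∑ z ∈ U, max (f z - f (m s z)) 0 < ε * ∑ z ∈ U, f z →
      ∃ A ⊆ U, ∑ s, ((A.filter fun z => m s z ∉ A).card : ℝ) < ε * A.card := by
  have h0 : ∀ f : Z → ℝ, (∀ z, 0 ≤ f z) → ∑ s, ∑ z ∈ U, max (f z - f (m s z)) 0 < ε * ∑ z ∈ U, f z →
      (U.filter fun z => 0 < f z).Nonempty := by
    intro f hf h
    by_contra hc
    rw [not_nonempty_iff_eq_empty, filter_eq_empty_iff] at hc
    rw [sum_eq_zero fun z hz => le_antisymm (not_lt.1 (hc hz)) (hf z), mul_zero] at h
    exact h.not_ge (sum_nonneg fun _ _ => sum_nonneg fun _ _ => le_max_right _ _)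
  induction n with
  | zero =>
    intro f h1 h2 _ h4
    have := (h0 f h2 h4).card_pos
    omega
  | succ n ih =>
    intro f h1 h2 h3 h4
    set A := U.filter fun z => 0 < f z with hA
    obtain ⟨z0, hz0, hmin⟩ := exists_min_image A f (h0 f h2 h4)
    by_cases hc : ∑ s, ((A.filter fun z => m s z ∉ A).card : ℝ) < ε * A.card
    · exact ⟨A, filter_subset _ _, hc⟩
    have ht : 0 < f z0 := (mem_filter.1 hz0).2
    have hout : ∀ z ∉ A, f z = 0 := fun z hz => by
      by_contra h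
      exact hz (mem_filter.2 ⟨by_contra fun h' => h (h3 z h'), (h2 z).lt_of_ne' h⟩)
    set f' : Z → ℝ := fun z => if z ∈ A then f z - f z0 else 0 with hf'
    have e1 : ∀ z, f' z = f z - if z ∈ A then f z0 else 0 := by
      intro z; simp only [hf']; split_ifs with h
      · rfl
      · rw [hout z h, sub_zero]
    refine ih f' ?_ (fun z => ?_) (fun z hz => if_neg fun h => hz (mem_filter.1 h).1) ?_
    · have : (U.filter fun z => 0 < f' z) ⊆ A.erase z0 := by
        intro z hz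
        have h5 := (mem_filter.1 hz).2
        simp only [hf'] at h5
        split_ifs at h5 with h
        · exact mem_erase.2 ⟨by rintro rfl; simp at h5, h⟩
        · simp at h5
      have h5 := card_le_card this
      rw [card_erase_of_mem hz0] at h5
      omega
    · simp only [hf']; split_ifs with h
      · exact sub_nonneg.2 (hmin z h)
      · exact le_rfl
    · have e2 : ∑ z ∈ U, f' z = ∑ z ∈ U, f z - f z0 * A.card := by
        simp only [e1, sum_sub_distrib, ← sum_filter, sum_const, nsmul_eq_mul]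
        rw [filter_mem_eq_inter, inter_eq_right.2 (filter_subset _ _), mul_comm]
      have e3 : ∀ s, ∑ z ∈ U, max (f' z - f' (m s z)) 0 ≤ ∑ z ∈ U, max (f z - f (m s z)) 0 -
          f z0 * (A.filter fun z => m s z ∉ A).card := by
        intro s
        have : f z0 * (A.filter fun z => m s z ∉ A).card =
            ∑ z ∈ U, if z ∈ A ∧ m s z ∉ A then f z0 else 0 := by
          rw [← sum_filter, sum_const, nsmul_eq_mul, mul_comm]
          congr 3
          ext z
          simp only [mem_filter, hA]; tauto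
        rw [this, ← sum_sub_distrib]
        refine sum_le_sum fun z _ => ?_
        by_cases a : z ∈ A <;> by_cases b : m s z ∈ A
        · simp [hf', a, b]
        · have := hmin z a
          simp only [hf', a, b, hout _ b, if_true, if_false, not_false_iff, and_true, sub_zero]
          rw [max_eq_left (by linarith), max_eq_left (h2 z)]
        · have := hmin _ b
          simp only [hf', a, b, if_true, if_false, false_and, sub_zero]
          rw [max_eq_right (by linarith)]; exact le_max_right _ _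
        · simp [hf', a, b]
      have e4 := sum_le_sum fun s (_ : s ∈ univ) => e3 s
      rw [sum_sub_distrib, ← mul_sum] at e4
      rw [e2]
      nlinarith [mul_le_mul_of_nonneg_left (not_lt.1 hc) ht.le]

open Classical in
lemma one_orbit {Z ι : Type} [MulAction Γ Z] [Fintype ι] (H : Subgroup Γ) (g : ι → Γ)
    (hg : ∀ s, g s ∈ H) (ε : ℝ) (A : Finset Z) :
    ∑ s, ((A.filter fun z => g s • z ∉ A).card : ℝ) < ε * A.card →
      ∃ A' ⊆ A, ∃ z0 ∈ A', (∀ z ∈ A', ∃ x ∈ H, x • z0 = z) ∧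
        ∑ s, ((A'.filter fun z => g s • z ∉ A').card : ℝ) < ε * A'.card := by
  induction A using Finset.strongInduction with
  | H A ih =>
    intro h
    obtain ⟨z0, hz0⟩ : A.Nonempty := by
      rw [nonempty_iff_ne_empty]; rintro rfl; simp at h
    set p : Z → Prop := fun z => ∃ x ∈ H, x • z0 = z with hp
    by_cases hall : ∀ z ∈ A, p z
    · exact ⟨A, subset_rfl, z0, hz0, hall, h⟩
    have hp' : ∀ s z, p (g s • z) ↔ p z := fun s z =>
      ⟨fun ⟨x, h1, h2⟩ => ⟨(g s)⁻¹ * x, mul_mem (inv_mem (hg s)) h1, by rw [mul_smul, h2]; simp⟩,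
        fun ⟨x, h1, h2⟩ => ⟨g s * x, mul_mem (hg s) h1, by rw [mul_smul, h2]⟩⟩
    set A0 := A.filter p with hA0
    set A1 := A.filter fun z => ¬ p z with hA1
    have hc : (A.card : ℝ) = A0.card + A1.card := by
      exact_mod_cast (card_filter_add_card_filter_not p).symm
    have h1 : ∀ s, ((A0.filter fun z => g s • z ∉ A0).card : ℝ) +
        (A1.filter fun z => g s • z ∉ A1).card = (A.filter fun z => g s • z ∉ A).card := by
      intro s
      rw [← card_filter_add_card_filter_not (s := A.filter fun z => g s • z ∉ A) p, Nat.cast_add]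
      congr 3 <;> ext z <;> simp only [hA0, hA1, mem_filter, hp'] <;> generalize p z = q <;> tauto
    have h2 := sum_congr rfl fun s (_ : s ∈ univ) => h1 s
    rw [sum_add_distrib] at h2
    by_cases h3 : ∑ s, ((A0.filter fun z => g s • z ∉ A0).card : ℝ) < ε * A0.card
    · obtain ⟨A', h4, h5⟩ := ih A0 (filter_ssubset.2 (by simpa using hall)) h3
      exact ⟨A', h4.trans (filter_subset _ _), h5⟩
    · obtain ⟨A', h4, h5⟩ := ih A1 (filter_ssubset.2 ⟨z0, hz0, not_not.2 ⟨1, one_mem _, one_smul _ _⟩⟩)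
        (by rw [hc] at h; linarith)
      exact ⟨A', h4.trans (filter_subset _ _), h5⟩

open Classical in
lemma folner_of_weight {Z ι Ξ : Type} [MulAction Γ Z] [Fintype ι] (H : Subgroup Γ) (g : ι → Γ)
    (hg : ∀ s, g s ∈ H) (ε : ℝ) (I : Finset Ξ) (W : Ξ → ℝ) (hW : ∀ ξ, 0 ≤ W ξ)
    (hI : ∀ ξ ∉ I, W ξ = 0) (T : ι → Ξ → Ξ) (hT : ∀ s, Function.Injective (T s)) (Φ : Ξ → Z)
    (hΦ : ∀ s, ∀ ξ ∈ I, Φ (T s ξ) = g s • Φ ξ) {B : ℕ}
    (hB : ∀ ξ ∈ I, ∃ K : Finset Γ, K.card ≤ B ∧ ∀ x, x ∈ K ↔ x ∈ H ∧ x • Φ ξ = Φ ξ)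
    (h : ∑ s, ∑ ξ ∈ I, max (W ξ - W (T s ξ)) 0 < ε * ∑ ξ ∈ I, W ξ) :
    ∃ E : Finset Γ, (E : Set Γ) ⊆ H ∧ ∑ s, (bd E (g s) : ℝ) < ε * E.card ∧ E.card ≤ I.card * B := by
  set f : Z → ℝ := fun z => ∑ ξ ∈ I.filter fun ξ => Φ ξ = z, W ξ with hf
  have hm : ∀ ξ ∈ I, Φ ξ ∈ I.image Φ := fun ξ hξ => mem_image_of_mem _ hξ
  obtain ⟨A, hA1, hA2⟩ := coarea (fun s z => g s • z) (I.image Φ) ε _ f le_rfl
    (fun z => sum_nonneg fun ξ _ => hW ξ)
    (fun z hz => sum_eq_zero fun ξ hξ => absurd ((mem_filter.1 hξ).2 ▸ hm ξ (mem_filter.1 hξ).1) hz)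
    (by
      rw [sum_fiberwise_of_maps_to hm]
      refine lt_of_le_of_lt (sum_le_sum fun s _ => ?_) h
      rw [← sum_fiberwise_of_maps_to hm]
      refine sum_le_sum fun z _ => max_le ?_ (sum_nonneg fun _ _ => le_max_right _ _)
      have h1 : ∑ ξ ∈ I.filter fun ξ => Φ ξ = z, W (T s ξ) ≤ f (g s • z) := by
        rw [← sum_image (f := W) (hT s).injOn, ← sum_filter_ne_zero]
        refine sum_le_sum_of_subset_of_nonneg (fun ξ hξ => ?_) fun _ _ _ => hW _
        obtain ⟨h2, h3⟩ := mem_filter.1 hξ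
        obtain ⟨ξ', h4, rfl⟩ := mem_image.1 h2
        obtain ⟨h5, rfl⟩ := mem_filter.1 h4
        exact mem_filter.2 ⟨by_contra fun h6 => h3 (hI _ h6), hΦ s ξ' h5⟩
      refine le_trans (sub_le_sub_left h1 _) ?_
      rw [hf, ← sum_sub_distrib]
      exact sum_le_sum fun _ _ => le_max_left _ _)
  obtain ⟨A', h1, z0, h2, h3, h4⟩ := one_orbit H g hg ε A hA2
  obtain ⟨ξ0, h5, rfl⟩ := mem_image.1 (hA1 (h1 h2))
  obtain ⟨K, k1, k2⟩ := hB ξ0 h5
  choose! r r1 r2 using h3
  set EE : Finset Z → Finset Γ := fun C => (C ×ˢ K).image fun p => r p.1 * p.2 with hEE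
  have m1 : ∀ C ⊆ A', ∀ x, x ∈ EE C ↔ x ∈ H ∧ x • Φ ξ0 ∈ C := by
    intro C hC x
    simp only [hEE, mem_image, mem_product, Prod.exists]
    constructor
    · rintro ⟨z, k, ⟨h6, h7⟩, rfl⟩
      refine ⟨mul_mem (r1 z (hC h6)) ((k2 k).1 h7).1, ?_⟩
      rwa [mul_smul, ((k2 k).1 h7).2, r2 z (hC h6)]
    · rintro ⟨h6, h7⟩
      refine ⟨_, (r (x • Φ ξ0))⁻¹ * x, ⟨h7, (k2 _).2 ⟨mul_mem (inv_mem (r1 _ (hC h7))) h6, ?_⟩⟩,
        by simp⟩
      rw [mul_smul, inv_smul_eq_iff, r2 _ (hC h7)]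
  have m2 : ∀ C ⊆ A', (EE C).card = C.card * K.card := by
    intro C hC
    rw [hEE, card_image_of_injOn, card_product]
    rintro ⟨z, k⟩ hp ⟨z', k'⟩ hp' e
    obtain ⟨h6, h7⟩ := mem_product.1 (mem_coe.1 hp)
    obtain ⟨h6', h7'⟩ := mem_product.1 (mem_coe.1 hp')
    have e' : r z * k = r z' * k' := e
    have : z = z' := by
      have := congrArg (· • Φ ξ0) e'
      simp only [mul_smul, ((k2 k).1 h7).2, ((k2 k').1 h7').2, r2 z (hC h6), r2 z' (hC h6')] at this
      exact this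
    subst this
    rw [mul_left_cancel e']
  have m3 : ∀ s, bd (EE A') (g s) = (A'.filter fun z => g s • z ∉ A').card * K.card := by
    intro s
    rw [← m2 _ (filter_subset _ _), bd]
    congr 1
    ext x
    simp only [mem_filter, m1 _ subset_rfl, m1 _ (filter_subset _ _), mul_smul]
    have := mul_mem (hg s) (b := x)
    tauto
  have hK : (0 : ℝ) < K.card := by
    exact_mod_cast card_pos.2 ⟨1, (k2 1).2 ⟨one_mem _, one_smul _ _⟩⟩
  refine ⟨EE A', fun x hx => ((m1 _ subset_rfl x).1 hx).1, ?_, ?_⟩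
  · simp only [m3, m2 _ subset_rfl, Nat.cast_mul, ← sum_mul, ← mul_assoc]
    exact mul_lt_mul_of_pos_right h4 hK
  · rw [m2 _ subset_rfl]
    exact Nat.mul_le_mul ((card_le_card (h1.trans hA1)).trans card_image_le) k1


lemma ncard_symmDiff (E : Finset Γ) (s : Γ) :
    (symmDiff ((fun g => s * g) '' (E : Set Γ)) E).ncard = 2 * bd E s := by
  classical
  have h6 : (E.image (s * ·)).card = E.card := card_image_of_injective _ (mul_right_injective s)
  have h7 : (E.image (s * ·) \ E).card = bd E s := by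
    rw [bd, ← card_image_of_injective (E.filter fun x => s * x ∉ E) (mul_right_injective s)]
    congr 1
    ext x
    simp only [mem_sdiff, mem_image, mem_filter]
    constructor
    · rintro ⟨⟨y, hy, rfl⟩, h⟩; exact ⟨y, ⟨hy, h⟩, rfl⟩
    · rintro ⟨y, ⟨hy, h⟩, rfl⟩; exact ⟨⟨y, hy, rfl⟩, h⟩
  rw [← coe_image, ← coe_symmDiff, Set.ncard_coe_finset, symmDiff_def, sup_eq_union,
    card_union_of_disjoint disjoint_sdiff_sdiff, ← card_sdiff_comm h6, h7, two_mul]

lemma folner_le {n : ℕ} {E : Finset Γ} (h1 : (E : Set Γ) ⊆ grig ω)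
    (h2 : ∀ s ∈ gens ω, n * (2 * bd E s) < E.card) : folner ω n ≤ E.card :=
  Nat.sInf_le ⟨E, E.finite_toSet, h1, Set.ncard_coe_finset E, fun s hs => by
    rw [ncard_symmDiff, Set.ncard_coe_finset]; exact h2 s hs⟩

lemma folner_spec {n : ℕ} {E : Finset Γ} (h1 : (E : Set Γ) ⊆ grig ω)
    (h2 : ∀ s ∈ gens ω, n * (2 * bd E s) < E.card) :
    ∃ E : Finset Γ, (E : Set Γ) ⊆ grig ω ∧ E.card = folner ω n ∧
      ∀ s ∈ gens ω, n * (2 * bd E s) < E.card := by
  obtain ⟨F, f1, f2, f3, f4⟩ : folner ω n ∈ _ := Nat.sInf_mem ⟨E.card, E, E.finite_toSet, h1,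
    Set.ncard_coe_finset E, fun s hs => by
      rw [ncard_symmDiff, Set.ncard_coe_finset]; exact h2 s hs⟩
  lift F to Finset Γ using f1
  rw [Set.ncard_coe_finset] at f3
  exact ⟨F, f2, f3, fun s hs => by simpa only [ncard_symmDiff, Set.ncard_coe_finset] using f4 s hs⟩

end Pool.Agent.P.MP_0b0f5a_al.Fo
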