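import Pool.Agent.P.MP_0b0f5a_al.Fo.Model

/-!
The passage from the statement with the chord cost to the statement with the Huber cost.
-/

namespace Pool.Agent.P.MP_0b0f5a_al.Fo

open Finset

private lemma clS_inj (o n k : Fin 3) (c c' : C16) (h : clS o n k c = clS o n k c') : c = c' := by
  have key : ∀ (o n k : Fin 3) (c : C16), clS o n k (clS o n k c) = c := by decide
  rw [← key o n k c, h, key]

private lemma clA_inj (c c' : C16) (h : clA c = clA c') : c = c' := by
  have key : ∀ c : C16, clA (clA c) = c := by decide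
  rw [← key c, h, key]

private lemma sum_clF_perm {o n : Fin 3} {m : ℕ} (g : Equiv.Perm (W (m + 1))) (G : C16 → C16)
    (hG : ∀ c c', G c = G c' → c = c') (hg : ∀ x, cls o n m (g x) = G (cls o n m x))
    (f : W (m + 1) → ℝ) (c : C16) :
    ∑ x ∈ clF o n m (G c), f x = ∑ x ∈ clF o n m c, f (g x) := by
  unfold clF
  rw [sum_filter, sum_filter, ← Equiv.sum_comp g]
  refine sum_congr rfl fun x _ => ?_
  rw [hg]
  by_cases h : cls o n m x = c
  · rw [if_pos h, if_pos (by rw [h])]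
  · rw [if_neg h, if_neg fun h' => h (hG _ _ h')]

private lemma sum_clF (o n : Fin 3) (m : ℕ) (f : W (m + 1) → ℝ) :
    ∑ c : C16, ∑ x ∈ clF o n m c, f x = ∑ x, f x :=
  sum_fiberwise_of_maps_to (fun _ _ => mem_univ _) f

private lemma close_classes {o n : Fin 3} (ho : o ≠ n) {P : C16 → ℝ} {d : ℝ}
    (hS : ∀ k c, P (clS o n k c) = P c) (hA : ∀ c, |P (clA c) - P c| ≤ d) (c c' : C16) :
    P c' - 2 * d ≤ P c := by
  have two : ∀ a b : ZMod 2, b = a ∨ b = a + 1 := by decide
  have e1 : ∀ σ u v t, P (σ, u, v, t + 1) = P (σ, u, v, t) := by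
    intro σ u v t
    rw [← hS o (σ, u, v, t)]
    simp [clS, chi_ev, ho]
  have e2 : ∀ u v t, P (true, u + 1, v, t) = P (true, u, v, t) := by
    intro u v t
    rw [← hS n (true, u, v, t)]
    simp [clS, chi_ev, ho.symm]
  have e3 : ∀ u v t, P (false, u, v + 1, t) = P (false, u, v, t) := by
    intro u v t
    rw [← hS n (false, u, v, t)]
    simp [clS, chi_ev, ho.symm]
  have hT : ∀ u v t u' t', P (true, u', v, t') = P (true, u, v, t) := by
    intro u v t u' t'
    rcases two u u' with rfl | rfl <;> rcases two t t' with rfl | rfl <;> simp only [e1, e2]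
  have hF : ∀ u v t v' t', P (false, u, v', t') = P (false, u, v, t) := by
    intro u v t v' t'
    rcases two v v' with rfl | rfl <;> rcases two t t' with rfl | rfl <;> simp only [e1, e3]
  have hX : ∀ u v t u' v' t', |P (false, u', v', t') - P (true, u, v, t)| ≤ d := by
    intro u v t u' v' t'
    rw [hF u' v t v' t', ← hT u v t u' t]
    exact hA (true, u', v, t)
  have hd : 0 ≤ d := (abs_nonneg _).trans (hA c)
  obtain ⟨σ, u, v, t⟩ := c
  obtain ⟨σ', u', v', t'⟩ := c'
  cases σ <;> cases σ'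
  · have h1 := abs_le.1 (hX 0 0 0 u v t)
    have h2 := abs_le.1 (hX 0 0 0 u' v' t')
    linarith [h1.1, h2.2]
  · have h1 := abs_le.1 (hX u' v' t' u v t)
    linarith [h1.1]
  · have h1 := abs_le.1 (hX u v t u' v' t')
    linarith [h1.2]
  · have h1 := abs_le.1 (hX u v t 0 0 0)
    have h2 := abs_le.1 (hX u' v' t' 0 0 0)
    linarith [h1.2, h2.1]

private lemma ent_part {X : Type} (s : Finset X) (B : ℝ) {β : X → ℝ} (hβ : ∀ x, 0 ≤ β x) {p : ℝ}
    (hp : 0 < p) (hp8 : p ≤ 1 / 8) :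
    p * ent s 1 B (fun x => β x / p) ≤ ent s 8 B β := by
  unfold ent
  rw [mul_sum]
  refine sum_le_sum fun x _ => ?_
  rw [← mul_assoc, mul_div_cancel₀ _ hp.ne']
  rcases (hβ x).eq_or_lt with h0 | h0
  · rw [← h0]; simp
  refine mul_le_mul_of_nonneg_left (sur_anti B (by positivity) ?_) h0.le
  rw [one_mul, le_div_iff₀ hp]
  nlinarith

private lemma ch_part {X : Type} (s : Finset X) {β γ : X → ℝ} (hβ : ∀ x, 0 ≤ β x)
    (hγ : ∀ x, 0 ≤ γ x) {p q : ℝ} (hp : ∑ x ∈ s, β x = p) (hq : ∑ x ∈ s, γ x = q)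
    (hp0 : 0 < p) (hp1 : p ≤ 5 / 64) (hq0 : 3 / 64 ≤ q) :
    p * ch2 s (fun x => β x / p) (fun x => γ x / q) ≤ 13 / 10 * ch2 s β γ := by
  have hq' : 0 < q := by linarith
  have h0 := ch2_nonneg s (fun x => β x / p) (fun x => γ x / q)
  have e1 := ch2_eq s (μ := fun x => β x / p) (ν := fun x => γ x / q)
    (fun x => div_nonneg (hβ x) hp0.le) (fun x => div_nonneg (hγ x) hq'.le)
  have e2 := ch2_eq s hβ hγ
  rw [hp, hq] at e2
  have e3 : ∑ x ∈ s, √(β x / p) * √(γ x / q) = (∑ x ∈ s, √(β x) * √(γ x)) / (√p * √q) := by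
    rw [sum_div]
    refine sum_congr rfl fun x _ => ?_
    rw [Real.sqrt_div (hβ x), Real.sqrt_div (hγ x), div_mul_div_comm]
  rw [← sum_div, ← sum_div, hp, hq, div_self hp0.ne', div_self hq'.ne', e3] at e1
  set X1 := ch2 s (fun x => β x / p) (fun x => γ x / q)
  set BC := ∑ x ∈ s, √(β x) * √(γ x)
  have ha := Real.sqrt_pos.2 hp0
  have hb := Real.sqrt_pos.2 hq'
  have ha2 := Real.sq_sqrt hp0.le
  have hb2 := Real.sq_sqrt hq'.le
  set a := √p
  set c := √q
  have e4 : a * c * X1 = 2 * (a * c) - 2 * BC := by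
    rw [e1]; field_simp; ring
  have h5 : a ≤ 13 / 10 * c := by
    by_contra h
    push Not at h
    nlinarith
  have h6 : p ≤ 13 / 10 * (a * c) := by nlinarith
  have h7 : a * c * X1 ≤ ch2 s β γ := by rw [e4, e2]; nlinarith [sq_nonneg (a - c)]
  nlinarith [mul_le_mul_of_nonneg_right h6 h0]

theorem interface {o : Fin 3} {ω : ℕ → Fin 3} {m : ℕ} {T b B ε T' Θ' : ℝ} (ho : o ≠ ω 0)
    (H : PII o ω m T b B) (hT : 0 < T) (hb : 0 ≤ b) (hε : 0 < ε) (hε1 : ε ≤ 1)
    (h1 : 4 * T / ε ≤ T') (h2 : ε * T' ≤ Θ') (h3 : b / T ≤ 2 / 65536) :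
    SI ω m T' Θ' (b / 2) B := by
  intro β w hβ
  have hβa : ∀ x, 0 ≤ β (aA (m + 1) x) := fun x => hβ.nonneg _
  have k1 : 4 * T ≤ ε * T' := by rw [div_le_iff₀ hε] at h1; linarith
  have k0 : 0 ≤ T' := le_trans (by positivity) h1
  have k2 : 4 * T ≤ T' := by nlinarith
  have k3 : 4 * T ≤ Θ' := k1.trans h2
  have hQ := cQ_nonneg univ hβ.nonneg hβa w
  have hL := cL_nonneg univ β (fun x => β (aA (m + 1) x)) w
  have hc := ch2_le_cost univ hβ.nonneg hβa w
  have hE := ent_nonneg univ 8 B hβ.nonneg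
  have hch0 := ch2_nonneg univ β fun x => β (aA (m + 1) x)
  set ch := ch2 univ β fun x => β (aA (m + 1) x) with hch
  have hcost : T * ch ≤ cost univ T' Θ' β (fun x => β (aA (m + 1) x)) w := by
    unfold cost
    nlinarith [mul_le_mul_of_nonneg_right k2 hQ, mul_le_mul_of_nonneg_right k3 hL,
      mul_le_mul_of_nonneg_left hc hT.le, mul_nonneg hT.le hL]
  suffices hmain : b / 2 ≤ ent univ 8 B β + T * ch by linarith
  by_cases hcase : b / 2 ≤ T * ch
  · linarith
  push Not at hcase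
  have hch1 : ch ≤ (1 / 256) ^ 2 := by
    rw [div_le_iff₀ hT] at h3
    have : T * ch ≤ T * (1 / 256) ^ 2 := by linarith
    exact le_of_mul_le_mul_left this hT
  have hsq : √ch ≤ 1 / 256 := Real.sqrt_le_iff.2 ⟨by norm_num, hch1⟩
  have htot : ∑ x, β (aA (m + 1) x) = 1 := by
    rw [Equiv.sum_comp (aA (m + 1)) β, hβ.total]
  have hl1 : l1 univ β (fun x => β (aA (m + 1) x)) ≤ 1 / 128 := by
    have := l1_le_chord univ hβ.nonneg hβa
    rw [hβ.total, htot, Real.sqrt_one] at this
    linarith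
  set P : C16 → ℝ := fun c => ∑ x ∈ clF o (ω 0) m c, β x with hP
  have hPS : ∀ k c, P (clS o (ω 0) k c) = P c := by
    intro k c
    simp only [hP]
    rw [sum_clF_perm (aS k (m + 1) ω) _ (clS_inj o (ω 0) k) (cls_aS o (ω 0) k m ω)]
    exact sum_congr rfl fun x _ => hβ.inv k x
  have hPA : ∀ c, P (clA c) = ∑ x ∈ clF o (ω 0) m c, β (aA (m + 1) x) := fun c =>
    sum_clF_perm (aA (m + 1)) _ clA_inj (cls_aA o (ω 0) m) β c
  have hPd : ∀ c, |P (clA c) - P c| ≤ 1 / 128 := by
    intro c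
    rw [hPA, abs_sub_comm]
    simp only [hP]
    rw [← sum_sub_distrib]
    refine (abs_sum_le_sum_abs _ _).trans (le_trans ?_ hl1)
    exact sum_le_sum_of_subset_of_nonneg (subset_univ _) fun _ _ _ => abs_nonneg _
  have hcl := close_classes ho hPS hPd
  have hsum : ∑ c, P c = 1 := by
    simp only [hP]
    rw [sum_clF, hβ.total]
  have hcard : (univ : Finset C16).card = 16 := by decide
  have hlo : ∀ c, 3 / 64 ≤ P c := by
    intro c
    have := sum_le_sum fun c' (_ : c' ∈ (univ : Finset C16)) => hcl c c'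
    rw [sum_sub_distrib, hsum, sum_const, sum_const, hcard, nsmul_eq_mul, nsmul_eq_mul] at this
    push_cast at this
    linarith
  have hhi : ∀ c, P c ≤ 5 / 64 := by
    intro c
    have := sum_le_sum fun c' (_ : c' ∈ (univ : Finset C16)) => hcl c' c
    rw [hsum, sum_const, hcard, nsmul_eq_mul] at this
    push_cast at this
    linarith
  have hpos : ∀ c, 0 < P c := fun c => lt_of_lt_of_le (by norm_num) (hlo c)
  set β' : W (m + 1) → ℝ := fun x => β x / (16 * P (cls o (ω 0) m x)) with hβ'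
  have hmem : ∀ {c x}, x ∈ clF o (ω 0) m c → cls o (ω 0) m x = c := fun hx => (mem_filter.1 hx).2
  have hcls : ∀ c, ∑ x ∈ clF o (ω 0) m c, β' x = 1 / 16 := by
    intro c
    have : ∑ x ∈ clF o (ω 0) m c, β' x = ∑ x ∈ clF o (ω 0) m c, β x / (16 * P c) :=
      sum_congr rfl fun x hx => by simp only [hβ']; rw [hmem hx]
    rw [this, ← sum_div]
    change P c / (16 * P c) = 1 / 16
    have := (hpos c).ne'
    field_simp
  have hM : Meas ω (m + 1) β' := by
    refine ⟨fun x => div_nonneg (hβ.nonneg x) (by have := hpos (cls o (ω 0) m x); positivity),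
      fun x hx => hβ.supp x fun h => hx (by simp only [hβ']; rw [h, zero_div]), fun k x => ?_, ?_⟩
    · simp only [hβ']
      rw [hβ.inv, cls_aS, hPS]
    · rw [← sum_clF o (ω 0) m, sum_congr rfl fun c _ => hcls c, sum_const, hcard]
      norm_num
  have hH := H β' hM hcls
  set φ : C16 → ℝ := fun c => ent (clF o (ω 0) m c) 1 B (fun x => 16 * β' x) +
      T * ch2 (clF o (ω 0) m c) (fun x => 16 * β' x) fun x => 16 * β' (aA (m + 1) x) with hφ
  have hφ0 : ∀ c, 0 ≤ φ c := fun c =>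
    add_nonneg (ent_nonneg _ _ _ fun x => mul_nonneg (by norm_num) (hM.nonneg x))
      (mul_nonneg hT.le (ch2_nonneg _ _ _))
  have hφ1 : ∀ c, P c * φ c ≤ ent (clF o (ω 0) m c) 8 B β +
      T * (13 / 10 * ch2 (clF o (ω 0) m c) β fun x => β (aA (m + 1) x)) := by
    intro c
    have q1 : ∀ x ∈ clF o (ω 0) m c, 16 * β' x = β x / P c := by
      intro x hx
      simp only [hβ']
      rw [hmem hx]
      have := (hpos c).ne'
      field_simp
    have q2 : ∀ x ∈ clF o (ω 0) m c, 16 * β' (aA (m + 1) x) = β (aA (m + 1) x) / P (clA c) := by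
      intro x hx
      simp only [hβ']
      rw [cls_aA, hmem hx]
      have := (hpos (clA c)).ne'
      field_simp
    have q3 : ent (clF o (ω 0) m c) 1 B (fun x => 16 * β' x) =
        ent (clF o (ω 0) m c) 1 B fun x => β x / P c :=
      sum_congr rfl fun x hx => by beta_reduce; rw [q1 x hx]
    have q4 : ch2 (clF o (ω 0) m c) (fun x => 16 * β' x) (fun x => 16 * β' (aA (m + 1) x)) =
        ch2 (clF o (ω 0) m c) (fun x => β x / P c) fun x => β (aA (m + 1) x) / P (clA c) :=
      sum_congr rfl fun x hx => by beta_reduce; rw [q1 x hx, q2 x hx]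
    have q5 := ent_part (clF o (ω 0) m c) B hβ.nonneg (hpos c) (by linarith [hhi c])
    have q6 := ch_part (clF o (ω 0) m c) hβ.nonneg hβa rfl (hPA c).symm (hpos c) (hhi c)
      (hlo (clA c))
    simp only [hφ]
    rw [q3, q4]
    nlinarith [mul_le_mul_of_nonneg_left q6 hT.le]
  have hS1 : ∑ c, P c * φ c ≤ ent univ 8 B β + T * (13 / 10 * ch) := by
    refine (sum_le_sum fun c _ => hφ1 c).trans (le_of_eq ?_)
    rw [sum_add_distrib, ← mul_sum, ← mul_sum]
    unfold ent
    rw [sum_clF]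
    simp only [hch, ch2]
    rw [sum_clF]
  have hS2 : ∑ c, 1 / P c ≤ 1024 / 3 := by
    have : ∀ c ∈ (univ : Finset C16), 1 / P c ≤ 64 / 3 := by
      intro c _
      rw [div_le_iff₀ (hpos c)]
      linarith [hlo c]
    have := sum_le_sum this
    rw [sum_const, hcard, nsmul_eq_mul] at this
    push_cast at this
    linarith
  have hCS := sum_sqrt_mul_le univ (μ := fun c => 1 / P c) (ν := fun c => P c * φ c)
    (fun c => by have := hpos c; positivity) fun c => mul_nonneg (hpos c).le (hφ0 c)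
  have hterm : ∑ c, √(1 / P c) * √(P c * φ c) = ∑ c, √(φ c) := by
    refine sum_congr rfl fun c _ => ?_
    rw [← Real.sqrt_mul (by have := hpos c; positivity)]
    congr 1
    have := (hpos c).ne'
    field_simp
  rw [hterm] at hCS
  have hfin : 16 * √b ≤ √(1024 / 3) * √(ent univ 8 B β + T * (13 / 10 * ch)) := by
    refine hH.trans (hCS.trans ?_)
    gcongr
  have hR : 0 ≤ ent univ 8 B β + T * (13 / 10 * ch) := by positivity
  rw [← Real.sqrt_mul (by norm_num)] at hfin
  have hsq2 : (16 * √b) ^ 2 ≤ 1024 / 3 * (ent univ 8 B β + T * (13 / 10 * ch)) :=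
    (Real.le_sqrt (by positivity) (by positivity)).1 hfin
  rw [mul_pow, Real.sq_sqrt hb] at hsq2
  nlinarith [mul_nonneg hT.le hch0]

end Pool.Agent.P.MP_0b0f5a_al.Fo
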