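import Pool.Agent.P.MP_0b0f5a_al.Fo.Led2
import Pool.Agent.P.MP_0b0f5a_al.Fo.Iface

/-!
The induction over the runs with the Huber cost.
-/

namespace Pool.Agent.P.MP_0b0f5a_al.Fo

open Finset

private lemma psi_bd {θ ζ Ψ : ℝ} (hθ : 0 < θ) (hζ : 0 < ζ) (hθ1 : θ ≤ 1 / 10 ^ 7)
    (hζ1 : ζ ≤ 1 / 10 ^ 7) (hΨ : Ψ = 252000 * (1 / 10 ^ 7 - θ + ζ) + 2 / 1000) :
    2 / 1000 ≤ Ψ ∧ Ψ ≤ 6 / 100 := by
  constructor <;> rw [hΨ] <;> norm_num at * <;> linarith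

private lemma const_case {ω : ℕ → Fin 3} {D : ℕ} (h : ∀ i < D, ω i = ω 0) {κ ϱ ζ Ψ : ℝ}
    (hκ : 0 < κ) (hϱ : 0 < ϱ) (hζ : 0 < ζ) (hζ1 : ζ ≤ 1) (e2 : ζ ^ 4 * κ ^ 2 * ϱ = 1)
    (hR : 10 ^ 90 * ((resist ω D : ℝ) + 2 ^ D) * ϱ ≤ 1) (hΨ0 : 0 ≤ Ψ) (hΨ1 : Ψ ≤ 6 / 100) :
    SI ω D ((1 + Ψ) * 2 ^ D / ϱ) ((1 + Ψ) * κ * 2 ^ D) ((1 - Ψ) * 2 ^ D / 1000) (2 ^ D) := by
  have hP : (1 : ℝ) ≤ 2 ^ D := one_le_pow₀ (by norm_num)
  have h4 : (3 * resist ω D + 1 : ℝ) = 4 ^ D := by exact_mod_cast resist_const h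
  have hR0 : (0 : ℝ) ≤ resist ω D := Nat.cast_nonneg _
  have h44 : (4 : ℝ) ^ D = 2 ^ D * 2 ^ D := by rw [← mul_pow]; norm_num
  generalize (resist ω D : ℝ) = R at *
  have hq : 10 ^ 89 * (4 ^ D * ϱ) ≤ 1 := by
    have : (4 : ℝ) ^ D * ϱ ≤ 3 * (R + 2 ^ D) * ϱ := by
      apply mul_le_mul_of_nonneg_right _ hϱ.le
      linarith
    have h2 : 0 ≤ (R + 2 ^ D) * ϱ := by positivity
    nlinarith
  have hq0 : 0 ≤ (4 : ℝ) ^ D * ϱ := by positivity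
  apply baseI h
  · have : 0 < 1 - Ψ := by linarith
    positivity
  · nlinarith
  · rw [le_div_iff₀ hϱ]
    have e : 200000000 * 4 ^ D * ((1 - Ψ) * 2 ^ D / 1000) * ϱ =
        (200000 * (4 ^ D * ϱ) * (1 - Ψ)) * 2 ^ D := by ring
    rw [e]
    apply mul_le_mul_of_nonneg_right _ (by positivity)
    have : 200000 * (4 ^ D * ϱ) ≤ 1 := by nlinarith
    nlinarith
  · have hk : 2 ^ D ≤ κ := by
      have hz : ζ ^ 4 ≤ 1 := pow_le_one₀ hζ.le hζ1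
      have h1 : 1 ≤ κ ^ 2 * ϱ := by
        have : ζ ^ 4 * (κ ^ 2 * ϱ) ≤ 1 * (κ ^ 2 * ϱ) :=
          mul_le_mul_of_nonneg_right hz (by positivity)
        nlinarith
      have h2 : (2 ^ D) ^ 2 * ϱ ≤ κ ^ 2 * ϱ := by nlinarith
      exact le_of_sq_le_sq (le_of_mul_le_mul_right h2 hϱ) hκ.le
    have e : 1000 * 2 ^ D * ((1 - Ψ) * 2 ^ D / 1000) = ((1 - Ψ) * 2 ^ D) * 2 ^ D := by ring
    rw [e]
    apply mul_le_mul_of_nonneg_right _ (by positivity)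
    have : 0 ≤ Ψ * κ := by positivity
    have : 0 ≤ Ψ * 2 ^ D := by positivity
    nlinarith

private lemma case_a {s : Fin 3} {ω : ℕ → Fin 3} {m : ℕ} (h : ω 0 ≠ s) (L : ℕ) {N P : ℝ}
    (hN : N = 2 ^ (L + 1)) (hP : 1 ≤ P) {κ ϱ θ ζ Ψ Ψ' : ℝ} (hκ : 0 < κ) (hϱ : 0 < ϱ)
    (hθ : 0 < θ) (hζ : 0 < ζ) (hθ1 : θ ≤ 1 / 10 ^ 7) (hζ1 : ζ ≤ 1 / 10 ^ 7)
    (e1 : θ ^ 4 = κ * (N * ϱ)) (e2 : ζ ^ 4 * κ ^ 2 * ϱ = 1) (hΨ0 : 0 ≤ Ψ') (hΨ1 : Ψ' ≤ 6 / 100)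
    (hd : 36000 * (θ + ζ) ≤ Ψ - Ψ')
    (H : SI ω m ((1 + Ψ') * P / (N * ϱ)) ((1 + Ψ') * κ * P) ((1 - Ψ') * P / 1000) P) :
    SI (pre s (L + 1) ω) (m + 1 + L) ((1 + Ψ) * (N * P) / ϱ) ((1 + Ψ) * κ * (N * P))
      ((1 - Ψ) * (N * P) / 1000) (N * P) := by
  have hN0 : 0 < N := by rw [hN]; positivity
  have hP0 : 0 < P := by linarith
  have hx : 0 < θ + ζ := by positivity
  have hx1 : θ + ζ ≤ 2 / 10 ^ 7 := by linarith
  have hq : (1 + Ψ') * κ * P / ((1 + Ψ') * P / (N * ϱ)) = θ ^ 4 := by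
    rw [e1]; field_simp
  have hf : (1 + 6000 * (3 * (θ + ζ))) * (1 + Ψ') ≤ 1 + Ψ := by nlinarith
  have hΨ : Ψ' ≤ Ψ := by linarith
  have hζr : 3 * ζ ≤ 3 * (θ + ζ) := by linarith
  have hθr : 3 * θ ≤ 3 * (θ + ζ) := by linarith
  refine (stepI (r := 3 * (θ + ζ)) h H L hN (by positivity) (by norm_num at hx1 ⊢; linarith) hP
    (by nlinarith) (by positivity) (by positivity) ?_ ?_ ?_ ?_ ?_).mono le_rfl le_rfl ?_
  · have e : (1 + Ψ') * κ * P = θ ^ 4 * ((1 + Ψ') * P / (N * ϱ)) := by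
      rw [e1]; field_simp
    rw [e, ← mul_assoc]
    apply mul_le_mul_of_nonneg_right _ (by positivity)
    have h3 : (3 * θ) ^ 3 ≤ (3 * (θ + ζ)) ^ 3 := by gcongr
    have h4 : θ ^ 4 ≤ θ ^ 3 := pow_le_pow_of_le_one hθ.le (by norm_num at hθ1; linarith) (by norm_num)
    have h5 : 0 < θ ^ 3 := by positivity
    nlinarith
  · rw [hq]
    have h3 : (3 * ζ) ^ 4 ≤ (3 * (θ + ζ)) ^ 4 := by gcongr
    have e : (3 * ζ) ^ 4 * θ ^ 4 * ((1 + Ψ) * κ * (N * P)) =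
        81 * (ζ ^ 4 * κ ^ 2 * ϱ) * (1 + Ψ) * (N ^ 2 * P) := by rw [e1]; ring
    calc 4 * N ^ 2 * ((1 - Ψ') * P / 1000) = (4 * (1 - Ψ') / 1000) * (N ^ 2 * P) := by ring
      _ ≤ (81 * (ζ ^ 4 * κ ^ 2 * ϱ) * (1 + Ψ)) * (N ^ 2 * P) := by
        apply mul_le_mul_of_nonneg_right _ (by positivity)
        rw [e2]; linarith
      _ = (3 * ζ) ^ 4 * θ ^ 4 * ((1 + Ψ) * κ * (N * P)) := e.symm
      _ ≤ _ := by
        have : 0 ≤ 1 + Ψ := by linarith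
        gcongr
  · have h3 : (3 * θ) ^ 4 * (3 * ζ) ^ 2 ≤ (3 * (θ + ζ)) ^ 6 := by
      calc (3 * θ) ^ 4 * (3 * ζ) ^ 2 ≤ (3 * (θ + ζ)) ^ 4 * (3 * (θ + ζ)) ^ 2 := by gcongr
        _ = _ := by ring
    have hz : ζ ^ 4 ≤ ζ ^ 2 := pow_le_pow_of_le_one hζ.le (by norm_num at hζ1; linarith) (by norm_num)
    have h6 : 1 ≤ ζ ^ 2 * κ ^ 2 * ϱ := by
      rw [← e2]; gcongr
    calc N * ((1 - Ψ') * P / 1000) = ((1 - Ψ') / 1000) * (N * P) := by ring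
      _ ≤ (729 * (ζ ^ 2 * κ ^ 2 * ϱ) * (1 + Ψ')) * (N * P) := by
        apply mul_le_mul_of_nonneg_right _ (by positivity)
        nlinarith
      _ = (3 * θ) ^ 4 * (3 * ζ) ^ 2 * ((1 + Ψ') * κ * P) := by
        rw [mul_pow 3 θ, e1]; ring
      _ ≤ _ := by gcongr
  · calc (1 + 6000 * (3 * (θ + ζ))) * N ^ 2 * ((1 + Ψ') * P / (N * ϱ)) =
          ((1 + 6000 * (3 * (θ + ζ))) * (1 + Ψ')) * (N * P) / ϱ := by field_simp
      _ ≤ _ := by gcongr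
  · calc (1 + 6000 * (3 * (θ + ζ))) * N * ((1 + Ψ') * κ * P) =
          ((1 + 6000 * (3 * (θ + ζ))) * (1 + Ψ')) * κ * (N * P) := by ring
      _ ≤ _ := by gcongr
  · calc (1 - Ψ) * (N * P) / 1000 ≤
          ((1 - 6000 * (3 * (θ + ζ))) * (1 - Ψ')) * (N * P) / 1000 := by
          gcongr
          nlinarith
      _ = _ := by ring

private lemma case_b {s : Fin 3} {ω : ℕ → Fin 3} {m : ℕ} (h : ω 0 ≠ s) (L : ℕ) {N : ℝ}
    (hN : N = 2 ^ (L + 1)) {κ ϱ Ψ : ℝ} (hκ : 0 < κ) (hϱ : 0 < ϱ)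
    (e1 : 1 / 10 ^ 28 ≤ κ * (N * ϱ)) (hΨ0 : 2 / 1000 ≤ Ψ)
    (hR : 10 ^ 90 * ((resist ω m : ℝ) + 2 ^ m) * (N * ϱ) ≤ 1) (hNN : 10 ^ 89 * (N ^ 2 * ϱ) ≤ 1) :
    SI (pre s (L + 1) ω) (m + 1 + L) ((1 + Ψ) * (N * 2 ^ m) / ϱ) ((1 + Ψ) * κ * (N * 2 ^ m))
      ((1 - Ψ) * (N * 2 ^ m) / 1000) (N * 2 ^ m) := by
  have hN0 : 0 < N := by rw [hN]; positivity
  have hP : (1 : ℝ) ≤ 2 ^ m := one_le_pow₀ (by norm_num)
  have hR0 : (0 : ℝ) ≤ resist ω m := Nat.cast_nonneg _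
  have hu : 0 < N * ϱ := by positivity
  have hy : 0 ≤ ((resist ω m : ℝ) + 2 ^ m) * (N * ϱ) := by positivity
  have hu1 : 10 ^ 90 * (N * ϱ) ≤ 1 := by
    have : 1 * (N * ϱ) ≤ ((resist ω m : ℝ) + 2 ^ m) * (N * ϱ) := by
      apply mul_le_mul_of_nonneg_right _ hu.le
      linarith
    nlinarith
  have H2 := ledgerII (D := m) (ω := ω) (o := s) (ϱ := 4 * 10 ^ 28 * (N * ϱ)) (by positivity)
    h.symm (by nlinarith)
  generalize (2 : ℝ) ^ m = P at *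
  have hP0 : 0 < P := by linarith
  have H := interface (ε := 1 / 10 ^ 28) (T' := P / (N * ϱ)) (Θ' := 1 / 10 ^ 28 * (P / (N * ϱ)))
    h.symm H2 (by positivity) (by positivity) (by positivity) (by norm_num)
    (le_of_eq (by field_simp)) le_rfl
    (by
      have e : P / 400 / (P / (4 * 10 ^ 28 * (N * ϱ))) = 10 ^ 26 * (N * ϱ) := by
        field_simp; norm_num
      rw [e]; nlinarith)
  have hq : 1 / 10 ^ 28 * (P / (N * ϱ)) / (P / (N * ϱ)) = 1 / 10 ^ 28 := by field_simp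
  have hkN : 10 ^ 61 * N ≤ κ := by
    have h1 : 10 ^ 61 * N * (N * ϱ) ≤ κ * (N * ϱ) := by nlinarith
    exact le_of_mul_le_mul_right h1 hu
  refine (stepI (r := 3 / 10 ^ 7) h H L hN (by positivity) (by norm_num) hP
    (by linarith) (by positivity) (by positivity) ?_ ?_ ?_ ?_ ?_).mono le_rfl le_rfl ?_
  · rw [← mul_assoc]
    apply mul_le_mul_of_nonneg_right _ (by positivity)
    norm_num
  · rw [hq]
    calc 4 * N ^ 2 * (P / 400 / 2) = (N / 200) * (N * P) := by ring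
      _ ≤ ((3 / 10 ^ 7) ^ 4 * (1 / 10 ^ 28) * ((1 + Ψ) * κ)) * (N * P) := by
        apply mul_le_mul_of_nonneg_right _ (by positivity)
        have : κ ≤ (1 + Ψ) * κ := by nlinarith
        norm_num at *
        linarith
      _ = _ := by ring
  · calc N * (P / 400 / 2) = (N ^ 2 * ϱ / 800) * (P / (N * ϱ)) := by field_simp; ring
      _ ≤ ((3 / 10 ^ 7) ^ 6 * (1 / 10 ^ 28)) * (P / (N * ϱ)) := by
        apply mul_le_mul_of_nonneg_right _ (by positivity)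
        norm_num at *
        linarith
      _ = _ := by ring
  · calc (1 + 6000 * (3 / 10 ^ 7)) * N ^ 2 * (P / (N * ϱ)) =
          (1 + 6000 * (3 / 10 ^ 7)) * (N * P) / ϱ := by field_simp
      _ ≤ _ := by
        gcongr
        norm_num at *
        linarith
  · calc (1 + 6000 * (3 / 10 ^ 7)) * N * (1 / 10 ^ 28 * (P / (N * ϱ))) ≤
          (1 + Ψ) * N * (κ * (N * ϱ) * (P / (N * ϱ))) := by
          gcongr
          norm_num at *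
          linarith
      _ = _ := by field_simp
  · have : 0 < N * P := by positivity
    have e : (1 - 6000 * (3 / 10 ^ 7)) * N * (P / 400 / 2) =
      ((1 - 6000 * (3 / 10 ^ 7)) / 800) * (N * P) := by ring
    rw [e]
    nlinarith

private theorem main_ind {κ : ℝ} (hκ : 0 < κ) (D : ℕ) : ∀ (ω : ℕ → Fin 3) (ϱ θ ζ Ψ : ℝ),
    0 < ϱ → 0 < θ → 0 < ζ → θ ^ 4 = κ * ϱ → ζ ^ 4 * κ ^ 2 * ϱ = 1 → θ ≤ 1 / 10 ^ 7 →
    ζ ≤ 1 / 10 ^ 7 → 10 ^ 90 * ((resist ω D : ℝ) + 2 ^ D) * ϱ ≤ 1 →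
    Ψ = 252000 * (1 / 10 ^ 7 - θ + ζ) + 2 / 1000 →
    SI ω D ((1 + Ψ) * 2 ^ D / ϱ) ((1 + Ψ) * κ * 2 ^ D) ((1 - Ψ) * 2 ^ D / 1000) (2 ^ D) := by
  induction D using Nat.strong_induction_on with
  | _ D ih =>
  intro ω ϱ θ ζ Ψ hϱ hθ hζ e1 e2 hθ1 hζ1 hR hΨ
  obtain ⟨hΨ0, hΨ1⟩ := psi_bd hθ hζ hθ1 hζ1 hΨ
  rcases run_cases ω D with h | ⟨L, m, ω', rfl, hω, h⟩
  · exact const_case h hκ hϱ hζ (by norm_num at hζ1; linarith) e2 hR (by linarith) hΨ1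
  generalize ω 0 = s at hω h
  subst hω
  obtain ⟨N, hN⟩ : ∃ N : ℝ, N = 2 ^ (L + 1) := ⟨_, rfl⟩
  have hN2 : 2 ≤ N := by
    rw [hN, pow_succ]
    have : (1 : ℝ) ≤ 2 ^ L := one_le_pow₀ (by norm_num)
    linarith
  have hN0 : 0 < N := by linarith
  have hD : (2 : ℝ) ^ (m + 1 + L) = N * 2 ^ m := by rw [hN]; ring
  have hres : 3 * (resist (pre s (L + 1) ω') (m + 1 + L) : ℝ) + 1 =
      N ^ 2 + 3 * N * resist ω' m := by
    have h1 := resist_pre h (L + 1) m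
    rw [show m + (L + 1) = m + 1 + L by ring] at h1
    have h2 : (3 * resist (pre s (L + 1) ω') (m + 1 + L) + 1 : ℝ) =
        4 ^ (L + 1) + 3 * 2 ^ (L + 1) * resist ω' m := by exact_mod_cast h1
    rw [h2, hN, ← pow_mul, mul_comm (L + 1) 2, pow_mul]
    norm_num
  rw [hD] at hR ⊢
  have hP : (1 : ℝ) ≤ 2 ^ m := one_le_pow₀ (by norm_num)
  have hR0 : (0 : ℝ) ≤ resist ω' m := Nat.cast_nonneg _
  generalize (resist (pre s (L + 1) ω') (m + 1 + L) : ℝ) = R at hR hres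
  have hNP : 1 ≤ N * 2 ^ m := by nlinarith
  have hNR : 0 ≤ N * resist ω' m := by positivity
  have hR' : 10 ^ 90 * ((resist ω' m : ℝ) + 2 ^ m) * (N * ϱ) ≤ 1 := by
    refine le_trans ?_ hR
    calc 10 ^ 90 * ((resist ω' m : ℝ) + 2 ^ m) * (N * ϱ) =
          10 ^ 90 * (N * resist ω' m + N * 2 ^ m) * ϱ := by ring
      _ ≤ _ := by
        gcongr
        nlinarith
  obtain ⟨g, hg0, hg⟩ : ∃ g : ℝ, 0 < g ∧ g ^ 4 = N := by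
    refine ⟨√(√N), by positivity, ?_⟩
    rw [show (4 : ℕ) = 2 * 2 by rfl, pow_mul, Real.sq_sqrt (Real.sqrt_nonneg _),
      Real.sq_sqrt hN0.le]
  have hg1 : 7 / 6 ≤ g := by
    by_contra hc
    have : g ^ 4 ≤ (7 / 6) ^ 4 := by
      have := (not_le.mp hc).le
      gcongr
    norm_num at this
    linarith
  have e1' : (θ * g) ^ 4 = κ * (N * ϱ) := by rw [mul_pow, e1, hg]; ring
  by_cases hc : θ * g ≤ 1 / 10 ^ 7
  · have hζ' : 0 < ζ / g := by positivity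
    have hζg : ζ / g ≤ 6 / 7 * ζ := by
      rw [div_le_iff₀ hg0]; nlinarith
    have hθ' : 0 < θ * g := by positivity
    have hθg : θ ≤ 6 / 7 * (θ * g) := by nlinarith
    have hζ1' : ζ / g ≤ 1 / 10 ^ 7 := by linarith
    obtain ⟨h0, h1⟩ := psi_bd hθ' hζ' hc hζ1' rfl
    have H := ih m (by omega) ω' (N * ϱ) (θ * g) (ζ / g) _ (by positivity) hθ' hζ' e1'
      (by rw [div_pow, hg, ← e2]; field_simp) hc hζ1' hR' rfl
    exact case_a h L hN hP hκ hϱ hθ' hζ hc hζ1 e1' e2 (by linarith) h1 (by rw [hΨ]; linarith) H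
  · refine case_b h L hN hκ hϱ ?_ hΨ0 hR' ?_
    · rw [← e1']
      have := (not_le.mp hc).le
      calc (1 : ℝ) / 10 ^ 28 = (1 / 10 ^ 7) ^ 4 := by norm_num
        _ ≤ _ := by gcongr
    · have h1 : N ^ 2 * ϱ ≤ 3 * (R + N * 2 ^ m) * ϱ := by
        apply mul_le_mul_of_nonneg_right _ hϱ.le
        nlinarith
      have h2 : 0 ≤ N ^ 2 * ϱ := by positivity
      nlinarith

theorem ledgerI {D : ℕ} {ω : ℕ → Fin 3} {κ : ℝ} (h0 : 0 < κ)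
    (h : 10 ^ 120 * (resist ω D + 2 ^ D) ≤ κ ^ 2) :
    ∃ T, SI ω D T (2 * κ * 2 ^ D) (2 ^ D / 2000) (2 ^ D) := by
  have hP : (1 : ℝ) ≤ 2 ^ D := one_le_pow₀ (by norm_num)
  have hR0 : (0 : ℝ) ≤ resist ω D := Nat.cast_nonneg _
  have hk : 10 ^ 60 ≤ κ := by
    apply le_of_sq_le_sq _ h0.le
    nlinarith
  obtain ⟨θ, hθ0, hθ⟩ : ∃ θ : ℝ, 0 < θ ∧ θ ^ 4 = κ * (10 ^ 28 / κ ^ 2) := by
    refine ⟨√(√(κ * (10 ^ 28 / κ ^ 2))), by positivity, ?_⟩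
    rw [show (4 : ℕ) = 2 * 2 by rfl, pow_mul, Real.sq_sqrt (Real.sqrt_nonneg _),
      Real.sq_sqrt (by positivity)]
  have hθ1 : θ ≤ 1 / 10 ^ 7 := by
    apply le_of_pow_le_pow_left₀ (n := 4) (by norm_num) (by positivity)
    rw [hθ, show κ * (10 ^ 28 / κ ^ 2) = 10 ^ 28 / κ by field_simp, div_le_iff₀ h0]
    nlinarith
  have hζ : (0 : ℝ) < 1 / 10 ^ 7 := by positivity
  obtain ⟨h1, h2⟩ := psi_bd hθ0 hζ hθ1 le_rfl rfl
  have H := main_ind h0 D ω (10 ^ 28 / κ ^ 2) θ (1 / 10 ^ 7) _ (by positivity) hθ0 hζ hθ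
    (by field_simp) hθ1 le_rfl
    (by
      rw [← mul_div_assoc, div_le_one (by positivity)]
      nlinarith) rfl
  refine ⟨_, H.mono le_rfl ?_ ?_⟩
  · gcongr
    linarith
  · nlinarith

end Pool.Agent.P.MP_0b0f5a_al.Fo
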