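import Pool.Agent.P.MP_0b0f5a_al.Fo.Step
import Pool.Agent.P.MP_0b0f5a_al.Fo.Bases
import Pool.Agent.P.MP_0b0f5a_al.Fo.Res

/-!
The induction over the runs with the chord cost.
-/

namespace Pool.Agent.P.MP_0b0f5a_al.Fo

open Finset

/-- The relative loss accumulated along the induction. -/
noncomputable def phi_Led2 (R P ϱ : ℝ) : ℝ := 48000 * R * ϱ + 70 * (√(P * ϱ) - √ϱ)

lemma phi_nonneg_Led2 {R P ϱ : ℝ} (hR : 0 ≤ R) (hP : 1 ≤ P) (h0 : 0 < ϱ) :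
    0 ≤ phi_Led2 R P ϱ := by
  have h1 : √ϱ ≤ √(P * ϱ) := Real.sqrt_le_sqrt (by nlinarith)
  have h2 : 0 ≤ 48000 * R * ϱ := by positivity
  unfold phi_Led2
  linarith

lemma phi_le_Led2 {R P ϱ : ℝ} (hR : 0 ≤ R) (hP : 1 ≤ P) (h0 : 0 < ϱ)
    (h : 6000000 * (R + P) * ϱ ≤ 1) : phi_Led2 R P ϱ ≤ 1 / 2 := by
  have h1 : 0 ≤ R * ϱ := by positivity
  have h2 : 0 ≤ P * ϱ := by positivity
  have h3 : √(P * ϱ) ≤ 1 / 2000 := by
    rw [Real.sqrt_le_iff]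
    constructor
    · norm_num
    · nlinarith
  have h4 : 0 ≤ √ϱ := Real.sqrt_nonneg _
  unfold phi_Led2
  nlinarith

lemma phi_step_Led2 {N P R R' ϱ : ℝ} (hN : 2 ≤ N) (h0 : 0 < ϱ)
    (hR : 3 * R + 1 = N ^ 2 + 3 * N * R') :
    phi_Led2 R' P (N * ϱ) + 12000 * (N ^ 2 * ϱ) + 20 * √(N * ϱ) ≤ phi_Led2 R (N * P) ϱ := by
  have h1 : P * (N * ϱ) = N * P * ϱ := by ring
  have h2 : 7 / 5 * √ϱ ≤ √(N * ϱ) := by
    apply Real.le_sqrt_of_sq_le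
    rw [mul_pow, Real.sq_sqrt h0.le]
    nlinarith
  have h3 : N ^ 2 / 4 ≤ R - N * R' := by nlinarith
  have h4 : N ^ 2 / 4 * ϱ ≤ (R - N * R') * ϱ := mul_le_mul_of_nonneg_right h3 h0.le
  unfold phi_Led2
  rw [h1]
  nlinarith

lemma ratio_Led2 {N P ϱ c : ℝ} (hN : 0 < N) (hP : 0 < P) (h0 : 0 < ϱ) :
    N * (c ^ 2 * P / 100) / (P / (N * ϱ)) = c ^ 2 * (N ^ 2 * ϱ) / 100 := by
  field_simp

lemma sqrt_b_Led2 {c P : ℝ} (hc : 0 ≤ c) (hP : 0 ≤ P) : √(c ^ 2 * P / 100) = c * √P / 10 := by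
  have h : c ^ 2 * P / 100 = (c * √P / 10) ^ 2 := by
    rw [div_pow, mul_pow, Real.sq_sqrt hP]
    norm_num
  rw [h, Real.sqrt_sq (by positivity)]

lemma lip_Led2 {N P ϱ : ℝ} (hN : 0 < N) (hP : 0 < P) (h0 : 0 < ϱ) :
    2 * √N * P / √(P / (N * ϱ)) = 2 * √(N * P) * √(N * ϱ) := by
  have h1 : 0 < √P := Real.sqrt_pos.2 hP
  have h2 : 0 < √(N * ϱ) := Real.sqrt_pos.2 (by positivity)
  rw [Real.sqrt_div hP.le, Real.sqrt_mul hN.le P]
  have h3 : P = √P * √P := (Real.mul_self_sqrt hP.le).symm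
  field_simp
  rw [Real.sq_sqrt hP.le]

lemma num_Led2 {N P R R' ϱ : ℝ} (hN : 2 ≤ N) (hP : 1 ≤ P) (hR' : 0 ≤ R') (h0 : 0 < ϱ)
    (hR : 3 * R + 1 = N ^ 2 + 3 * N * R') (h : 6000000 * (R + N * P) * ϱ ≤ 1) :
    6000000 * (R' + P) * (N * ϱ) ≤ 1 ∧
    2048 * 144 * (N * ((1 - phi_Led2 R' P (N * ϱ)) ^ 2 * P / 100) / (P / (N * ϱ))) ≤ 1 ∧
    √((1 - phi_Led2 R (N * P) ϱ) ^ 2 * (N * P) / 100) ≤
      √(N * ((1 - phi_Led2 R' P (N * ϱ)) ^ 2 * P / 100)) *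
        (1 - 1200000 * (N * ((1 - phi_Led2 R' P (N * ϱ)) ^ 2 * P / 100) / (P / (N * ϱ)))) -
        2 * √N * P / √(P / (N * ϱ)) := by
  have hN0 : 0 < N := by linarith
  have hP0 : 0 < P := by linarith
  have hNR : N * R' ≤ R := by nlinarith
  have hNR0 : 0 ≤ N * R' := by positivity
  have hR0 : 0 ≤ R := by linarith
  have hNP : 1 ≤ N * P := by nlinarith
  have hϱ' : 0 < N * ϱ := by positivity
  have a1 : 6000000 * (R' + P) * (N * ϱ) ≤ 1 := by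
    have : N * R' * ϱ ≤ R * ϱ := mul_le_mul_of_nonneg_right hNR h0.le
    nlinarith
  have p1 := phi_nonneg_Led2 hR' hP hϱ'
  have p2 := phi_le_Led2 hR' hP hϱ' a1
  have p3 := phi_le_Led2 hR0 hNP h0 h
  have p4 := phi_step_Led2 (P := P) hN h0 hR
  have hX0 : 0 ≤ N ^ 2 * ϱ := by positivity
  have hX : N ^ 2 * ϱ ≤ 1 / 2000000 := by
    have h1 : N ^ 2 ≤ 3 * (R + N * P) := by nlinarith
    have h2 : N ^ 2 * ϱ ≤ 3 * (R + N * P) * ϱ := mul_le_mul_of_nonneg_right h1 h0.le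
    nlinarith
  generalize phi_Led2 R' P (N * ϱ) = f' at *
  generalize phi_Led2 R (N * P) ϱ = f at *
  have hc : (1 - f') ^ 2 ≤ 1 := by nlinarith
  have hcX : (1 - f') ^ 2 * (N ^ 2 * ϱ) ≤ N ^ 2 * ϱ := by nlinarith
  have hcX0 : 0 ≤ (1 - f') ^ 2 * (N ^ 2 * ϱ) := by positivity
  refine ⟨a1, ?_, ?_⟩
  · rw [ratio_Led2 hN0 hP0 h0]
    linarith
  · have e1 : N * ((1 - f') ^ 2 * P / 100) = (1 - f') ^ 2 * (N * P) / 100 := by ring
    rw [ratio_Led2 hN0 hP0 h0, lip_Led2 hN0 hP0 h0, e1, sqrt_b_Led2 (by linarith) (by positivity),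
      sqrt_b_Led2 (by linarith) (by positivity)]
    have hu : 0 ≤ √(N * P) := Real.sqrt_nonneg _
    generalize √(N * P) = u at *
    generalize √(N * ϱ) = v at *
    generalize (1 - f') ^ 2 * (N ^ 2 * ϱ) = Y at *
    generalize N ^ 2 * ϱ = X at *
    have key : 1 - f ≤ (1 - f') * (1 - 12000 * Y) - 20 * v := by nlinarith
    have := mul_le_mul_of_nonneg_right key hu
    nlinarith

theorem strong_Led2 (D : ℕ) : ∀ (ω : ℕ → Fin 3) (o : Fin 3) (ϱ : ℝ), 0 < ϱ → o ≠ ω 0 →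
    6000000 * ((resist ω D : ℝ) + 2 ^ D) * ϱ ≤ 1 →
    PII o ω D (2 ^ D / ϱ) ((1 - phi_Led2 (resist ω D) (2 ^ D) ϱ) ^ 2 * 2 ^ D / 100) (2 ^ D) := by
  induction D using Nat.strong_induction_on with
  | _ D ih =>
  intro ω o ϱ h0 ho h
  have hP : (1 : ℝ) ≤ 2 ^ D := one_le_pow₀ (by norm_num)
  have hR0 : (0 : ℝ) ≤ resist ω D := Nat.cast_nonneg _
  rcases run_cases ω D with hc | ⟨L, m, ω', hD, hω, hne⟩
  · have p1 := phi_nonneg_Led2 hR0 hP h0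
    have p2 := phi_le_Led2 hR0 hP h0 h
    have hr : (3 * (resist ω D : ℝ) + 1) = 4 ^ D := by exact_mod_cast resist_const hc
    generalize phi_Led2 (resist ω D) (2 ^ D) ϱ = f at *
    have hc1 : (1 - f) ^ 2 ≤ 1 := by nlinarith
    have hc0 : 0 < (1 - f) ^ 2 := pow_pos (by linarith) 2
    have hb : (1 - f) ^ 2 * 2 ^ D / 100 ≤ 2 ^ D / 100 := by nlinarith
    refine baseII hc o (by positivity) hb ?_
    rw [le_div_iff₀ h0]
    have h4 : (0 : ℝ) ≤ 4 ^ D := by positivity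
    have h5 : 2000000 * 4 ^ D * ϱ ≤ 1 := by
      rw [← hr]
      nlinarith
    have h6 : 200000000 * 4 ^ D * ϱ * ((1 - f) ^ 2 * 2 ^ D / 100) ≤
        200000000 * 4 ^ D * ϱ * (2 ^ D / 100) :=
      mul_le_mul_of_nonneg_left hb (by positivity)
    have h7 : 2000000 * 4 ^ D * ϱ * 2 ^ D ≤ 1 * 2 ^ D :=
      mul_le_mul_of_nonneg_right h5 (by positivity)
    nlinarith
  · generalize ω 0 = s at *
    subst hω hD
    have hr := resist_pre hne (L + 1) m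
    have e0 : m + (L + 1) = m + 1 + L := by omega
    rw [e0] at hr
    set N : ℝ := 2 ^ (L + 1) with hN
    have hN2 : 2 ≤ N := by
      have : (1 : ℝ) ≤ 2 ^ L := one_le_pow₀ (by norm_num)
      rw [hN, pow_succ]
      linarith
    have hr' : 3 * (resist (pre s (L + 1) ω') (m + 1 + L) : ℝ) + 1 =
        N ^ 2 + 3 * N * resist ω' m := by
      have e : N ^ 2 = 4 ^ (L + 1) := by
        rw [hN, ← pow_mul, mul_comm, pow_mul]
        norm_num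
      rw [e, hN]
      exact_mod_cast hr
    have eP : (2 : ℝ) ^ (m + 1 + L) = N * 2 ^ m := by
      rw [hN, ← pow_add]
      congr 1
      omega
    have hPm : (1 : ℝ) ≤ 2 ^ m := one_le_pow₀ (by norm_num)
    rw [eP] at h ⊢
    obtain ⟨a1, a2, a3⟩ := num_Led2 hN2 hPm (Nat.cast_nonneg _) h0 hr' h
    have hϱ' : 0 < N * ϱ := by positivity
    have H := ih m (by omega) ω' s (N * ϱ) hϱ' hne.symm a1
    have res := stepII hne ho H L hN hPm (by positivity) (by positivity) a2 a3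
    have eT : N ^ 2 * (2 ^ m / (N * ϱ)) = N * 2 ^ m / ϱ := by
      field_simp
    rwa [eT] at res

theorem ledgerII {D : ℕ} {ω : ℕ → Fin 3} {o : Fin 3} {ϱ : ℝ} (h0 : 0 < ϱ) (ho : o ≠ ω 0)
    (h : 6000000 * (resist ω D + 2 ^ D) * ϱ ≤ 1) :
    PII o ω D (2 ^ D / ϱ) (2 ^ D / 400) (2 ^ D) := by
  have hP : (1 : ℝ) ≤ 2 ^ D := one_le_pow₀ (by norm_num)
  have p2 := phi_le_Led2 (Nat.cast_nonneg (resist ω D)) hP h0 h
  refine (strong_Led2 D ω o ϱ h0 ho h).mono ?_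
  generalize phi_Led2 (resist ω D) (2 ^ D) ϱ = f at *
  have h1 : 1 / 4 ≤ (1 - f) ^ 2 := by nlinarith
  nlinarith

end Pool.Agent.P.MP_0b0f5a_al.Fo
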