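import Pool.Agent.P.MP_0b0f5a_al.Fo.Dih

/-!
The measures carried by the vertices of the cycle.
-/

namespace Pool.Agent.P.MP_0b0f5a_al.Fo

open Finset

private lemma push_perm {X Y : Type} [Fintype X] [DecidableEq Y] (F : X → Y) {β β' : X → ℝ}
    (g : Equiv.Perm X) (hg : ∀ x, β (g x) = β' x) {p p' : Y} (h : ∀ x, F (g x) = p ↔ F x = p') :
    push univ F β p = push univ F β' p' := by
  unfold push
  rw [sum_filter, sum_filter, ← Equiv.sum_comp g]
  exact sum_congr rfl fun x _ => if_congr (h x) (hg x) rfl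

theorem nu_exists {s : Fin 3} {L m : ℕ} {ω : ℕ → Fin 3} {fl Yl cj} (hc : Coord s L m ω fl Yl cj)
    {N : ℕ} (hN : N = 2 ^ (L + 1)) {β : W (m + 1 + L + 1) → ℝ}
    (hβ : Meas (pre s (L + 1) ω) (m + 1 + L + 1) β) :
    ∃ ν : ℕ → List (W (m + 1)) → ℝ, (∀ i y, 0 ≤ ν i y) ∧ (∀ i, ν (i + 4 * N) = ν i) ∧
      (∀ i y, ν i y ≠ 0 → AdmL (fun q u => Reach (m + 1) ω u ∧ jt s m ω u = cj q) y) ∧
      (∀ q < N, ∀ j, ∀ y ∈ Wd (W (m + 1)) N,
        ν (q + j * N) (togAt q (kk s m ω j) y) = ν (q + j * N) y) ∧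
      (∀ i < 4 * N, ∀ θ y,
        push univ (fun x => (fl x, Yl x)) β ((i, θ), y) = ν (own i θ) y / (8 * N)) ∧
      (∀ i < 4 * N, ∀ θ y, push univ (fun x => (fl x, Yl x)) (fun x => β (aA _ x)) ((i, θ), y) =
        ν (par i θ) y / (8 * N)) := by
  have hN0 : 0 < N := by rw [hN]; positivity
  have hN8 : (8 * N : ℝ) ≠ 0 := by positivity
  have hlt : ∀ x, (fl x).1 < 4 * N := fun x => hN ▸ hc.fl_lt x
  have hA : ∀ i < 4 * N, ∀ y, push univ (fun x => (fl x, Yl x)) β ((i, true), y) =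
      push univ (fun x => (fl x, Yl x)) β (((i + 1) % (4 * N), false), y) := by
    intro i hi y
    refine push_perm _ (aS (ω 0) _ (pre s (L + 1) ω)) (hβ.inv _) fun x => ?_
    obtain ⟨h1, h2⟩ := hc.fl_t x
    have h3 := hlt x
    have h4 := hlt (aS (ω 0) _ (pre s (L + 1) ω) x)
    rw [← hN] at h2
    simp only [Prod.mk.injEq, hc.Yl_t x]
    refine and_congr_left' ?_
    generalize fl (aS (ω 0) _ (pre s (L + 1) ω) x) = p' at h1 h2 h4
    generalize fl x = p at h1 h2 h3
    obtain ⟨a, b⟩ := p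
    obtain ⟨a', b'⟩ := p'
    dsimp only at h1 h2 h3 h4
    subst h1
    cases b
    · simp only [own, Bool.not_false, if_true, Bool.false_eq_true, if_false] at h2
      rw [Nat.mod_eq_of_lt h3] at h2
      simp only [Bool.not_false, Prod.mk.injEq, and_true]
      constructor
      · rintro rfl; exact h2.symm
      · intro h5
        have h6 : a' + 1 ≡ i + 1 [MOD 4 * N] := by rw [Nat.ModEq, h2, h5]
        exact (Nat.ModEq.add_right_cancel' 1 h6).eq_of_lt_of_lt h4 hi
    · simp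
  have h5 : ∀ i < 4 * N, ∀ θ y, push univ (fun x => (fl x, Yl x)) β ((i, θ), y) =
      8 * N * push univ (fun x => (fl x, Yl x)) β ((own i θ % (4 * N), false), y) / (8 * N) := by
    intro i hi θ y
    rw [mul_div_cancel_left₀ _ hN8]
    cases θ
    · rw [show own i false = i from rfl, Nat.mod_eq_of_lt hi]
    · exact hA i hi y
  refine ⟨fun i y => 8 * N * push univ (fun x => (fl x, Yl x)) β ((i % (4 * N), false), y),
    fun i y => ?_, fun i => ?_, fun i y hy => ?_, fun q hq j y _ => ?_, h5, fun i hi θ y => ?_⟩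
  · exact mul_nonneg (by positivity) (sum_nonneg fun x _ => hβ.nonneg x)
  · simp only [Nat.add_mod_right]
  · obtain ⟨x, hx, hx0⟩ := exists_ne_zero_of_sum_ne_zero (right_ne_zero_of_mul hy)
    have h1 : Yl x = y := congrArg Prod.snd (mem_filter.1 hx).2
    exact h1 ▸ hc.adm x (hβ.supp x hx0)
  · refine congrArg (fun r : ℝ => 8 * N * r) ?_
    refine push_perm _ (aS s _ (pre s (L + 1) ω)) (hβ.inv _) fun x => ?_
    simp only [Prod.mk.injEq, hc.fl_s x]
    refine and_congr_right fun h1 => ?_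
    rw [hc.Yl_s x q (hN ▸ hq) j (by rw [h1, ← hN]; exact Nat.mod_mod _ _)]
    constructor
    · intro h2
      have h3 := congrArg (togAt q (kk s m ω j)) h2
      rwa [togAt_togAt q (kk_kk j), togAt_togAt q (kk_kk j)] at h3
    · rintro rfl; rfl
  · have h1 : par i θ = own i (!θ) := by cases θ <;> rfl
    rw [h1, ← h5 i hi]
    refine (push_perm _ (aA _) (fun _ => rfl) fun x => ?_).symm
    simp only [hc.Yl_a x, hc.fl_a x]
    generalize fl x = p
    obtain ⟨a, b⟩ := p
    simp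

end Pool.Agent.P.MP_0b0f5a_al.Fo
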