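import Pool.Agent.P.MP_0b0f5a_al.Fo.Stg

/-!
The splitting of the increments into a diffusive part and a jump part, and the pointwise choice of
the splitting for the child.
-/

namespace Pool.Agent.P.MP_0b0f5a_al.Fo

open Finset

private lemma le_osc {P : ℕ} (hP : 0 < P) {f : ℕ → ℝ} (hper : ∀ i, f (i + P) = f i) (i : ℕ) :
    f i ≤ f 0 + ∑ j ∈ range P, |f (j + 1) - f j| := by
  have h1 : f (i % P) = f i := Function.Periodic.map_mod_nat (f := f) hper i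
  have h2 := sum_range_sub f (i % P)
  have h3 : ∑ j ∈ range (i % P), (f (j + 1) - f j) ≤ ∑ j ∈ range P, |f (j + 1) - f j| :=
    (sum_le_sum fun j _ => le_abs_self _).trans (sum_le_sum_of_subset_of_nonneg
      (range_mono (Nat.mod_lt i hP).le) fun _ _ _ => abs_nonneg _)
  linarith

private lemma bad_word {N : ℕ} (hN : 1 ≤ N) {f w : ℕ → ℝ} (h0 : ∀ i, 0 ≤ f i)
    (hper : ∀ i, f (i + 4 * N) = f i) {s : ℝ} (hs : 0 < s) (hs1 : s ≤ 1)
    (hb : s * f 0 ≤ ∑ j ∈ range (4 * N), |f (j + 1) - f j|) :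
    ∑ j ∈ range (4 * N), |f (j + 1) - f j| ≤
      (1 + s) * ∑ j ∈ range (4 * N), |f (j + 1) - f j - w j * (f j + f (j + 1))| +
        20 * N / s ^ 2 * ∑ j ∈ range (4 * N), w j ^ 2 * (f j + f (j + 1)) := by
  have hN' : (0 : ℝ) < N := by exact_mod_cast hN
  have hle := le_osc (by omega) hper
  set O := ∑ j ∈ range (4 * N), |f (j + 1) - f j| with hO
  set R := ∑ j ∈ range (4 * N), |f (j + 1) - f j - w j * (f j + f (j + 1))| with hR
  set Q := ∑ j ∈ range (4 * N), w j ^ 2 * (f j + f (j + 1)) with hQ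
  have hO0 : 0 ≤ O := sum_nonneg fun _ _ => abs_nonneg _
  have hQ0 : 0 ≤ Q := sum_nonneg fun j _ => mul_nonneg (sq_nonneg _) (add_nonneg (h0 _) (h0 _))
  obtain ⟨K, hK, hK0⟩ : ∃ K : ℝ, K = N / s ^ 2 ∧ 0 < K := ⟨_, rfl, by positivity⟩
  obtain ⟨l, hl, hl0⟩ : ∃ l : ℝ, l = s ^ 2 / (32 * N) ∧ 0 < l := ⟨_, rfl, by positivity⟩
  have hlK : l * K = 1 / 32 := by rw [hl, hK]; field_simp
  have hlN : l * N = s ^ 2 / 32 := by rw [hl]; field_simp
  have h1 : O ≤ ∑ j ∈ range (4 * N), (|f (j + 1) - f j - w j * (f j + f (j + 1))| +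
      8 * K * (w j ^ 2 * (f j + f (j + 1))) + l * (2 * (f 0 + O))) := by
    refine sum_le_sum fun j _ => ?_
    have ht : 0 ≤ f j + f (j + 1) := add_nonneg (h0 _) (h0 _)
    have h2 : |w j| ≤ l + 8 * K * w j ^ 2 := by
      refine le_of_mul_le_mul_left ?_ hK0
      rw [← sq_abs (w j)]
      nlinarith [sq_nonneg (4 * K * |w j| - 1 / 4)]
    have h3 := abs_add_le (f (j + 1) - f j - w j * (f j + f (j + 1))) (w j * (f j + f (j + 1)))
    rw [sub_add_cancel, abs_mul, abs_of_nonneg ht] at h3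
    have h4 := mul_le_mul_of_nonneg_right h2 ht
    have h5 : l * (f j + f (j + 1)) ≤ l * (2 * (f 0 + O)) :=
      mul_le_mul_of_nonneg_left (by linarith [hle j, hle (j + 1)]) hl0.le
    linarith
  rw [sum_add_distrib, sum_add_distrib, ← mul_sum, ← hR, ← hQ, sum_const, card_range,
    nsmul_eq_mul] at h1
  have h2 : ((4 * N : ℕ) : ℝ) * (l * (2 * (f 0 + O))) = s ^ 2 / 4 * (f 0 + O) := by
    push_cast
    linear_combination 8 * (f 0 + O) * hlN
  rw [h2] at h1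
  have h3 : 20 * N / s ^ 2 * Q = 20 * (K * Q) := by rw [hK]; ring
  rw [h3]
  have h4 : 0 ≤ K * Q := mul_nonneg hK0.le hQ0
  have h5 : s * (s * f 0) ≤ s * O := mul_le_mul_of_nonneg_left hb hs.le
  have h6 : O * (1 - s * (1 + s) / 4) ≤ R + 8 * (K * Q) := by nlinarith
  have h7 := mul_le_mul_of_nonneg_left h6 (show 0 ≤ 1 + s by linarith)
  have h8 : 0 ≤ O * (s * (4 - (1 + s) ^ 2)) :=
    mul_nonneg hO0 (mul_nonneg hs.le (by nlinarith))
  have h9 : s * (K * Q) ≤ K * Q := mul_le_of_le_one_left h4 hs1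
  nlinarith

theorem clean {Y : Type} (S : Finset Y) {N : ℕ} (hN : 1 ≤ N) (ν w : ℕ → Y → ℝ)
    (h0 : ∀ i y, 0 ≤ ν i y) (hper : ∀ i, ν (i + 4 * N) = ν i)
    (hm : ∑ i ∈ range (4 * N), ∑ y ∈ S, ν i y = 4 * N) {s : ℝ} (hs : 0 < s) (hs1 : s ≤ 1) :
    ∃ α γ : ℕ → Y → ℝ, (∀ i, α (i + 4 * N) = α i) ∧ (∀ i, γ (i + 4 * N) = γ i) ∧
      (∀ i y, ν (i + 1) y = ν i y + α i y + γ i y) ∧ (∀ i y, ν 0 y = 0 → α i y = 0) ∧
      ∑ i ∈ range (4 * N), ∑ y ∈ S, α i y ^ 2 / ν 0 y ≤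
        (2 + 2 * s) * ∑ i ∈ range (4 * N), cQ S (ν i) (ν (i + 1)) (w i) ∧
      ∑ i ∈ range (4 * N), ∑ y ∈ S, |α i y| ≤
        √(8 * N * ∑ i ∈ range (4 * N), cQ S (ν i) (ν (i + 1)) (w i)) ∧
      ∑ i ∈ range (4 * N), ∑ y ∈ S, |γ i y| ≤
        (1 + s) * ∑ i ∈ range (4 * N), cL S (ν i) (ν (i + 1)) (w i) +
          20 * N / s ^ 2 * ∑ i ∈ range (4 * N), cQ S (ν i) (ν (i + 1)) (w i) := by
  classical
  have hper' : ∀ i, ν (i + 4 * N + 1) = ν (i + 1) := fun i => by rw [add_right_comm, hper]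
  have hpy : ∀ y i, ν (i + 4 * N) y = ν i y := fun y i => by rw [hper]
  have ht : ∀ i y, 0 ≤ ν i y + ν (i + 1) y := fun i y => add_nonneg (h0 _ _) (h0 _ _)
  obtain ⟨good, hgood⟩ : ∃ good : Y → Prop, ∀ y, good y ↔
      ∑ j ∈ range (4 * N), |ν (j + 1) y - ν j y| ≤ s * ν 0 y := ⟨_, fun _ => Iff.rfl⟩
  have hle : ∀ y, good y → ∀ i, ν i y + ν (i + 1) y ≤ (2 + 2 * s) * ν 0 y := fun y hy i => by
    have h1 := le_osc (f := fun i => ν i y) (by omega) (hpy y)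
    have h2 := (hgood y).1 hy
    linarith [h1 i, h1 (i + 1)]
  obtain ⟨α, hα⟩ : ∃ α : ℕ → Y → ℝ, ∀ i y, α i y =
      if good y then w (i % (4 * N)) y * (ν i y + ν (i + 1) y) else 0 := ⟨_, fun _ _ => rfl⟩
  have hα' : ∀ i ∈ range (4 * N), ∀ y, α i y =
      if good y then w i y * (ν i y + ν (i + 1) y) else 0 := fun i hi y => by
    rw [hα, Nat.mod_eq_of_lt (mem_range.1 hi)]
  have hpα : ∀ i, α (i + 4 * N) = α i := fun i => by
    funext y
    rw [hα, hα, Nat.add_mod_right, hper, hper']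
  refine ⟨α, fun i y => ν (i + 1) y - ν i y - α i y, hpα, fun i => ?_, fun i y => by ring,
    fun i y h => ?_, ?_, ?_, ?_⟩
  · simp only [hper, hper', hpα]
  · rw [hα]
    split_ifs with h1
    · have h2 := hle y h1 i
      rw [h, mul_zero] at h2
      rw [le_antisymm h2 (ht i y), mul_zero]
    · rfl
  · rw [mul_sum]
    refine sum_le_sum fun i hi => ?_
    rw [cQ, mul_sum]
    refine sum_le_sum fun y _ => ?_
    have h1 : 0 ≤ w i y ^ 2 * (ν i y + ν (i + 1) y) := mul_nonneg (sq_nonneg _) (ht i y)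
    have h2 : 0 ≤ (2 + 2 * s) * (w i y ^ 2 * (ν i y + ν (i + 1) y)) := mul_nonneg (by linarith) h1
    rw [hα' i hi]
    split_ifs with h3
    · refine div_le_of_le_mul₀ (h0 0 y) h2 ?_
      have h4 := mul_le_mul_of_nonneg_left (hle y h3 i) h1
      linarith
    · simpa using h2
  · have h1 : ∑ i ∈ range (4 * N), ∑ y ∈ S, (ν i y + ν (i + 1) y) = 8 * N := by
      have h2 := sum_shift (f := fun i => ∑ y ∈ S, ν i y) (P := 4 * N)
        (fun i => by simp only [hper]) 1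
      simp only [add_comm 1] at h2
      simp only [sum_add_distrib]
      rw [h2, hm]; ring
    have h2 := sum_sq_le_sum_mul_sum_of_sq_le_mul (range (4 * N) ×ˢ S)
      (r := fun x => |w x.1 x.2| * (ν x.1 x.2 + ν (x.1 + 1) x.2))
      (f := fun x => ν x.1 x.2 + ν (x.1 + 1) x.2)
      (g := fun x => w x.1 x.2 ^ 2 * (ν x.1 x.2 + ν (x.1 + 1) x.2)) (fun x _ => ht _ _)
      (fun x _ => mul_nonneg (sq_nonneg _) (ht _ _)) (fun x _ => le_of_eq (by rw [mul_pow, sq_abs]; ring))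
    simp only [sum_product] at h2
    rw [h1] at h2
    refine le_trans (sum_le_sum fun i hi => sum_le_sum fun y _ => ?_) (Real.le_sqrt_of_sq_le h2)
    rw [hα' i hi]
    split_ifs
    · rw [abs_mul, abs_of_nonneg (ht i y)]
    · rw [abs_zero]; exact mul_nonneg (abs_nonneg _) (ht i y)
  · simp only [cL, cQ]
    rw [sum_comm, sum_comm (s := range (4 * N)), sum_comm (s := range (4 * N)), mul_sum, mul_sum,
      ← sum_add_distrib]
    refine sum_le_sum fun y _ => ?_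
    by_cases h1 : good y
    · rw [sum_congr rfl fun i hi => by rw [hα' i hi, if_pos h1]]
      have h2 : 0 ≤ ∑ i ∈ range (4 * N), |ν (i + 1) y - ν i y - w i y * (ν i y + ν (i + 1) y)| :=
        sum_nonneg fun _ _ => abs_nonneg _
      have h3 : 0 ≤ 20 * N / s ^ 2 * ∑ i ∈ range (4 * N), w i y ^ 2 * (ν i y + ν (i + 1) y) :=
        mul_nonneg (by positivity) (sum_nonneg fun i _ => mul_nonneg (sq_nonneg _) (ht i y))
      have h4 := mul_nonneg hs.le h2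
      linarith
    · rw [sum_congr rfl fun i hi => by rw [hα' i hi, if_neg h1, sub_zero]]
      exact bad_word hN (f := fun i => ν i y) (w := fun i => w i y) (fun i => h0 i y) (hpy y) hs hs1
        (not_le.1 fun h2 => h1 ((hgood y).2 h2)).le

private lemma abs_mul_le {a b x : ℝ} (h : |a| ≤ b) : |a * x| ≤ b * |x| := by
  rw [abs_mul]; exact mul_le_mul_of_nonneg_right h (abs_nonneg _)

private lemma big_case {s p x x' : ℝ} (hs : 0 < s) (hs1 : s ≤ 1 / 100) (hp : 0 < p) (hx : 0 ≤ x)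
    (hx' : 0 ≤ x') (h : s * p ≤ x ∨ s * p ≤ x') :
    (1 + 4 * s) * (x + x') ≤ 2 / s ^ 2 * (x ^ 2 / p + x' ^ 2 / p) := by
  have h1 : 2 / s ^ 2 * (x ^ 2 / p + x' ^ 2 / p) = 2 * (x ^ 2 + x' ^ 2) / (s ^ 2 * p) := by
    field_simp
  rw [h1, le_div_iff₀ (by positivity)]
  have h2 : (1 + 4 * s) * s ≤ 1 := by nlinarith
  have h3 : 0 ≤ (x + x') * (s * p) := by positivity
  have h4 := mul_le_mul_of_nonneg_right h2 h3
  have h5 : (x + x') * (s * p) ≤ 2 * (x ^ 2 + x' ^ 2) := by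
    rcases h with h | h
    · have := mul_le_mul_of_nonneg_left h (add_nonneg hx hx')
      nlinarith [sq_nonneg (x - x')]
    · have := mul_le_mul_of_nonneg_left h (add_nonneg hx hx')
      nlinarith [sq_nonneg (x - x')]
  linarith

private lemma sq_case {s u v A Z : ℝ} (hs : 0 < s) (hs1 : s ≤ 1 / 100)
    (hu : |u| ≤ (1 + 4 * s) * |A|) (hv : |v| ≤ 6 * s * |Z|) :
    (u + v) ^ 2 ≤ (1 - 2 * s) * ((1 + 12 * s) * A ^ 2 + 40 * s * Z ^ 2) := by
  have h1 : |u + v| ≤ (1 + 4 * s) * |A| + 6 * s * |Z| := (abs_add_le _ _).trans (add_le_add hu hv)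
  have h2 := pow_le_pow_left₀ (abs_nonneg _) h1 2
  rw [sq_abs] at h2
  rw [← sq_abs A, ← sq_abs Z]
  generalize |A| = a at *
  generalize |Z| = z at *
  have h3 : 0 ≤ s * ((1 + 4 * s) * a - 6 * z) ^ 2 := mul_nonneg hs.le (sq_nonneg _)
  have h4 : (1 + s) * (1 + 4 * s) ^ 2 ≤ (1 - 2 * s) * (1 + 12 * s) := by
    have : 0 ≤ s * (1 - 48 * s - 16 * s ^ 2) := mul_nonneg hs.le (by nlinarith)
    nlinarith
  have h5 : 36 * s * (1 + s) ≤ (1 - 2 * s) * (40 * s) := by nlinarith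
  have h6 := mul_le_mul_of_nonneg_right h4 (sq_nonneg a)
  have h7 := mul_le_mul_of_nonneg_right h5 (sq_nonneg z)
  linarith

theorem pointwise {s e e' p ρ ρ' Z Z' J J' : ℝ} (hs : 0 < s) (hs1 : s ≤ 1 / 100) (he : 0 ≤ e)
    (he' : 0 ≤ e') (hp : 0 ≤ p) (h1 : 1 - 2 * s ≤ ρ) (h2 : ρ ≤ 1 + 4 * s) (h3 : 1 - 2 * s ≤ ρ')
    (h4 : ρ' ≤ 1 + 4 * s) (h5 : e - p = ρ * (Z + J)) (h6 : e' - p = ρ' * (Z' + J'))
    (h7 : p = 0 → Z = 0 ∧ Z' = 0) :
    ∃ w, w ^ 2 * (e + e') ≤ (1 + 12 * s) / 2 * ((Z' - Z) ^ 2 / p) + 20 * s * (Z ^ 2 / p) ∧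
      |e' - e - w * (e + e')| ≤ (1 + 4 * s) * |J' - J| + 10 * s * (|J| + |J'|) +
        2 / s ^ 2 * (Z ^ 2 / p + Z' ^ 2 / p) := by
  have hρ : |ρ| ≤ 1 + 4 * s := abs_le.2 ⟨by linarith, h2⟩
  have hρ' : |ρ'| ≤ 1 + 4 * s := abs_le.2 ⟨by linarith, h4⟩
  have hρρ : |ρ' - ρ| ≤ 6 * s := abs_le.2 ⟨by linarith, by linarith⟩
  have hE : |ρ' * (J' - J) + (ρ' - ρ) * J| ≤ (1 + 4 * s) * |J' - J| + 6 * s * |J| :=
    (abs_add_le _ _).trans (add_le_add (abs_mul_le hρ') (abs_mul_le hρρ))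
  have hD : |ρ' * Z' - ρ * Z| ≤ (1 + 4 * s) * (|Z| + |Z'|) := by
    have h8 := abs_sub (ρ' * Z') (ρ * Z)
    have h9 := abs_mul_le (x := Z') hρ'
    have h10 := abs_mul_le (x := Z) hρ
    linarith
  have hsJ : 0 ≤ s * |J| := by positivity
  have hsJ' : 0 ≤ s * |J'| := by positivity
  have hdiff : e' - e = (ρ' * (J' - J) + (ρ' - ρ) * J) + (ρ' * Z' - ρ * Z) := by linarith
  have hzero : (1 + 4 * s) * (|Z| + |Z'|) ≤ 2 / s ^ 2 * (Z ^ 2 / p + Z' ^ 2 / p) →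
      ∃ w, w ^ 2 * (e + e') ≤ (1 + 12 * s) / 2 * ((Z' - Z) ^ 2 / p) + 20 * s * (Z ^ 2 / p) ∧
      |e' - e - w * (e + e')| ≤ (1 + 4 * s) * |J' - J| + 10 * s * (|J| + |J'|) +
        2 / s ^ 2 * (Z ^ 2 / p + Z' ^ 2 / p) := fun h => by
    refine ⟨0, by rw [zero_pow two_ne_zero, zero_mul]; positivity, ?_⟩
    rw [zero_mul, sub_zero, hdiff]
    refine (abs_add_le _ _).trans ?_
    linarith
  rcases hp.eq_or_lt with hp0 | hp0
  · obtain ⟨rfl, rfl⟩ := h7 hp0.symm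
    exact hzero (by simp)
  by_cases hb : s * p ≤ |Z| ∨ s * p ≤ |Z'|
  · have h8 := big_case hs hs1 hp0 (abs_nonneg Z) (abs_nonneg Z') hb
    rw [sq_abs, sq_abs] at h8
    exact hzero h8
  rw [not_or, not_le, not_le] at hb
  obtain ⟨M, hM1, hM2, hM3⟩ : ∃ M, e + e' ≤ M ∧ 2 * p * (1 - 2 * s) ≤ M ∧
      M - (e + e') ≤ (1 + 4 * s) * (|J| + |J'|) := by
    refine ⟨max (e + e') (2 * p * (1 - 2 * s)), le_max_left _ _, le_max_right _ _, ?_⟩
    rw [sub_le_iff_le_add]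
    refine max_le (le_add_of_nonneg_left (by positivity)) ?_
    have a1 := neg_abs_le (ρ * Z)
    have a2 := neg_abs_le (ρ * J)
    have a3 := neg_abs_le (ρ' * Z')
    have a4 := neg_abs_le (ρ' * J')
    have b1 := abs_mul_le (x := Z) hρ
    have b2 := abs_mul_le (x := J) hρ
    have b3 := abs_mul_le (x := Z') hρ'
    have b4 := abs_mul_le (x := J') hρ'
    have c1 : (1 + 4 * s) * (|Z| + |Z'|) ≤ 2 * (2 * (s * p)) :=
      mul_le_mul (by linarith) (by linarith) (by positivity) (by norm_num)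
    linarith
  have hs2 : 0 < 1 - 2 * s := by linarith
  have hM0 : 0 < M := lt_of_lt_of_le (by positivity) hM2
  obtain ⟨w, hw⟩ : ∃ w, w * M = ρ' * Z' - ρ * Z := ⟨_, div_mul_cancel₀ _ hM0.ne'⟩
  refine ⟨w, ?_, ?_⟩
  · have h8 := sq_case hs hs1 (abs_mul_le (x := Z' - Z) hρ') (abs_mul_le (x := Z) hρρ)
    rw [show ρ' * (Z' - Z) + (ρ' - ρ) * Z = w * M by linarith] at h8
    have h9 : 0 ≤ w ^ 2 * M := by positivity
    have h10 := mul_le_mul_of_nonneg_left hM2 h9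
    have h11 : w ^ 2 * M * (2 * p) ≤ (1 + 12 * s) * (Z' - Z) ^ 2 + 40 * s * Z ^ 2 :=
      le_of_mul_le_mul_left (by linarith) hs2
    have h12 : (1 + 12 * s) / 2 * ((Z' - Z) ^ 2 / p) + 20 * s * (Z ^ 2 / p) =
        ((1 + 12 * s) * (Z' - Z) ^ 2 + 40 * s * Z ^ 2) / (2 * p) := by
      field_simp; ring
    rw [h12, le_div_iff₀ (by positivity)]
    refine le_trans (mul_le_mul_of_nonneg_right ?_ (by positivity)) h11
    exact mul_le_mul_of_nonneg_left hM1 (sq_nonneg _)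
  · have h8 : |w| ≤ 2 * s := by
      refine le_of_mul_le_mul_right ?_ hM0
      rw [← hw, abs_mul, abs_of_pos hM0] at hD
      have c1 : (1 + 4 * s) * (|Z| + |Z'|) ≤ 2 * (1 - 2 * s) * (2 * (s * p)) :=
        mul_le_mul (by linarith) (by linarith) (by positivity) (by positivity)
      have c2 := mul_le_mul_of_nonneg_left hM2 hs.le
      linarith
    have h9 : |w * (M - (e + e'))| ≤ 2 * s * (2 * (|J| + |J'|)) := by
      rw [abs_mul, abs_of_nonneg (sub_nonneg.2 hM1)]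
      refine mul_le_mul h8 (hM3.trans ?_) (sub_nonneg.2 hM1) (by positivity)
      exact mul_le_mul_of_nonneg_right (by linarith) (by positivity)
    rw [show e' - e - w * (e + e') = (ρ' * (J' - J) + (ρ' - ρ) * J) + w * (M - (e + e')) by
      linarith]
    refine (abs_add_le _ _).trans ?_
    have h10 : 0 ≤ 2 / s ^ 2 * (Z ^ 2 / p + Z' ^ 2 / p) := by positivity
    linarith

end Pool.Agent.P.MP_0b0f5a_al.Fo
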