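import Pool.Agent.P.MP_0b0f5a_al.Fo.Stg

/-!
Martingale estimates: orthogonality of the increments, monotone families, first passage.
-/

namespace Pool.Agent.P.MP_0b0f5a_al.Fo

open Finset

variable {U : Type} [Fintype U]

private lemma sq_div_term {p g : ℝ} (x : ℝ) (h : p = 0 → g = 0) :
    (g - p * x) ^ 2 / p = g ^ 2 / p - (2 * x * g - x ^ 2 * p) := by
  by_cases hp : p = 0
  · simp [hp, h hp]
  · field_simp; ring

private lemma marg_zero {N : ℕ} {π σ : List U → ℝ} (h0 : ∀ y, 0 ≤ π y)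
    (h : ∀ y, π y = 0 → σ y = 0) {z : List U} (hz : marg N π z = 0) : marg N σ z = 0 :=
  sum_eq_zero fun w hw => h _ ((sum_eq_zero_iff_of_nonneg fun _ _ => h0 _).1 hz w hw)

private lemma dl_eq (N : ℕ) (π σ : List U → ℝ) (z : List U) (u : U) :
    dl N π σ z u = marg N σ (u :: z) - marg N π (u :: z) * (marg N σ z / marg N π z) := by
  rw [dl, cnd]; ring

private lemma tele {N : ℕ} {t E : ℕ → ℝ} (h : ∀ q < N, t q ≤ E (q + 1) - E q) (h0 : 0 ≤ E 0) :
    ∑ q ∈ range N, t q ≤ E N := by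
  have h1 : ∑ q ∈ range N, t q ≤ ∑ q ∈ range N, (E (q + 1) - E q) :=
    sum_le_sum fun q hq => h q (mem_range.1 hq)
  rw [sum_range_sub] at h1
  linarith

theorem pythagoras {N : ℕ} {π σ : List U → ℝ} (h0 : ∀ y, 0 ≤ π y) (h : ∀ y, π y = 0 → σ y = 0) :
    ∑ q ∈ range N, ∑ z ∈ Wd U q, ∑ u, dl N π σ z u ^ 2 / marg N π (u :: z) ≤
      ∑ y ∈ Wd U N, σ y ^ 2 / π y := by
  have key := tele (N := N) (E := fun q => ∑ z ∈ Wd U q, marg N σ z ^ 2 / marg N π z)
    (t := fun q => ∑ z ∈ Wd U q, ∑ u, dl N π σ z u ^ 2 / marg N π (u :: z)) ?_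
    (sum_nonneg fun z _ => div_nonneg (sq_nonneg _) (marg_nonneg h0 z))
  · refine key.trans (le_of_eq (sum_congr rfl fun y hy => ?_))
    rw [marg_full _ (mem_Wd.1 hy), marg_full _ (mem_Wd.1 hy)]
  · intro q hq
    rw [sum_Wd_succ, ← sum_sub_distrib]
    refine sum_le_sum fun z hz => le_of_eq ?_
    have hz' : z.length < N := by rw [mem_Wd.1 hz]; exact hq
    simp only [dl_eq]
    rw [sum_congr rfl fun u _ => sq_div_term _ (marg_zero h0 h (z := u :: z)), sum_sub_distrib,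
      sum_sub_distrib, ← mul_sum, ← mul_sum, ← marg_cons σ hz', ← marg_cons π hz']
    congr 1
    by_cases hp : marg N π z = 0
    · simp [hp]
    · field_simp; ring

private noncomputable def Phi (c p g : ℝ) : ℝ :=
  if g ≤ c * p then g ^ 2 / p else 2 * c * g - c ^ 2 * p

private lemma le_Phi {c p g l : ℝ} (hp : 0 ≤ p) (hg : 0 ≤ g) (hl : l ≤ c) :
    2 * l * g - l ^ 2 * p ≤ Phi c p g := by
  unfold Phi
  split_ifs with h
  · have h1 := sq_div_term (p := p) (g := g) l fun h2 => by rw [h2] at h; linarith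
    have h2 : 0 ≤ (g - p * l) ^ 2 / p := div_nonneg (sq_nonneg _) hp
    linarith
  · have h1 : 0 ≤ (c - l) * (g - c * p) := mul_nonneg (by linarith) (by linarith)
    have h2 : 0 ≤ (c - l) ^ 2 * p := mul_nonneg (sq_nonneg _) hp
    nlinarith

private lemma Phi_eq {c p g : ℝ} (hc : 0 ≤ c) (hp : 0 ≤ p) (hg : 0 ≤ g) :
    ∃ l, 0 ≤ l ∧ l ≤ c ∧ Phi c p g = 2 * l * g - l ^ 2 * p ∧ (g ≤ c * p → l = g / p) := by
  unfold Phi
  split_ifs with h
  · refine ⟨g / p, div_nonneg hg hp, div_le_of_le_mul₀ hp hc h, ?_, fun _ => rfl⟩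
    by_cases h0 : p = 0
    · simp [h0]
    · field_simp; ring
  · exact ⟨c, hc, le_rfl, rfl, fun h1 => absurd h1 h⟩

private lemma Phi_mono {c p g g' : ℝ} (hc : 0 ≤ c) (hp : 0 ≤ p) (hg : 0 ≤ g) (h : g ≤ g') :
    Phi c p g ≤ Phi c p g' := by
  obtain ⟨l, h0, h1, h2, -⟩ := Phi_eq hc hp hg
  have h3 := le_Phi hp (hg.trans h) h1
  have h4 := mul_le_mul_of_nonneg_left h h0
  linarith

private lemma Phi_le {c p g : ℝ} (hc : 0 ≤ c) (hp : 0 ≤ p) (hg : 0 ≤ g) :
    Phi c p g ≤ 2 * c * g := by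
  obtain ⟨l, h0, h1, h2, -⟩ := Phi_eq hc hp hg
  have h3 := mul_le_mul_of_nonneg_right h1 hg
  have h4 := mul_nonneg (sq_nonneg l) hp
  linarith

open Classical in
theorem monotone_family {N : ℕ} {π : List U → ℝ} (h0 : ∀ y, 0 ≤ π y) (g : ℕ → List U → ℝ)
    (hg : ∀ q y, 0 ≤ g q y) (hm : ∀ q y, g q y ≤ g (q + 1) y) {c : ℝ} (hc : 0 ≤ c) :
    ∑ q ∈ range N, ∑ z ∈ Wd U q, ∑ u,
      (if marg N (g q) z ≤ c * marg N π z ∧ marg N (g q) (u :: z) ≤ c * marg N π (u :: z) then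
        dl N π (g q) z u ^ 2 / marg N π (u :: z) else 0) ≤ 2 * c * ∑ y ∈ Wd U N, g N y := by
  refine (tele (N := N) (E := fun q => ∑ z ∈ Wd U q, Phi c (marg N π z) (marg N (g q) z))
    ?_ ?_).trans ?_
  · intro q hq
    rw [sum_Wd_succ, ← sum_sub_distrib]
    refine sum_le_sum fun z hz => ?_
    have hz' : z.length < N := by rw [mem_Wd.1 hz]; exact hq
    obtain ⟨l, -, h1, h2, h3⟩ := Phi_eq hc (marg_nonneg (N := N) h0 z) (marg_nonneg (N := N) (hg q) z)
    have h4 : 2 * l * marg N (g q) z - l ^ 2 * marg N π z =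
        ∑ u, (2 * l * marg N (g q) (u :: z) - l ^ 2 * marg N π (u :: z)) := by
      rw [sum_sub_distrib, ← mul_sum, ← mul_sum, ← marg_cons _ hz', ← marg_cons _ hz']
    rw [h2, h4, ← sum_sub_distrib]
    refine sum_le_sum fun u _ => ?_
    have h5 : Phi c (marg N π (u :: z)) (marg N (g q) (u :: z)) ≤
        Phi c (marg N π (u :: z)) (marg N (g (q + 1)) (u :: z)) :=
      Phi_mono hc (marg_nonneg h0 _) (marg_nonneg (hg q) _)
        (marg_mono (fun y _ => hm q y) (by rw [List.length_cons]; omega))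
    split_ifs with h
    · rw [dl_eq, ← h3 h.1, sq_div_term]
      · rw [Phi, if_pos h.2] at h5
        linarith
      · intro h6
        have h7 := h.2
        have h8 := marg_nonneg (N := N) (hg q) (u :: z)
        rw [h6] at h7
        linarith
    · have h6 := le_Phi (marg_nonneg (N := N) h0 (u :: z)) (marg_nonneg (N := N) (hg q) (u :: z)) h1
      linarith
  · refine sum_nonneg fun z _ => ?_
    have h2 := le_Phi (l := 0) (marg_nonneg (N := N) h0 z) (marg_nonneg (N := N) (hg 0) z) hc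
    linarith
  · rw [mul_sum]
    refine sum_le_sum fun y hy => ?_
    rw [marg_full _ (mem_Wd.1 hy), marg_full _ (mem_Wd.1 hy)]
    exact Phi_le hc (h0 y) (hg N y)

open Classical in
private lemma bad_succ {N : ℕ} (π G f : List U → ℝ) (ε : ℝ) {q : ℕ} (hq : q < N) :
    ∑ z ∈ Wd U (q + 1), (if Ok N π G ε z then 0 else marg N f z) =
      ∑ z ∈ Wd U q, (if Ok N π G ε z then 0 else marg N f z) + ∑ z ∈ Wd U q, ∑ u,
        (if Ok N π G ε z ∧ ¬ Ok N π G ε (u :: z) then marg N f (u :: z) else 0) := by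
  rw [sum_Wd_succ, ← sum_add_distrib]
  refine sum_congr rfl fun z hz => ?_
  have hz' : z.length < N := by rw [mem_Wd.1 hz]; exact hq
  by_cases h : Ok N π G ε z
  · rw [if_pos h, zero_add]
    refine sum_congr rfl fun u _ => ?_
    by_cases h1 : Ok N π G ε (u :: z) <;> simp [h, h1]
  · have h1 : ∀ u, ¬ Ok N π G ε (u :: z) := fun u h2 => h h2.2
    simp [h, h1, marg_cons f hz']

open Classical in
private lemma bad_le {N : ℕ} (π : List U → ℝ) {G : List U → ℝ} (hG : ∀ y, 0 ≤ G y) (ε : ℝ) {q : ℕ}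
    (hq : q ≤ N) :
    ∑ z ∈ Wd U q, (if Ok N π G ε z then 0 else marg N G z) ≤ ∑ y ∈ Wd U N, G y := by
  rw [← sum_marg hq]
  refine sum_le_sum fun z _ => ?_
  split_ifs
  · exact marg_nonneg hG z
  · exact le_rfl

open Classical in
theorem first_passage {N : ℕ} (π : List U → ℝ) {G : List U → ℝ} (hG : ∀ y, 0 ≤ G y) (ε : ℝ) :
    ∑ q ∈ range N, ∑ z ∈ Wd U q, ∑ u,
      (if Ok N π G ε z ∧ ¬ Ok N π G ε (u :: z) then marg N G (u :: z) else 0) ≤
        ∑ y ∈ Wd U N, G y := by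
  refine (tele (N := N) (E := fun q => ∑ z ∈ Wd U q, if Ok N π G ε z then 0 else marg N G z)
    ?_ ?_).trans (bad_le π hG ε le_rfl)
  · intro q hq
    rw [bad_succ π G G ε hq]
    linarith
  · refine sum_nonneg fun z _ => ?_
    split_ifs
    · exact le_rfl
    · exact marg_nonneg hG z

open Classical in
theorem bad_mass {N : ℕ} (π : List U → ℝ) {G : List U → ℝ} (hG : ∀ y, 0 ≤ G y) (ε : ℝ) {q : ℕ}
    (hq : q ≤ N) :
    ε * ∑ z ∈ Wd U q, (if Ok N π G ε z then 0 else marg N π z) ≤ ∑ y ∈ Wd U N, G y := by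
  refine le_trans ?_ (bad_le π hG ε hq)
  induction q with
  | zero =>
    rw [sum_Wd_zero, sum_Wd_zero]
    split_ifs with h
    · simp
    · exact (not_le.1 h).le
  | succ q ih =>
    rw [bad_succ π G π ε (by omega : q < N), bad_succ π G G ε (by omega : q < N), mul_add]
    refine add_le_add (ih (by omega)) ?_
    rw [mul_sum]
    refine sum_le_sum fun z _ => ?_
    rw [mul_sum]
    refine sum_le_sum fun u _ => ?_
    split_ifs with h
    · exact (not_le.1 fun h1 => h.2 ⟨h1, h.1⟩).le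
    · simp

end Pool.Agent.P.MP_0b0f5a_al.Fo
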