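import Pool.Agent.P.MP_0b0f5a_al.Fo.Stg

/-!
Chain rules for the chord, data processing for marginals, and the segment lemma.
-/

namespace Pool.Agent.P.MP_0b0f5a_al.Fo

open Finset

variable {U : Type} [Fintype U]

/-- The overlap of the marginals at level `q`. -/
private noncomputable def BC (N : ℕ) (f g : List U → ℝ) (q : ℕ) : ℝ :=
  ∑ z ∈ Wd U q, √(marg N f z) * √(marg N g z)

private lemma step_cell {N : ℕ} {f g : List U → ℝ} (hf : ∀ y, 0 ≤ f y) (hg : ∀ y, 0 ≤ g y)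
    {z : List U} (hz : z.length < N) :
    √(marg N f z * marg N g z) * ch2 univ (cnd N f z) (cnd N g z) =
      2 * (√(marg N f z) * √(marg N g z)) -
        2 * ∑ u, √(marg N f (u :: z)) * √(marg N g (u :: z)) := by
  have ha := marg_nonneg (N := N) hf z
  have hb := marg_nonneg (N := N) hg z
  have h1 : ∑ u, √(marg N f (u :: z)) * √(marg N g (u :: z)) =
      √(marg N f z) * √(marg N g z) * ∑ u, √(cnd N f z u) * √(cnd N g z u) := by
    rw [mul_sum]
    refine sum_congr rfl fun u _ => ?_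
    rw [← marg_mul_cnd hf hz u, ← marg_mul_cnd hg hz u, Real.sqrt_mul ha, Real.sqrt_mul hb]
    ring
  rw [h1, Real.sqrt_mul ha]
  by_cases h2 : marg N f z = 0
  · rw [h2]; simp
  by_cases h3 : marg N g z = 0
  · rw [h3]; simp
  rw [ch2_eq univ (cnd_nonneg hf z) (cnd_nonneg hg z), sum_cnd hz h2, sum_cnd hz h3]
  ring

private lemma step_level {N q : ℕ} {f g : List U → ℝ} (hf : ∀ y, 0 ≤ f y) (hg : ∀ y, 0 ≤ g y)
    (hq : q < N) :
    ∑ z ∈ Wd U q, √(marg N f z * marg N g z) * ch2 univ (cnd N f z) (cnd N g z) =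
      2 * BC N f g q - 2 * BC N f g (q + 1) := by
  rw [BC, BC, sum_Wd_succ, mul_sum, mul_sum, ← sum_sub_distrib]
  exact sum_congr rfl fun z hz => step_cell hf hg (by rw [mem_Wd.1 hz]; exact hq)

private lemma BC_succ_le {N q : ℕ} {f g : List U → ℝ} (hf : ∀ y, 0 ≤ f y) (hg : ∀ y, 0 ≤ g y)
    (hq : q < N) : BC N f g (q + 1) ≤ BC N f g q := by
  have h1 := step_level hf hg hq
  have h2 : 0 ≤ ∑ z ∈ Wd U q, √(marg N f z * marg N g z) * ch2 univ (cnd N f z) (cnd N g z) :=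
    sum_nonneg fun z _ => mul_nonneg (Real.sqrt_nonneg _) (ch2_nonneg _ _ _)
  linarith

private lemma BC_anti {N q : ℕ} {f g : List U → ℝ} (hf : ∀ y, 0 ≤ f y) (hg : ∀ y, 0 ≤ g y) (d : ℕ)
    (hq : q + d ≤ N) : BC N f g (q + d) ≤ BC N f g q := by
  induction d with
  | zero => exact le_rfl
  | succ d ih => exact (BC_succ_le hf hg (by omega : q + d < N)).trans (ih (by omega))

private lemma ch2_marg_eq {N q : ℕ} (hq : q ≤ N) {f g : List U → ℝ} (hf : ∀ y, 0 ≤ f y)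
    (hg : ∀ y, 0 ≤ g y) :
    ch2 (Wd U q) (marg N f) (marg N g) =
      ∑ y ∈ Wd U N, f y + ∑ y ∈ Wd U N, g y - 2 * BC N f g q := by
  rw [ch2_eq _ (marg_nonneg hf) (marg_nonneg hg), sum_marg hq, sum_marg hq, BC]

private lemma ch2_full {N : ℕ} {f g : List U → ℝ} (hf : ∀ y, 0 ≤ f y) (hg : ∀ y, 0 ≤ g y) :
    ch2 (Wd U N) f g = ∑ y ∈ Wd U N, f y + ∑ y ∈ Wd U N, g y - 2 * BC N f g N := by
  rw [← ch2_marg_eq le_rfl hf hg]
  exact sum_congr rfl fun z hz => by rw [marg_full f (mem_Wd.1 hz), marg_full g (mem_Wd.1 hz)]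

lemma ch2_marg {N q : ℕ} (hq : q ≤ N) {f g : List U → ℝ} (hf : ∀ y, 0 ≤ f y) (hg : ∀ y, 0 ≤ g y) :
    ch2 (Wd U q) (marg N f) (marg N g) ≤ ch2 (Wd U N) f g := by
  rw [ch2_marg_eq hq hf hg, ch2_full hf hg]
  obtain ⟨d, rfl⟩ := Nat.exists_eq_add_of_le hq
  have := BC_anti (N := q + d) (q := q) hf hg d le_rfl
  linarith

lemma l1_marg {N q : ℕ} (hq : q ≤ N) (f g : List U → ℝ) :
    l1 (Wd U q) (marg N f) (marg N g) ≤ l1 (Wd U N) f g := by
  rw [l1, l1, ← sum_marg hq]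
  refine sum_le_sum fun z _ => ?_
  rw [← marg_sub]
  exact abs_marg_le N _ z

lemma ch2_chain {N : ℕ} {f g : List U → ℝ} (hf : ∀ y, 0 ≤ f y) (hg : ∀ y, 0 ≤ g y) :
    ∑ q ∈ range N, ∑ z ∈ Wd U q, √(marg N f z * marg N g z) * ch2 univ (cnd N f z) (cnd N g z) ≤
      ch2 (Wd U N) f g := by
  have h1 : ∑ q ∈ range N, ∑ z ∈ Wd U q,
      √(marg N f z * marg N g z) * ch2 univ (cnd N f z) (cnd N g z) =
      ∑ q ∈ range N, (2 * BC N f g q - 2 * BC N f g (q + 1)) :=
    sum_congr rfl fun q hq => step_level hf hg (mem_range.1 hq)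
  rw [h1, sum_range_sub' (fun q => 2 * BC N f g q), ch2_full hf hg]
  have h2 := ch2_marg_eq (Nat.zero_le N) hf hg
  have h3 := ch2_nonneg (Wd U 0) (marg N f) (marg N g)
  linarith

omit [Fintype U] in
private lemma chord_path (s : Finset U) (p : ℕ → U → ℝ) (i d : ℕ) :
    √(ch2 s (p i) (p (i + d))) + ∑ k ∈ range i, √(ch2 s (p k) (p (k + 1))) ≤
      ∑ k ∈ range (i + d), √(ch2 s (p k) (p (k + 1))) := by
  induction d with
  | zero => simp [ch2]
  | succ d ih =>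
    rw [← add_assoc, sum_range_succ]
    have := chord_triangle s (p i) (p (i + d)) (p (i + d + 1))
    linarith

omit [Fintype U] in
private lemma chord_le (s : Finset U) (p : ℕ → U → ℝ) {N i j : ℕ} (hi : i ≤ N) (hj : j ≤ N) :
    √(ch2 s (p i) (p j)) ≤ ∑ k ∈ range N, √(ch2 s (p k) (p (k + 1))) := by
  wlog h : i ≤ j generalizing i j
  · rw [ch2_comm]; exact this hj hi (by omega)
  obtain ⟨d, rfl⟩ := Nat.exists_eq_add_of_le h
  have h1 := chord_path s p i d
  have h2 : 0 ≤ ∑ k ∈ range i, √(ch2 s (p k) (p (k + 1))) :=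
    sum_nonneg fun _ _ => Real.sqrt_nonneg _
  have h3 : ∑ k ∈ range (i + d), √(ch2 s (p k) (p (k + 1))) ≤
      ∑ k ∈ range N, √(ch2 s (p k) (p (k + 1))) :=
    sum_le_sum_of_subset_of_nonneg (range_subset_range.2 hj) fun _ _ _ => Real.sqrt_nonneg _
  linarith

private lemma minkowski (N : ℕ) {P T : ℝ} (hP : 0 ≤ P) (hT : 0 ≤ T) (c : ℕ → ℝ) :
    N * √(P + T * (∑ i ∈ range N, c i) ^ 2) ≤ ∑ i ∈ range N, √(P + N ^ 2 * T * c i ^ 2) := by
  set C := ∑ i ∈ range N, c i with hC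
  have hR : 0 ≤ P + T * C ^ 2 := by positivity
  have h1 : ∀ i, P + N * T * c i * C ≤ √(P + T * C ^ 2) * √(P + N ^ 2 * T * c i ^ 2) := by
    intro i
    rw [← Real.sqrt_mul hR]
    refine Real.le_sqrt_of_sq_le ?_
    have := mul_nonneg (mul_nonneg hP hT) (sq_nonneg (N * c i - C))
    nlinarith
  have h2 : N * (P + T * C ^ 2) ≤
      √(P + T * C ^ 2) * ∑ i ∈ range N, √(P + N ^ 2 * T * c i ^ 2) := by
    rw [mul_sum]
    refine le_trans (le_of_eq ?_) (sum_le_sum fun i _ => h1 i)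
    rw [sum_add_distrib, sum_const, card_range, nsmul_eq_mul, ← sum_mul, ← mul_sum, ← hC]
    ring
  rcases (Real.sqrt_nonneg (P + T * C ^ 2)).eq_or_lt with h0 | h0
  · rw [← h0, mul_zero]; exact sum_nonneg fun _ _ => Real.sqrt_nonneg _
  · refine le_of_mul_le_mul_left ?_ h0
    have h3 := Real.mul_self_sqrt hR
    nlinarith

lemma segment {N : ℕ} (hN : 1 ≤ N) (p : ℕ → U → ℝ) (h0 : ∀ i u, 0 ≤ p i u)
    (h1 : ∀ i, ∑ u, p i u = 1) {B T : ℝ} (hB : 1 ≤ B) (hT : 0 < T) (θ : Bool) :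
    N * (√(ent univ 1 B (p (if θ then N else 0)) + T * ch2 univ (p 0) (p N)) - B / √T) ≤
      ∑ i ∈ range N, √(ent univ 1 B (p (own i θ)) +
        N ^ 2 * T * ch2 univ (p (own i θ)) (p (par i θ))) := by
  set c : ℕ → ℝ := fun k => √(ch2 univ (p k) (p (k + 1))) with hc
  set C := ∑ k ∈ range N, c k with hC
  set h := ent univ 1 B (p (if θ then N else 0)) with hh
  have hC0 : 0 ≤ C := sum_nonneg fun _ _ => Real.sqrt_nonneg _
  set P := max 0 (h - 2 * B * C) with hP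
  have hP0 : 0 ≤ P := le_max_left _ _
  have hP1 : h - 2 * B * C ≤ P := le_max_right _ _
  have hm := minkowski N hP0 hT.le c
  rw [← hC] at hm
  have h2 : ∑ i ∈ range N, √(P + N ^ 2 * T * c i ^ 2) ≤
      ∑ i ∈ range N, √(ent univ 1 B (p (own i θ)) +
        N ^ 2 * T * ch2 univ (p (own i θ)) (p (par i θ))) := by
    refine sum_le_sum fun i hi => Real.sqrt_le_sqrt ?_
    have hi' := mem_range.1 hi
    have h3 : ch2 univ (p (own i θ)) (p (par i θ)) = c i ^ 2 := by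
      rw [hc]; dsimp only; rw [Real.sq_sqrt (ch2_nonneg _ _ _)]
      cases θ
      · rfl
      · exact ch2_comm _ _ _
    have h4 : P ≤ ent univ 1 B (p (own i θ)) := by
      refine max_le (ent_nonneg _ _ _ (h0 _)) ?_
      have h5 := ent_lip univ one_pos hB (h0 (if θ then N else 0)) (h0 (own i θ))
      have h6 := l1_le_chord univ (h0 (if θ then N else 0)) (h0 (own i θ))
      rw [h1, h1, Real.sqrt_one] at h6
      have h7 : √(ch2 univ (p (if θ then N else 0)) (p (own i θ))) ≤ C :=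
        chord_le univ p (by split_ifs <;> omega) (by unfold own; split_ifs <;> omega)
      have h8 : B * l1 univ (p (if θ then N else 0)) (p (own i θ)) ≤ B * (2 * C) :=
        mul_le_mul_of_nonneg_left (by linarith) (by linarith)
      linarith
    rw [h3]; linarith
  refine le_trans (mul_le_mul_of_nonneg_left ?_ (Nat.cast_nonneg N)) (hm.trans h2)
  have hs : 0 < √T := Real.sqrt_pos.2 hT
  have h3 : ch2 univ (p 0) (p N) ≤ C ^ 2 := by
    have h4 : √(ch2 univ (p 0) (p N)) ≤ C := chord_le univ p (Nat.zero_le N) le_rfl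
    rw [← Real.sq_sqrt (ch2_nonneg univ (p 0) (p N))]
    exact pow_le_pow_left₀ (Real.sqrt_nonneg _) h4 2
  have hR : 0 ≤ P + T * C ^ 2 := by positivity
  have h4 : √T * C ≤ √(P + T * C ^ 2) := by
    refine Real.le_sqrt_of_sq_le ?_
    rw [mul_pow, Real.sq_sqrt hT.le]; linarith
  have h5 : 0 ≤ B / √T := by positivity
  have h6 : B * C ≤ √(P + T * C ^ 2) * (B / √T) := by
    have h7 : B * C = √T * C * (B / √T) := by field_simp
    rw [h7]; exact mul_le_mul_of_nonneg_right h4 h5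
  rw [sub_le_iff_le_add, Real.sqrt_le_left (by positivity), add_sq, Real.sq_sqrt hR]
  have h7 := mul_le_mul_of_nonneg_left h3 hT.le
  nlinarith [sq_nonneg (B / √T)]

end Pool.Agent.P.MP_0b0f5a_al.Fo
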