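import Pool.Agent.P.MP_0b0f5a_al.Fo.S1A
import Pool.Agent.P.MP_0b0f5a_al.Fo.S2Seg

/-!
The inequality of one good cell, and the comparison of the conditional entropies.
-/

namespace Pool.Agent.P.MP_0b0f5a_al.Fo

open Finset

variable {U : Type} [Fintype U] {N : ℕ} {ν : ℕ → List U → ℝ} {k : ℕ → Equiv.Perm U}
  {Adm : ℕ → U → Prop} {B b T Θ : ℝ}

private lemma scale_sq {P M A : ℝ} (hP : 0 < P) : P * ((A / P) ^ 2 / (M / P)) = A ^ 2 / M := by
  by_cases hM : M = 0
  · simp [hM]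
  · field_simp

private lemma rho_bounds {s P m : ℝ} (hs : 0 < s) (hs1 : s ≤ 1 / 100) (hP : 0 < P)
    (h : |m - P| ≤ 2 * s * P) : 0 < m ∧ 1 - 2 * s ≤ P / m ∧ P / m ≤ 1 + 4 * s := by
  obtain ⟨h1, h2⟩ := abs_le.1 h
  have hsP : s * P ≤ 1 / 100 * P := mul_le_mul_of_nonneg_right hs1 hP.le
  have hm : 0 < m := by nlinarith
  refine ⟨hm, ?_, ?_⟩
  · rw [le_div_iff₀ hm]
    have h3 : (1 - 2 * s) * m ≤ (1 - 2 * s) * (P + 2 * s * P) :=
      mul_le_mul_of_nonneg_left (by linarith) (by linarith)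
    nlinarith [mul_nonneg (mul_nonneg hs.le hs.le) hP.le]
  · rw [div_le_iff₀ hm]
    have h3 : (1 + 4 * s) * (P - 2 * s * P) ≤ (1 + 4 * s) * m :=
      mul_le_mul_of_nonneg_left (by linarith) (by linarith)
    nlinarith [mul_nonneg (mul_nonneg hs.le hP.le) (show 0 ≤ 1 / 100 - s by linarith),
      mul_nonneg hs.le hP.le]

theorem H1.cell (H : H1 N ν k Adm B b T Θ) (hT : 0 ≤ T) (hΘ : 0 ≤ Θ) {s : ℝ} (hs : 0 < s)
    (hs1 : s ≤ 1 / 100) {q : ℕ} (hq : q < N) {z : List U} (hz : z ∈ Wd U q)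
    (h0 : 0 < marg N (ν 0) z)
    (h1 : ∀ i, |marg N (ν i) z - marg N (ν 0) z| ≤ 2 * s * marg N (ν 0) z) (Z J : ℕ → U → ℝ)
    (h2 : ∀ j u, dl N (ν 0) (ν (q + j * N)) z u = Z j u + J j u)
    (h3 : ∀ j u, marg N (ν 0) (u :: z) = 0 → Z j u = 0) :
    4 * b * marg N (ν 0) z ≤
      marg N (ν 0) z * ∑ j ∈ range 4, ent univ 1 B (cnd N (ν (q + j * N)) z) +
      T * ((1 + 12 * s) / 2 *
          ∑ j ∈ range 4, ∑ u, (Z (j + 1) u - Z j u) ^ 2 / marg N (ν 0) (u :: z) +
        20 * s * ∑ j ∈ range 5, ∑ u, Z j u ^ 2 / marg N (ν 0) (u :: z)) +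
      Θ * ((1 + 4 * s) * ∑ j ∈ range 4, ∑ u, |J (j + 1) u - J j u| +
        10 * s * ∑ j ∈ range 4, ∑ u, (|J j u| + |J (j + 1) u|) +
        4 / s ^ 2 * ∑ j ∈ range 5, ∑ u, Z j u ^ 2 / marg N (ν 0) (u :: z)) := by
  have hzl : z.length = q := mem_Wd.1 hz
  have hzN : z.length < N := by omega
  set P := marg N (ν 0) z with hP
  have hρ := fun i => rho_bounds hs hs1 h0 (h1 i)
  set η : ℕ → U → ℝ := fun j => cnd N (ν (q + j * N)) z with hη
  have hη0 : ∀ j u, 0 ≤ η j u := fun j u => cnd_nonneg (H.nonneg _) z u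
  have h5 : ∀ j u, η j u - cnd N (ν 0) z u =
      P / marg N (ν (q + j * N)) z * (Z j u / P + J j u / P) := by
    intro j u
    have hm := (hρ (q + j * N)).1
    have h := h2 j u
    rw [dl] at h
    rw [← add_div, ← h]
    simp only [hη]
    rw [cnd]
    field_simp
  have h7 : ∀ j u, cnd N (ν 0) z u = 0 → Z j u / P = 0 := by
    intro j u h
    rw [cnd, div_eq_zero_iff] at h
    rcases h with h | h
    · rw [h3 j u h, zero_div]
    · exact absurd h h0.ne'
  have hw : ∀ j u, ∃ w : ℝ, P * (w ^ 2 * (η j u + η (j + 1) u)) ≤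
      (1 + 12 * s) / 2 * ((Z (j + 1) u - Z j u) ^ 2 / marg N (ν 0) (u :: z)) +
        20 * s * (Z j u ^ 2 / marg N (ν 0) (u :: z)) ∧
      P * |η (j + 1) u - η j u - w * (η j u + η (j + 1) u)| ≤
        (1 + 4 * s) * |J (j + 1) u - J j u| + 10 * s * (|J j u| + |J (j + 1) u|) +
          2 / s ^ 2 * (Z j u ^ 2 / marg N (ν 0) (u :: z) +
            Z (j + 1) u ^ 2 / marg N (ν 0) (u :: z)) := by
    intro j u
    obtain ⟨w, w1, w2⟩ := pointwise hs hs1 (hη0 j u) (hη0 (j + 1) u)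
      (cnd_nonneg (H.nonneg 0) z u) (hρ (q + j * N)).2.1 (hρ (q + j * N)).2.2
      (hρ (q + (j + 1) * N)).2.1 (hρ (q + (j + 1) * N)).2.2 (h5 j u) (h5 (j + 1) u)
      fun h => ⟨h7 j u h, h7 (j + 1) u h⟩
    have e1 := scale_sq (M := marg N (ν 0) (u :: z)) (A := Z (j + 1) u - Z j u) h0
    have e2 := scale_sq (M := marg N (ν 0) (u :: z)) (A := Z j u) h0
    have e3 := scale_sq (M := marg N (ν 0) (u :: z)) (A := Z (j + 1) u) h0
    have e4 : ∀ A : ℝ, P * |A / P| = |A| := fun A => by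
      rw [abs_div, abs_of_pos h0]; field_simp
    rw [← sub_div] at w1 w2
    rw [cnd, ← hP] at w1 w2
    refine ⟨w, ?_, ?_⟩
    · have := mul_le_mul_of_nonneg_left w1 h0.le
      rw [← e1, ← e2]
      linarith
    · have := mul_le_mul_of_nonneg_left w2 h0.le
      rw [← e2, ← e3, ← e4 (J (j + 1) u - J j u), ← e4 (J j u), ← e4 (J (j + 1) u)]
      linarith
  choose w hw1 hw2 using hw
  have hc := H.child q hq η hη0 (fun j => sum_cnd hzN (hρ _).1.ne')
    (fun j u h => by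
      have h' : marg N (ν (q + j * N)) (u :: z) ≠ 0 := fun h' => h (by
        simp only [hη]; rw [cnd, h', zero_div])
      obtain ⟨y, -, hy⟩ := exists_of_marg_ne_zero (by rw [List.length_cons]; omega) h'
      have := (H.adm _ _ hy).of_append.1
      rwa [hzl] at this)
    (fun j => by
      simp only [hη]
      rw [show q + (j + 4) * N = q + j * N + 4 * N by ring, H.per])
    (fun j u => by
      have := marg_togAt (H.tog q hq j) (z := u :: z) (by rw [List.length_cons]; omega)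
        (by rw [List.length_cons]; omega)
      rw [togAt, if_pos hzl] at this
      simp only [hη]
      rw [cnd, cnd, this]) w
  have hA : ∀ j, 0 ≤ ∑ u, Z j u ^ 2 / marg N (ν 0) (u :: z) := fun j =>
    sum_nonneg fun u _ => div_nonneg (sq_nonneg _) (marg_nonneg (H.nonneg 0) _)
  have hQ : ∀ j, P * cQ univ (η j) (η (j + 1)) (w j) ≤
      (1 + 12 * s) / 2 * ∑ u, (Z (j + 1) u - Z j u) ^ 2 / marg N (ν 0) (u :: z) +
        20 * s * ∑ u, Z j u ^ 2 / marg N (ν 0) (u :: z) := by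
    intro j
    rw [cQ, mul_sum, mul_sum, mul_sum, ← sum_add_distrib]
    exact sum_le_sum fun u _ => hw1 j u
  have hL : ∀ j, P * cL univ (η j) (η (j + 1)) (w j) ≤
      (1 + 4 * s) * ∑ u, |J (j + 1) u - J j u| + 10 * s * ∑ u, (|J j u| + |J (j + 1) u|) +
        2 / s ^ 2 * (∑ u, Z j u ^ 2 / marg N (ν 0) (u :: z) +
          ∑ u, Z (j + 1) u ^ 2 / marg N (ν 0) (u :: z)) := by
    intro j
    rw [cL, ← sum_add_distrib, mul_sum, mul_sum, mul_sum, mul_sum, ← sum_add_distrib,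
      ← sum_add_distrib]
    exact sum_le_sum fun u _ => hw2 j u
  have hQ' : P * ∑ j ∈ range 4, cQ univ (η j) (η (j + 1)) (w j) ≤
      (1 + 12 * s) / 2 *
          ∑ j ∈ range 4, ∑ u, (Z (j + 1) u - Z j u) ^ 2 / marg N (ν 0) (u :: z) +
        20 * s * ∑ j ∈ range 5, ∑ u, Z j u ^ 2 / marg N (ν 0) (u :: z) := by
    have h := sum_le_sum fun j (_ : j ∈ range 4) => hQ j
    rw [sum_add_distrib, ← mul_sum, ← mul_sum, ← mul_sum] at h
    rw [sum_range_succ _ 4]
    have := mul_nonneg hs.le (hA 4)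
    linarith
  have hL' : P * ∑ j ∈ range 4, cL univ (η j) (η (j + 1)) (w j) ≤
      (1 + 4 * s) * ∑ j ∈ range 4, ∑ u, |J (j + 1) u - J j u| +
        10 * s * ∑ j ∈ range 4, ∑ u, (|J j u| + |J (j + 1) u|) +
        4 / s ^ 2 * ∑ j ∈ range 5, ∑ u, Z j u ^ 2 / marg N (ν 0) (u :: z) := by
    have h := sum_le_sum fun j (_ : j ∈ range 4) => hL j
    rw [sum_add_distrib, sum_add_distrib, ← mul_sum, ← mul_sum, ← mul_sum, ← mul_sum,
      sum_add_distrib] at h
    have a1 := sum_range_succ (fun j => ∑ u, Z j u ^ 2 / marg N (ν 0) (u :: z)) 4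
    have a2 := sum_range_succ' (fun j => ∑ u, Z j u ^ 2 / marg N (ν 0) (u :: z)) 4
    have a3 : ∑ j ∈ range 4, ∑ u, Z j u ^ 2 / marg N (ν 0) (u :: z) +
        ∑ j ∈ range 4, ∑ u, Z (j + 1) u ^ 2 / marg N (ν 0) (u :: z) ≤
        2 * ∑ j ∈ range 5, ∑ u, Z j u ^ 2 / marg N (ν 0) (u :: z) := by
      have := hA 4
      have := hA 0
      linarith
    have a4 := mul_le_mul_of_nonneg_left a3 (show (0 : ℝ) ≤ 2 / s ^ 2 by positivity)
    have a5 : (4 : ℝ) / s ^ 2 = 2 / s ^ 2 * 2 := by ring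
    rw [a5]
    linarith
  have hc' := mul_le_mul_of_nonneg_left hc h0.le
  simp only [cost] at hc'
  rw [sum_add_distrib, sum_add_distrib, ← mul_sum, ← mul_sum] at hc'
  have b1 := mul_le_mul_of_nonneg_left hQ' hT
  have b2 := mul_le_mul_of_nonneg_left hL' hΘ
  linarith

private lemma ent_hom {B : ℝ} (hB : 1 ≤ B) {f g : U → ℝ} (hf : ∀ u, 0 ≤ f u) (hg : ∀ u, 0 ≤ g u) :
    (∑ u, f u) * ent univ 1 B (fun u => f u / ∑ u, f u) ≤
      (∑ u, g u) * ent univ 1 B (fun u => g u / ∑ u, g u) + 3 * B * l1 univ f g := by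
  have hB0 : 0 ≤ B := by linarith
  set a := ∑ u, f u with ha
  set c := ∑ u, g u with hc
  have a0 : 0 ≤ a := sum_nonneg fun u _ => hf u
  have c0 : 0 ≤ c := sum_nonneg fun u _ => hg u
  have f0 : ∀ u, 0 ≤ f u / a := fun u => div_nonneg (hf u) a0
  have g0 : ∀ u, 0 ≤ g u / c := fun u => div_nonneg (hg u) c0
  have l0 := mul_nonneg hB0 (l1_nonneg univ f g)
  have e0 := mul_nonneg c0 (ent_nonneg univ 1 B g0)
  have hac : |a - c| ≤ l1 univ f g := by
    rw [ha, hc, ← sum_sub_distrib]; exact abs_sum_le_sum_abs _ _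
  have hac' := mul_le_mul_of_nonneg_left hac hB0
  rcases a0.eq_or_lt with h | h
  · rw [← h, zero_mul]; linarith
  have e1 : ent univ 1 B (fun u => f u / a) ≤ B := by
    have := ent_le univ 1 hB0 f0
    rwa [← sum_div, ← ha, div_self h.ne', mul_one] at this
  have e2 := ent_nonneg univ 1 B f0
  have e3 : a * ent univ 1 B (fun u => f u / a) ≤
      c * ent univ 1 B (fun u => f u / a) + B * |a - c| := by
    have h1 := mul_le_mul_of_nonneg_left (le_abs_self (a - c)) e2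
    have h2 := mul_le_mul_of_nonneg_right e1 (abs_nonneg (a - c))
    linarith
  rcases c0.eq_or_lt with h' | h'
  · rw [← h', zero_mul] at e3
    rw [← h'] at hac'
    linarith
  have e4 := mul_le_mul_of_nonneg_left (ent_lip univ one_pos hB f0 g0) c0
  have e5 : c * l1 univ (fun u => f u / a) (fun u => g u / c) ≤ l1 univ f g + |a - c| := by
    have h1 : |a - c| = ∑ u, f u / a * |a - c| := by
      rw [← sum_mul, ← sum_div, ← ha, div_self h.ne', one_mul]
    rw [h1, l1, l1, mul_sum, ← sum_add_distrib]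
    refine sum_le_sum fun u _ => ?_
    rw [← abs_of_pos h', ← abs_mul, abs_of_pos h', ← abs_of_nonneg (f0 u), ← abs_mul,
      abs_of_nonneg (f0 u)]
    have h2 : c * (f u / a - g u / c) = (f u - g u) - f u / a * (a - c) := by field_simp; ring
    rw [h2]
    exact abs_sub _ _
  have e6 := mul_le_mul_of_nonneg_left e5 hB0
  linarith

private lemma level_le {B D : ℝ} (hB : 1 ≤ B) {π f g : List U → ℝ} (hf : ∀ y, 0 ≤ f y)
    (hg : ∀ y, 0 ≤ g y) (h1 : l1 (Wd U N) π f ≤ D) (h2 : l1 (Wd U N) f g ≤ D) {q : ℕ}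
    (hq : q < N) : ∑ z ∈ Wd U q, marg N π z * ent univ 1 B (cnd N f z) ≤
      ∑ z ∈ Wd U q, marg N g z * ent univ 1 B (cnd N g z) + 4 * B * D := by
  have hB0 : 0 ≤ B := by linarith
  have k1 := mul_le_mul_of_nonneg_left ((l1_marg hq.le π f).trans h1) hB0
  have k2 := mul_le_mul_of_nonneg_left ((l1_marg (q := q + 1) hq f g).trans h2) hB0
  rw [l1, sum_Wd_succ] at k2
  rw [l1] at k1
  have key : ∀ z ∈ Wd U q, marg N π z * ent univ 1 B (cnd N f z) ≤
      marg N g z * ent univ 1 B (cnd N g z) + (B * |marg N π z - marg N f z| +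
        3 * B * ∑ u, |marg N f (u :: z) - marg N g (u :: z)|) := by
    intro z hz
    have hzN : z.length < N := by rw [mem_Wd.1 hz]; exact hq
    have e := ent_hom hB (f := fun u => marg N f (u :: z)) (g := fun u => marg N g (u :: z))
      (fun u => marg_nonneg hf _) fun u => marg_nonneg hg _
    rw [← marg_cons f hzN, ← marg_cons g hzN, l1] at e
    have e1 : ent univ 1 B (cnd N f z) ≤ B := by
      have := ent_le univ 1 hB0 (cnd_nonneg (N := N) hf z)
      by_cases h : marg N f z = 0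
      · have h' : ∑ u, cnd N f z u = 0 := sum_eq_zero fun u _ => by rw [cnd, h, div_zero]
        rw [h'] at this; linarith
      · rwa [sum_cnd hzN h, mul_one] at this
    have e2 := ent_nonneg univ 1 B (cnd_nonneg (N := N) hf z)
    have h1 := mul_le_mul_of_nonneg_left (le_abs_self (marg N π z - marg N f z)) e2
    have h2 := mul_le_mul_of_nonneg_right e1 (abs_nonneg (marg N π z - marg N f z))
    change marg N f z * ent univ 1 B (cnd N f z) ≤ marg N g z * ent univ 1 B (cnd N g z) + _ at e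
    linarith
  have := sum_le_sum key
  rw [sum_add_distrib, sum_add_distrib, ← mul_sum, ← mul_sum] at this
  linarith

theorem H1.entropy (H : H1 N ν k Adm B b T Θ) (hB : 1 ≤ B) {D : ℝ}
    (hD : ∀ i j, l1 (Wd U N) (ν i) (ν j) ≤ D) (hD1 : D ≤ 1) :
    ∑ q ∈ range N, ∑ z ∈ Wd U q,
      marg N (ν 0) z * ∑ j ∈ range 4, ent univ 1 B (cnd N (ν (q + j * N)) z) ≤
      1 / N * ∑ i ∈ range (4 * N), ent (Wd U N) (1 / N) (N * B) (ν i) + 16 * N * B * D := by
  have hB0 : 0 ≤ B := by linarith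
  have hN : (2 : ℝ) ≤ N := by exact_mod_cast H.two
  have hN0 : (0 : ℝ) < N := by linarith
  have hmass : ∀ i, 1 / (N : ℝ) * ∑ y ∈ Wd U N, ν i y ≤ 1 := by
    intro i
    have h1 : ∀ j ∈ range (4 * N), ∑ y ∈ Wd U N, ν i y ≤ ∑ y ∈ Wd U N, ν j y + 1 := by
      intro j _
      have h2 : ∑ y ∈ Wd U N, ν i y - ∑ y ∈ Wd U N, ν j y ≤ l1 (Wd U N) (ν i) (ν j) := by
        rw [← sum_sub_distrib]; exact sum_le_sum fun y _ => le_abs_self _
      linarith [hD i j]
    have h2 := sum_le_sum h1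
    rw [sum_add_distrib, H.mass, sum_const, sum_const, card_range, nsmul_eq_mul, nsmul_eq_mul] at h2
    push_cast at h2
    rw [one_div, inv_mul_le_iff₀ hN0]
    have h3 : ∑ y ∈ Wd U N, ν i y ≤ 2 := by
      refine le_of_mul_le_mul_left ?_ (show (0 : ℝ) < 4 * N by positivity)
      linarith
    linarith
  set L := ∑ q ∈ range N, ∑ z ∈ Wd U q,
      marg N (ν 0) z * ∑ j ∈ range 4, ent univ 1 B (cnd N (ν (q + j * N)) z) with hL
  have key : ∀ i ∈ range (4 * N),
      L ≤ 4 * ent (Wd U N) (1 / N) (N * B) (ν i) + 16 * N * B * D := by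
    intro i _
    have h1 := ent_chain (by positivity) hB0 (H.nonneg i) (hmass i)
    have h2 : ∀ q ∈ range N, ∑ z ∈ Wd U q,
        marg N (ν 0) z * ∑ j ∈ range 4, ent univ 1 B (cnd N (ν (q + j * N)) z) ≤
        4 * ∑ z ∈ Wd U q, marg N (ν i) z * ent univ 1 B (cnd N (ν i) z) + 16 * B * D := by
      intro q hq
      have h3 := sum_le_sum fun j (_ : j ∈ range 4) => level_le hB (H.nonneg (q + j * N))
        (H.nonneg i) (hD 0 (q + j * N)) (hD (q + j * N) i) (mem_range.1 hq)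
      rw [sum_const, card_range, nsmul_eq_mul, sum_comm] at h3
      simp only [mul_sum (range 4)]
      push_cast at h3
      linarith
    have h4 := sum_le_sum h2
    rw [sum_add_distrib, ← mul_sum, sum_const, card_range, nsmul_eq_mul] at h4
    linarith
  have h5 := sum_le_sum key
  rw [sum_add_distrib, ← mul_sum, sum_const, sum_const, card_range, nsmul_eq_mul,
    nsmul_eq_mul] at h5
  push_cast at h5
  refine le_of_mul_le_mul_left ?_ (show (0 : ℝ) < 4 * N by positivity)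
  have h6 : 4 * (N : ℝ) * (1 / N * ∑ i ∈ range (4 * N), ent (Wd U N) (1 / N) (N * B) (ν i)) =
      4 * ∑ i ∈ range (4 * N), ent (Wd U N) (1 / N) (N * B) (ν i) := by field_simp
  rw [mul_add, h6]
  exact h5

end Pool.Agent.P.MP_0b0f5a_al.Fo
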