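import Pool.Agent.P.MP_0b0f5a_al.Fo.S1B

/-!
The sums of the diffusive increments and of the jumps.
-/

namespace Pool.Agent.P.MP_0b0f5a_al.Fo

open Finset

variable {U : Type} [Fintype U] {N : ℕ} {π : List U → ℝ} {α γ : ℕ → List U → ℝ} {s ε : ℝ}

private lemma blocks_S1D (g : ℕ → ℝ) (N k : ℕ) :
    ∑ j ∈ range k, ∑ i ∈ range N, g (j * N + i) = ∑ i ∈ range (k * N), g i := by
  induction k with
  | zero => simp
  | succ k ih => rw [sum_range_succ, ih, Nat.succ_mul, sum_range_add]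

private lemma blocks4_S1D {f : ℕ → ℝ} {N : ℕ} (h : ∀ i, f (i + 4 * N) = f i) (q : ℕ) :
    ∑ j ∈ range 4, ∑ i ∈ range N, f (q + j * N + i) = ∑ i ∈ range (4 * N), f i := by
  rw [← sum_shift h q, ← blocks_S1D (fun i => f (q + i)) N 4]
  simp only [add_assoc]

private lemma two_per_S1D {f : ℕ → ℝ} {N : ℕ} (h : ∀ i, f (i + 4 * N) = f i) (h0 : ∀ i, 0 ≤ f i)
    {x : ℕ} (hx : x ≤ 8 * N) : ∑ i ∈ range x, f i ≤ 2 * ∑ i ∈ range (4 * N), f i := by
  have h1 : ∑ i ∈ range x, f i ≤ ∑ i ∈ range (4 * N + 4 * N), f i :=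
    sum_le_sum_of_subset_of_nonneg (range_subset_range.2 (by omega)) fun i _ _ => h0 i
  rw [sum_range_add, sum_shift h] at h1
  linarith

omit [Fintype U] in
private lemma tv_nonneg_S1D (N : ℕ) (γ : ℕ → List U → ℝ) (y : List U) : 0 ≤ tv N γ y :=
  sum_nonneg fun _ _ => abs_nonneg _

private lemma dl_psum_S1D (N : ℕ) (π : List U → ℝ) (σ : ℕ → List U → ℝ) (x : ℕ) (z u) :
    dl N π (psum σ x) z u = ∑ i ∈ range x, dl N π (σ i) z u :=
  dl_sum (range x) N π σ z u

private lemma dl_psum_diff_S1D (N : ℕ) (π : List U → ℝ) (σ : ℕ → List U → ℝ) (q j : ℕ) (z u) :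
    dl N π (psum σ (q + (j + 1) * N)) z u - dl N π (psum σ (q + j * N)) z u =
      ∑ i ∈ range N, dl N π (σ (q + j * N + i)) z u := by
  rw [dl_psum_S1D, dl_psum_S1D, show q + (j + 1) * N = q + j * N + N by ring, sum_range_add]
  ring

open Classical in
private lemma small_S1D (H : HD N π α γ) (hs1 : s ≤ 1) (hε : 0 ≤ ε) {δ : ℕ → List U → ℝ}
    (h0 : ∀ i y, 0 ≤ δ i y) (h1 : ∀ i y, δ i y ≤ |γ i y|) {j : ℕ} (hj : j ≤ 4) :
    ∑ q ∈ range N, ∑ z ∈ Wd U q, (if Ok N π (tv N γ) (s * ε) z then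
      ∑ u, (if marg N (tv N γ) (u :: z) ≤ ε * marg N π (u :: z) then
        dl N π (psum δ (q + j * N)) z u else 0) ^ 2 / marg N π (u :: z) else 0) ≤
      8 * ε * ∑ y ∈ Wd U N, tv N γ y := by
  have hb : ∀ x ≤ 8 * N, ∀ y, psum δ x y ≤ 2 * tv N γ y := fun x hx y =>
    (sum_le_sum fun i _ => h1 i y).trans
      (two_per_S1D (f := fun i => |γ i y|) (fun i => by rw [H.perγ]) (fun _ => abs_nonneg _) hx)
  have hjN : j * N ≤ 4 * N := Nat.mul_le_mul_right _ hj
  have hm := monotone_family (N := N) H.nonneg (fun q => psum δ (q + j * N))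
    (fun q y => sum_nonneg fun i _ => h0 i y)
    (fun q y => sum_le_sum_of_subset_of_nonneg (range_subset_range.2 (by omega))
      fun i _ _ => h0 i y) (c := 2 * ε) (by positivity)
  have hr : ∑ y ∈ Wd U N, psum δ (N + j * N) y ≤ 2 * ∑ y ∈ Wd U N, tv N γ y := by
    rw [mul_sum]
    exact sum_le_sum fun y _ => hb _ (by omega) y
  refine le_trans ?_ (hm.trans (by nlinarith))
  refine sum_le_sum fun q hq => sum_le_sum fun z hz => ?_
  have hq' := mem_range.1 hq
  have hl := mem_Wd.1 hz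
  have hmb : ∀ w : List U, w.length ≤ N →
      marg N (psum δ (q + j * N)) w ≤ 2 * marg N (tv N γ) w := fun w hw => by
    rw [← marg_mul]
    exact marg_mono (fun y _ => hb _ (by omega) y) hw
  have hnn : ∀ u, (0 : ℝ) ≤ if marg N (psum δ (q + j * N)) z ≤ 2 * ε * marg N π z ∧
      marg N (psum δ (q + j * N)) (u :: z) ≤ 2 * ε * marg N π (u :: z) then
        dl N π (psum δ (q + j * N)) z u ^ 2 / marg N π (u :: z) else 0 := fun u => by
    split_ifs
    · exact div_nonneg (sq_nonneg _) (marg_nonneg H.nonneg _)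
    · exact le_rfl
  by_cases hok : Ok N π (tv N γ) (s * ε) z
  · rw [if_pos hok]
    refine sum_le_sum fun u _ => ?_
    by_cases hsm : marg N (tv N γ) (u :: z) ≤ ε * marg N π (u :: z)
    · have e1 := hmb z (by omega)
      have e2 := hmb (u :: z) (by rw [List.length_cons]; omega)
      have e3 := hok.le
      have e4 : 0 ≤ ε * marg N π z := mul_nonneg hε (marg_nonneg H.nonneg _)
      rw [if_pos hsm, if_pos ⟨by nlinarith, by linarith⟩]
    · rw [if_neg hsm]
      simpa using hnn u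
  · rw [if_neg hok]
    exact sum_nonneg fun u _ => hnn u

open Classical in
private lemma small2_S1D (H : HD N π α γ) (hs1 : s ≤ 1) (hε : 0 ≤ ε) {j : ℕ} (hj : j ≤ 4) :
    ∑ q ∈ range N, ∑ z ∈ Wd U q, (if Ok N π (tv N γ) (s * ε) z then
      ∑ u, (if marg N (tv N γ) (u :: z) ≤ ε * marg N π (u :: z) then
        dl N π (psum γ (q + j * N)) z u else 0) ^ 2 / marg N π (u :: z) else 0) ≤
      32 * ε * ∑ y ∈ Wd U N, tv N γ y := by
  have hp := small_S1D H hs1 hε (δ := fun i y => max (γ i y) 0) (fun _ _ => le_max_right _ _)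
    (fun _ _ => max_le (le_abs_self _) (abs_nonneg _)) hj
  have hm := small_S1D H hs1 hε (δ := fun i y => max (-γ i y) 0) (fun _ _ => le_max_right _ _)
    (fun _ _ => max_le (neg_le_abs _) (abs_nonneg _)) hj
  have hd : ∀ x z u, dl N π (psum γ x) z u =
      dl N π (psum (fun i y => max (γ i y) 0) x) z u -
        dl N π (psum (fun i y => max (-γ i y) 0) x) z u := fun x z u => by
    rw [← dl_sub]
    congr 1
    funext y
    simp only [psum, ← sum_sub_distrib, max_zero_sub_max_neg_zero_eq_self]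
  refine le_trans ?_ ((add_le_add (mul_le_mul_of_nonneg_left hp (zero_le_two))
    (mul_le_mul_of_nonneg_left hm (zero_le_two))).trans (le_of_eq (by ring)))
  simp only [mul_sum, ← sum_add_distrib]
  refine sum_le_sum fun q _ => sum_le_sum fun z _ => ?_
  by_cases hok : Ok N π (tv N γ) (s * ε) z
  · simp only [if_pos hok, mul_sum, ← sum_add_distrib]
    refine sum_le_sum fun u _ => ?_
    have hmn := marg_nonneg (N := N) H.nonneg (u :: z)
    by_cases hsm : marg N (tv N γ) (u :: z) ≤ ε * marg N π (u :: z)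
    · simp only [if_pos hsm]
      rw [hd, ← mul_div_assoc, ← mul_div_assoc, ← add_div]
      refine div_le_div_of_nonneg_right ?_ hmn
      nlinarith [sq_nonneg (dl N π (psum (fun i y => max (γ i y) 0) (q + j * N)) z u +
        dl N π (psum (fun i y => max (-γ i y) 0) (q + j * N)) z u)]
    · simp [if_neg hsm]
  · simp [if_neg hok]

private lemma pyth_S1D (H : HD N π α γ) :
    ∑ q ∈ range N, ∑ z ∈ Wd U q, ∑ u, ∑ i ∈ range (4 * N),
      dl N π (α i) z u ^ 2 / marg N π (u :: z) ≤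
      ∑ i ∈ range (4 * N), ∑ y ∈ Wd U N, α i y ^ 2 / π y := by
  refine le_trans (le_of_eq ?_) (sum_le_sum fun i _ => pythagoras H.nonneg (H.supp i))
  rw [sum_comm (s := range (4 * N))]
  refine sum_congr rfl fun q _ => ?_
  rw [sum_comm (s := range (4 * N))]
  refine sum_congr rfl fun z _ => ?_
  rw [sum_comm (s := range (4 * N))]

private lemma sq_add_S1D (hs : 0 < s) (A S : ℝ) :
    (A + S) ^ 2 ≤ (1 + s) * A ^ 2 + (1 + 1 / s) * S ^ 2 := by
  have h1 : (1 + s) * A ^ 2 + (1 + 1 / s) * S ^ 2 - (A + S) ^ 2 = (s * A - S) ^ 2 / s := by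
    field_simp; ring
  have h2 : 0 ≤ (s * A - S) ^ 2 / s := by positivity
  linarith

open Classical in
private lemma split_S1D {P : List U → Prop} (k : ℕ) (c d : ℝ) (hc : 0 ≤ c)
    (F : ℕ → ℕ → List U → U → ℝ) (A : List U → U → ℝ) (hA : ∀ z u, 0 ≤ A z u)
    (S : ℕ → ℕ → List U → U → ℝ)
    (h : ∀ q < N, ∀ z u, ∑ j ∈ range k, F q j z u ≤ c * A z u + d * ∑ j ∈ range k, S q j z u) :
    ∑ q ∈ range N, ∑ z ∈ Wd U q, (if P z then ∑ j ∈ range k, ∑ u, F q j z u else 0) ≤
      c * ∑ q ∈ range N, ∑ z ∈ Wd U q, ∑ u, A z u +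
        d * ∑ j ∈ range k, ∑ q ∈ range N, ∑ z ∈ Wd U q, (if P z then ∑ u, S q j z u else 0) := by
  rw [sum_comm (s := range k), mul_sum, mul_sum, ← sum_add_distrib]
  refine sum_le_sum fun q hq => ?_
  rw [sum_comm (s := range k), mul_sum, mul_sum, ← sum_add_distrib]
  refine sum_le_sum fun z _ => ?_
  by_cases hP : P z
  · simp only [if_pos hP]
    rw [sum_comm, sum_comm (s := range k), mul_sum, mul_sum, ← sum_add_distrib]
    exact sum_le_sum fun u _ => h q (mem_range.1 hq) z u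
  · simp only [if_neg hP, sum_const_zero, mul_zero, add_zero]
    exact mul_nonneg hc (sum_nonneg fun u _ => hA z u)

open Classical in
theorem HD.sum_D (H : HD N π α γ) (hs : 0 < s) (hs1 : s ≤ 1) (hε : 0 ≤ ε) :
    ∑ q ∈ range N, ∑ z ∈ Wd U q, (if Ok N π (tv N γ) (s * ε) z then
      ∑ j ∈ range 4, ∑ u, (Zt N π α γ ε (q + (j + 1) * N) z u - Zt N π α γ ε (q + j * N) z u) ^ 2 /
        marg N π (u :: z) else 0) ≤
      (1 + s) * N * ∑ i ∈ range (4 * N), ∑ y ∈ Wd U N, α i y ^ 2 / π y +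
        (1 + 1 / s) * 1024 * ε * ∑ y ∈ Wd U N, tv N γ y := by
  have hΓ : 0 ≤ ∑ y ∈ Wd U N, tv N γ y := sum_nonneg fun y _ => tv_nonneg_S1D N γ y
  have hc : 0 ≤ (1 + s) * N := by positivity
  have hd : 0 ≤ (1 + 1 / s) * 2 := by positivity
  set Sm : ℕ → List U → U → ℝ := fun x z u =>
    if marg N (tv N γ) (u :: z) ≤ ε * marg N π (u :: z) then dl N π (psum γ x) z u else 0 with hSm
  refine (split_S1D (P := Ok N π (tv N γ) (s * ε)) 4 ((1 + s) * N) ((1 + 1 / s) * 2) hc _
    (fun z u => ∑ i ∈ range (4 * N), dl N π (α i) z u ^ 2 / marg N π (u :: z))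
    (fun z u => sum_nonneg fun i _ => div_nonneg (sq_nonneg _) (marg_nonneg H.nonneg _))
    (fun q j z u => Sm (q + (j + 1) * N) z u ^ 2 / marg N π (u :: z) +
      Sm (q + j * N) z u ^ 2 / marg N π (u :: z)) ?_).trans (add_le_add ?_ ?_)
  · intro q _ z u
    have hmn := marg_nonneg (N := N) H.nonneg (u :: z)
    rw [← blocks4_S1D (f := fun i => dl N π (α i) z u ^ 2 / marg N π (u :: z))
      (fun i => by rw [H.perα]) q, mul_sum, mul_sum, ← sum_add_distrib]
    refine sum_le_sum fun j _ => ?_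
    rw [← sum_div, ← add_div, ← mul_div_assoc, ← mul_div_assoc, ← add_div]
    refine div_le_div_of_nonneg_right ?_ hmn
    have e : Zt N π α γ ε (q + (j + 1) * N) z u - Zt N π α γ ε (q + j * N) z u =
        ∑ i ∈ range N, dl N π (α (q + j * N + i)) z u +
          (Sm (q + (j + 1) * N) z u - Sm (q + j * N) z u) := by
      rw [← dl_psum_diff_S1D]
      simp only [Zt, hSm]
      ring
    rw [e]
    refine (sq_add_S1D hs _ _).trans (add_le_add ?_ ?_)
    · rw [mul_assoc]
      refine mul_le_mul_of_nonneg_left ?_ (by positivity)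
      simpa using sq_sum_le_card_mul_sum_sq (s := range N)
        (f := fun i => dl N π (α (q + j * N + i)) z u)
    · rw [mul_assoc]
      refine mul_le_mul_of_nonneg_left ?_ (by positivity)
      nlinarith [sq_nonneg (Sm (q + (j + 1) * N) z u + Sm (q + j * N) z u)]
  · exact mul_le_mul_of_nonneg_left (pyth_S1D H) hc
  · have hj : ∀ j ∈ range 4, ∑ q ∈ range N, ∑ z ∈ Wd U q, (if Ok N π (tv N γ) (s * ε) z then
        ∑ u, (Sm (q + (j + 1) * N) z u ^ 2 / marg N π (u :: z) +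
          Sm (q + j * N) z u ^ 2 / marg N π (u :: z)) else 0) ≤
        64 * ε * ∑ y ∈ Wd U N, tv N γ y := fun j hj => by
      have hj' := mem_range.1 hj
      refine le_trans (le_of_eq ?_) ((add_le_add (small2_S1D H hs1 hε (j := j + 1) (by omega))
        (small2_S1D H hs1 hε (j := j) (by omega))).trans (le_of_eq (by ring)))
      simp only [← sum_add_distrib]
      refine sum_congr rfl fun q _ => sum_congr rfl fun z _ => ?_
      split_ifs
      · rw [sum_add_distrib]
      · simp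
    have h4 := sum_le_sum hj
    rw [sum_const, card_range, nsmul_eq_mul] at h4
    refine (mul_le_mul_of_nonneg_left h4 hd).trans ?_
    have : 0 ≤ (1 + 1 / s) * (ε * ∑ y ∈ Wd U N, tv N γ y) := by positivity
    push_cast
    nlinarith

open Classical in
theorem HD.sum_Z (H : HD N π α γ) (hs : 0 < s) (hs1 : s ≤ 1) (hε : 0 ≤ ε) :
    ∑ q ∈ range N, ∑ z ∈ Wd U q, (if Ok N π (tv N γ) (s * ε) z then
      ∑ j ∈ range 5, ∑ u, Zt N π α γ ε (q + j * N) z u ^ 2 / marg N π (u :: z) else 0) ≤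
      100 * N * ∑ i ∈ range (4 * N), ∑ y ∈ Wd U N, α i y ^ 2 / π y +
        640 * ε * ∑ y ∈ Wd U N, tv N γ y := by
  have hΓ : 0 ≤ ∑ y ∈ Wd U N, tv N γ y := sum_nonneg fun y _ => tv_nonneg_S1D N γ y
  have hc : (0 : ℝ) ≤ 100 * N := by positivity
  set Sm : ℕ → List U → U → ℝ := fun x z u =>
    if marg N (tv N γ) (u :: z) ≤ ε * marg N π (u :: z) then dl N π (psum γ x) z u else 0 with hSm
  refine (split_S1D (P := Ok N π (tv N γ) (s * ε)) 5 (100 * N) 2 hc _
    (fun z u => ∑ i ∈ range (4 * N), dl N π (α i) z u ^ 2 / marg N π (u :: z))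
    (fun z u => sum_nonneg fun i _ => div_nonneg (sq_nonneg _) (marg_nonneg H.nonneg _))
    (fun q j z u => Sm (q + j * N) z u ^ 2 / marg N π (u :: z)) ?_).trans (add_le_add ?_ ?_)
  · intro q hq z u
    have hmn := marg_nonneg (N := N) H.nonneg (u :: z)
    have hj : ∀ j ∈ range 5, Zt N π α γ ε (q + j * N) z u ^ 2 / marg N π (u :: z) ≤
        20 * N * ∑ i ∈ range (4 * N), dl N π (α i) z u ^ 2 / marg N π (u :: z) +
          2 * (Sm (q + j * N) z u ^ 2 / marg N π (u :: z)) := fun j hj => by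
      have hj' := mem_range.1 hj
      have hjN : j * N ≤ 4 * N := Nat.mul_le_mul_right _ (by omega)
      rw [← sum_div, ← mul_div_assoc, ← mul_div_assoc, ← add_div]
      refine div_le_div_of_nonneg_right ?_ hmn
      have e : Zt N π α γ ε (q + j * N) z u =
          ∑ i ∈ range (q + j * N), dl N π (α i) z u + Sm (q + j * N) z u := by
        rw [← dl_psum_S1D]; rfl
      have h1 := sq_sum_le_card_mul_sum_sq (s := range (q + j * N))
        (f := fun i => dl N π (α i) z u)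
      rw [card_range] at h1
      have h2 := two_per_S1D (f := fun i => dl N π (α i) z u ^ 2) (fun i => by rw [H.perα])
        (fun _ => sq_nonneg _) (x := q + j * N) (by omega)
      have h3 : ((q + j * N : ℕ) : ℝ) ≤ 5 * N := by exact_mod_cast (by omega : q + j * N ≤ 5 * N)
      have h4 := mul_le_mul h3 h2 (sum_nonneg fun _ _ => sq_nonneg _) (by positivity)
      rw [e]
      nlinarith [sq_nonneg (∑ i ∈ range (q + j * N), dl N π (α i) z u - Sm (q + j * N) z u)]
    refine (sum_le_sum hj).trans (le_of_eq ?_)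
    rw [sum_add_distrib, sum_const, card_range, nsmul_eq_mul, ← mul_sum]
    push_cast
    ring
  · exact mul_le_mul_of_nonneg_left (pyth_S1D H) hc
  · have h5 := sum_le_sum fun j (hj : j ∈ range 5) =>
      small2_S1D H hs1 hε (j := j) (by have := mem_range.1 hj; omega)
    rw [sum_const, card_range, nsmul_eq_mul] at h5
    refine (mul_le_mul_of_nonneg_left h5 zero_le_two).trans ?_
    have : 0 ≤ ε * ∑ y ∈ Wd U N, tv N γ y := by positivity
    push_cast
    nlinarith

private lemma jump_S1D (H : HD N π α γ) (hs : 0 < s) {z : List U} (hz : z.length < N)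
    (hok : Ok N π (tv N γ) (s * ε) z) {u : U}
    (hsm : ¬ marg N (tv N γ) (u :: z) ≤ ε * marg N π (u :: z)) :
    ∑ i ∈ range (4 * N), |dl N π (γ i) z u| ≤ (1 + s) * marg N (tv N γ) (u :: z) := by
  have hc := cnd_nonneg (N := N) H.nonneg z u
  have h1 : ∑ i ∈ range (4 * N), |dl N π (γ i) z u| ≤
      marg N (tv N γ) (u :: z) + cnd N π z u * marg N (tv N γ) z := by
    have e : ∀ w, marg N (tv N γ) w = ∑ i ∈ range (4 * N), marg N (fun y => |γ i y|) w :=
      fun w => marg_sum (range (4 * N)) N (fun i y => |γ i y|) w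
    rw [e, e, mul_sum, ← sum_add_distrib]
    refine sum_le_sum fun i _ => (abs_sub _ _).trans (add_le_add (abs_marg_le _ _ _) ?_)
    rw [abs_mul, abs_of_nonneg hc]
    exact mul_le_mul_of_nonneg_left (abs_marg_le _ _ _) hc
  have h2 := mul_le_mul_of_nonneg_left hok.le hc
  have h3 := marg_mul_cnd H.nonneg hz u
  have h4 := mul_le_mul_of_nonneg_left (not_le.1 hsm).le hs.le
  have h5 : cnd N π z u * (s * ε * marg N π z) = s * (ε * marg N π (u :: z)) := by
    rw [← h3]; ring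
  nlinarith

open Classical in
private lemma pass_S1D (H : HD N π α γ) (hs1 : s ≤ 1) (hε : 0 ≤ ε) {c : ℝ} (hc : 0 ≤ c)
    (F : ℕ → ℕ → List U → U → ℝ)
    (h0 : ∀ q j z u, marg N (tv N γ) (u :: z) ≤ ε * marg N π (u :: z) → F q j z u = 0)
    (h1 : ∀ q < N, ∀ z, z.length = q → Ok N π (tv N γ) (s * ε) z → ∀ u,
      ¬ marg N (tv N γ) (u :: z) ≤ ε * marg N π (u :: z) →
        ∑ j ∈ range 4, F q j z u ≤ c * marg N (tv N γ) (u :: z)) :
    ∑ q ∈ range N, ∑ z ∈ Wd U q, (if Ok N π (tv N γ) (s * ε) z then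
      ∑ j ∈ range 4, ∑ u, F q j z u else 0) ≤ c * ∑ y ∈ Wd U N, tv N γ y := by
  refine le_trans ?_ (mul_le_mul_of_nonneg_left
    (first_passage (N := N) π (tv_nonneg_S1D N γ) (s * ε)) hc)
  simp only [mul_sum]
  refine sum_le_sum fun q hq => sum_le_sum fun z hz => ?_
  have hnn : ∀ u, 0 ≤ c * (if Ok N π (tv N γ) (s * ε) z ∧ ¬ Ok N π (tv N γ) (s * ε) (u :: z) then
      marg N (tv N γ) (u :: z) else 0) := fun u => by
    refine mul_nonneg hc ?_
    split_ifs
    · exact marg_nonneg (tv_nonneg_S1D N γ) _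
    · exact le_rfl
  by_cases hok : Ok N π (tv N γ) (s * ε) z
  · rw [if_pos hok, sum_comm]
    refine sum_le_sum fun u _ => ?_
    by_cases hsm : marg N (tv N γ) (u :: z) ≤ ε * marg N π (u :: z)
    · simp only [h0 _ _ _ _ hsm, sum_const_zero]
      exact hnn u
    · have hno : ¬ Ok N π (tv N γ) (s * ε) (u :: z) := fun h => hsm (by
        have e1 := h.le
        have e2 : 0 ≤ ε * marg N π (u :: z) := mul_nonneg hε (marg_nonneg H.nonneg _)
        nlinarith)
      rw [if_pos ⟨hok, hno⟩]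
      exact h1 q (mem_range.1 hq) z (mem_Wd.1 hz) hok u hsm
  · rw [if_neg hok]
    exact sum_nonneg fun u _ => hnn u

open Classical in
theorem HD.sum_K (H : HD N π α γ) (hs : 0 < s) (hs1 : s ≤ 1) (hε : 0 ≤ ε) :
    ∑ q ∈ range N, ∑ z ∈ Wd U q, (if Ok N π (tv N γ) (s * ε) z then
      ∑ j ∈ range 4, ∑ u, |Jt N π γ ε (q + (j + 1) * N) z u - Jt N π γ ε (q + j * N) z u|
        else 0) ≤ (1 + s) * ∑ y ∈ Wd U N, tv N γ y := by
  refine pass_S1D H hs1 hε (by positivity) _ (fun q j z u h => by simp [Jt, h]) ?_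
  intro q hq z hz hok u hsm
  refine le_trans ?_ (jump_S1D H hs (by omega) hok hsm)
  rw [← blocks4_S1D (f := fun i => |dl N π (γ i) z u|) (fun i => by rw [H.perγ]) q]
  refine sum_le_sum fun j _ => ?_
  simp only [Jt, if_neg hsm]
  rw [dl_psum_diff_S1D]
  exact abs_sum_le_sum_abs _ _

open Classical in
theorem HD.sum_J (H : HD N π α γ) (hs : 0 < s) (hs1 : s ≤ 1 / 4) (hε : 0 ≤ ε) :
    ∑ q ∈ range N, ∑ z ∈ Wd U q, (if Ok N π (tv N γ) (s * ε) z then
      ∑ j ∈ range 4, ∑ u, (|Jt N π γ ε (q + j * N) z u| + |Jt N π γ ε (q + (j + 1) * N) z u|)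
        else 0) ≤ 20 * ∑ y ∈ Wd U N, tv N γ y := by
  refine pass_S1D H (by linarith) hε (by positivity) _ (fun q j z u h => by simp [Jt, h]) ?_
  intro q hq z hz hok u hsm
  have hj := jump_S1D H hs (by omega) hok hsm
  have hm := marg_nonneg (N := N) (tv_nonneg_S1D N γ) (u :: z)
  have hx : ∀ x ≤ 8 * N, |Jt N π γ ε x z u| ≤ 5 / 2 * marg N (tv N γ) (u :: z) := fun x hx => by
    simp only [Jt, if_neg hsm]
    rw [dl_psum_S1D]
    have h2 := two_per_S1D (f := fun i => |dl N π (γ i) z u|) (fun i => by rw [H.perγ])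
      (fun _ => abs_nonneg _) hx
    refine (abs_sum_le_sum_abs _ _).trans (h2.trans ?_)
    nlinarith
  have h4 : ∀ j ∈ range 4, |Jt N π γ ε (q + j * N) z u| + |Jt N π γ ε (q + (j + 1) * N) z u| ≤
      5 * marg N (tv N γ) (u :: z) := fun j hj => by
    have hj' := mem_range.1 hj
    have e1 : j * N ≤ 4 * N := Nat.mul_le_mul_right _ (by omega)
    have e2 : (j + 1) * N ≤ 4 * N := Nat.mul_le_mul_right _ (by omega)
    have := hx (q + j * N) (by omega)
    have := hx (q + (j + 1) * N) (by omega)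
    linarith
  refine (sum_le_sum h4).trans (le_of_eq ?_)
  rw [sum_const, card_range, nsmul_eq_mul]
  push_cast
  ring

end Pool.Agent.P.MP_0b0f5a_al.Fo
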