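import Pool.Agent.P.MP_0b0f5a_al.Fo.S1C
import Pool.Agent.P.MP_0b0f5a_al.Fo.S1D

/-!
The step with the Huber cost.
-/

namespace Pool.Agent.P.MP_0b0f5a_al.Fo

open Finset

variable {U : Type} [Fintype U] {N : ℕ} {ν : ℕ → List U → ℝ} {k : ℕ → Equiv.Perm U}
  {Adm : ℕ → U → Prop} {B b T Θ : ℝ}

omit [Fintype U] in
private lemma nu_eq {α γ : ℕ → List U → ℝ} (hν : ∀ i y, ν (i + 1) y = ν i y + α i y + γ i y)
    (x : ℕ) : ν x = fun y => (ν 0 y + psum α x y) + psum γ x y := by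
  funext y
  induction x with
  | zero => simp [psum]
  | succ x ih =>
    rw [hν, ih]
    simp only [psum, sum_range_succ]
    ring

omit [Fintype U] in
private lemma diff_le {α γ : ℕ → List U → ℝ} (hN : 0 < N) (hper : ∀ i, ν (i + 4 * N) = ν i)
    (hν : ∀ i y, ν (i + 1) y = ν i y + α i y + γ i y) (i j : ℕ) (y : List U) :
    |ν i y - ν j y| ≤ tv N α y + tv N γ y := by
  have key : ∀ i n, |ν (i + n) y - ν i y| ≤
      ∑ t ∈ range (i + n), (|α t y| + |γ t y|) - ∑ t ∈ range i, (|α t y| + |γ t y|) := by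
    intro i n
    induction n with
    | zero => simp
    | succ n ih =>
      rw [← add_assoc, hν, sum_range_succ]
      have h1 := abs_add_le (ν (i + n) y - ν i y) (α (i + n) y + γ (i + n) y)
      have h2 := abs_add_le (α (i + n) y) (γ (i + n) y)
      rw [show ν (i + n) y + α (i + n) y + γ (i + n) y - ν i y =
        ν (i + n) y - ν i y + (α (i + n) y + γ (i + n) y) by ring]
      linarith
  have key2 : ∀ i j, i ≤ j → j < 4 * N → |ν j y - ν i y| ≤ tv N α y + tv N γ y := by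
    intro i j hij hj
    obtain ⟨n, rfl⟩ := Nat.exists_eq_add_of_le hij
    have h1 := key i n
    have h2 : 0 ≤ ∑ t ∈ range i, (|α t y| + |γ t y|) := sum_nonneg fun _ _ => by positivity
    have h3 : ∑ t ∈ range (i + n), (|α t y| + |γ t y|) ≤
        ∑ t ∈ range (4 * N), (|α t y| + |γ t y|) :=
      sum_le_sum_of_subset_of_nonneg (range_subset_range.2 hj.le) fun _ _ _ => by positivity
    rw [sum_add_distrib (s := range (4 * N))] at h3
    unfold tv
    linarith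
  have hp : Function.Periodic ν (4 * N) := hper
  rw [← hp.map_mod_nat i, ← hp.map_mod_nat j]
  have hi := Nat.mod_lt i (show 0 < 4 * N by omega)
  have hj := Nat.mod_lt j (show 0 < 4 * N by omega)
  rcases le_total (i % (4 * N)) (j % (4 * N)) with h | h
  · rw [abs_sub_comm]; exact key2 _ _ h hj
  · exact key2 _ _ h hi

omit [Fintype U] in
private lemma tv_nonneg (N : ℕ) (γ : ℕ → List U → ℝ) (y : List U) : 0 ≤ tv N γ y :=
  sum_nonneg fun _ _ => abs_nonneg _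

private lemma Zt_zero {π : List U → ℝ} {α γ : ℕ → List U → ℝ} (hN : 0 < N) (HH : HD N π α γ)
    (ε : ℝ) (x : ℕ) {z : List U} {u : U} (h : marg N π (u :: z) = 0) :
    Zt N π α γ ε x z u = 0 := by
  have hc : cnd N π z u = 0 := by rw [cnd, h, zero_div]
  have h1 : marg N (psum α x) (u :: z) = 0 := by
    refine sum_eq_zero fun w hw => sum_eq_zero fun i _ => HH.supp i _ ?_
    exact (sum_eq_zero_iff_of_nonneg fun _ _ => HH.nonneg _).1 h w hw
  unfold Zt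
  split_ifs with h2
  · rw [h, mul_zero] at h2
    have h3 : marg N (tv N γ) (u :: z) = 0 := le_antisymm h2 (marg_nonneg (tv_nonneg N γ) _)
    have h4 : marg N (psum γ x) (u :: z) = 0 := by
      refine sum_eq_zero fun w hw => sum_eq_zero fun i _ => ?_
      have h5 := (sum_eq_zero_iff_of_nonneg fun _ _ => tv_nonneg N γ _).1 h3 w hw
      have hp : Function.Periodic γ (4 * N) := HH.perγ
      rw [← hp.map_mod_nat i]
      have h6 := (sum_eq_zero_iff_of_nonneg fun _ _ => abs_nonneg _).1 h5 (i % (4 * N))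
        (mem_range.2 (Nat.mod_lt i (by omega)))
      exact abs_eq_zero.1 h6
    simp only [dl, h1, h4, hc, zero_mul, sub_zero, add_zero]
  · simp only [dl, h1, hc, zero_mul, sub_zero, add_zero]

open Classical in
private lemma one_cell (H : H1 N ν k Adm B b T Θ) (hT : 0 ≤ T) (hΘ : 0 ≤ Θ)
    {s ε : ℝ} (hs : 0 < s) (hs1 : s ≤ 1 / 100) (hε1 : ε ≤ 1) {α γ : ℕ → List U → ℝ}
    (HH : HD N (ν 0) α γ) (hν : ∀ i y, ν (i + 1) y = ν i y + α i y + γ i y) {q : ℕ} (hq : q < N)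
    {z : List U} (hz : z ∈ Wd U q) :
    4 * b * (if Ok N (ν 0) (tv N γ) (s * ε) z ∧ marg N (tv N α) z ≤ s * marg N (ν 0) z ∧
        0 < marg N (ν 0) z then marg N (ν 0) z else 0) ≤
      marg N (ν 0) z * ∑ j ∈ range 4, ent univ 1 B (cnd N (ν (q + j * N)) z) +
      T * ((1 + 12 * s) / 2 * (if Ok N (ν 0) (tv N γ) (s * ε) z then
          ∑ j ∈ range 4, ∑ u, (Zt N (ν 0) α γ ε (q + (j + 1) * N) z u -
            Zt N (ν 0) α γ ε (q + j * N) z u) ^ 2 / marg N (ν 0) (u :: z) else 0) +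
        20 * s * (if Ok N (ν 0) (tv N γ) (s * ε) z then
          ∑ j ∈ range 5, ∑ u, Zt N (ν 0) α γ ε (q + j * N) z u ^ 2 / marg N (ν 0) (u :: z)
            else 0)) +
      Θ * ((1 + 4 * s) * (if Ok N (ν 0) (tv N γ) (s * ε) z then
          ∑ j ∈ range 4, ∑ u, |Jt N (ν 0) γ ε (q + (j + 1) * N) z u -
            Jt N (ν 0) γ ε (q + j * N) z u| else 0) +
        10 * s * (if Ok N (ν 0) (tv N γ) (s * ε) z then
          ∑ j ∈ range 4, ∑ u, (|Jt N (ν 0) γ ε (q + j * N) z u| +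
            |Jt N (ν 0) γ ε (q + (j + 1) * N) z u|) else 0) +
        4 / s ^ 2 * (if Ok N (ν 0) (tv N γ) (s * ε) z then
          ∑ j ∈ range 5, ∑ u, Zt N (ν 0) α γ ε (q + j * N) z u ^ 2 / marg N (ν 0) (u :: z)
            else 0)) := by
  have hN : 0 < N := by omega
  have hzl : z.length = q := mem_Wd.1 hz
  have hm : ∀ z, 0 ≤ marg N (ν 0) z := marg_nonneg (H.nonneg 0)
  by_cases hg : Ok N (ν 0) (tv N γ) (s * ε) z ∧ marg N (tv N α) z ≤ s * marg N (ν 0) z ∧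
      0 < marg N (ν 0) z
  · rw [if_pos hg]
    obtain ⟨h1, h2, h3⟩ := hg
    simp only [if_pos h1]
    refine H.cell hT hΘ hs hs1 hq hz h3 ?_ (fun j => Zt N (ν 0) α γ ε (q + j * N) z)
      (fun j => Jt N (ν 0) γ ε (q + j * N) z) ?_ ?_
    · intro i
      rw [← marg_sub]
      refine (abs_marg_le _ _ _).trans ?_
      refine (marg_mono (g := fun y => tv N α y + tv N γ y)
        (fun y _ => diff_le hN H.per hν i 0 y) (by omega)).trans ?_
      rw [marg_add]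
      have h4 := h1.le
      have h5 : s * ε * marg N (ν 0) z ≤ s * 1 * marg N (ν 0) z := by gcongr
      linarith
    · intro j u
      rw [nu_eq hν (q + j * N), dl_add, dl_add, dl_self (H.nonneg 0) (by omega)]
      unfold Zt Jt
      split_ifs <;> ring
    · intro j u h
      exact Zt_zero hN HH ε _ h
  · rw [if_neg hg, mul_zero]
    have e1 : 0 ≤ marg N (ν 0) z * ∑ j ∈ range 4, ent univ 1 B (cnd N (ν (q + j * N)) z) :=
      mul_nonneg (hm z) (sum_nonneg fun j _ => ent_nonneg _ _ _ (cnd_nonneg (H.nonneg _) z))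
    refine add_nonneg (add_nonneg e1 (mul_nonneg hT ?_)) (mul_nonneg hΘ ?_)
    · refine add_nonneg (mul_nonneg (by positivity) ?_) (mul_nonneg (by positivity) ?_) <;>
        split_ifs <;> first
          | exact le_rfl
          | exact sum_nonneg fun _ _ => sum_nonneg fun _ _ => div_nonneg (sq_nonneg _) (hm _)
    · refine add_nonneg (add_nonneg (mul_nonneg (by positivity) ?_)
        (mul_nonneg (by positivity) ?_)) (mul_nonneg (by positivity) ?_) <;>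
        split_ifs <;> first
          | exact le_rfl
          | exact sum_nonneg fun _ _ => sum_nonneg fun _ _ => div_nonneg (sq_nonneg _) (hm _)
          | exact sum_nonneg fun _ _ => sum_nonneg fun _ _ => by positivity

open Classical in
private lemma good_mass {π : List U → ℝ} (h0 : ∀ y, 0 ≤ π y) {α γ : ℕ → List U → ℝ} {s ε : ℝ}
    (hs : 0 < s) (hε : 0 < ε) {Sa G : ℝ} (hS : ∑ y ∈ Wd U N, tv N α y ≤ Sa)
    (hG : ∑ y ∈ Wd U N, tv N γ y ≤ G) {q : ℕ} (hq : q ≤ N) :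
    ∑ y ∈ Wd U N, π y - G / (s * ε) - Sa / s ≤
      ∑ z ∈ Wd U q, (if Ok N π (tv N γ) (s * ε) z ∧ marg N (tv N α) z ≤ s * marg N π z ∧
        0 < marg N π z then marg N π z else 0) := by
  have h1 : ∑ z ∈ Wd U q, (if Ok N π (tv N γ) (s * ε) z then 0 else marg N π z) ≤ G / (s * ε) := by
    rw [le_div_iff₀' (by positivity)]
    exact (bad_mass π (tv_nonneg N γ) (s * ε) hq).trans hG
  have h2 : ∑ z ∈ Wd U q, marg N (tv N α) z / s ≤ Sa / s := by
    rw [← sum_div, sum_marg hq]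
    gcongr
  have h3 : ∑ z ∈ Wd U q, marg N π z ≤ ∑ z ∈ Wd U q,
      ((if Ok N π (tv N γ) (s * ε) z ∧ marg N (tv N α) z ≤ s * marg N π z ∧
        0 < marg N π z then marg N π z else 0) +
      (if Ok N π (tv N γ) (s * ε) z then 0 else marg N π z) + marg N (tv N α) z / s) := by
    refine sum_le_sum fun z _ => ?_
    have e1 := marg_nonneg (N := N) h0 z
    have e2 : 0 ≤ marg N (tv N α) z / s := div_nonneg (marg_nonneg (tv_nonneg N α) z) hs.le
    by_cases hO : Ok N π (tv N γ) (s * ε) z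
    · rw [if_pos hO]
      split_ifs with hg
      · linarith
      · by_cases h4 : marg N (tv N α) z ≤ s * marg N π z
        · have h5 : ¬ 0 < marg N π z := fun h5 => hg ⟨hO, h4, h5⟩
          linarith [not_lt.1 h5]
        · have h5 : marg N π z ≤ marg N (tv N α) z / s := by
            rw [le_div_iff₀' hs]; exact (not_le.1 h4).le
          linarith
    · rw [if_neg hO, if_neg fun h => hO h.1]
      linarith
  rw [sum_add_distrib, sum_add_distrib, sum_marg hq] at h3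
  linarith

/-- The sum of the cell inequalities. -/
theorem H1.cells (H : H1 N ν k Adm B b T Θ) (hb : 0 ≤ b) (hB : 1 ≤ B) (hT : 0 ≤ T) (hΘ : 0 ≤ Θ)
    {s ε : ℝ} (hs : 0 < s) (hs1 : s ≤ 1 / 100) (hε : 0 < ε) (hε1 : ε ≤ 1) {α γ : ℕ → List U → ℝ}
    (HH : HD N (ν 0) α γ) (hν : ∀ i y, ν (i + 1) y = ν i y + α i y + γ i y) {A2 Sa G : ℝ}
    (hA : ∑ i ∈ range (4 * N), ∑ y ∈ Wd U N, α i y ^ 2 / ν 0 y ≤ A2)
    (hS : ∑ y ∈ Wd U N, tv N α y ≤ Sa) (hG : ∑ y ∈ Wd U N, tv N γ y ≤ G) (hD : Sa + G ≤ 1) :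
    4 * b * N * (1 - (Sa + G) - G / (s * ε) - Sa / s) ≤
      1 / N * ∑ i ∈ range (4 * N), ent (Wd U N) (1 / N) (N * B) (ν i) + 16 * N * B * (Sa + G) +
      T * ((1 + 12 * s) / 2 * ((1 + s) * N * A2 + (1 + 1 / s) * 1024 * ε * G) +
        20 * s * (100 * N * A2 + 640 * ε * G)) +
      Θ * ((1 + 4 * s) * ((1 + s) * G) + 10 * s * (20 * G) +
        4 / s ^ 2 * (100 * N * A2 + 640 * ε * G)) := by
  classical
  have hN : 0 < N := by have := H.two; omega
  have hN' : (0 : ℝ) < N := by exact_mod_cast hN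
  have hl : ∀ i j, l1 (Wd U N) (ν i) (ν j) ≤ Sa + G := by
    intro i j
    refine (sum_le_sum fun y _ => diff_le hN H.per hν i j y).trans ?_
    rw [sum_add_distrib]
    linarith
  have hmass : 1 - (Sa + G) ≤ ∑ y ∈ Wd U N, ν 0 y := by
    have h1 : ∀ i, ∑ y ∈ Wd U N, ν i y ≤ ∑ y ∈ Wd U N, ν 0 y + (Sa + G) := by
      intro i
      have h2 : ∑ y ∈ Wd U N, (ν i y - ν 0 y) ≤ l1 (Wd U N) (ν i) (ν 0) :=
        sum_le_sum fun y _ => le_abs_self _
      rw [sum_sub_distrib] at h2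
      linarith [hl i 0]
    have h2 := sum_le_sum fun i (_ : i ∈ range (4 * N)) => h1 i
    rw [H.mass, sum_const, card_range, nsmul_eq_mul] at h2
    push_cast at h2
    have h3 : (4 * N : ℝ) * 1 ≤ 4 * N * (∑ y ∈ Wd U N, ν 0 y + (Sa + G)) := by linarith
    have h4 := le_of_mul_le_mul_left h3 (by positivity)
    linarith
  have hsum := sum_le_sum fun q (hq : q ∈ range N) => sum_le_sum fun z (hz : z ∈ Wd U q) =>
    one_cell H hT hΘ hs hs1 hε1 HH hν (mem_range.1 hq) hz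
  simp only [sum_add_distrib, ← mul_sum] at hsum
  have hgood := sum_le_sum fun q (hq : q ∈ range N) =>
    good_mass (H.nonneg 0) hs hε hS hG (mem_range.1 hq).le
  rw [sum_const, card_range, nsmul_eq_mul] at hgood
  have hE := H.entropy hB hl hD
  have hs2 : s ≤ 1 := by linarith
  have h1 := (HH.sum_D hs hs2 hε.le).trans (show _ ≤ (1 + s) * N * A2 + (1 + 1 / s) * 1024 * ε * G
    by gcongr)
  have h2 := (HH.sum_Z hs hs2 hε.le).trans (show _ ≤ 100 * N * A2 + 640 * ε * G by gcongr)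
  have h3 := (HH.sum_K hs hs2 hε.le).trans (show _ ≤ (1 + s) * G by gcongr)
  have h4 := (HH.sum_J hs (by linarith) hε.le).trans (show _ ≤ 20 * G by gcongr)
  simp only [sum_add_distrib] at h4
  refine le_trans ?_ (hsum.trans ?_)
  · rw [mul_assoc (4 * b)]
    refine mul_le_mul_of_nonneg_left (le_trans ?_ hgood) (by positivity)
    gcongr
  · gcongr

private lemma cost_lines {s r T P SL : ℝ} (hs : 0 < s) (hs1 : s ≤ 1 / 6000) (hr : 0 ≤ r)
    (hr1 : 20 * r ≤ s) (hT : 0 < T) (hP : 0 ≤ P) (hL : 0 ≤ SL) {G : ℝ}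
    (hG : G = (1 + s) * SL + 20 / s ^ 2 * P) :
    T * ((1 + 12 * s) / 2 * ((1 + s) * ((2 + 2 * s) * P) +
          (1 + 1 / s) * 1024 * (s ^ 2 * (r * s ^ 2)) * G) +
        20 * s * (100 * ((2 + 2 * s) * P) + 640 * (s ^ 2 * (r * s ^ 2)) * G)) +
      r * s ^ 2 * T * ((1 + 4 * s) * ((1 + s) * G) + 10 * s * (20 * G) +
        4 / s ^ 2 * (100 * ((2 + 2 * s) * P) + 640 * (s ^ 2 * (r * s ^ 2)) * G)) ≤
      (1 + 6000 * s) * (T * P + r * s ^ 2 * T * SL) := by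
  have hX : 0 ≤ T * P := by positivity
  have hY : 0 ≤ r * s ^ 2 * T * SL := by positivity
  have e1 : r * s ^ 2 * T * G = (1 + s) * (r * s ^ 2 * T * SL) + 20 * r * (T * P) := by
    rw [hG]; field_simp
  have e2 : T * ((1 + 12 * s) / 2 * ((1 + s) * ((2 + 2 * s) * P) +
          (1 + 1 / s) * 1024 * (s ^ 2 * (r * s ^ 2)) * G) +
        20 * s * (100 * ((2 + 2 * s) * P) + 640 * (s ^ 2 * (r * s ^ 2)) * G)) +
      r * s ^ 2 * T * ((1 + 4 * s) * ((1 + s) * G) + 10 * s * (20 * G) +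
        4 / s ^ 2 * (100 * ((2 + 2 * s) * P) + 640 * (s ^ 2 * (r * s ^ 2)) * G)) =
      ((1 + 12 * s) * (1 + s) ^ 2 + 2000 * s * (2 + 2 * s) + 400 * r * (2 + 2 * s)) * (T * P) +
      (512 * (1 + 12 * s) * (s ^ 2 + s) + 12800 * s ^ 3 + (1 + 4 * s) * (1 + s) + 200 * s +
        2560 * (r * s ^ 2)) * (r * s ^ 2 * T * G) := by
    field_simp; ring
  have s2 : s ^ 2 ≤ s / 6000 := by nlinarith
  have s3 : s ^ 3 ≤ s / 6000 := by nlinarith
  have c1 : (1 + 12 * s) * (1 + s) ^ 2 + 2000 * s * (2 + 2 * s) + 400 * r * (2 + 2 * s) ≤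
      1 + 4057 * s := by nlinarith
  have c2 : 512 * (1 + 12 * s) * (s ^ 2 + s) + 12800 * s ^ 3 + (1 + 4 * s) * (1 + s) + 200 * s +
      2560 * (r * s ^ 2) ≤ 1 + 722 * s := by nlinarith [mul_nonneg hr hs.le]
  have e3 : r * s ^ 2 * T * G ≤ (1 + s) * (r * s ^ 2 * T * SL) + s * (T * P) := by
    rw [e1]; gcongr
  have e4 : 0 ≤ r * s ^ 2 * T * G := by rw [e1]; positivity
  rw [e2]
  refine (add_le_add (mul_le_mul_of_nonneg_right c1 hX)
    ((mul_le_mul_of_nonneg_right c2 e4).trans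
      (mul_le_mul_of_nonneg_left e3 (by positivity)))).trans ?_
  have d1 : 1 + 4057 * s + (1 + 722 * s) * s ≤ 1 + 6000 * s := by nlinarith
  have d2 : (1 + 722 * s) * (1 + s) ≤ 1 + 6000 * s := by nlinarith
  nlinarith [mul_le_mul_of_nonneg_right d1 hX, mul_le_mul_of_nonneg_right d2 hY]

private lemma left_side {s τ G : ℝ} (hs : 0 < s) (hs1 : s ≤ 1 / 6000) (hτ : 0 < τ)
    (hτ1 : 20 * τ ≤ s ^ 3) (hG : G ≤ 82 * s ^ 4 * τ) :
    s ^ 4 + G ≤ 2 * s ^ 4 ∧ 2 * s ^ 4 ≤ 1 ∧ 64000 * s ^ 4 ≤ 4 * s ∧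
      1 - 84 * s ≤ 1 - (s ^ 4 + G) - G / (s * (s ^ 2 * τ)) - s ^ 4 / s := by
  have s2 : s ^ 2 ≤ s / 6000 := by nlinarith
  have s3 : s ^ 3 ≤ s / 6000 / 6000 := by nlinarith
  have s4 : s ^ 4 ≤ s / 6000 / 6000 / 6000 := by nlinarith
  have h4 : 0 < s ^ 4 := by positivity
  have h1 : G ≤ s ^ 4 := by nlinarith
  have h2 : G / (s * (s ^ 2 * τ)) ≤ 82 * s := by
    rw [div_le_iff₀ (by positivity)]
    nlinarith
  have h3 : s ^ 4 / s = s ^ 3 := by field_simp
  refine ⟨by linarith, by linarith, by linarith, ?_⟩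
  rw [h3]
  linarith

theorem stageI (H : H1 N ν k Adm B b T Θ) (w : ℕ → List U → ℝ) {s T' Θ' : ℝ} (hs : 0 < s)
    (hs1 : s ≤ 1 / 6000) (hB : 1 ≤ B) (hBb : B ≤ 2000 * b) (hT : 0 < T) (hΘ : 0 < Θ)
    (h1 : 20 * Θ ≤ s ^ 3 * T) (h2 : 4 * N ^ 2 * b ≤ s ^ 4 * (Θ / T) * Θ')
    (h3 : N * b ≤ s ^ 6 * Θ) (h4 : (1 + 6000 * s) * N ^ 2 * T ≤ T')
    (h5 : (1 + 6000 * s) * N * Θ ≤ Θ') :
    (1 - 6000 * s) * N * b ≤
      1 / (4 * N) * ∑ i ∈ range (4 * N), ent (Wd U N) (1 / N) (N * B) (ν i) +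
        1 / (4 * N) * ∑ i ∈ range (4 * N), cost (Wd U N) T' Θ' (ν i) (ν (i + 1)) (w i) := by
  have hN : 0 < N := by have := H.two; omega
  have hN' : (0 : ℝ) < N := by exact_mod_cast hN
  have hb : 0 < b := by linarith
  obtain ⟨α, γ, pα, pγ, hν, hsupp, hA, hS, hG⟩ :=
    clean (Wd U N) hN ν w H.nonneg H.per H.mass hs (by linarith)
  simp only [cost, sum_add_distrib, ← mul_sum]
  have hE : 0 ≤ ∑ i ∈ range (4 * N), ent (Wd U N) (1 / N) (N * B) (ν i) :=
    sum_nonneg fun i _ => ent_nonneg _ _ _ (H.nonneg i)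
  have hQ : 0 ≤ ∑ i ∈ range (4 * N), cQ (Wd U N) (ν i) (ν (i + 1)) (w i) :=
    sum_nonneg fun i _ => cQ_nonneg _ (H.nonneg i) (H.nonneg _) _
  have hL : 0 ≤ ∑ i ∈ range (4 * N), cL (Wd U N) (ν i) (ν (i + 1)) (w i) :=
    sum_nonneg fun i _ => cL_nonneg _ _ _ _
  have hS' : ∑ y ∈ Wd U N, tv N α y = ∑ i ∈ range (4 * N), ∑ y ∈ Wd U N, |α i y| := sum_comm
  have hG' : ∑ y ∈ Wd U N, tv N γ y = ∑ i ∈ range (4 * N), ∑ y ∈ Wd U N, |γ i y| := sum_comm
  rw [← hS'] at hS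
  rw [← hG'] at hG
  have HH : HD N (ν 0) α γ := ⟨H.nonneg 0, pα, pγ, hsupp⟩
  have hc := fun ε hε hε1 A2 Sa G => H.cells hb.le hB hT.le hΘ.le hs (by linarith) (ε := ε) hε hε1
    HH hν (A2 := A2) (Sa := Sa) (G := G)
  generalize ∑ i ∈ range (4 * N), ent (Wd U N) (1 / N) (N * B) (ν i) = E at *
  generalize ∑ i ∈ range (4 * N), cQ (Wd U N) (ν i) (ν (i + 1)) (w i) = SQ at *
  generalize ∑ i ∈ range (4 * N), cL (Wd U N) (ν i) (ν (i + 1)) (w i) = SL at *
  have hNT : (N : ℝ) ^ 2 * T ≤ T' := by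
    refine le_trans ?_ h4
    have : 0 ≤ 6000 * s * N ^ 2 * T := by positivity
    linarith
  have hT' : 0 < T' := lt_of_lt_of_le (by positivity) hNT
  have hΘ' : 0 < Θ' := lt_of_lt_of_le (by positivity) h5
  have hNb : 0 < N * b := by positivity
  rw [← mul_add, one_div_mul_eq_div, le_div_iff₀ (by positivity)]
  by_cases hcase : 4 * N ^ 2 * b ≤ T' * SQ + Θ' * SL
  · have : 0 ≤ 6000 * s * N * b * (4 * N) := by positivity
    nlinarith
  rw [not_le] at hcase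
  obtain ⟨r, hr⟩ : ∃ r, r = Θ / T / s ^ 2 := ⟨_, rfl⟩
  have hr0 : 0 < r := by rw [hr]; positivity
  have hτ : Θ / T = r * s ^ 2 := by rw [hr]; field_simp
  have hΘe : Θ = r * s ^ 2 * T := by rw [← hτ]; field_simp
  rw [hτ] at h2
  have hr1 : 20 * r ≤ s := by
    have : s ^ 2 * T * (20 * r) ≤ s ^ 2 * T * s := by rw [hΘe] at h1; linarith
    exact le_of_mul_le_mul_left this (by positivity)
  have hτ1 : 20 * (r * s ^ 2) ≤ s ^ 3 := by nlinarith [sq_nonneg s]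
  have q1 : 0 ≤ T' * SQ := by positivity
  have q2 : 0 ≤ Θ' * SL := by positivity
  have hSL : SL ≤ s ^ 4 * (r * s ^ 2) := by
    have : Θ' * SL ≤ Θ' * (s ^ 4 * (r * s ^ 2)) := by linarith
    exact le_of_mul_le_mul_left this hΘ'
  have hSQ : N * SQ ≤ 4 * s ^ 6 * (r * s ^ 2) := by
    have e1 : (N : ℝ) ^ 2 * T * SQ ≤ T' * SQ := mul_le_mul_of_nonneg_right hNT hQ
    have e2 : (N : ℝ) * (T * (N * SQ)) ≤ N * (4 * (N * b)) := by linarith
    have e3 := le_of_mul_le_mul_left e2 hN'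
    have e4 : T * (N * SQ) ≤ T * (4 * s ^ 6 * (r * s ^ 2)) := by rw [hΘe] at h3; linarith
    exact le_of_mul_le_mul_left e4 hT
  have hSa : √(8 * N * SQ) ≤ s ^ 4 := by
    rw [Real.sqrt_le_left (by positivity)]
    have e1 : 0 ≤ s ^ 8 := by positivity
    have e2 : 32 * r ≤ 1 := by linarith
    nlinarith
  obtain ⟨G, hGe⟩ : ∃ G, G = (1 + s) * SL + 20 / s ^ 2 * (N * SQ) := ⟨_, rfl⟩
  have hG1 : G ≤ 82 * s ^ 4 * (r * s ^ 2) := by
    have e1 : 20 / s ^ 2 * (N * SQ) ≤ 20 / s ^ 2 * (4 * s ^ 6 * (r * s ^ 2)) := by gcongr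
    have e2 : 20 / s ^ 2 * (4 * s ^ 6 * (r * s ^ 2)) = 80 * s ^ 4 * (r * s ^ 2) := by
      field_simp; ring
    have e3 : (1 + s) * SL ≤ 2 * (s ^ 4 * (r * s ^ 2)) := by gcongr; linarith
    linarith
  obtain ⟨l1, l2, l3, l4⟩ := left_side hs hs1 (by positivity) hτ1 hG1
  have hε1 : s ^ 2 * (r * s ^ 2) ≤ 1 := by
    have e1 : s ^ 2 ≤ 1 := by nlinarith
    have e2 : r ≤ 1 := by linarith
    exact mul_le_one₀ e1 (by positivity) (mul_le_one₀ e2 (by positivity) e1)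
  have key := hc (s ^ 2 * (r * s ^ 2)) (by positivity) hε1 _ _ G hA (hS.trans hSa)
    (hG.trans (le_of_eq (by rw [hGe]; ring))) (l1.trans l2)
  have cl := cost_lines hs hs1 hr0.le hr1 hT (mul_nonneg hN'.le hQ) hL hGe
  rw [← hΘe] at cl
  have k1 : 4 * b * N * (1 - 84 * s) ≤ 4 * b * N *
      (1 - (s ^ 4 + G) - G / (s * (s ^ 2 * (r * s ^ 2))) - s ^ 4 / s) := by gcongr
  have k2 : 16 * N * B * (s ^ 4 + G) ≤ 4 * s * (N * b) := by
    have e1 : 16 * N * B * (s ^ 4 + G) ≤ 16 * N * B * (2 * s ^ 4) := by gcongr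
    have e2 : 16 * N * B * (2 * s ^ 4) ≤ 16 * N * (2000 * b) * (2 * s ^ 4) := by gcongr
    have e3 := mul_le_mul_of_nonneg_right l3 hNb.le
    linarith
  have k3 : 4 * b * N * (1 - 85 * s) ≤ 1 / N * E + (1 + 6000 * s) * (T * (N * SQ) + Θ * SL) := by
    linarith
  have k4 := mul_le_mul_of_nonneg_left k3 hN'.le
  have k5 : (N : ℝ) * (1 / N * E + (1 + 6000 * s) * (T * (N * SQ) + Θ * SL)) =
      E + ((1 + 6000 * s) * N ^ 2 * T * SQ + (1 + 6000 * s) * N * Θ * SL) := by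
    field_simp
  have k6 := mul_le_mul_of_nonneg_right h4 hQ
  have k7 := mul_le_mul_of_nonneg_right h5 hL
  have k8 : 0 ≤ s * N * b * N := by positivity
  linarith

end Pool.Agent.P.MP_0b0f5a_al.Fo
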