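import Pool.Agent.P.MP_0b0f5a_al.Fo.S2Seg

/-!
Reduction of one class to the levels, and the good cells.
-/

namespace Pool.Agent.P.MP_0b0f5a_al.Fo

open Finset

variable {U C : Type} [Fintype U] [DecidableEq C] {N : ℕ} {ν : ℕ → List U → ℝ}
  {k : ℕ → Equiv.Perm U} {bit : U → ZMod 2} {Adm : ℕ → U → Prop}
  {Cl : ℕ → Bool → List (ZMod 2) → C} {B b T : ℝ}

lemma tog_tog_S2A (q : ℕ) (s : List (ZMod 2)) : togAt q (· + 1) (togAt q (· + 1) s) = s :=
  togAt_togAt q (fun x => by revert x; decide) s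

lemma H2.marg_tog (H : H2 N ν k bit Adm Cl B b T) {q : ℕ} (hq : q < N) (j : ℕ)
    (s : List (ZMod 2)) {z : List U} (hz : z ∈ Wd U q) (u : U) :
    marg N (pc N bit ν (q + j * N) (togAt q (· + 1) s)) (k j u :: z) =
      marg N (pc N bit ν (q + j * N) s) (u :: z) := by
  have hl := mem_Wd.1 hz
  have h1 : k j u :: z = togAt q (k j) (u :: z) := by rw [togAt, if_pos hl]
  rw [h1]
  refine marg_togAt (fun y hy => ?_) (by rw [List.length_cons]; omega)
    (by rw [List.length_cons]; omega)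
  unfold pc res
  rw [map_togAt q (g := (· + 1)) (H.bitk j), H.tog q hq j y hy]
  have inj : togAt q (· + 1) (y.map bit) = togAt q (· + 1) s ↔ y.map bit = s := by
    refine ⟨fun h => ?_, fun h => by rw [h]⟩
    rw [← tog_tog_S2A q (y.map bit), h, tog_tog_S2A]
  simp only [inj]

lemma H2.marg_tog' (H : H2 N ν k bit Adm Cl B b T) {q : ℕ} (hq : q < N) (j : ℕ)
    (s : List (ZMod 2)) {z : List U} (hz : z ∈ Wd U q) :
    marg N (pc N bit ν (q + j * N) (togAt q (· + 1) s)) z =
      marg N (pc N bit ν (q + j * N) s) z := by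
  have hl : z.length < N := by rw [mem_Wd.1 hz]; exact hq
  rw [marg_cons _ hl, marg_cons _ hl, ← Equiv.sum_comp (k j)]
  exact sum_congr rfl fun u _ => H.marg_tog hq j s hz u

private lemma ent_cnd_le {f : List U → ℝ} (hf : ∀ y, 0 ≤ f y) (hB : 0 ≤ B) {z : List U}
    (hz : z.length < N) : ent univ 1 B (cnd N f z) ≤ B := by
  refine (ent_le _ _ hB (cnd_nonneg hf z)).trans ?_
  by_cases h0 : marg N f z = 0
  · simp [cnd, h0, hB]
  · rw [sum_cnd hz h0, mul_one]

private lemma sqrt_mul_le {a a' e B : ℝ} (ha : 0 ≤ a) (he : 0 ≤ e) (heB : e ≤ B) :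
    √(a * a') * e ≤ a * e + B * (√a * |√a - √a'|) := by
  rw [Real.sqrt_mul ha]
  have h1 : √a * √a' ≤ a + √a * |√a - √a'| := by
    have h2 := Real.mul_self_sqrt ha
    have h3 := neg_abs_le (√a - √a')
    have h4 := mul_le_mul_of_nonneg_left h3 (Real.sqrt_nonneg a)
    nlinarith
  have h5 : 0 ≤ √a * |√a - √a'| := mul_nonneg (Real.sqrt_nonneg _) (abs_nonneg _)
  nlinarith [mul_le_mul_of_nonneg_right h1 he, mul_le_mul_of_nonneg_right heB h5]

lemma H2.sum_Aq (H : H2 N ν k bit Adm Cl B b T) (hB : 0 ≤ B) {T' : ℝ} (hT : 0 ≤ T') (c : C) :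
    ∑ q ∈ range N, Aq N bit ν Cl B T' q c ≤
      entC N bit ν Cl (N * B) c + T' * chordC N bit ν Cl c + N * B * √(chordC N bit ν Cl c) := by
  set f : (ℕ × Bool) × List (ZMod 2) → List U → ℝ :=
    fun x => pc N bit ν (own x.1.1 x.1.2) x.2 with hf
  set g : (ℕ × Bool) × List (ZMod 2) → List U → ℝ :=
    fun x => pc N bit ν (par x.1.1 x.1.2) x.2 with hg
  have f0 : ∀ x y, 0 ≤ f x y := fun x y => pc_nonneg bit H.nonneg _ _ _
  have g0 : ∀ x y, 0 ≤ g x y := fun x y => pc_nonneg bit H.nonneg _ _ _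
  have hown : ∑ x ∈ Ix N Cl c, ∑ y ∈ Wd U N, f x y = 1 := H.own1 c
  have step : ∀ q ∈ range N, Aq N bit ν Cl B T' q c ≤
      ∑ x ∈ Ix N Cl c, ∑ z ∈ Wd U q, marg N (f x) z * ent univ 1 B (cnd N (f x) z) +
      T' * ∑ x ∈ Ix N Cl c, ∑ z ∈ Wd U q,
        √(marg N (f x) z * marg N (g x) z) * ch2 univ (cnd N (f x) z) (cnd N (g x) z) +
      B * √(chordC N bit ν Cl c) := by
    intro q hq
    have hq' := mem_range.1 hq
    have cs : ∑ x ∈ Ix N Cl c, ∑ z ∈ Wd U q,
        √(marg N (f x) z) * |√(marg N (f x) z) - √(marg N (g x) z)| ≤ √(chordC N bit ν Cl c) := by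
      have h1 := Real.sum_mul_le_sqrt_mul_sqrt (Ix N Cl c ×ˢ Wd U q)
        (fun p => √(marg N (f p.1) p.2)) fun p => |√(marg N (f p.1) p.2) - √(marg N (g p.1) p.2)|
      rw [sum_product, sum_product, sum_product] at h1
      have h2 : ∑ x ∈ Ix N Cl c, ∑ z ∈ Wd U q, √(marg N (f x) z) ^ 2 = 1 := by
        rw [← hown]
        refine sum_congr rfl fun x _ => ?_
        rw [← sum_marg hq'.le]
        exact sum_congr rfl fun z _ => Real.sq_sqrt (marg_nonneg (f0 x) z)
      have h3 : ∑ x ∈ Ix N Cl c, ∑ z ∈ Wd U q, |√(marg N (f x) z) - √(marg N (g x) z)| ^ 2 ≤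
          chordC N bit ν Cl c := by
        refine sum_le_sum fun x _ => ?_
        simp only [sq_abs]
        exact ch2_marg hq'.le (f0 x) (g0 x)
      rw [h2, Real.sqrt_one, one_mul] at h1
      exact h1.trans (Real.sqrt_le_sqrt h3)
    refine le_trans ?_ (add_le_add le_rfl (mul_le_mul_of_nonneg_left cs hB))
    rw [Aq, mul_sum, mul_sum, ← sum_add_distrib, ← sum_add_distrib]
    refine sum_le_sum fun x _ => ?_
    rw [mul_sum, mul_sum, ← sum_add_distrib, ← sum_add_distrib]
    refine sum_le_sum fun z hz => ?_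
    have hl : z.length < N := by rw [mem_Wd.1 hz]; exact hq'
    have h4 := sqrt_mul_le (a' := marg N (g x) z) (marg_nonneg (N := N) (f0 x) z)
      (ent_nonneg univ 1 B (cnd_nonneg (N := N) (f0 x) z)) (ent_cnd_le (f0 x) hB hl)
    change √(marg N (f x) z * marg N (g x) z) * (ent univ 1 B (cnd N (f x) z) +
      T' * ch2 univ (cnd N (f x) z) (cnd N (g x) z)) ≤ _
    linarith
  refine (sum_le_sum step).trans ?_
  rw [sum_add_distrib, sum_add_distrib, sum_const, card_range, nsmul_eq_mul, ← mul_sum,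
    sum_comm, sum_comm (s := range N), mul_assoc]
  refine add_le_add (add_le_add ?_ (mul_le_mul_of_nonneg_left ?_ hT)) le_rfl
  · refine sum_le_sum fun x hx => ent_chain one_pos hB (f0 x) ?_
    rw [one_mul, ← hown]
    exact single_le_sum (f := fun x => ∑ y ∈ Wd U N, f x y)
      (fun x _ => sum_nonneg fun y _ => f0 x y) hx
  · exact sum_le_sum fun x _ => ch2_chain (f0 x) (g0 x)

private lemma sum_blocks (F : ℕ → ℝ) (N J : ℕ) :
    ∑ i ∈ range (J * N), F i = ∑ j ∈ range J, ∑ i ∈ range N, F (j * N + i) := by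
  induction J with
  | zero => simp
  | succ J ih => rw [add_mul, one_mul, sum_range_add, ih, sum_range_succ]

private lemma sum_two (G : ZMod 2 → ℝ) (e : ZMod 2) : ∑ x, G x = G e + G (e + 1) := by
  have h1 : (univ : Finset (ZMod 2)) = {e, e + 1} := by revert e; decide
  have h2 : e ≠ e + 1 := by revert e; decide
  rw [h1, sum_pair h2]

private lemma split_word {s : List (ZMod 2)} {q : ℕ} (h : q < s.length) :
    ∃ s1 e s2, s = s1 ++ e :: s2 ∧ s2.length = q := by
  induction s with
  | nil => simp at h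
  | cons u s ih =>
    rw [List.length_cons] at h
    by_cases h1 : s.length = q
    · exact ⟨[], u, s, rfl, h1⟩
    · obtain ⟨s1, e, s2, h2, h3⟩ := ih (by omega)
      exact ⟨u :: s1, e, s2, by rw [h2]; rfl, h3⟩

lemma H2.good_cell (H : H2 N ν k bit Adm Cl B b T) (hB : 1 ≤ B) (hT : 0 < T) {q : ℕ} (hq : q < N)
    {s : List (ZMod 2)} (hs : s ∈ Wd (ZMod 2) N) {z : List U} (hz : z ∈ Wd U q)
    (h : ∀ i, 0 < marg N (pc N bit ν i s) z ∧ 0 < marg N (pc N bit ν i (togAt q (· + 1) s)) z) :
    N * (16 * (√b - B / √T)) ≤ ∑ i ∈ range (4 * N), ∑ θ : Bool,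
      (√(gC N bit ν B (N ^ 2 * T) i θ s z) +
        √(gC N bit ν B (N ^ 2 * T) i θ (togAt q (· + 1) s) z)) := by
  have hzl := mem_Wd.1 hz
  have hl : z.length < N := by omega
  obtain ⟨s1, e0, s2, rfl, hs2⟩ := split_word (s := s) (q := q) (by rw [mem_Wd.1 hs]; exact hq)
  set S : ZMod 2 → List (ZMod 2) := fun e => s1 ++ e :: s2 with hS
  have hS1 : ∀ e, togAt q (· + 1) (S e) = S (e + 1) := fun e => by
    simp only [hS]
    rw [togAt_append _ _ (by rw [List.length_cons]; omega), togAt, if_pos hs2]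
  have h0 : ∀ e i, 0 < marg N (pc N bit ν i (S e)) z := by
    intro e i
    have h1 : e = e0 ∨ e = e0 + 1 := (by decide : ∀ x y : ZMod 2, x = y ∨ x = y + 1) e e0
    rcases h1 with rfl | rfl
    · exact (h i).1
    · rw [← hS1]; exact (h i).2
  have p0 : ∀ i e y, 0 ≤ pc N bit ν i (S e) y := fun i e y => pc_nonneg bit H.nonneg _ _ _
  have pper : ∀ i e, pc N bit ν (i + 4 * N) (S e) = pc N bit ν i (S e) := fun i e => by
    funext y; simp only [pc, H.per]
  have child := H.child q hq (fun j e => cnd N (pc N bit ν (q + j * N) (S e)) z)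
    (fun j e u => cnd_nonneg (p0 _ _) z u) (fun j e => sum_cnd hl (h0 e _).ne')
    (fun j e u hu => by
      have h1 : marg N (pc N bit ν (q + j * N) (S e)) (u :: z) ≠ 0 := fun h2 =>
        hu (by simp only [cnd, h2, zero_div])
      obtain ⟨w, -, h3⟩ := exists_of_marg_ne_zero (by rw [List.length_cons]; omega) h1
      have h4 : res bit (ν (q + j * N)) (S e) (w ++ u :: z) ≠ 0 := fun h5 =>
        h3 (by simp only [pc, h5, mul_zero])
      unfold res at h4
      split_ifs at h4 with h6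
      · refine ⟨?_, ?_⟩
        · have := (H.adm _ _ h4).of_append.1
          rwa [hzl] at this
        · rw [List.map_append, List.map_cons] at h6
          have h7 := (List.append_inj' h6 (by simp [hzl, hs2])).2
          exact (List.cons.inj h7).1
      · exact absurd rfl h4)
    (fun j => by
      funext e
      rw [show q + (j + 4) * N = q + j * N + 4 * N by ring, pper])
    (fun j e u => by
      simp only [cnd]
      rw [← hS1, H.marg_tog hq j _ hz, H.marg_tog' hq j _ hz])
  set F : ℕ → ℝ := fun i => ∑ e, ∑ θ : Bool, √(gC N bit ν B (N ^ 2 * T) i θ (S e) z) with hF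
  have Fper : ∀ i, F (i + 4 * N) = F i := by
    intro i
    refine sum_congr rfl fun e _ => sum_congr rfl fun θ _ => ?_
    have o1 : own (i + 4 * N) θ = own i θ + 4 * N := by unfold own; split_ifs <;> omega
    have o2 : par (i + 4 * N) θ = par i θ + 4 * N := by unfold par; split_ifs <;> omega
    simp only [gC, o1, o2, pper]
  have hR : ∑ i ∈ range (4 * N), ∑ θ : Bool,
      (√(gC N bit ν B (N ^ 2 * T) i θ (S e0) z) +
        √(gC N bit ν B (N ^ 2 * T) i θ (togAt q (· + 1) (S e0)) z)) =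
      ∑ j ∈ range 4, ∑ i ∈ range N, F (q + (j * N + i)) := by
    rw [← sum_blocks (fun i => F (q + i)), sum_shift Fper]
    refine sum_congr rfl fun i _ => ?_
    simp only [hF]
    rw [sum_two _ e0, hS1, sum_add_distrib]
  refine le_trans ?_ hR.ge
  have seg : ∀ j ∈ range 4, ∑ e, ∑ θ : Bool, (N : ℝ) *
      (√(ent univ 1 B (cnd N (pc N bit ν (q + own j θ * N) (S e)) z) +
        T * ch2 univ (cnd N (pc N bit ν (q + j * N) (S e)) z)
          (cnd N (pc N bit ν (q + (j + 1) * N) (S e)) z)) - B / √T) ≤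
      ∑ i ∈ range N, F (q + (j * N + i)) := by
    intro j _
    simp only [hF]
    rw [sum_comm (s := range N)]
    refine sum_le_sum fun e _ => ?_
    rw [sum_comm (s := range N)]
    refine sum_le_sum fun θ _ => ?_
    have h1 := segment H.pos (fun i => cnd N (pc N bit ν (q + j * N + i) (S e)) z)
      (fun i u => cnd_nonneg (p0 _ _) z u) (fun i => sum_cnd hl (h0 e _).ne') hB hT θ
    have e1 : q + j * N + (if θ then N else 0) = q + own j θ * N := by
      unfold own; split_ifs <;> ring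
    have e2 : q + j * N + N = q + (j + 1) * N := by ring
    simp only [e1, e2, add_zero] at h1
    refine h1.trans (le_of_eq (sum_congr rfl fun i _ => ?_))
    have o1 : own (q + (j * N + i)) θ = q + j * N + own i θ := by unfold own; split_ifs <;> omega
    have o2 : par (q + (j * N + i)) θ = q + j * N + par i θ := by unfold par; split_ifs <;> omega
    simp only [gC, o1, o2]
  refine le_trans ?_ (sum_le_sum seg)
  simp only [← mul_sum, sum_sub_distrib]
  refine mul_le_mul_of_nonneg_left ?_ (Nat.cast_nonneg N)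
  simp only [sum_const, card_univ, card_range, Fintype.card_bool, ZMod.card, nsmul_eq_mul]
  push_cast
  linarith

end Pool.Agent.P.MP_0b0f5a_al.Fo
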