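import Pool.Agent.P.MP_0b0f5a_al.Fo.Stg

/-!
The weighted Cauchy-Schwarz step.
-/

namespace Pool.Agent.P.MP_0b0f5a_al.Fo

open Finset

/-- The flags and cells of the class `c`. -/
def Jx {Y C : Type} [DecidableEq C] (N : ℕ) (S : Finset Y) (cl : ℕ → Bool → Y → C) (c : C) :
    Finset ((ℕ × Bool) × Y) :=
  ((range (4 * N) ×ˢ univ) ×ˢ S).filter fun x => cl x.1.1 x.1.2 x.2 = c

private lemma tele_S2Cs {f : ℕ → ℝ} {P : ℕ} (hP : 0 < P) (h : ∀ i, f (i + P) = f i) (i j : ℕ) :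
    |f i - f j| ≤ ∑ k ∈ range P, |f (k + 1) - f k| := by
  have hp : Function.Periodic f P := h
  have key : ∀ i j, i ≤ j → j < P → |f i - f j| ≤ ∑ k ∈ range P, |f (k + 1) - f k| := by
    intro i j hij hj
    have h1 := dist_le_Ico_sum_dist f hij
    simp only [Real.dist_eq] at h1
    refine h1.trans ((sum_le_sum fun k _ => (abs_sub_comm _ _).le).trans
      (sum_le_sum_of_subset_of_nonneg (fun k hk => ?_) fun _ _ _ => abs_nonneg _))
    rw [mem_Ico] at hk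
    exact mem_range.2 (by omega)
  rw [← hp.map_mod_nat i, ← hp.map_mod_nat j]
  rcases le_total (i % P) (j % P) with e | e
  · exact key _ _ e (Nat.mod_lt _ hP)
  · rw [abs_sub_comm]; exact key _ _ e (Nat.mod_lt _ hP)

private lemma mid_S2Cs {r s t O : ℝ} (h1 : |r - √s| ≤ O)
    (h2 : |r - √t| ≤ O) : |r - √((s + t) / 2)| ≤ O := by
  rw [abs_le] at h1 h2 ⊢
  rcases le_total s t with e | e
  · have a := Real.sqrt_le_sqrt (show s ≤ (s + t) / 2 by linarith)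
    have b := Real.sqrt_le_sqrt (show (s + t) / 2 ≤ t by linarith)
    constructor <;> linarith [h1.1, h1.2, h2.1, h2.2]
  · have a := Real.sqrt_le_sqrt (show t ≤ (s + t) / 2 by linarith)
    have b := Real.sqrt_le_sqrt (show (s + t) / 2 ≤ s by linarith)
    constructor <;> linarith [h1.1, h1.2, h2.1, h2.2]

private lemma one_S2Cs {r v O : ℝ} (hv : 0 < v) (hO : O ≤ v / 2) (h : |r - v| ≤ O) :
    v ^ 4 ≤ (2 * v ^ 2 - r ^ 2 + 9 * O ^ 2) * r ^ 2 := by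
  have h1 : (r - v) ^ 2 ≤ O ^ 2 := sq_le_sq' (abs_le.1 h).1 (abs_le.1 h).2
  have h2 : v / 2 ≤ r := by linarith [(abs_le.1 h).1]
  have h3 : (r + v) ^ 2 ≤ (3 * r) ^ 2 := pow_le_pow_left₀ (by linarith) (by linarith) 2
  have h4 := mul_le_mul h1 h3 (sq_nonneg _) (sq_nonneg _)
  nlinarith

private lemma two_S2Cs {r r' v O : ℝ} (hv : 0 < v) (hO : O ≤ v / 2) (h : |r - v| ≤ O)
    (h' : |r' - v| ≤ O) :
    (v ^ 2) ^ 2 ≤ (2 * v ^ 2 - (r ^ 2 + r' ^ 2) / 2 + 9 * O ^ 2) * (r * r') := by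
  have a := one_S2Cs hv hO h
  have b := one_S2Cs hv hO h'
  have c : 0 < r := by linarith [(abs_le.1 h).1]
  have d : 0 < r' := by linarith [(abs_le.1 h').1]
  refine le_of_mul_le_mul_right ?_ (mul_pos c d)
  have a' := mul_le_mul_of_nonneg_right a (sq_nonneg r')
  have b' := mul_le_mul_of_nonneg_right b (sq_nonneg r)
  have e := mul_nonneg (pow_pos hv 4).le (sq_nonneg (r - r'))
  nlinarith

private lemma sq_S2Cs {r v O : ℝ} (h : |r - v| ≤ O) : r ^ 2 ≤ 2 * v ^ 2 + 2 * O ^ 2 := by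
  have h1 : (r - v) ^ 2 ≤ O ^ 2 := sq_le_sq' (abs_le.1 h).1 (abs_le.1 h).2
  nlinarith [sq_nonneg (r - 2 * v)]

private lemma bar_S2Cs {Y : Type} {S : Finset Y} {bar : Y → Y}
    (hbar : ∀ y ∈ S, bar y ∈ S ∧ bar (bar y) = y) (f : Y → ℝ) :
    ∑ y ∈ S, f (bar y) = ∑ y ∈ S, f y :=
  sum_nbij' bar bar (fun y hy => (hbar y hy).1) (fun y hy => (hbar y hy).1)
    (fun y hy => (hbar y hy).2) (fun y hy => (hbar y hy).2) fun _ _ => rfl

theorem cs_core {Y C : Type} [Fintype C] [DecidableEq C] {N : ℕ} (hN : 1 ≤ N) (S : Finset Y)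
    (bar : Y → Y) (hbar : ∀ y ∈ S, bar y ∈ S ∧ bar (bar y) = y) (a : ℕ → Y → ℝ)
    (ha : ∀ i y, 0 ≤ a i y) (hper : ∀ i, a (i + 4 * N) = a i) (q q' : ℕ)
    (hq : ∀ y ∈ S, a q (bar y) = a q y) (cl : ℕ → Bool → Y → C) (g : ℕ → Bool → Y → ℝ)
    (hg : ∀ i θ y, 0 ≤ g i θ y) {D o : ℝ} (hD : 0 ≤ D)
    (hown : ∀ c, ∑ x ∈ Jx N S cl c, a (own x.1.1 x.1.2) x.2 = 1)
    (hpar : ∀ c, ∑ x ∈ Jx N S cl c, a (par x.1.1 x.1.2) x.2 = 1)
    (hbal : ∀ c, ∑ x ∈ Jx N S cl c, (a q' x.2 + a q' (bar x.2)) =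
      N / 2 * ∑ y ∈ S, (a q' y + a q' (bar y)))
    (hgood : ∀ y ∈ S, (∀ i, 0 < a i y ∧ 0 < a i (bar y)) →
      N * D ≤ ∑ i ∈ range (4 * N), ∑ θ : Bool, (√(g i θ y) + √(g i θ (bar y))))
    (ho : 16 * N ^ 2 * ∑ i ∈ range (4 * N), ch2 S (a i) (a (i + 1)) ≤ o) (ho' : 144 * o ≤ 1)
    [Nonempty C] :
    (1 - 584 * o) * D ≤
      ∑ c, √(∑ x ∈ Jx N S cl c,
        √(a (own x.1.1 x.1.2) x.2 * a (par x.1.1 x.1.2) x.2) * g x.1.1 x.1.2 x.2) := by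
  classical
  have hN0 : (0 : ℝ) < N := by exact_mod_cast hN
  obtain ⟨O1, hO1⟩ : ∃ O1 : Y → ℝ, ∀ y,
      O1 y = ∑ k ∈ range (4 * N), |√(a (k + 1) y) - √(a k y)| := ⟨_, fun _ => rfl⟩
  have t1 : ∀ y i j, |√(a i y) - √(a j y)| ≤ O1 y := fun y i j => by
    rw [hO1]
    exact tele_S2Cs (f := fun i => √(a i y)) (by omega) (fun i => by simp only [hper]) i j
  have O1n : ∀ y, 0 ≤ O1 y := fun y => (abs_nonneg _).trans (t1 y 0 0)
  obtain ⟨O, hO⟩ : ∃ O : Y → ℝ, ∀ y, O y = O1 y + O1 (bar y) := ⟨_, fun _ => rfl⟩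
  obtain ⟨v, hv⟩ : ∃ v : Y → ℝ, ∀ y, v y = √((a q' y + a q' (bar y)) / 2) := ⟨_, fun _ => rfl⟩
  have vn : ∀ y, 0 ≤ v y := fun y => by rw [hv]; positivity
  have v2 : ∀ y, v y ^ 2 = (a q' y + a q' (bar y)) / 2 := fun y => by
    rw [hv, Real.sq_sqrt (by linarith [ha q' y, ha q' (bar y)])]
  have Ob : ∀ y ∈ S, O (bar y) = O y := fun y hy => by rw [hO, hO, (hbar y hy).2, add_comm]
  have vb : ∀ y ∈ S, v (bar y) = v y := fun y hy => by rw [hv, hv, (hbar y hy).2, add_comm]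
  have f2 : ∀ y ∈ S, ∀ i, |√(a i y) - v y| ≤ O y := fun y hy i => by
    rw [hv, hO]
    refine mid_S2Cs ((t1 y i q').trans (by linarith [O1n (bar y)])) ?_
    have b1 := t1 y i q
    have b2 := t1 (bar y) q q'
    rw [hq y hy] at b2
    exact (abs_sub_le _ _ _).trans (add_le_add b1 b2)
  have f3 : N * ∑ y ∈ S, O y ^ 2 ≤ o := by
    have b1 : ∀ y, O1 y ^ 2 ≤ 4 * N * ∑ k ∈ range (4 * N), (√(a k y) - √(a (k + 1) y)) ^ 2 :=
      fun y => by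
        have := sq_sum_le_card_mul_sum_sq (s := range (4 * N))
          (f := fun k => |√(a (k + 1) y) - √(a k y)|)
        rw [hO1]
        refine this.trans (le_of_eq ?_)
        simp only [card_range, Nat.cast_mul, Nat.cast_ofNat, sq_abs]
        exact congrArg _ (sum_congr rfl fun k _ => by ring)
    have b2 : ∑ y ∈ S, O1 y ^ 2 ≤ 4 * N * ∑ i ∈ range (4 * N), ch2 S (a i) (a (i + 1)) := by
      refine (sum_le_sum fun y _ => b1 y).trans (le_of_eq ?_)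
      rw [← mul_sum, sum_comm]
      rfl
    have b3 : ∑ y ∈ S, O y ^ 2 ≤ ∑ y ∈ S, (2 * O1 y ^ 2 + 2 * O1 (bar y) ^ 2) :=
      sum_le_sum fun y _ => by rw [hO]; nlinarith [sq_nonneg (O1 y - O1 (bar y))]
    rw [sum_add_distrib, ← mul_sum, ← mul_sum, bar_S2Cs hbar fun y => O1 y ^ 2] at b3
    nlinarith
  have sO : 0 ≤ ∑ y ∈ S, O y ^ 2 := sum_nonneg fun _ _ => sq_nonneg _
  have o0 : 0 ≤ o := (mul_nonneg hN0.le sO).trans f3
  have mem : ∀ c, ∀ x ∈ Jx N S cl c, x.2 ∈ S := fun c x hx =>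
    (mem_product.1 (mem_filter.1 hx).1).2
  have f4 : ∀ c, ∑ x ∈ Jx N S cl c, O x.2 ^ 2 ≤ 8 * o := fun c => by
    refine (sum_le_sum_of_subset_of_nonneg (filter_subset _ _) fun _ _ _ => sq_nonneg _).trans ?_
    rw [sum_product]
    simp only [sum_const, card_product, card_range, card_univ, Fintype.card_bool, nsmul_eq_mul,
      Nat.cast_mul, Nat.cast_ofNat]
    linarith
  obtain ⟨m, hm⟩ : ∃ m : ℝ, m = N / 2 * ∑ y ∈ S, v y ^ 2 := ⟨_, rfl⟩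
  have f5 : ∀ c, ∑ x ∈ Jx N S cl c, v x.2 ^ 2 = m := fun c => by
    simp only [hm, v2, ← sum_div, hbal c]
    ring
  have sq : ∀ i y, √(a i y) ^ 2 = a i y := fun i y => Real.sq_sqrt (ha i y)
  have m4 : 1 / 4 ≤ m := by
    obtain ⟨c⟩ := ‹Nonempty C›
    have b1 : ∑ x ∈ Jx N S cl c, a (own x.1.1 x.1.2) x.2 ≤
        ∑ x ∈ Jx N S cl c, (2 * v x.2 ^ 2 + 2 * O x.2 ^ 2) := sum_le_sum fun x hx => by
      rw [← sq]; exact sq_S2Cs (f2 _ (mem c x hx) _)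
    rw [hown, sum_add_distrib, ← mul_sum, ← mul_sum, f5] at b1
    linarith [f4 c]
  obtain ⟨W, hW⟩ : ∃ W : Y → ℝ, ∀ y,
      W y = if 0 < v y ∧ O y ≤ v y / 2 then v y ^ 2 else 0 := ⟨_, fun _ => rfl⟩
  have Wn : ∀ y, 0 ≤ W y := fun y => by rw [hW]; split_ifs <;> positivity
  have f6 : m - 2 * o ≤ N / 2 * ∑ y ∈ S, W y := by
    have b1 : ∑ y ∈ S, v y ^ 2 ≤ ∑ y ∈ S, (W y + 4 * O y ^ 2) := sum_le_sum fun y _ => by
      rw [hW]
      split_ifs with h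
      · nlinarith [sq_nonneg (O y)]
      · rcases (vn y).eq_or_lt with e | e
        · rw [← e]; nlinarith [sq_nonneg (O y)]
        · have : v y / 2 < O y := not_le.1 fun b => h ⟨e, b⟩
          nlinarith
    rw [sum_add_distrib, ← mul_sum] at b1
    nlinarith
  have f7 : ∀ c, ∑ x ∈ Jx N S cl c, W x.2 * √(g x.1.1 x.1.2 x.2) ≤ (m + 144 * o) *
      √(∑ x ∈ Jx N S cl c,
        √(a (own x.1.1 x.1.2) x.2 * a (par x.1.1 x.1.2) x.2) * g x.1.1 x.1.2 x.2) := fun c => by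
    have pos : ∀ x ∈ Jx N S cl c, 0 ≤ 2 * v x.2 ^ 2 -
        (√(a (own x.1.1 x.1.2) x.2) ^ 2 + √(a (par x.1.1 x.1.2) x.2) ^ 2) / 2 + 9 * O x.2 ^ 2 :=
      fun x hx => by
        linarith [sq_S2Cs (f2 _ (mem c x hx) (own x.1.1 x.1.2)),
          sq_S2Cs (f2 _ (mem c x hx) (par x.1.1 x.1.2)), sq_nonneg (O x.2)]
    have pos' : ∀ x ∈ Jx N S cl c,
        0 ≤ √(a (own x.1.1 x.1.2) x.2 * a (par x.1.1 x.1.2) x.2) * g x.1.1 x.1.2 x.2 :=
      fun x _ => mul_nonneg (Real.sqrt_nonneg _) (hg _ _ _)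
    have b1 := sum_sq_le_sum_mul_sum_of_sq_le_mul (Jx N S cl c)
      (r := fun x => W x.2 * √(g x.1.1 x.1.2 x.2)) pos pos' fun x hx => by
        rw [mul_pow, Real.sq_sqrt (hg _ _ _), ← mul_assoc, Real.sqrt_mul (ha _ _)]
        refine mul_le_mul_of_nonneg_right ?_ (hg _ _ _)
        rw [hW]
        split_ifs with h
        · exact two_S2Cs h.1 h.2 (f2 _ (mem c x hx) _) (f2 _ (mem c x hx) _)
        · rw [zero_pow two_ne_zero]
          exact mul_nonneg (pos x hx) (by positivity)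
    have b2 : ∑ x ∈ Jx N S cl c, (2 * v x.2 ^ 2 -
        (√(a (own x.1.1 x.1.2) x.2) ^ 2 + √(a (par x.1.1 x.1.2) x.2) ^ 2) / 2 + 9 * O x.2 ^ 2) ≤
        (m + 144 * o) ^ 2 := by
      simp only [sq, sum_add_distrib, sum_sub_distrib, ← mul_sum, ← sum_div, f5, hown, hpar]
      nlinarith [f4 c, sq_nonneg (m - 1), sq_nonneg o, mul_nonneg o0 (sub_nonneg.2 m4)]
    have b3 := b1.trans (mul_le_mul_of_nonneg_right b2 (sum_nonneg pos'))
    refine (Real.le_sqrt_of_sq_le b3).trans (le_of_eq ?_)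
    rw [Real.sqrt_mul (sq_nonneg _), Real.sqrt_sq (by linarith)]
  obtain ⟨G, hG⟩ : ∃ G : Y → ℝ, ∀ y,
      G y = ∑ i ∈ range (4 * N), ∑ θ : Bool, √(g i θ y) := ⟨_, fun _ => rfl⟩
  have f8 : ∑ c, ∑ x ∈ Jx N S cl c, W x.2 * √(g x.1.1 x.1.2 x.2) = ∑ y ∈ S, W y * G y := by
    unfold Jx
    rw [sum_fiberwise, sum_product_right]
    refine sum_congr rfl fun y _ => ?_
    rw [hG, sum_product, mul_sum]
    exact sum_congr rfl fun i _ => (mul_sum univ (fun θ => √(g i θ y)) (W y)).symm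
  have f9 : N * D * ∑ y ∈ S, W y ≤ 2 * ∑ y ∈ S, W y * G y := by
    have b1 : ∑ y ∈ S, W y * G (bar y) = ∑ y ∈ S, W y * G y := by
      rw [← bar_S2Cs hbar fun y => W y * G y]
      exact sum_congr rfl fun y hy => by rw [hW, hW, Ob y hy, vb y hy]
    rw [two_mul]
    nth_rewrite 2 [← b1]
    rw [← sum_add_distrib, mul_sum]
    refine sum_le_sum fun y hy => ?_
    rw [← mul_add, mul_comm]
    by_cases h : 0 < v y ∧ O y ≤ v y / 2
    · refine mul_le_mul_of_nonneg_left ((hgood y hy fun i => ⟨?_, ?_⟩).trans (le_of_eq ?_)) (Wn y)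
      · exact Real.sqrt_pos.1 (by linarith [(abs_le.1 (f2 y hy i)).1, h.1, h.2])
      · have := f2 _ (hbar y hy).1 i
        rw [Ob y hy, vb y hy] at this
        exact Real.sqrt_pos.1 (by linarith [(abs_le.1 this).1, h.1, h.2])
      · simp only [hG, sum_add_distrib]
    · rw [hW, if_neg h, zero_mul, zero_mul]
  have f10 := sum_le_sum fun c (_ : c ∈ univ) => f7 c
  rw [f8, ← mul_sum] at f10
  refine le_of_mul_le_mul_left (le_trans ?_ f10) (by linarith)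
  have b1 := mul_le_mul_of_nonneg_right f6 hD
  have b2 : (m + 144 * o) * (1 - 584 * o) ≤ m - 2 * o := by
    nlinarith [mul_nonneg o0 (sub_nonneg.2 m4), sq_nonneg o]
  have b3 := mul_le_mul_of_nonneg_right b2 hD
  nlinarith

end Pool.Agent.P.MP_0b0f5a_al.Fo
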