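import Pool.Agent.P.MP_0b0f5a_al.Fo.S2A
import Pool.Agent.P.MP_0b0f5a_al.Fo.S2Cs

/-!
The step with the chord cost.
-/

namespace Pool.Agent.P.MP_0b0f5a_al.Fo

open Finset

variable {U C : Type} [Fintype U] [Fintype C] [DecidableEq C] {N : ℕ} {ν : ℕ → List U → ℝ}
  {k : ℕ → Equiv.Perm U} {bit : U → ZMod 2} {Adm : ℕ → U → Prop}
  {Cl : ℕ → Bool → List (ZMod 2) → C} {B b T : ℝ}

omit [Fintype C] in
private lemma bridge (q : ℕ) (c : C) (F : (ℕ × Bool) × (List (ZMod 2) × List U) → ℝ) :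
    ∑ x ∈ Jx N (Wd (ZMod 2) N ×ˢ Wd U q) (fun i θ y => Cl i θ y.1) c, F x =
      ∑ x ∈ Ix N Cl c, ∑ z ∈ Wd U q, F (x.1, (x.2, z)) := by
  rw [Jx, Ix, sum_filter, sum_filter, sum_product (s := range (4 * N) ×ˢ univ),
    sum_product (s := range (4 * N) ×ˢ univ)]
  refine sum_congr rfl fun x _ => ?_
  rw [sum_product]
  refine sum_congr rfl fun s _ => ?_
  split_ifs <;> simp

omit [Fintype C] in
private lemma chordC_nonneg (c : C) : 0 ≤ chordC N bit ν Cl c :=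
  sum_nonneg fun _ _ => ch2_nonneg _ _ _

private lemma sum_chordC : ∑ c, chordC N bit ν Cl c = 2 * ∑ i ∈ range (4 * N),
    ∑ s ∈ Wd (ZMod 2) N, ch2 (Wd U N) (pc N bit ν i s) (pc N bit ν (i + 1) s) := by
  unfold chordC Ix
  rw [sum_fiberwise ((range (4 * N) ×ˢ univ) ×ˢ Wd (ZMod 2) N)
    (fun x : (ℕ × Bool) × List (ZMod 2) => Cl x.1.1 x.1.2 x.2), sum_product, sum_product, mul_sum]
  refine sum_congr rfl fun i _ => ?_
  rw [Fintype.sum_bool, two_mul]
  congr 1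
  exact sum_congr rfl fun s _ => ch2_comm _ _ _

omit [Fintype C] in
private lemma gC_nonneg (H : H2 N ν k bit Adm Cl B b T) {T' : ℝ} (hT : 0 ≤ T') (i θ s z) :
    0 ≤ gC N bit ν B T' i θ s z :=
  add_nonneg (ent_nonneg _ _ _ (cnd_nonneg (pc_nonneg bit H.nonneg _ _) z))
    (mul_nonneg hT (ch2_nonneg _ _ _))

lemma H2.level (H : H2 N ν k bit Adm Cl B b T) [Nonempty C] (hB : 1 ≤ B) (hT : 0 < T) {o : ℝ}
    (ho : 8 * N ^ 2 * ∑ c, chordC N bit ν Cl c ≤ o) (ho' : 144 * o ≤ 1) {q : ℕ} (hq : q < N) :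
    16 * ((1 - 584 * o) * √b - B / √T) ≤ ∑ c, √(Aq N bit ν Cl B (N ^ 2 * T) q c) := by
  have o0 : 0 ≤ o := le_trans
    (mul_nonneg (by positivity) (sum_nonneg fun c _ => chordC_nonneg c)) ho
  have bT : 0 ≤ B / √T := div_nonneg (by linarith) (Real.sqrt_nonneg _)
  rcases lt_or_ge (√b - B / √T) 0 with hD | hD
  · have h1 : 0 ≤ ∑ c, √(Aq N bit ν Cl B (N ^ 2 * T) q c) :=
      sum_nonneg fun _ _ => Real.sqrt_nonneg _
    have h2 := mul_nonneg o0 (Real.sqrt_nonneg b)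
    nlinarith
  obtain ⟨q', hq', hbal⟩ := H.bal q hq
  have p0 : ∀ i s y, 0 ≤ pc N bit ν i s y := fun i s y => pc_nonneg bit H.nonneg _ _ _
  have h1 : ∀ y ∈ Wd (ZMod 2) N ×ˢ Wd U q,
      (togAt q (· + 1) y.1, y.2) ∈ Wd (ZMod 2) N ×ˢ Wd U q ∧
        (togAt q (· + 1) (togAt q (· + 1) y.1), y.2) = y := fun y hy => by
    rw [mem_product] at hy ⊢
    refine ⟨⟨?_, hy.2⟩, ?_⟩
    · rw [mem_Wd, length_togAt, ← mem_Wd]; exact hy.1
    · simp only [tog_tog_S2A]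
  have h2 : ∀ i, (fun y : List (ZMod 2) × List U => marg N (pc N bit ν (i + 4 * N) y.1) y.2) =
      fun y => marg N (pc N bit ν i y.1) y.2 := fun i => by
    funext y
    congr 1
    funext w
    simp only [pc, H.per]
  have h3 : ∀ y ∈ Wd (ZMod 2) N ×ˢ Wd U q, marg N (pc N bit ν q (togAt q (· + 1) y.1)) y.2 =
      marg N (pc N bit ν q y.1) y.2 := fun y hy => by
    simpa using H.marg_tog' hq 0 y.1 (mem_product.1 hy).2
  have h4 : ∀ c, ∑ x ∈ Jx N (Wd (ZMod 2) N ×ˢ Wd U q) (fun i θ y => Cl i θ y.1) c,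
      marg N (pc N bit ν (own x.1.1 x.1.2) x.2.1) x.2.2 = 1 := fun c => by
    rw [bridge, ← H.own1 c]
    exact sum_congr rfl fun x _ => sum_marg hq.le (pc N bit ν (own x.1.1 x.1.2) x.2)
  have h5 : ∀ c, ∑ x ∈ Jx N (Wd (ZMod 2) N ×ˢ Wd U q) (fun i θ y => Cl i θ y.1) c,
      marg N (pc N bit ν (par x.1.1 x.1.2) x.2.1) x.2.2 = 1 := fun c => by
    rw [bridge, ← H.par1 c]
    exact sum_congr rfl fun x _ => sum_marg hq.le (pc N bit ν (par x.1.1 x.1.2) x.2)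
  have h6 : ∀ c, ∑ x ∈ Jx N (Wd (ZMod 2) N ×ˢ Wd U q) (fun i θ y => Cl i θ y.1) c,
      (marg N (pc N bit ν q' x.2.1) x.2.2 +
        marg N (pc N bit ν q' (togAt q (· + 1) x.2.1)) x.2.2) =
      N / 2 * ∑ y ∈ Wd (ZMod 2) N ×ˢ Wd U q, (marg N (pc N bit ν q' y.1) y.2 +
        marg N (pc N bit ν q' (togAt q (· + 1) y.1)) y.2) := fun c => by
    rw [bridge, sum_product]
    have hM : ∀ s, ∑ z ∈ Wd U q, marg N (pc N bit ν q' (togAt q' (· + 1) s)) z =
        ∑ z ∈ Wd U q, marg N (pc N bit ν q' s) z := fun s => by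
      rw [sum_marg hq.le, sum_marg hq.le, ← sum_marg hq'.le, ← sum_marg hq'.le]
      exact sum_congr rfl fun z hz => by simpa using H.marg_tog' hq' 0 s hz
    refine hbal (fun s => ∑ z ∈ Wd U q, (marg N (pc N bit ν q' s) z +
      marg N (pc N bit ν q' (togAt q (· + 1) s)) z)) (fun s _ => ?_) (fun s _ => ?_) c
    · simp only [tog_tog_S2A]
      exact sum_congr rfl fun _ _ => add_comm _ _
    · simp only [sum_add_distrib]
      rw [togAt_comm q q', hM, hM]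
  have h7 : 16 * N ^ 2 * ∑ i ∈ range (4 * N), ch2 (Wd (ZMod 2) N ×ˢ Wd U q)
      (fun y => marg N (pc N bit ν i y.1) y.2)
      (fun y => marg N (pc N bit ν (i + 1) y.1) y.2) ≤ o := by
    refine le_trans ?_ ho
    rw [sum_chordC, ← mul_assoc, show (8 : ℝ) * N ^ 2 * 2 = 16 * N ^ 2 by ring]
    refine mul_le_mul_of_nonneg_left (sum_le_sum fun i _ => ?_) (by positivity)
    rw [ch2, sum_product]
    refine sum_le_sum fun s _ => ?_
    have h8 := ch2_marg hq.le (p0 i s) (p0 (i + 1) s)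
    rw [ch2] at h8
    exact h8
  have key := cs_core (C := C) H.pos (Wd (ZMod 2) N ×ˢ Wd U q)
    (fun y => (togAt q (· + 1) y.1, y.2)) h1
    (fun i y => marg N (pc N bit ν i y.1) y.2) (fun i y => marg_nonneg (p0 i y.1) y.2) h2 q q' h3
    (fun i θ y => Cl i θ y.1) (fun i θ y => gC N bit ν B (N ^ 2 * T) i θ y.1 y.2)
    (fun i θ y => gC_nonneg H (by positivity) i θ y.1 y.2)
    (D := 16 * (√b - B / √T)) (o := o) (by linarith) h4 h5 h6
    (fun y hy h => H.good_cell hB hT hq (mem_product.1 hy).1 (mem_product.1 hy).2 h) h7 ho'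
  refine le_trans ?_ (key.trans (le_of_eq (sum_congr rfl fun c _ => ?_)))
  · nlinarith [mul_nonneg o0 bT]
  · rw [bridge, Aq]

theorem stageII (H : H2 N ν k bit Adm Cl B b T) (hC : Fintype.card C = 16) (hB : 1 ≤ B)
    (hb : 0 ≤ b) (hT : 0 < T) (hξ : 2048 * 144 * (N * b / T) ≤ 1) {b' : ℝ}
    (hb' : √b' ≤ √(N * b) * (1 - 1200000 * (N * b / T)) - 2 * √N * B / √T) :
    16 * √b' ≤ ∑ c, √(entC N bit ν Cl (N * B) c + N ^ 2 * T * chordC N bit ν Cl c) := by
  have : Nonempty C := Fintype.card_pos_iff.1 (by omega)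
  have hN : (1 : ℝ) ≤ N := by exact_mod_cast H.pos
  have hN0 : (0 : ℝ) < N := by linarith
  have sT : 0 < √T := Real.sqrt_pos.2 hT
  have sN : 1 ≤ √(N : ℝ) := Real.one_le_sqrt.2 hN
  have ξ0 : 0 ≤ N * b / T := by positivity
  have bT : 0 ≤ B / √T := div_nonneg (by linarith) sT.le
  have e0 : ∀ c, 0 ≤ entC N bit ν Cl (N * B) c := fun c =>
    sum_nonneg fun x _ => ent_nonneg _ _ _ (pc_nonneg bit H.nonneg _ _)
  have hφ : ∀ c, N * √T * √(chordC N bit ν Cl c) ≤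
      √(entC N bit ν Cl (N * B) c + N ^ 2 * T * chordC N bit ν Cl c) := fun c => by
    refine Real.le_sqrt_of_sq_le ?_
    rw [mul_pow, mul_pow, Real.sq_sqrt hT.le, Real.sq_sqrt (chordC_nonneg c)]
    linarith [e0 c]
  rcases le_total (16 * √b') (∑ c, N * √T * √(chordC N bit ν Cl c)) with h1 | h1
  · exact h1.trans (sum_le_sum fun c _ => hφ c)
  have h2 : √b' ≤ √(N * b) := by
    have h3 := mul_nonneg (Real.sqrt_nonneg (N * b)) ξ0
    have h4 : 0 ≤ 2 * √N * B / √T := by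
      rw [mul_div_assoc]; exact mul_nonneg (by positivity) bT
    nlinarith
  have ho : 8 * N ^ 2 * ∑ c, chordC N bit ν Cl c ≤ 2048 * (N * b / T) := by
    have h3 : ∑ c, chordC N bit ν Cl c ≤ (∑ c, √(chordC N bit ν Cl c)) ^ 2 := by
      refine le_trans (le_of_eq ?_) (sum_sq_le_sq_sum_of_nonneg fun c _ => Real.sqrt_nonneg _)
      exact sum_congr rfl fun c _ => (Real.sq_sqrt (chordC_nonneg c)).symm
    rw [← mul_sum] at h1
    have h4 : 0 ≤ N * √T * ∑ c, √(chordC N bit ν Cl c) :=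
      mul_nonneg (by positivity) (sum_nonneg fun c _ => Real.sqrt_nonneg _)
    have h5 : (N * √T * ∑ c, √(chordC N bit ν Cl c)) ^ 2 ≤ (16 * √(N * b)) ^ 2 :=
      pow_le_pow_left₀ h4 (by linarith) 2
    rw [mul_pow, mul_pow, mul_pow, Real.sq_sqrt hT.le, Real.sq_sqrt (by positivity)] at h5
    rw [← mul_div_assoc, le_div_iff₀ hT]
    have h6 := mul_le_mul_of_nonneg_left h3 (show (0 : ℝ) ≤ N ^ 2 * T by positivity)
    nlinarith
  have hlev : ∑ q ∈ range N, 16 * ((1 - 584 * (2048 * (N * b / T))) * √b - B / √T) ≤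
      ∑ q ∈ range N, ∑ c, √(Aq N bit ν Cl B (N ^ 2 * T) q c) :=
    sum_le_sum fun q hq => H.level hB hT ho (by linarith) (mem_range.1 hq)
  rw [sum_comm, sum_const, card_range, nsmul_eq_mul] at hlev
  have hcls : ∀ c, ∑ q ∈ range N, √(Aq N bit ν Cl B (N ^ 2 * T) q c) ≤
      √N * (√(entC N bit ν Cl (N * B) c + N ^ 2 * T * chordC N bit ν Cl c) + B / √T / 2) := by
    intro c
    have A0 : ∀ q, 0 ≤ Aq N bit ν Cl B (N ^ 2 * T) q c := fun q =>
      sum_nonneg fun x _ => sum_nonneg fun z _ =>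
        mul_nonneg (Real.sqrt_nonneg _) (gC_nonneg H (by positivity) _ _ _ _)
    have h3 := sum_sqrt_mul_le (range N) (μ := fun _ => (1 : ℝ)) (fun _ => zero_le_one) A0
    simp only [Real.sqrt_one, one_mul, sum_const, card_range, nsmul_eq_mul, mul_one] at h3
    refine h3.trans (mul_le_mul_of_nonneg_left ?_ (Real.sqrt_nonneg _))
    refine Real.sqrt_le_iff.2 ⟨add_nonneg (Real.sqrt_nonneg _) (by linarith), ?_⟩
    refine (H.sum_Aq (by linarith) (by positivity) c).trans ?_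
    have h4 := mul_le_mul_of_nonneg_right (hφ c) bT
    have h5 : N * √T * √(chordC N bit ν Cl c) * (B / √T) = N * B * √(chordC N bit ν Cl c) := by
      field_simp
    rw [add_sq, Real.sq_sqrt
      (add_nonneg (e0 c) (mul_nonneg (by positivity) (chordC_nonneg c)))]
    nlinarith [sq_nonneg (B / √T / 2)]
  have h6 := hlev.trans (sum_le_sum fun c _ => hcls c)
  rw [← mul_sum, sum_add_distrib, sum_const, card_univ, hC, nsmul_eq_mul] at h6
  rw [Real.sqrt_mul hN0.le, mul_div_assoc (2 * √(N : ℝ))] at hb'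
  have h7 : (N : ℝ) = √N * √N := (Real.mul_self_sqrt hN0.le).symm
  generalize ∑ c, √(entC N bit ν Cl (N * B) c + N ^ 2 * T * chordC N bit ν Cl c) = X at h6 ⊢
  generalize N * b / T = ξ at *
  generalize B / √T = β at *
  have h8 : √(N : ℝ) * (16 * ((1 - 584 * (2048 * ξ)) * √b - β)) ≤ X + 8 * β := by
    refine le_of_mul_le_mul_left ?_ (show 0 < √(N : ℝ) by linarith)
    rw [← mul_assoc, ← h7]
    push_cast at h6
    linarith
  have h9 := mul_nonneg (mul_nonneg (Real.sqrt_nonneg (N : ℝ)) (Real.sqrt_nonneg b)) ξ0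
  have h10 := mul_le_mul_of_nonneg_right sN bT
  nlinarith

end Pool.Agent.P.MP_0b0f5a_al.Fo
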