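import Pool.Agent.P.MP_0b0f5a_al.Fo.CoordE
import Pool.Agent.P.MP_0b0f5a_al.Fo.ClassF
import Pool.Agent.P.MP_0b0f5a_al.Fo.Nu
import Pool.Agent.P.MP_0b0f5a_al.Fo.Child
import Pool.Agent.P.MP_0b0f5a_al.Fo.S2B
import Pool.Agent.P.MP_0b0f5a_al.Fo.S1E

/-!
The two inductive steps for the portraits.
-/

namespace Pool.Agent.P.MP_0b0f5a_al.Fo

open Finset

variable {s : Fin 3} {m : ℕ} {ω : ℕ → Fin 3}

private lemma ent_prod {X Y : Type} (A : Finset X) (S : Finset Y) (c B : ℝ) (μ : X × Y → ℝ) :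
    ent (A ×ˢ S) c B μ = ∑ x ∈ A, ent S c B fun y => μ (x, y) := sum_product _ _ _

private lemma ch2_prod {X Y : Type} (A : Finset X) (S : Finset Y) (μ ν : X × Y → ℝ) :
    ch2 (A ×ˢ S) μ ν = ∑ x ∈ A, ch2 S (fun y => μ (x, y)) fun y => ν (x, y) := sum_product _ _ _

private lemma cost_prod {X Y : Type} (A : Finset X) (S : Finset Y) (T Θ : ℝ)
    (μ ν w : X × Y → ℝ) : cost (A ×ˢ S) T Θ μ ν w =
      ∑ x ∈ A, cost S T Θ (fun y => μ (x, y)) (fun y => ν (x, y)) fun y => w (x, y) := by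
  simp only [cost, cQ, cL, sum_product, sum_add_distrib, mul_sum]

private lemma cost_scale {X : Type} (S : Finset X) (T Θ : ℝ) {a : ℝ} (ha : 0 ≤ a)
    (μ ν w : X → ℝ) :
    cost S T Θ (fun x => a * μ x) (fun x => a * ν x) w = a * cost S T Θ μ ν w := by
  have h1 : cQ S (fun x => a * μ x) (fun x => a * ν x) w = a * cQ S μ ν w := by
    rw [cQ, cQ, mul_sum]
    exact sum_congr rfl fun _ _ => by ring
  have h2 : cL S (fun x => a * μ x) (fun x => a * ν x) w = a * cL S μ ν w := by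
    rw [cL, cL, mul_sum]
    refine sum_congr rfl fun x _ => ?_
    rw [← abs_of_nonneg ha, ← abs_mul, abs_of_nonneg ha]
    congr 1
    ring
  rw [cost, cost, h1, h2]
  ring

private lemma cost_swap {X : Type} (S : Finset X) (T Θ : ℝ) (μ ν w : X → ℝ) :
    cost S T Θ ν μ w = cost S T Θ μ ν fun x => -w x := by
  have h1 : cQ S ν μ w = cQ S μ ν fun x => -w x := sum_congr rfl fun _ _ => by ring
  have h2 : cL S ν μ w = cL S μ ν fun x => -w x := by
    refine sum_congr rfl fun x _ => ?_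
    rw [← abs_neg]
    congr 1
    ring
  rw [cost, cost, h1, h2]

private lemma sum_flags (P : ℕ) (f : ℕ × Bool → ℝ) :
    ∑ p ∈ range P ×ˢ (univ : Finset Bool), f p =
      ∑ i ∈ range P, (f (i, false) + f (i, true)) := by
  rw [sum_product]
  exact sum_congr rfl fun _ _ => by rw [Fintype.sum_bool, add_comm]

private lemma sum_own {P : ℕ} {f : ℕ → ℝ} (h : ∀ i, f (i + P) = f i) :
    ∑ p ∈ range P ×ˢ (univ : Finset Bool), f (own p.1 p.2) = 2 * ∑ i ∈ range P, f i := by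
  rw [sum_flags P fun p => f (own p.1 p.2), sum_add_distrib, two_mul]
  have h1 := sum_shift h 1
  simp only [own, add_comm 1] at h1 ⊢
  simp [h1]

theorem stepI {T Θ b B : ℝ} (h : ω 0 ≠ s) (H : SI ω m T Θ b B) (L : ℕ) {N : ℝ}
    (hN : N = 2 ^ (L + 1)) {r T' Θ' : ℝ} (hs : 0 < r) (hs1 : r ≤ 1 / 6000) (hB : 1 ≤ B)
    (hBb : B ≤ 2000 * b) (hT : 0 < T) (hΘ : 0 < Θ) (h1 : 20 * Θ ≤ r ^ 3 * T)
    (h2 : 4 * N ^ 2 * b ≤ r ^ 4 * (Θ / T) * Θ') (h3 : N * b ≤ r ^ 6 * Θ)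
    (h4 : (1 + 6000 * r) * N ^ 2 * T ≤ T') (h5 : (1 + 6000 * r) * N * Θ ≤ Θ') :
    SI (pre s (L + 1) ω) (m + 1 + L) T' Θ' ((1 - 6000 * r) * N * b) (N * B) := by
  intro β w hβ
  obtain ⟨fl, Yl, cj, hc⟩ := coord_exists s L m h
  obtain ⟨n, hn⟩ : ∃ n : ℕ, n = 2 ^ (L + 1) := ⟨_, rfl⟩
  obtain rfl : N = n := by rw [hN, hn]; push_cast; rfl
  obtain ⟨ν, v0, vp, va, vt, vo, vr⟩ := nu_exists hc hn hβ
  have n2 : 2 ≤ n := by rw [hn, pow_succ]; have := Nat.one_le_two_pow (n := L); omega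
  have n0 : (0 : ℝ) < n := by exact_mod_cast (by omega : 0 < n)
  have hF : ∀ x ∈ (univ : Finset (W (m + 1 + L + 1))), (fl x, Yl x) ∈
      (range (4 * n) ×ˢ (univ : Finset Bool)) ×ˢ Wd (W (m + 1)) n := fun x _ =>
    mem_product.2 ⟨mem_product.2 ⟨mem_range.2 (hn ▸ hc.fl_lt x), mem_univ _⟩,
      mem_Wd.2 (hn ▸ hc.len x)⟩
  have eo : ∀ p ∈ range (4 * n) ×ˢ (univ : Finset Bool),
      (fun y => push univ (fun x => (fl x, Yl x)) β (p, y)) =
        fun y => 1 / (8 * (n : ℝ)) * ν (own p.1 p.2) y := fun p hp => funext fun y => by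
    rw [vo p.1 (mem_range.1 (mem_product.1 hp).1) p.2 y]; ring
  have er : ∀ p ∈ range (4 * n) ×ˢ (univ : Finset Bool),
      (fun y => push univ (fun x => (fl x, Yl x)) (fun x => β (aA _ x)) (p, y)) =
        fun y => 1 / (8 * (n : ℝ)) * ν (par p.1 p.2) y := fun p hp => funext fun y => by
    rw [vr p.1 (mem_range.1 (mem_product.1 hp).1) p.2 y]; ring
  have hm : ∑ i ∈ range (4 * n), ∑ y ∈ Wd (W (m + 1)) n, ν i y = 4 * n := by
    have e1 := sum_push hF β
    rw [hβ.total, sum_product] at e1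
    have e2 := sum_own (P := 4 * n) (f := fun i => ∑ y ∈ Wd (W (m + 1)) n, ν i y)
      fun i => by rw [vp]
    have e3 : ∑ p ∈ range (4 * n) ×ˢ (univ : Finset Bool), ∑ y ∈ Wd (W (m + 1)) n,
        push univ (fun x => (fl x, Yl x)) β (p, y) = 1 / (8 * (n : ℝ)) *
          ∑ p ∈ range (4 * n) ×ˢ (univ : Finset Bool), ∑ y ∈ Wd (W (m + 1)) n,
            ν (own p.1 p.2) y := by
      rw [mul_sum]
      refine sum_congr rfl fun p hp => ?_
      rw [eo p hp, mul_sum]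
    rw [e3, e2] at e1
    field_simp at e1
    linarith
  have HH : H1 n ν (kk s m ω) (fun q u => Reach (m + 1) ω u ∧ jt s m ω u = cj q) B b T Θ :=
    ⟨n2, v0, vp, va, vt, hm, fun q _ η => childI h H (cj q) η⟩
  obtain ⟨w', q1, q2⟩ := cost_push hF hβ.nonneg (fun x => hβ.nonneg (aA _ x)) w
  have T0 : 0 ≤ T' := le_trans (by positivity) h4
  have Θ0 : 0 ≤ Θ' := le_trans (by positivity) h5
  have hw : ∀ i, ∃ u : List (W (m + 1)) → ℝ,
      2 * cost (Wd (W (m + 1)) n) T' Θ' (ν i) (ν (i + 1)) u ≤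
        cost (Wd (W (m + 1)) n) T' Θ' (ν i) (ν (i + 1)) (fun y => w' ((i, false), y)) +
          cost (Wd (W (m + 1)) n) T' Θ' (ν (i + 1)) (ν i) fun y => w' ((i, true), y) := by
    intro i
    rw [cost_swap _ _ _ (ν i) (ν (i + 1))]
    rcases le_total
      (cost (Wd (W (m + 1)) n) T' Θ' (ν i) (ν (i + 1)) fun y => w' ((i, false), y))
      (cost (Wd (W (m + 1)) n) T' Θ' (ν i) (ν (i + 1)) fun y => -w' ((i, true), y)) with e | e
    · exact ⟨fun y => w' ((i, false), y), by linarith⟩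
    · exact ⟨fun y => -w' ((i, true), y), by linarith⟩
  choose u hu using hw
  refine (stageI HH u hs hs1 hB hBb hT hΘ h1 h2 h3 h4 h5).trans (add_le_add ?_ ?_)
  · refine le_trans (le_of_eq ?_) (ent_push hF (by norm_num) _ hβ.nonneg)
    have e2 := sum_own (P := 4 * n)
      (f := fun i => ent (Wd (W (m + 1)) n) (1 / n) (n * B) (ν i)) fun i => by rw [vp]
    rw [ent_prod, sum_congr (s₁ := range (4 * n) ×ˢ univ) rfl fun p hp => by
      rw [eo p hp, ent_scale, show (8 : ℝ) * (1 / (8 * (n : ℝ))) = 1 / n by field_simp],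
      ← mul_sum _ _ (1 / (8 * (n : ℝ))), e2]
    field_simp
    ring
  · refine le_trans ?_ (add_le_add (mul_le_mul_of_nonneg_left q1 T0)
      (mul_le_mul_of_nonneg_left q2 Θ0))
    refine le_trans ?_ (cost_prod _ _ T' Θ' _ _ w').ge
    rw [sum_congr (s₁ := range (4 * n) ×ˢ univ) rfl fun p hp => by
      rw [eo p hp, er p hp, cost_scale _ _ _ (by positivity)],
      ← mul_sum _ _ (1 / (8 * (n : ℝ))), sum_flags,
      show 1 / (4 * (n : ℝ)) = 1 / (8 * (n : ℝ)) * 2 by field_simp; ring, mul_assoc,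
      mul_sum _ _ 2]
    exact mul_le_mul_of_nonneg_left (sum_le_sum fun i _ => hu i) (by positivity)

private lemma push_cls {X U C : Type} [Fintype X] [DecidableEq U] [DecidableEq C] {n : ℕ}
    (n0 : 0 < n) {R : X → Prop} [DecidablePred R] {fl : X → ℕ × Bool} {Yl : X → List U}
    {bit : U → ZMod 2} {cl : X → C} {Cl : ℕ → Bool → List (ZMod 2) → C}
    (hcl : ∀ x, R x → cl x = Cl (fl x).1 (fl x).2 ((Yl x).map bit)) {μ : X → ℝ}
    (hμ : ∀ x, μ x ≠ 0 → R x) {ν : ℕ → List U → ℝ} {g : ℕ → Bool → ℕ}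
    (hν : ∀ i < 4 * n, ∀ θ y,
      push univ (fun x => (fl x, Yl x)) μ ((i, θ), y) = ν (g i θ) y / (8 * n)) (c : C)
    {p : (ℕ × Bool) × List (ZMod 2)} (hp : p ∈ Ix n Cl c) :
    (fun y => push ((univ.filter fun x => cl x = c).filter R)
      (fun x => ((fl x, (Yl x).map bit), Yl x)) (fun x => 16 * μ x) (p, y)) =
        pc n bit ν (g p.1.1 p.1.2) p.2 := by
  funext y
  obtain ⟨⟨i, θ⟩, z⟩ := p
  obtain ⟨p1, p2⟩ := mem_filter.1 hp
  have hi : i < 4 * n := mem_range.1 (mem_product.1 (mem_product.1 p1).1).1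
  have n1 : (0 : ℝ) < n := by exact_mod_cast n0
  unfold pc res
  split_ifs with e
  · have e1 : 2 / (n : ℝ) * ν (g i θ) y = 16 * (ν (g i θ) y / (8 * n)) := by
      field_simp
      ring
    rw [e1, ← hν i hi, push, push, mul_sum]
    refine sum_subset ?_ ?_
    · intro x hx
      have e2 := (mem_filter.1 hx).2
      simp only [Prod.mk.injEq] at e2
      exact mem_filter.2 ⟨mem_univ _, Prod.ext e2.1.1 e2.2⟩
    · intro x hx hx'
      by_contra h0
      have e2 := (mem_filter.1 hx).2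
      simp only [Prod.mk.injEq] at e2
      have hR := hμ x fun h => h0 (by rw [h, mul_zero])
      refine hx' (mem_filter.2 ⟨mem_filter.2 ⟨mem_filter.2 ⟨mem_univ _, ?_⟩, hR⟩, ?_⟩)
      · rw [hcl x hR, e2.1, e2.2, e]
        exact p2
      · rw [e2.1, e2.2, e]
  · rw [mul_zero]
    refine sum_eq_zero fun x hx => ?_
    have e2 := (mem_filter.1 hx).2
    simp only [Prod.mk.injEq] at e2
    exact absurd (e2.2 ▸ e2.1.2) e

theorem stepII {o : Fin 3} {T b B : ℝ} (h : ω 0 ≠ s) (ho : o ≠ s) (H : PII s ω m T b B) (L : ℕ)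
    {N : ℝ} (hN : N = 2 ^ (L + 1)) (hB : 1 ≤ B) (hb : 0 ≤ b) (hT : 0 < T)
    (hξ : 2048 * 144 * (N * b / T) ≤ 1) {b' : ℝ}
    (hb' : √b' ≤ √(N * b) * (1 - 1200000 * (N * b / T)) - 2 * √N * B / √T) :
    PII o (pre s (L + 1) ω) (m + 1 + L) (N ^ 2 * T) b' (N * B) := by
  classical
  intro β hβ hc16
  rw [pre_zero] at hc16 ⊢
  obtain ⟨fl, Yl, cj, hc⟩ := coord_exists s L m h
  obtain ⟨e, c, hcl⟩ := class_formula h ho hc
  obtain ⟨n, hn⟩ : ∃ n : ℕ, n = 2 ^ (L + 1) := ⟨_, rfl⟩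
  obtain rfl : N = n := by rw [hN, hn]; push_cast; rfl
  obtain ⟨ν, v0, vp, va, vt, vo, vr⟩ := nu_exists hc hn hβ
  have n2 : 2 ≤ n := by rw [hn, pow_succ]; have := Nat.one_le_two_pow (n := L); omega
  have sa : ∀ x, β (aA _ x) ≠ 0 → Reach (m + 1 + L + 1) (pre s (L + 1) ω) x :=
    fun x hx => reach_aA.1 (hβ.supp _ hx)
  have hF : ∀ c', ∀ x ∈ (clF o s (m + 1 + L) c').filter (Reach _ (pre s (L + 1) ω)),
      ((fl x, (Yl x).map (bt m ω)), Yl x) ∈ Ix n (Cl e c) c' ×ˢ Wd (W (m + 1)) n := by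
    intro c' x hx
    obtain ⟨x1, x2⟩ := mem_filter.1 hx
    refine mem_product.2 ⟨mem_filter.2 ⟨mem_product.2 ⟨mem_product.2
      ⟨mem_range.2 (hn ▸ hc.fl_lt x), mem_univ _⟩, mem_Wd.2 ?_⟩, ?_⟩, mem_Wd.2 (hn ▸ hc.len x)⟩
    · rw [List.length_map, hc.len, hn]
    · exact (hcl x x2).symm.trans (mem_filter.1 x1).2
  have eo : ∀ c', ∀ p ∈ Ix n (Cl e c) c',
      (fun y => push ((clF o s (m + 1 + L) c').filter (Reach _ (pre s (L + 1) ω)))
        (fun x => ((fl x, (Yl x).map (bt m ω)), Yl x)) (fun x => 16 * β x) (p, y)) =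
          pc n (bt m ω) ν (own p.1.1 p.1.2) p.2 :=
    fun c' p hp => push_cls (by omega) hcl hβ.supp vo c' hp
  have er : ∀ c', ∀ p ∈ Ix n (Cl e c) c',
      (fun y => push ((clF o s (m + 1 + L) c').filter (Reach _ (pre s (L + 1) ω)))
        (fun x => ((fl x, (Yl x).map (bt m ω)), Yl x)) (fun x => 16 * β (aA _ x)) (p, y)) =
          pc n (bt m ω) ν (par p.1.1 p.1.2) p.2 :=
    fun c' p hp => push_cls (by omega) hcl sa vr c' hp
  have ma : ∀ c', ∑ x ∈ clF o s (m + 1 + L) c', β (aA _ x) = 1 / 16 := by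
    intro c'
    rw [← hc16 (clA c')]
    refine sum_equiv (aA _) (fun x => ?_) fun _ _ => rfl
    simp only [clF, mem_filter, mem_univ, true_and, cls_aA]
    generalize cls o s (m + 1 + L) x = d
    revert c' d
    decide
  have HH : H2 n ν (kk s m ω) (bt m ω) (fun q u => Reach (m + 1) ω u ∧ jt s m ω u = cj q)
      (Cl e c) B b T := by
    refine ⟨by omega, v0, vp, va, vt, bt_kk h, fun c' => ?_, fun c' => ?_, balance e c n2,
      fun q _ η => childII h H (cj q) η⟩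
    · have e1 := sum_push (hF c') fun x => 16 * β x
      rw [sum_product, sum_congr rfl fun p hp => by rw [eo c' p hp], ← mul_sum,
        sum_filter_of_ne fun x _ => hβ.supp x, hc16] at e1
      rw [e1]
      norm_num
    · have e1 := sum_push (hF c') fun x => 16 * β (aA _ x)
      rw [sum_product, sum_congr rfl fun p hp => by rw [er c' p hp], ← mul_sum,
        sum_filter_of_ne fun x _ => sa x, ma] at e1
      rw [e1]
      norm_num
  have b0 : ∀ x, 0 ≤ 16 * β x := fun x => mul_nonneg (by norm_num) (hβ.nonneg x)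
  refine (stageII HH (by simp) hB hb hT hξ hb').trans (sum_le_sum fun c' _ => ?_)
  refine Real.sqrt_le_sqrt (add_le_add ?_ (mul_le_mul_of_nonneg_left ?_ (by positivity)))
  · refine le_trans (le_of_eq ?_) ((ent_push (hF c') one_pos (n * B) b0).trans
      (sum_le_sum_of_subset_of_nonneg (filter_subset _ _) fun x _ _ =>
        mul_nonneg (b0 x) (sur_nonneg _ _)))
    rw [ent_prod]
    exact sum_congr rfl fun p hp => by rw [eo c' p hp]
  · refine le_trans (le_of_eq ?_) ((ch2_push (hF c') b0 fun x => b0 (aA _ x)).trans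
      (sum_le_sum_of_subset_of_nonneg (filter_subset _ _) fun x _ _ => sq_nonneg _))
    rw [ch2_prod]
    exact sum_congr rfl fun p hp => by rw [eo c' p hp, er c' p hp]

end Pool.Agent.P.MP_0b0f5a_al.Fo
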