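import Pool.Agent.P.MP_0b0f5a_al.Fo.Fun

/-!
The abstract settings of the two inductive steps of the lower bound.
-/

namespace Pool.Agent.P.MP_0b0f5a_al.Fo

open Finset

variable {U C : Type} [Fintype U]

/-- The normalised piece of `ν j` with bits `s`. -/
noncomputable def pc (N : ℕ) (bit : U → ZMod 2) (ν : ℕ → List U → ℝ) (j : ℕ) (s : List (ZMod 2))
    (y : List U) : ℝ := 2 / N * res bit (ν j) s y

/-- The squared chord of the class `c`. -/
noncomputable def chordC [DecidableEq C] (N : ℕ) (bit : U → ZMod 2) (ν : ℕ → List U → ℝ)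
    (Cl : ℕ → Bool → List (ZMod 2) → C) (c : C) : ℝ :=
  ∑ x ∈ Ix N Cl c, ch2 (Wd U N) (pc N bit ν (own x.1.1 x.1.2) x.2) (pc N bit ν (par x.1.1 x.1.2) x.2)

/-- The entropy of the class `c`. -/
noncomputable def entC [DecidableEq C] (N : ℕ) (bit : U → ZMod 2) (ν : ℕ → List U → ℝ)
    (Cl : ℕ → Bool → List (ZMod 2) → C) (B : ℝ) (c : C) : ℝ :=
  ∑ x ∈ Ix N Cl c, ent (Wd U N) 1 B (pc N bit ν (own x.1.1 x.1.2) x.2)

/-- The conditional entropy plus conditional chord cost at the cell `(s, z)` of the flag `(i, θ)`. -/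
noncomputable def gC (N : ℕ) (bit : U → ZMod 2) (ν : ℕ → List U → ℝ) (B T : ℝ) (i : ℕ) (θ : Bool)
    (s : List (ZMod 2)) (z : List U) : ℝ :=
  ent univ 1 B (cnd N (pc N bit ν (own i θ) s) z) +
    T * ch2 univ (cnd N (pc N bit ν (own i θ) s) z) (cnd N (pc N bit ν (par i θ) s) z)

/-- The contribution of the level `q` to the class `c`. -/
noncomputable def Aq [DecidableEq C] (N : ℕ) (bit : U → ZMod 2) (ν : ℕ → List U → ℝ)
    (Cl : ℕ → Bool → List (ZMod 2) → C) (B T : ℝ) (q : ℕ) (c : C) : ℝ :=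
  ∑ x ∈ Ix N Cl c, ∑ z ∈ Wd U q,
    √(marg N (pc N bit ν (own x.1.1 x.1.2) x.2) z * marg N (pc N bit ν (par x.1.1 x.1.2) x.2) z) *
      gC N bit ν B T x.1.1 x.1.2 x.2 z

/-- The setting of the step with the chord cost. -/
structure H2 [DecidableEq C] (N : ℕ) (ν : ℕ → List U → ℝ) (k : ℕ → Equiv.Perm U)
    (bit : U → ZMod 2) (Adm : ℕ → U → Prop) (Cl : ℕ → Bool → List (ZMod 2) → C)
    (B b T : ℝ) : Prop where
  pos : 1 ≤ N
  nonneg : ∀ i y, 0 ≤ ν i y
  per : ∀ i, ν (i + 4 * N) = ν i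
  adm : ∀ i y, ν i y ≠ 0 → AdmL Adm y
  tog : ∀ q < N, ∀ j, ∀ y ∈ Wd U N, ν (q + j * N) (togAt q (k j) y) = ν (q + j * N) y
  bitk : ∀ j u, bit (k j u) = bit u + 1
  own1 : ∀ c, ∑ x ∈ Ix N Cl c, ∑ y ∈ Wd U N, pc N bit ν (own x.1.1 x.1.2) x.2 y = 1
  par1 : ∀ c, ∑ x ∈ Ix N Cl c, ∑ y ∈ Wd U N, pc N bit ν (par x.1.1 x.1.2) x.2 y = 1
  bal : ∀ q < N, ∃ q' < N, ∀ v : List (ZMod 2) → ℝ,
    (∀ s ∈ Wd (ZMod 2) N, v (togAt q (· + 1) s) = v s) →
    (∀ s ∈ Wd (ZMod 2) N, v (togAt q' (· + 1) s) = v s) →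
      ∀ c, ∑ x ∈ Ix N Cl c, v x.2 = N / 2 * ∑ s ∈ Wd (ZMod 2) N, v s
  child : ∀ q < N, ∀ η : ℕ → ZMod 2 → U → ℝ, (∀ j e u, 0 ≤ η j e u) → (∀ j e, ∑ u, η j e u = 1) →
    (∀ j e u, η j e u ≠ 0 → Adm q u ∧ bit u = e) → (∀ j, η (j + 4) = η j) →
    (∀ j e u, η j (e + 1) (k j u) = η j e u) →
      16 * √b ≤ ∑ j ∈ range 4, ∑ e, ∑ θ : Bool,
        √(ent univ 1 B (η (own j θ) e) + T * ch2 univ (η j e) (η (j + 1) e))

/-- The setting of the step with the Huber cost. -/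
structure H1 (N : ℕ) (ν : ℕ → List U → ℝ) (k : ℕ → Equiv.Perm U) (Adm : ℕ → U → Prop)
    (B b T Θ : ℝ) : Prop where
  two : 2 ≤ N
  nonneg : ∀ i y, 0 ≤ ν i y
  per : ∀ i, ν (i + 4 * N) = ν i
  adm : ∀ i y, ν i y ≠ 0 → AdmL Adm y
  tog : ∀ q < N, ∀ j, ∀ y ∈ Wd U N, ν (q + j * N) (togAt q (k j) y) = ν (q + j * N) y
  mass : ∑ i ∈ range (4 * N), ∑ y ∈ Wd U N, ν i y = 4 * N
  child : ∀ q < N, ∀ η : ℕ → U → ℝ, (∀ j u, 0 ≤ η j u) → (∀ j, ∑ u, η j u = 1) →
    (∀ j u, η j u ≠ 0 → Adm q u) → (∀ j, η (j + 4) = η j) → (∀ j u, η j (k j u) = η j u) →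
      ∀ w : ℕ → U → ℝ, 4 * b ≤
        ∑ j ∈ range 4, (ent univ 1 B (η j) + cost univ T Θ (η j) (η (j + 1)) (w j))

/-- The martingale increment of `σ` with respect to `π`. -/
noncomputable def dl (N : ℕ) (π σ : List U → ℝ) (z : List U) (u : U) : ℝ :=
  marg N σ (u :: z) - cnd N π z u * marg N σ z

/-- The marginals of `G` stay below `ε` times those of `π` along all suffixes. -/
def Ok (N : ℕ) (π G : List U → ℝ) (ε : ℝ) : List U → Prop
  | [] => marg N G [] ≤ ε * marg N π []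
  | u :: z => marg N G (u :: z) ≤ ε * marg N π (u :: z) ∧ Ok N π G ε z

/-- Partial sums of a sequence of functions. -/
def psum (γ : ℕ → List U → ℝ) (x : ℕ) (y : List U) : ℝ := ∑ i ∈ range x, γ i y

/-- The total variation of a sequence of functions over one period. -/
def tv (N : ℕ) (γ : ℕ → List U → ℝ) (y : List U) : ℝ := ∑ i ∈ range (4 * N), |γ i y|

open Classical in
/-- The diffusive part of the increment at the vertex `x`. -/
noncomputable def Zt (N : ℕ) (π : List U → ℝ) (α γ : ℕ → List U → ℝ) (ε : ℝ) (x : ℕ) (z : List U)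
    (u : U) : ℝ :=
  dl N π (psum α x) z u +
    if marg N (tv N γ) (u :: z) ≤ ε * marg N π (u :: z) then dl N π (psum γ x) z u else 0

open Classical in
/-- The jump part of the increment at the vertex `x`. -/
noncomputable def Jt (N : ℕ) (π : List U → ℝ) (γ : ℕ → List U → ℝ) (ε : ℝ) (x : ℕ) (z : List U)
    (u : U) : ℝ :=
  if marg N (tv N γ) (u :: z) ≤ ε * marg N π (u :: z) then 0 else dl N π (psum γ x) z u

/-- The setting for the sums of the increments. -/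
structure HD (N : ℕ) (π : List U → ℝ) (α γ : ℕ → List U → ℝ) : Prop where
  nonneg : ∀ y, 0 ≤ π y
  perα : ∀ i, α (i + 4 * N) = α i
  perγ : ∀ i, γ (i + 4 * N) = γ i
  supp : ∀ i y, π y = 0 → α i y = 0

omit [Fintype U] in
lemma sum_shift {f : ℕ → ℝ} {P : ℕ} (h : ∀ i, f (i + P) = f i) (q : ℕ) :
    ∑ i ∈ range P, f (q + i) = ∑ i ∈ range P, f i := by
  induction q with
  | zero => simp
  | succ q ih =>
    have h1 := sum_range_succ (fun i => f (q + i)) P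
    have h2 := sum_range_succ' (fun i => f (q + i)) P
    simp only [h, add_zero] at h1 h2
    rw [← ih, show (fun i => f (q + 1 + i)) = fun i => f (q + (i + 1)) by
      funext i; congr 1; omega]
    linarith

omit [Fintype U] in
lemma pc_nonneg {N : ℕ} (bit : U → ZMod 2) {ν : ℕ → List U → ℝ} (h : ∀ i y, 0 ≤ ν i y) (j s y) :
    0 ≤ pc N bit ν j s y := by
  refine mul_nonneg (by positivity) ?_
  unfold res
  split_ifs
  · exact h j y
  · exact le_rfl

lemma dl_add (N : ℕ) (π σ τ : List U → ℝ) (z u) :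
    dl N π (fun y => σ y + τ y) z u = dl N π σ z u + dl N π τ z u := by
  simp only [dl, marg_add]; ring

lemma dl_sub (N : ℕ) (π σ τ : List U → ℝ) (z u) :
    dl N π (fun y => σ y - τ y) z u = dl N π σ z u - dl N π τ z u := by
  simp only [dl, marg_sub]; ring

lemma dl_sum {ι : Type} (s : Finset ι) (N : ℕ) (π : List U → ℝ) (σ : ι → List U → ℝ) (z u) :
    dl N π (fun y => ∑ i ∈ s, σ i y) z u = ∑ i ∈ s, dl N π (σ i) z u := by
  simp only [dl, marg_sum, mul_sum, sum_sub_distrib]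

lemma dl_self {N : ℕ} {π : List U → ℝ} (h : ∀ y, 0 ≤ π y) {z : List U} (hz : z.length < N) (u) :
    dl N π π z u = 0 := by
  rw [dl, mul_comm, marg_mul_cnd h hz, sub_self]

lemma Ok.le {N : ℕ} {π G : List U → ℝ} {ε : ℝ} {z : List U} (h : Ok N π G ε z) :
    marg N G z ≤ ε * marg N π z := by
  cases z with
  | nil => exact h
  | cons u z => exact h.1

end Pool.Agent.P.MP_0b0f5a_al.Fo
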