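import Pool.Agent.P.MP_0b0f5a_al.Fo.Gen
import Pool.Agent.P.MP_0b0f5a_al.Fo.Model

/-!
Group elements with prescribed sections at the end of a run.
-/

namespace Pool.Agent.P.MP_0b0f5a_al.Fo

open Finset

private def Bld : ℕ → ℕ → (ℕ → Γ) → Γ
  | 0, _, G => G 0
  | L + 1, j, G => (if j % 2 = (j / 2) % 2 then 1 else genA) *
      pair (Bld L (j / 2 + 1) (fun p => G (2 * p + 1)), Bld L (j / 2) (fun p => G (2 * p)))

private lemma Bld_succ (L j : ℕ) (G : ℕ → Γ) :
    Bld (L + 1) j G = (if j % 2 = (j / 2) % 2 then 1 else genA) *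
      pair (Bld L (j / 2 + 1) (fun p => G (2 * p + 1)), Bld L (j / 2) (fun p => G (2 * p))) := rfl

private lemma Bld_congr (L : ℕ) : ∀ (j : ℕ) (G G' : ℕ → Γ), (∀ p < 2 ^ L, G p = G' p) →
    Bld L j G = Bld L j G' := by
  induction L with
  | zero => intro j G G' h; exact h 0 (by simp)
  | succ L ih =>
    intro j G G' h
    rw [Bld_succ, Bld_succ, ih (j / 2 + 1) _ (fun p => G' (2 * p + 1)),
      ih (j / 2) _ (fun p => G' (2 * p))]
    · intro p hp; exact h _ (by rw [pow_succ]; omega)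
    · intro p hp; exact h _ (by rw [pow_succ]; omega)

private lemma Bld_per (L : ℕ) : ∀ (j : ℕ) (G : ℕ → Γ), Bld L (j + 2 * 2 ^ L) G = Bld L j G := by
  induction L with
  | zero => intro j G; rfl
  | succ L ih =>
    intro j G
    have e : (j + 2 * 2 ^ (L + 1)) / 2 = j / 2 + 2 * 2 ^ L := by rw [pow_succ]; omega
    have e1 : (j + 2 * 2 ^ (L + 1)) % 2 = j % 2 := by omega
    have e2 : (j / 2 + 2 * 2 ^ L) % 2 = (j / 2) % 2 := by omega
    rw [Bld_succ, Bld_succ, e, e1, e2, ih, Nat.add_right_comm, ih]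

private lemma Bld_a (L j : ℕ) (hj : j % 2 = 0) (G : ℕ → Γ) :
    genA * Bld (L + 1) j G = Bld (L + 1) (j + 1) G := by
  have e : (j + 1) / 2 = j / 2 := by omega
  rw [Bld_succ, Bld_succ, e, ← mul_assoc]
  congr 1
  by_cases h : j % 2 = j / 2 % 2
  · rw [if_pos h, if_neg (by omega), mul_one]
  · rw [if_neg h, if_pos (by omega), genA_sq]

private lemma swap_UBld (f g x y : Γ) :
    pair (f, g) * (genA * pair (x, y)) = genA * pair (g * x, f * y) := by
  rw [← pair_mul, ← genA_conj g f]
  simp only [mul_assoc]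
  rw [← mul_assoc genA genA, genA_sq, one_mul]

private lemma two_dvd_UBld (L a : ℕ) : 2 ^ (L + 1) ∣ 2 * a ↔ 2 ^ L ∣ a := by
  rw [pow_succ']; exact Nat.mul_dvd_mul_iff_left (by norm_num)

private lemma odd_dvd_UBld (L a : ℕ) (h : a % 2 = 1) : ¬ 2 ^ (L + 1) ∣ a := by
  intro h'
  have : 2 ∣ a := Dvd.dvd.trans (by rw [pow_succ']; exact Dvd.intro _ rfl) h'
  omega

private lemma genS_pre (k s : Fin 3) (L : ℕ) (ω : ℕ → Fin 3) :
    genS k (pre s (L + 1) ω) = pair (if s = k then 1 else genA, genS k (pre s L ω)) := by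
  rw [genS_eq]; rfl

private lemma Bld_s (s : Fin 3) (ω : ℕ → Fin 3) (L : ℕ) : ∀ (j : ℕ) (G G' : ℕ → Γ),
    (∀ p < 2 ^ L, G' p = if 2 ^ L ∣ p + (j + 1) / 2 then genS s ω * G p else G p) →
    genS s (pre s L ω) * Bld L j G = Bld L j G' := by
  induction L with
  | zero =>
    intro j G G' h
    have := h 0 (by simp)
    rw [if_pos (by simp)] at this
    exact this.symm
  | succ L ih =>
    intro j G G' h
    rw [genS_pre, if_pos rfl, Bld_succ, Bld_succ]
    have hP : 2 ^ (L + 1) = 2 * 2 ^ L := pow_succ' 2 L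
    by_cases hj : j % 2 = j / 2 % 2
    · have hq : (j + 1) / 2 = 2 * ((j / 2 + 1) / 2) := by
        obtain ⟨m, hm⟩ : ∃ m, j = 4 * m ∨ j = 4 * m + 1 ∨ j = 4 * m + 2 ∨ j = 4 * m + 3 :=
          ⟨j / 4, by omega⟩
        rcases hm with rfl | rfl | rfl | rfl <;> omega
      have h1 := ih (j / 2) (fun p => G (2 * p)) (fun p => G' (2 * p)) fun p hp => by
        have e : 2 * p + (j + 1) / 2 = 2 * (p + (j / 2 + 1) / 2) := by omega
        rw [h _ (by omega), e]
        simp only [two_dvd_UBld]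
      have h2 := Bld_congr L (j / 2 + 1) (fun p => G (2 * p + 1)) (fun p => G' (2 * p + 1))
        fun p hp => by
          have e : (2 * p + 1 + (j + 1) / 2) % 2 = 1 := by omega
          rw [h _ (by omega), if_neg (odd_dvd_UBld _ _ e)]
      rw [if_pos hj, one_mul, one_mul, pair_mul, one_mul, h1, h2]
    · have h1 := ih (j / 2 + 1) (fun p => G (2 * p + 1)) (fun p => G' (2 * p + 1))
        fun p hp => by
          have e : 2 * p + 1 + (j + 1) / 2 = 2 * (p + (j / 2 + 1 + 1) / 2) := by omega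
          rw [h _ (by omega), e]
          simp only [two_dvd_UBld]
      have h2 := Bld_congr L (j / 2) (fun p => G (2 * p)) (fun p => G' (2 * p))
        fun p hp => by
          have e : (2 * p + (j + 1) / 2) % 2 = 1 := by omega
          rw [h _ (by omega), if_neg (odd_dvd_UBld _ _ e)]
      rw [if_neg hj, swap_UBld, one_mul, h1, h2]

private lemma Bld_k {k s : Fin 3} (hk : k ≠ s) (ω : ℕ → Fin 3) (L : ℕ) :
    ∀ (m : ℕ) (G G' : ℕ → Γ),
    (∀ p < 2 ^ (L + 1), G' p = if 2 ^ (L + 1) ∣ p + (m + 1) + 2 ^ L then genA * G p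
      else if 2 ^ (L + 1) ∣ p + (m + 1) then genS k ω * G p else G p) →
    genS k (pre s (L + 1) ω) * Bld (L + 1) (2 * m + 1) G = Bld (L + 1) (2 * m + 2) G' := by
  induction L with
  | zero =>
    intro m G G' h
    have h0 := h 0 (by norm_num)
    have h1 := h 1 (by norm_num)
    rw [genS_pre, if_neg hk.symm, Bld_succ, Bld_succ]
    simp only [Bld, pre, zero_add, pow_one, pow_zero, mul_zero] at h0 h1 ⊢
    by_cases hm : m % 2 = 1
    · rw [if_neg (by omega), if_pos (by omega)] at h0
      rw [if_pos (by omega)] at h1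
      rw [if_pos (by omega), if_pos (by omega), one_mul, one_mul, pair_mul, h0, h1]
    · rw [if_pos (by omega)] at h0
      rw [if_neg (by omega), if_pos (by omega)] at h1
      rw [if_neg (by omega), if_neg (by omega), swap_UBld, h0, h1]
  | succ L ih =>
    intro m G G' h
    have e1 : (2 * m + 1) / 2 = m := by omega
    have e2 : (2 * m + 2) / 2 = m + 1 := by omega
    have hP : 2 ^ (L + 1) = 2 * 2 ^ L := pow_succ' 2 L
    rw [genS_pre, if_neg hk.symm, Bld_succ (L + 1), Bld_succ (L + 1), e1, e2]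
    have hP' : 2 ^ (L + 1 + 1) = 2 * 2 ^ (L + 1) := pow_succ' 2 (L + 1)
    by_cases hm : m % 2 = 1
    · obtain ⟨m', rfl⟩ : ∃ m', m = 2 * m' + 1 := ⟨m / 2, by omega⟩
      have h1 := ih m' (fun p => G (2 * p)) (fun p => G' (2 * p)) fun p hp => by
        rw [h _ (by omega),
          show 2 * p + (2 * m' + 1 + 1) + 2 ^ (L + 1) = 2 * (p + (m' + 1) + 2 ^ L) by omega,
          show 2 * p + (2 * m' + 1 + 1) = 2 * (p + (m' + 1)) by omega]
        simp only [two_dvd_UBld]
      have h2 := Bld_congr (L + 1) (2 * m' + 1 + 1 + 1) (fun p => G (2 * p + 1))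
        (fun p => G' (2 * p + 1)) fun p hp => by
          rw [h _ (by omega), if_neg (odd_dvd_UBld _ _ (by omega)),
            if_neg (odd_dvd_UBld _ _ (by omega))]
      rw [if_pos (by omega), if_pos (by omega), one_mul, one_mul, pair_mul,
        Bld_a _ _ (by omega), h1, h2]
    · obtain ⟨m', rfl⟩ : ∃ m', m = 2 * m' := ⟨m / 2, by omega⟩
      have h1 := ih m' (fun p => G (2 * p + 1)) (fun p => G' (2 * p + 1)) fun p hp => by
        rw [h _ (by omega),
          show 2 * p + 1 + (2 * m' + 1) + 2 ^ (L + 1) = 2 * (p + (m' + 1) + 2 ^ L) by omega,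
          show 2 * p + 1 + (2 * m' + 1) = 2 * (p + (m' + 1)) by omega]
        simp only [two_dvd_UBld]
      have h2 := Bld_congr (L + 1) (2 * m' + 1) (fun p => G (2 * p))
        (fun p => G' (2 * p)) fun p hp => by
          rw [h _ (by omega), if_neg (odd_dvd_UBld _ _ (by omega)),
            if_neg (odd_dvd_UBld _ _ (by omega))]
      rw [if_neg (by omega), if_neg (by omega), swap_UBld,
        Bld_a _ _ (by omega), h1, h2]

private lemma Bld_k' {k s : Fin 3} (hk : k ≠ s) (ω : ℕ → Fin 3) (L m : ℕ) (G G' : ℕ → Γ)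
    (h : ∀ p < 2 ^ (L + 1), G' p = if 2 ^ (L + 1) ∣ p + (m + 1) + 2 ^ L then genA * G p
      else if 2 ^ (L + 1) ∣ p + (m + 1) then genS k ω * G p else G p) :
    genS k (pre s (L + 1) ω) * Bld (L + 1) (2 * m + 2) G = Bld (L + 1) (2 * m + 1) G' := by
  rw [← Bld_k hk ω L m G' G, ← mul_assoc, genS_sq, one_mul]
  intro p hp
  rw [h p hp]
  split_ifs
  · rw [← mul_assoc, genA_sq, one_mul]
  · rw [← mul_assoc, genS_sq, one_mul]
  · rfl

theorem builder (s : Fin 3) (L : ℕ) (ω : ℕ → Fin 3) {N : ℕ} [NeZero N] (hN : N = 2 * 2 ^ L) :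
    ∃ B : ZMod N → Bool → (ZMod N → Γ) → Γ,
      (∀ i G, genA * B i false G = B (i + 1) true G) ∧
      (∀ i θ G, genS s (pre s (L + 1) ω) * B i θ G =
        B i θ (Function.update G (-i) (genS s ω * G (-i)))) ∧
      (∀ k ≠ s, ∀ i θ G, genS k (pre s (L + 1) ω) * B i θ G =
        B i (!θ) (Function.update (Function.update G (-i) (genS k ω * G (-i)))
          (((2 ^ L : ℕ) : ZMod N) - i) (genA * G (((2 ^ L : ℕ) : ZMod N) - i)))) := by
  have hN' : 2 ^ (L + 1) = N := by rw [hN, pow_succ']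
  have hpos : 0 < 2 ^ L := by positivity
  have d1 : ∀ (i : ZMod N) (p c : ℕ), N ∣ p + (i.val + c * N) ↔ (p : ZMod N) = -i := by
    intro i p c
    rw [← ZMod.natCast_eq_zero_iff]
    push_cast
    rw [ZMod.natCast_zmod_val, ZMod.natCast_self, mul_zero, add_zero, add_eq_zero_iff_eq_neg]
  have d2 : ∀ (i : ZMod N) (p : ℕ), N ∣ p + (i.val + 1 * N) + 2 ^ L ↔
      (p : ZMod N) = ((2 ^ L : ℕ) : ZMod N) - i := by
    intro i p
    have h0 : ((2 ^ L : ℕ) : ZMod N) + ((2 ^ L : ℕ) : ZMod N) = 0 := by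
      rw [← Nat.cast_add, ZMod.natCast_eq_zero_iff, ← two_mul, ← hN]
    rw [← ZMod.natCast_eq_zero_iff, Nat.cast_add, Nat.cast_add, Nat.cast_add, one_mul,
      ZMod.natCast_zmod_val, ZMod.natCast_self, add_zero]
    constructor
    · intro h; linear_combination h - h0
    · intro h; linear_combination h + h0
  refine ⟨fun i θ G => Bld (L + 1) (2 * i.val + if θ then 2 * N - 1 else 0) (fun p => G p),
    ?_, ?_, ?_⟩
  · intro i G
    simp only [Bool.false_eq_true, if_false, if_true, add_zero]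
    rw [Bld_a _ _ (by omega)]
    have hi := ZMod.val_lt i
    have hv : (i + 1).val = (i.val + 1) % N := by
      have : Fact (1 < N) := ⟨by omega⟩
      rw [ZMod.val_add, ZMod.val_one]
    by_cases h : i.val + 1 < N
    · rw [hv, Nat.mod_eq_of_lt h, ← Bld_per, hN']
      congr 1; omega
    · rw [hv, show i.val + 1 = N by omega, Nat.mod_self]
      congr 1; omega
  · intro i θ G
    refine Bld_s s ω (L + 1) _ _ _ fun p _ => ?_
    have e : (2 * i.val + (if θ then 2 * N - 1 else 0) + 1) / 2 =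
        i.val + (if θ then 1 else 0) * N := by
      cases θ
      · simp only [Bool.false_eq_true, if_false]; omega
      · simp only [if_true]; omega
    rw [e, hN']
    simp only [d1]
    by_cases h : (p : ZMod N) = -i
    · rw [if_pos h, h, Function.update_self]
    · rw [if_neg h, Function.update_of_ne h]
  · intro k hk i θ G
    have key : ∀ p : ℕ, p < 2 ^ (L + 1) → Function.update (Function.update G (-i) (genS k ω * G (-i)))
          (((2 ^ L : ℕ) : ZMod N) - i) (genA * G (((2 ^ L : ℕ) : ZMod N) - i)) (p : ZMod N) =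
        if 2 ^ (L + 1) ∣ p + (i.val + N - 1 + 1) + 2 ^ L then genA * G p
        else if 2 ^ (L + 1) ∣ p + (i.val + N - 1 + 1) then genS k ω * G p else G p := by
      intro p _
      rw [show i.val + N - 1 + 1 = i.val + 1 * N by omega, hN']
      simp only [d1, d2]
      by_cases h : (p : ZMod N) = ((2 ^ L : ℕ) : ZMod N) - i
      · rw [if_pos h, h, Function.update_self]
      · rw [if_neg h, Function.update_of_ne h]
        by_cases h' : (p : ZMod N) = -i
        · rw [if_pos h', h', Function.update_self]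
        · rw [if_neg h', Function.update_of_ne h']
    have hNpos : 0 < N := by omega
    have e1 : 2 * i.val + (2 * N - 1) = 2 * (i.val + N - 1) + 1 := by omega
    have e2 : 2 * i.val + 2 * 2 ^ (L + 1) = 2 * (i.val + N - 1) + 2 := by omega
    cases θ
    · simp only [Bool.false_eq_true, if_false, if_true, add_zero, Bool.not_false]
      rw [← Bld_per, e1, e2]
      exact Bld_k' hk ω L _ _ _ key
    · simp only [Bool.false_eq_true, if_false, if_true, add_zero, Bool.not_true]
      rw [← Bld_per (L + 1) (2 * i.val), e1, e2]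
      exact Bld_k hk ω L _ _ _ key

end Pool.Agent.P.MP_0b0f5a_al.Fo
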