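import Pool.Agent.P.MP_0b0f5a_al.Fo.UNum

/-!
The combinations of product vectors on the cycle.
-/

namespace Pool.Agent.P.MP_0b0f5a_al.Fo

open Finset

private theorem card_val_UEta {N : ℕ} [NeZero N] (S : Finset ℕ) (hS : ∀ x ∈ S, x < N) :
    (univ.filter (fun t : ZMod N => t.val ∈ S)).card = S.card := by
  refine Finset.card_bij (fun t _ => t.val) ?_ ?_ ?_
  · intro t ht
    exact (mem_filter.1 ht).2
  · intro a _ b _ hab
    exact ZMod.val_injective N hab
  · intro x hx
    refine ⟨(x : ZMod N), ?_, ZMod.val_cast_of_lt (hS x hx)⟩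
    rw [mem_filter, ZMod.val_cast_of_lt (hS x hx)]
    exact ⟨mem_univ _, hx⟩

private theorem val_sub_UEta {N : ℕ} [NeZero N] (t : ZMod N) {n : ℕ} (hn : n ≤ N) :
    (t - (n : ZMod N)).val = if n ≤ t.val then t.val - n else t.val + N - n := by
  have ht : t.val < N := ZMod.val_lt t
  split_ifs with h
  · have : t - (n : ZMod N) = ((t.val - n : ℕ) : ZMod N) := by
      rw [Nat.cast_sub h, ZMod.natCast_zmod_val]
    rw [this, ZMod.val_cast_of_lt (by omega)]
  · have : t - (n : ZMod N) = ((t.val + N - n : ℕ) : ZMod N) := by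
      rw [Nat.cast_sub (by omega), Nat.cast_add, ZMod.natCast_zmod_val, ZMod.natCast_self,
        add_zero]
    rw [this, ZMod.val_cast_of_lt (by omega)]

private theorem count_UEta {N h n : ℕ} [NeZero N] (hN : N = 2 * h) (hn : n ≤ h) :
    (univ.filter (fun t : ZMod N =>
      ¬ (t.val < h ↔ (t - (n : ZMod N)).val < h))).card = 2 * n := by
  have h1 : (univ.filter (fun t : ZMod N => ¬ (t.val < h ↔ (t - (n : ZMod N)).val < h))) =
      univ.filter (fun t : ZMod N => t.val ∈ range n ∪ Ico h (h + n)) := by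
    refine filter_congr fun t _ => ?_
    have ht : t.val < N := ZMod.val_lt t
    rw [val_sub_UEta t (by omega), mem_union, mem_range, mem_Ico]
    split_ifs with h2 <;> omega
  rw [h1, card_val_UEta, card_union_of_disjoint, card_range, Nat.card_Ico]
  · omega
  · rw [disjoint_left]
    intro x hx hx'
    rw [mem_range] at hx
    rw [mem_Ico] at hx'
    omega
  · intro x hx
    rw [mem_union, mem_range, mem_Ico] at hx
    omega

private noncomputable def gam_UEta {Z : Type} {N : ℕ} (h : ℕ) (β α : Z → ℝ) (y p : ZMod N) :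
    Z → ℝ :=
  if (-(p + y)).val < h then β else α

private noncomputable def xi_UEta {Z : Type} {N : ℕ} [NeZero N] (h : ℕ) (β α : Z → ℝ)
    (y : ZMod N) (G : ZMod N → Z) : ℝ :=
  ∏ p, gam_UEta h β α y p (G p)

private theorem inner_UEta {Z : Type} [Fintype Z] {N h : ℕ} [NeZero N] (hN : N = 2 * h)
    (β α : Z → ℝ) (hβ : ∑ z, β z ^ 2 = 1) (hα : ∑ z, α z ^ 2 = 1) {c : ℝ}
    (hc : (∑ z, α z * β z) ^ 2 = c) (y : ZMod N) {n : ℕ} (hn : n ≤ h) :
    ∑ G, xi_UEta h β α y G * xi_UEta h β α (y + (n : ZMod N)) G = c ^ n := by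
  classical
  have h1 : ∀ G : ZMod N → Z, xi_UEta h β α y G * xi_UEta h β α (y + (n : ZMod N)) G =
      ∏ p, (gam_UEta h β α y p (G p) * gam_UEta h β α (y + (n : ZMod N)) p (G p)) := by
    intro G
    rw [xi_UEta, xi_UEta, prod_mul_distrib]
  simp_rw [h1]
  have h2 := Finset.prod_univ_sum (fun _ : ZMod N => (univ : Finset Z))
    (fun p z => gam_UEta h β α y p z * gam_UEta h β α (y + (n : ZMod N)) p z)
  rw [Fintype.piFinset_univ] at h2
  rw [← h2]
  have h3 : ∀ p : ZMod N, ∑ z, gam_UEta h β α y p z * gam_UEta h β α (y + (n : ZMod N)) p z =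
      if ¬ ((-(p + y)).val < h ↔ (-(p + y) - (n : ZMod N)).val < h) then ∑ z, α z * β z
      else 1 := by
    intro p
    have e : -(p + (y + (n : ZMod N))) = -(p + y) - (n : ZMod N) := by ring
    unfold gam_UEta
    rw [e]
    by_cases a : (-(p + y)).val < h <;> by_cases b : (-(p + y) - (n : ZMod N)).val < h
    · simp only [a, b, if_true, iff_self, not_true, if_false]
      rw [← hβ]
      exact sum_congr rfl fun z _ => by ring
    · simp only [a, b, if_true, if_false, iff_false, not_true, not_false_eq_true]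
      exact sum_congr rfl fun z _ => by ring
    · simp only [a, b, if_true, if_false, iff_true, not_false_eq_true]
    · simp only [a, b, if_false, iff_self, not_true]
      rw [← hα]
      exact sum_congr rfl fun z _ => by ring
  simp_rw [h3]
  have h4 := Equiv.prod_comp ((Equiv.addRight y).trans (Equiv.neg (ZMod N)))
    (fun t : ZMod N => if ¬ (t.val < h ↔ (t - (n : ZMod N)).val < h) then ∑ z, α z * β z
      else (1 : ℝ))
  simp only [Equiv.trans_apply, Equiv.coe_addRight, Equiv.neg_apply] at h4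
  rw [h4, prod_ite, prod_const, prod_const_one, mul_one, count_UEta hN hn, pow_mul, hc]

private theorem inner2_UEta {Z : Type} [Fintype Z] {N h : ℕ} [NeZero N] (hN : N = 2 * h)
    (β α : Z → ℝ) (hβ : ∑ z, β z ^ 2 = 1) (hα : ∑ z, α z ^ 2 = 1) {c : ℝ}
    (hc : (∑ z, α z * β z) ^ 2 = c) (j : ZMod N) {a b : ℕ} (ha : a ≤ h) (hb : b ≤ h) :
    ∑ G, xi_UEta h β α (j - (a : ZMod N)) G * xi_UEta h β α (j - (b : ZMod N)) G = c ^ Nat.dist a b := by
  rcases le_total a b with hab | hab
  · have e : j - (a : ZMod N) = j - b + ((b - a : ℕ) : ZMod N) := by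
      rw [Nat.cast_sub hab]; ring
    rw [Nat.dist_eq_sub_of_le hab, ← inner_UEta hN β α hβ hα hc (j - (b : ZMod N)) (n := b - a) (by omega),
      ← e]
    exact sum_congr rfl fun G _ => mul_comm _ _
  · have e : j - (b : ZMod N) = j - a + ((a - b : ℕ) : ZMod N) := by
      rw [Nat.cast_sub hab]; ring
    rw [Nat.dist_eq_sub_of_le_right hab,
      ← inner_UEta hN β α hβ hα hc (j - (a : ZMod N)) (n := a - b) (by omega), ← e]

private theorem gamB_UEta {Z : Type} {N h : ℕ} [NeZero N] (hN : N = 2 * h) (β α : Z → ℝ)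
    (i : ZMod N) {u : ℕ} (hu : u < h) : gam_UEta h β α (i - (u : ZMod N)) (-i) = β := by
  have e : -(-i + (i - (u : ZMod N))) = (u : ZMod N) := by ring
  unfold gam_UEta
  rw [e, ZMod.val_cast_of_lt (by omega), if_pos hu]

private theorem gamA_UEta {Z : Type} {N h : ℕ} [NeZero N] (hN : N = 2 * h) (β α : Z → ℝ)
    (i : ZMod N) {u : ℕ} (hu : u < h) : gam_UEta h β α (i - (u : ZMod N)) ((h : ZMod N) - i) = α := by
  have e0 : ((2 * h : ℕ) : ZMod N) = 0 := by rw [← hN, ZMod.natCast_self]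
  have e : -((h : ZMod N) - i + (i - (u : ZMod N))) = ((u + h : ℕ) : ZMod N) := by
    push_cast at e0 ⊢
    linear_combination -e0
  unfold gam_UEta
  rw [e, ZMod.val_cast_of_lt (by omega), if_neg (by omega)]

private theorem upd_UEta {Z : Type} {N h : ℕ} [NeZero N] (β α : Z → ℝ) (y p : ZMod N)
    (G : ZMod N → Z) (z : Z) (hz : gam_UEta h β α y p z = gam_UEta h β α y p (G p)) :
    xi_UEta h β α y (Function.update G p z) = xi_UEta h β α y G := by
  unfold xi_UEta
  refine prod_congr rfl fun q _ => ?_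
  by_cases hq : q = p
  · subst hq
    rw [Function.update_self, hz]
  · rw [Function.update_of_ne hq]

theorem ueta {Z : Type} [Fintype Z] {N h : ℕ} [NeZero N] (hN : N = 2 * h) (β α : Z → ℝ)
    (hβ : ∑ z, β z ^ 2 = 1) (hα : ∑ z, α z ^ 2 = 1) {c : ℝ} (hc : (∑ z, α z * β z) ^ 2 = c)
    (T : ℕ → ℝ) (hQ : 0 < Q0 h c T) :
    ∃ η : ZMod N → (ZMod N → Z) → ℝ, (∀ i, ∑ G, η i G ^ 2 = 1) ∧
      (∀ i, ∑ G, η i G * η (i + 1) G = Q1 h c T / Q0 h c T) ∧
      (∀ i G, η i G ≠ 0 → β (G (-i)) ≠ 0) ∧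
      (∀ i G z, β z = β (G (-i)) → η i (Function.update G (-i) z) = η i G) ∧
      (∀ i G z, α z = α (G (h - i)) → η i (Function.update G (h - i) z) = η i G) := by
  have hs : √(Q0 h c T) * √(Q0 h c T) = Q0 h c T := Real.mul_self_sqrt hQ.le
  have key : ∀ i j : ZMod N,
      ∑ G : ZMod N → Z, ((∑ u ∈ range h, T u * xi_UEta h β α (i - (u : ZMod N)) G) / √(Q0 h c T)) *
        ((∑ u ∈ range h, T u * xi_UEta h β α (j - (u : ZMod N)) G) / √(Q0 h c T)) =
      (∑ u ∈ range h, ∑ v ∈ range h, T u * T v *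
        ∑ G, xi_UEta h β α (i - (u : ZMod N)) G * xi_UEta h β α (j - (v : ZMod N)) G) / Q0 h c T := by
    intro i j
    simp_rw [div_mul_div_comm, hs]
    rw [← sum_div]
    congr 1
    simp_rw [sum_mul_sum, mul_sum]
    rw [sum_comm]
    refine sum_congr rfl fun u _ => ?_
    rw [sum_comm]
    refine sum_congr rfl fun v _ => sum_congr rfl fun G _ => by ring
  refine ⟨fun i G => (∑ u ∈ range h, T u * xi_UEta h β α (i - (u : ZMod N)) G) / √(Q0 h c T),
    fun i => ?_, fun i => ?_, fun i G hG hz => hG ?_, fun i G z hz => ?_, fun i G z hz => ?_⟩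
  · simp_rw [sq]
    rw [key i i, div_eq_one_iff_eq hQ.ne']
    refine sum_congr rfl fun u hu => sum_congr rfl fun v hv => ?_
    rw [inner2_UEta hN β α hβ hα hc i (mem_range.1 hu).le (mem_range.1 hv).le]
  · rw [key i (i + 1)]
    congr 1
    refine sum_congr rfl fun u hu => sum_congr rfl fun v hv => ?_
    have e : i - (u : ZMod N) = i + 1 - ((u + 1 : ℕ) : ZMod N) := by push_cast; ring
    rw [e, inner2_UEta hN β α hβ hα hc (i + 1) (mem_range.1 hu) (mem_range.1 hv).le]
  · show (∑ u ∈ range h, T u * xi_UEta h β α (i - (u : ZMod N)) G) / √(Q0 h c T) = 0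
    rw [sum_eq_zero, zero_div]
    intro u hu
    rw [xi_UEta, prod_eq_zero (mem_univ (-i)), mul_zero]
    rw [gamB_UEta hN β α i (mem_range.1 hu), hz]
  · show (∑ u ∈ range h, T u * xi_UEta h β α (i - (u : ZMod N)) (Function.update G (-i) z)) / _ =
      (∑ u ∈ range h, T u * xi_UEta h β α (i - (u : ZMod N)) G) / _
    congr 1
    refine sum_congr rfl fun u hu => ?_
    rw [upd_UEta]
    rw [gamB_UEta hN β α i (mem_range.1 hu), hz]
  · show (∑ u ∈ range h, T u * xi_UEta h β α (i - (u : ZMod N)) (Function.update G ((h : ZMod N) - i) z)) / _ =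
      (∑ u ∈ range h, T u * xi_UEta h β α (i - (u : ZMod N)) G) / _
    congr 1
    refine sum_congr rfl fun u hu => ?_
    rw [upd_UEta]
    rw [gamA_UEta hN β α i (mem_range.1 hu), hz]

end Pool.Agent.P.MP_0b0f5a_al.Fo
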