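import Mathlib

/-!
The choice of the coefficients in the upper bound.
-/

namespace Pool.Agent.P.MP_0b0f5a_al.Fo

open Finset

/-- The squared norm of the combination. -/
def Q0 (h : ℕ) (c : ℝ) (T : ℕ → ℝ) : ℝ :=
  ∑ u ∈ range h, ∑ v ∈ range h, T u * T v * c ^ Nat.dist u v

/-- The inner product of two neighbouring combinations. -/
def Q1 (h : ℕ) (c : ℝ) (T : ℕ → ℝ) : ℝ :=
  ∑ u ∈ range h, ∑ v ∈ range h, T u * T v * c ^ Nat.dist (u + 1) v

private theorem geo_UNum (c : ℝ) (P : ℕ → ℝ) (h0 : P 0 = 0) (n : ℕ) :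
    ∑ v ∈ range n, (P (v + 1) - c * P v) * c ^ (n - 1 - v) = P n := by
  induction n with
  | zero => simp [h0]
  | succ n ih =>
    rw [sum_range_succ]
    have : ∑ v ∈ range n, (P (v + 1) - c * P v) * c ^ (n + 1 - 1 - v)
        = c * ∑ v ∈ range n, (P (v + 1) - c * P v) * c ^ (n - 1 - v) := by
      rw [mul_sum]
      refine sum_congr rfl fun v hv => ?_
      have hv' := mem_range.1 hv
      have : n + 1 - 1 - v = (n - 1 - v) + 1 := by omega
      rw [this, pow_succ]; ring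
    rw [this, ih]
    have : n + 1 - 1 - n = 0 := by omega
    rw [this]; ring

private theorem Q0_succ_UNum (c : ℝ) (T : ℕ → ℝ) (n : ℕ) :
    Q0 (n + 1) c T = Q0 n c T + 2 * c * T n * (∑ v ∈ range n, T v * c ^ (n - 1 - v)) + T n ^ 2 := by
  unfold Q0
  rw [sum_range_succ]
  simp only [sum_range_succ, sum_add_distrib]
  have h1 : ∑ u ∈ range n, T u * T n * c ^ Nat.dist u n
      = c * T n * ∑ v ∈ range n, T v * c ^ (n - 1 - v) := by
    rw [mul_sum]
    refine sum_congr rfl fun v hv => ?_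
    have hv' := mem_range.1 hv
    have : Nat.dist v n = (n - 1 - v) + 1 := by unfold Nat.dist; omega
    rw [this, pow_succ]; ring
  have h2 : ∑ u ∈ range n, T n * T u * c ^ Nat.dist n u
      = c * T n * ∑ v ∈ range n, T v * c ^ (n - 1 - v) := by
    rw [mul_sum]
    refine sum_congr rfl fun v hv => ?_
    have hv' := mem_range.1 hv
    have : Nat.dist n v = (n - 1 - v) + 1 := by unfold Nat.dist; omega
    rw [this, pow_succ]; ring
  rw [h1, h2, Nat.dist_self]; ring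

private theorem Q1_succ_UNum (c : ℝ) (T : ℕ → ℝ) (n : ℕ) :
    Q1 (n + 1) c T = Q1 n c T + (1 + c ^ 2) * T n * (∑ v ∈ range n, T v * c ^ (n - 1 - v))
      + c * T n ^ 2 := by
  unfold Q1
  rw [sum_range_succ]
  simp only [sum_range_succ, sum_add_distrib]
  have h1 : ∑ u ∈ range n, T u * T n * c ^ Nat.dist (u + 1) n
      = T n * ∑ v ∈ range n, T v * c ^ (n - 1 - v) := by
    rw [mul_sum]
    refine sum_congr rfl fun v hv => ?_
    have hv' := mem_range.1 hv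
    have : Nat.dist (v + 1) n = n - 1 - v := by unfold Nat.dist; omega
    rw [this]; ring
  have h2 : ∑ u ∈ range n, T n * T u * c ^ Nat.dist (n + 1) u
      = c ^ 2 * T n * ∑ v ∈ range n, T v * c ^ (n - 1 - v) := by
    rw [mul_sum]
    refine sum_congr rfl fun v hv => ?_
    have hv' := mem_range.1 hv
    have : Nat.dist (n + 1) v = (n - 1 - v) + 2 := by unfold Nat.dist; omega
    rw [this, pow_add]; ring
  have h3 : Nat.dist (n + 1) n = 1 := by unfold Nat.dist; omega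
  rw [h1, h2, h3]; ring

private theorem Q0_eq_UNum (x : ℝ) (P : ℕ → ℝ) (h0 : P 0 = 0) (n : ℕ) :
    Q0 n (1 - x) (fun u => P (u + 1) - (1 - x) * P u)
      = x * (2 - x) * (∑ u ∈ range n, P u ^ 2) + P n ^ 2 := by
  induction n with
  | zero => simp [Q0, h0]
  | succ n ih =>
    rw [Q0_succ_UNum, ih, geo_UNum (1 - x) P h0, sum_range_succ]; ring

private theorem Q01_eq_UNum (x : ℝ) (P : ℕ → ℝ) (h0 : P 0 = 0) (n : ℕ) :
    2 * (Q0 n (1 - x) (fun u => P (u + 1) - (1 - x) * P u)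
      - Q1 n (1 - x) (fun u => P (u + 1) - (1 - x) * P u))
      = x * (2 - x) * (∑ u ∈ range n, (P (u + 1) - P u) ^ 2) + x ^ 2 * P n ^ 2 := by
  induction n with
  | zero => simp [Q0, Q1, h0]
  | succ n ih =>
    rw [Q0_succ_UNum, Q1_succ_UNum, geo_UNum (1 - x) P h0, sum_range_succ]
    linear_combination ih

private theorem s2_UNum (n : ℕ) :
    ∑ u ∈ range n, (u : ℝ) ^ 2 = ((n : ℝ) - 1) * n * (2 * n - 1) / 6 := by
  induction n with
  | zero => simp
  | succ n ih => rw [sum_range_succ, ih]; push_cast; ring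

private theorem s4_UNum (H : ℝ) (n : ℕ) :
    ∑ u ∈ range n, ((u : ℝ) * (H - u)) ^ 2
      = H ^ 2 * (((n : ℝ) - 1) * n * (2 * n - 1) / 6) - 2 * H * (((n : ℝ) - 1) * n / 2) ^ 2
        + ((n : ℝ) - 1) * n * (2 * n - 1) * (3 * n ^ 2 - 3 * n - 1) / 30 := by
  induction n with
  | zero => simp
  | succ n ih => rw [sum_range_succ, ih]; push_cast; ring

private theorem d2_UNum (H : ℝ) (n : ℕ) :
    ∑ u ∈ range n, ((((u + 1 : ℕ) : ℝ)) * (H - ((u + 1 : ℕ) : ℝ)) - (u : ℝ) * (H - u)) ^ 2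
      = n * H ^ 2 - 2 * H * (n : ℝ) ^ 2 + n * (4 * (n : ℝ) ^ 2 - 1) / 3 := by
  induction n with
  | zero => simp
  | succ n ih => rw [sum_range_succ, ih]; push_cast; ring

private theorem small_UNum {H x r : ℝ} (hh : 128 ≤ H) (hx : 0 ≤ x) (hy : x * H ≤ 12)
    (hr : r * x ≤ 1) :
    (2 * H * r + H ^ 2 / 32) * (x * (2 - x) * H + x ^ 2 * H ^ 2)
      ≤ 4 * (x * (2 - x) * ((H - 1) * H * (2 * H - 1) / 6) + H ^ 2) := by
  have hH : 0 < H := by linarith
  have hx2 : x ≤ 12 / 128 := by nlinarith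
  set y := x * H with hydef
  have hy0 : 0 ≤ y := by positivity
  have hF0 : 0 ≤ (2 - x) * H + y * H := by
    have : 0 ≤ 2 - x := by linarith
    positivity
  have hF : (2 - x) * H + y * H ≤ (2 + y) * H := by nlinarith
  have e1 : (2 * H * r + H ^ 2 / 32) * (x * (2 - x) * H + x ^ 2 * H ^ 2)
      = 2 * H * ((r * x) * ((2 - x) * H + y * H)) + H / 32 * y * ((2 - x) * H + y * H) := by
    rw [hydef]; ring
  have b1 : (r * x) * ((2 - x) * H + y * H) ≤ (2 + y) * H := by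
    have := mul_le_mul_of_nonneg_right hr hF0
    linarith
  have b2 : (2 - x) * H + y * H ≤ 14 * H := by nlinarith
  have b3 : 2 * H * ((r * x) * ((2 - x) * H + y * H)) ≤ 2 * H * ((2 + y) * H) :=
    mul_le_mul_of_nonneg_left b1 (by positivity)
  have b4 : H / 32 * y * ((2 - x) * H + y * H) ≤ H / 32 * y * (14 * H) :=
    mul_le_mul_of_nonneg_left b2 (by positivity)
  have e2 : 4 * (x * (2 - x) * ((H - 1) * H * (2 * H - 1) / 6) + H ^ 2)
      = 4 * H ^ 2 + 2 / 3 * y * ((2 - x) * ((H - 1) * (2 * H - 1))) := by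
    rw [hydef]; ring
  have b5 : (197 / 100) * H ^ 2 ≤ (H - 1) * (2 * H - 1) := by nlinarith
  have b6 : (19 / 10) * ((197 / 100) * H ^ 2) ≤ (2 - x) * ((H - 1) * (2 * H - 1)) :=
    mul_le_mul (by linarith) b5 (by positivity) (by linarith)
  have b7 : 2 / 3 * y * ((19 / 10) * ((197 / 100) * H ^ 2))
      ≤ 2 / 3 * y * ((2 - x) * ((H - 1) * (2 * H - 1))) :=
    mul_le_mul_of_nonneg_left b6 (by positivity)
  have b8 : 0 ≤ y * H ^ 2 := by positivity
  rw [e1, e2]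
  nlinarith

theorem unum {h : ℕ} (hh : 128 ≤ h) {x r : ℝ} (hx : 0 ≤ x) (hx1 : x ≤ 1 / 2) (hr : r * x ≤ 1) :
    ∃ T : ℕ → ℝ, 0 < Q0 h (1 - x) T ∧
      (2 * h * r + h ^ 2 / 32) * (Q0 h (1 - x) T - Q1 h (1 - x) T) ≤ 2 * Q0 h (1 - x) T := by
  have hH : (128 : ℝ) ≤ h := by exact_mod_cast hh
  have hk : 0 ≤ x * (2 - x) := mul_nonneg hx (by linarith)
  by_cases hy : x * h ≤ 12
  · have e0 := Q0_eq_UNum x (fun u => (u : ℝ)) (by simp) h
    have e1 := Q01_eq_UNum x (fun u => (u : ℝ)) (by simp) h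
    generalize (fun u : ℕ => (((u + 1 : ℕ) : ℝ)) - (1 - x) * (u : ℝ)) = T at e0 e1
    refine ⟨T, ?_, ?_⟩
    · rw [e0]
      have : 0 ≤ ∑ u ∈ range h, (u : ℝ) ^ 2 := sum_nonneg fun u _ => by positivity
      have : (0 : ℝ) < (h : ℝ) ^ 2 := by positivity
      positivity
    · have e2 : ∑ u ∈ range h, ((((u + 1 : ℕ) : ℝ)) - (u : ℝ)) ^ 2 = h := by
        simp
      have hs := small_UNum hH hx hy hr
      rw [e2] at e1
      rw [s2_UNum] at e0
      rw [← e0, ← e1] at hs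
      linarith
  · push Not at hy
    have hx0 : 0 < x := by
      rcases hx.eq_or_lt with h0 | h0
      · rw [← h0] at hy; linarith
      · exact h0
    have hk' : 0 < x * (2 - x) := mul_pos hx0 (by linarith)
    have e0 := Q0_eq_UNum x (fun u => (u : ℝ) * ((h : ℝ) - u)) (by simp) h
    have e1 := Q01_eq_UNum x (fun u => (u : ℝ) * ((h : ℝ) - u)) (by simp) h
    rw [s4_UNum] at e0
    rw [d2_UNum] at e1
    generalize (fun u : ℕ => (((u + 1 : ℕ) : ℝ)) * ((h : ℝ) - ((u + 1 : ℕ) : ℝ))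
      - (1 - x) * ((u : ℝ) * ((h : ℝ) - u))) = T at e0 e1
    have hr' : r ≤ h / 12 := by
      by_cases hr0 : r ≤ 0
      · linarith
      · push Not at hr0
        nlinarith
    have e0' : (h : ℝ) ^ 2 * (((h : ℝ) - 1) * h * (2 * h - 1) / 6)
        - 2 * h * (((h : ℝ) - 1) * h / 2) ^ 2
        + ((h : ℝ) - 1) * h * (2 * h - 1) * (3 * h ^ 2 - 3 * h - 1) / 30
        = (h * ((h : ℝ) ^ 2 - 1)) * ((h : ℝ) ^ 2 + 1) / 30 := by ring
    have e1' : (h : ℝ) * (h : ℝ) ^ 2 - 2 * h * (h : ℝ) ^ 2 + h * (4 * (h : ℝ) ^ 2 - 1) / 3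
        = (h * ((h : ℝ) ^ 2 - 1)) / 3 := by ring
    rw [e0', sub_self, mul_zero] at e0
    rw [e1', sub_self, mul_zero] at e1
    have hw : 0 < (h : ℝ) * ((h : ℝ) ^ 2 - 1) := mul_pos (by linarith) (by nlinarith)
    set w := (h : ℝ) * ((h : ℝ) ^ 2 - 1) with hwdef
    refine ⟨T, ?_, ?_⟩
    · rw [e0]
      have : (0 : ℝ) < (h : ℝ) ^ 2 + 1 := by positivity
      have : 0 < x * (2 - x) * (w * ((h : ℝ) ^ 2 + 1) / 30) := by positivity
      nlinarith
    · have b1 : 2 * h * r + (h : ℝ) ^ 2 / 32 ≤ 2 / 5 * ((h : ℝ) ^ 2 + 1) := by nlinarith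
      have b2 : 0 ≤ x * (2 - x) * w := by positivity
      have b3 := mul_le_mul_of_nonneg_right b1 b2
      nlinarith

end Pool.Agent.P.MP_0b0f5a_al.Fo
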