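import Pool.Agent.P.MP_0b0f5a_al.Fo.UEta
import Pool.Agent.P.MP_0b0f5a_al.Fo.UBld

/-!
Almost invariant vectors on finite families of group elements.
-/

namespace Pool.Agent.P.MP_0b0f5a_al.Fo

open Finset

/-- A unit vector on a family of at most `2 ^ M` elements that is invariant under `b`, `c`, `d`
and almost invariant under `a`. -/
def UB (ω : ℕ → Fin 3) (r : ℝ) (M : ℕ) : Prop :=
  ∃ (Z : Type) (_ : Fintype Z) (Φ : Z → Γ) (A : Equiv.Perm Z) (S : Fin 3 → Equiv.Perm Z)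
    (β : Z → ℝ), (∀ z, A (A z) = z) ∧ (∀ z, Φ (A z) = genA * Φ z) ∧ (∀ k z, β (S k z) = β z) ∧
      (∀ k z, β z ≠ 0 → Φ (S k z) = genS k ω * Φ z) ∧ ∑ z, β z ^ 2 = 1 ∧
      Fintype.card Z ≤ 2 ^ M ∧ r * (1 - ∑ z, β z * β (A z)) ≤ 2

private lemma sq_comp {Z : Type} [Fintype Z] (A : Equiv.Perm Z) (β : Z → ℝ) :
    ∑ z, β (A z) ^ 2 = ∑ z, β z ^ 2 := Equiv.sum_comp A fun z => β z ^ 2

private lemma inner_le {Z : Type} [Fintype Z] (A : Equiv.Perm Z) (β : Z → ℝ)
    (h : ∑ z, β z ^ 2 = 1) : ∑ z, β z * β (A z) ≤ 1 := by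
  have h1 : ∑ z, 2 * (β z * β (A z)) ≤ ∑ z, (β z ^ 2 + β (A z) ^ 2) :=
    sum_le_sum fun z _ => by nlinarith [sq_nonneg (β z - β (A z))]
  rw [← mul_sum, sum_add_distrib, sq_comp, h] at h1
  linarith

theorem UB.mono {ω : ℕ → Fin 3} {r r' : ℝ} {M M' : ℕ} (H : UB ω r M) (hr : r' ≤ r) (hM : M ≤ M') :
    UB ω r' M' := by
  obtain ⟨Z, iZ, Φ, A, S, β, h1, h2, h3, h4, h5, h6, h7⟩ := H
  refine ⟨Z, iZ, Φ, A, S, β, h1, h2, h3, h4, h5,
    h6.trans (Nat.pow_le_pow_right (by norm_num) hM), le_trans ?_ h7⟩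
  exact mul_le_mul_of_nonneg_right hr (sub_nonneg.2 (inner_le A β h5))

private def bA : Bool × Bool × Bool → Bool × Bool × Bool := fun z => (z.1, z.2.1, !z.2.2)

private def bS (k : Fin 3) : Bool × Bool × Bool → Bool × Bool × Bool := fun z =>
  (if k = 2 then z.1 else !z.1, if k = 0 then z.2.1 else !z.2.1, z.2.2)

private lemma bA_invol : Function.Involutive bA := by
  unfold Function.Involutive; decide

private lemma bS_invol (k : Fin 3) : Function.Involutive (bS k) := by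
  unfold Function.Involutive; revert k; decide

theorem ub_base (ω : ℕ → Fin 3) : UB ω 2 3 := by
  have c1 := genS_one ω
  have c2 : genS 0 ω * genS 2 ω = genS 2 ω * genS 0 ω := (genS_comm ω).symm
  have c3 := genS_sq 0 ω
  have c4 := genS_sq 2 ω
  have c5 : ∀ g : Γ, genS 0 ω * (genS 0 ω * g) = g := fun g => by rw [← mul_assoc, c3, one_mul]
  have c6 : ∀ g : Γ, genS 2 ω * (genS 2 ω * g) = g := fun g => by rw [← mul_assoc, c4, one_mul]
  have c7 : genS 0 ω * (genS 2 ω * genS 0 ω) = genS 2 ω := by rw [← c2, c5]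
  have c8 : ∀ g : Γ, genA * (genA * g) = g := fun g => by rw [← mul_assoc, genA_sq, one_mul]
  refine ⟨Bool × Bool × Bool, inferInstance,
    fun z => (if z.2.2 then genA else 1) *
      ((if z.2.1 then genS 2 ω else 1) * (if z.1 then genS 0 ω else 1)),
    bA_invol.toPerm, fun k => (bS_invol k).toPerm, fun z => if z.2.2 then 0 else 1 / 2,
    fun z => bA_invol z, ?_, fun k z => rfl, ?_, ?_, by simp, ?_⟩
  · rintro ⟨x, y, _ | _⟩ <;> simp [bA, c8, genA_sq]
  · rintro k ⟨x, y, _ | _⟩ h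
    · fin_cases k <;> cases x <;> cases y <;>
        simp [bS, c1, c2, c3, c4, c6, c7, mul_assoc]
    · simp at h
  · simp [Fintype.sum_prod_type]; norm_num
  · simp [Fintype.sum_prod_type, bA]

section
variable {N : ℕ} {Z : Type}

private def sA (z : (ZMod N × Bool) × (ZMod N → Z)) : (ZMod N × Bool) × (ZMod N → Z) :=
  ((if z.1.2 then z.1.1 - 1 else z.1.1 + 1, !z.1.2), z.2)

private lemma sA_invol : Function.Involutive (sA (N := N) (Z := Z)) := by
  rintro ⟨⟨i, _ | _⟩, G⟩ <;> simp [sA]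

private def sP (P : ZMod N → ZMod N → Equiv.Perm Z) (f : Bool → Bool) (hf : ∀ b, f (f b) = b) :
    Equiv.Perm ((ZMod N × Bool) × (ZMod N → Z)) where
  toFun z := ((z.1.1, f z.1.2), fun p => P z.1.1 p (z.2 p))
  invFun z := ((z.1.1, f z.1.2), fun p => (P z.1.1 p).symm (z.2 p))
  left_inv z := by simp [hf]
  right_inv z := by simp [hf]

private lemma sP_apply (P : ZMod N → ZMod N → Equiv.Perm Z) (f : Bool → Bool)
    (hf : ∀ b, f (f b) = b) (i θ G) :
    sP P f hf ((i, θ), G) = ((i, f θ), fun p => P i p (G p)) := rfl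

end

private lemma alpha {Z : Type} [Fintype Z] (A : Equiv.Perm Z) (β : Z → ℝ) (hA : ∀ z, A (A z) = z)
    (h : ∑ z, β z ^ 2 = 1) (hg : 0 ≤ ∑ z, β z * β (A z)) :
    ∃ α : Z → ℝ, (∀ z, α (A z) = α z) ∧ ∑ z, α z ^ 2 = 1 ∧
      (∑ z, α z * β z) ^ 2 = 1 - (1 - ∑ z, β z * β (A z)) / 2 := by
  set g := ∑ z, β z * β (A z) with hgd
  have hp : 0 < 2 + 2 * g := by linarith
  have hs : √(2 + 2 * g) ^ 2 = 2 + 2 * g := Real.sq_sqrt hp.le
  refine ⟨fun z => (β z + β (A z)) / √(2 + 2 * g), fun z => by simp only [hA, add_comm], ?_, ?_⟩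
  · have e : ∀ z, ((β z + β (A z)) / √(2 + 2 * g)) ^ 2 =
        (β z ^ 2 + β (A z) ^ 2 + 2 * (β z * β (A z))) / (2 + 2 * g) := fun z => by
      rw [div_pow, hs]; ring
    simp only [e]
    rw [← sum_div, sum_add_distrib, sum_add_distrib, sq_comp, h, ← mul_sum, ← hgd,
      div_eq_one_iff_eq hp.ne']
    ring
  · have e : ∀ z, (β z + β (A z)) / √(2 + 2 * g) * β z =
        (β z ^ 2 + β z * β (A z)) / √(2 + 2 * g) := fun z => by ring
    simp only [e]
    rw [← sum_div, sum_add_distrib, h, ← hgd, div_pow, hs, div_eq_iff hp.ne']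
    ring

theorem ub_step {ω : ℕ → Fin 3} {r r' : ℝ} {M : ℕ} (H : UB ω r M) (hr : 2 ≤ r) (s : Fin 3) (L : ℕ)
    (hT : ∀ x, 0 ≤ x → x ≤ 1 / 2 → r * x ≤ 1 → ∃ T : ℕ → ℝ, 0 < Q0 (2 ^ L) (1 - x) T ∧
      r' * (Q0 (2 ^ L) (1 - x) T - Q1 (2 ^ L) (1 - x) T) ≤ 2 * Q0 (2 ^ L) (1 - x) T) :
    UB (pre s (L + 1) ω) r' (L + 2 + 2 ^ (L + 1) * M) := by
  obtain ⟨Z, iZ, Φ, A, S, β, h1, h2, h3, h4, h5, h6, h7⟩ := H
  have g1 := inner_le A β h5
  have g0 : 0 ≤ ∑ z, β z * β (A z) := by nlinarith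
  obtain ⟨α, a1, a2, a3⟩ := alpha A β h1 h5 g0
  obtain ⟨T, hQ, hT'⟩ := hT ((1 - ∑ z, β z * β (A z)) / 2) (by linarith) (by linarith) (by linarith)
  obtain ⟨N, hN⟩ : ∃ N : ℕ, N = 2 * 2 ^ L := ⟨_, rfl⟩
  have hN0 : 0 < N := by rw [hN]; positivity
  have : NeZero N := ⟨hN0.ne'⟩
  obtain ⟨η, e1, e2, e3, e4, e5⟩ := ueta hN β α h5 a2 a3 T hQ
  obtain ⟨B, b1, b2, b3⟩ := builder s L ω hN
  have hne : ∀ i : ZMod N, ((2 ^ L : ℕ) : ZMod N) - i ≠ -i := by
    intro i hi
    have h0 : ((2 ^ L : ℕ) : ZMod N) = 0 := by linear_combination hi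
    rw [ZMod.natCast_eq_zero_iff] at h0
    have := Nat.le_of_dvd (by positivity) h0
    have : 0 < 2 ^ L := by positivity
    omega
  have hR : (0 : ℝ) < 2 * N := by positivity
  have hs : √(2 * N : ℝ) ^ 2 = 2 * N := Real.sq_sqrt hR.le
  let P : Fin 3 → ZMod N → ZMod N → Equiv.Perm Z := fun k i p =>
    if p = -i then S k else if k ≠ s ∧ p = ((2 ^ L : ℕ) : ZMod N) - i then A else 1
  have p1 : ∀ i (G : ZMod N → Z),
      (fun p => P s i p (G p)) = Function.update G (-i) (S s (G (-i))) := by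
    intro i G
    funext p
    by_cases hp : p = -i
    · subst hp; simp [P]
    · simp [P, hp]
  have p2 : ∀ k ≠ s, ∀ i (G : ZMod N → Z), (fun p => P k i p (G p)) =
      Function.update (Function.update G (-i) (S k (G (-i)))) (((2 ^ L : ℕ) : ZMod N) - i)
        (A (G (((2 ^ L : ℕ) : ZMod N) - i))) := by
    intro k hk i G
    funext p
    by_cases hp : p = ((2 ^ L : ℕ) : ZMod N) - i
    · subst hp
      rw [Function.update_self]
      simp only [P, if_neg (hne i), hk, ne_eq, not_false_eq_true, and_self, if_true]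
    · rw [Function.update_of_ne hp]
      by_cases hp' : p = -i
      · subst hp'; simp [P]
      · rw [Function.update_of_ne hp']
        simp only [P, if_neg hp', hp, and_false, if_false, Equiv.Perm.one_apply]
  refine ⟨(ZMod N × Bool) × (ZMod N → Z), inferInstance, fun z => B z.1.1 z.1.2 (Φ ∘ z.2),
    sA_invol.toPerm,
    fun k => sP (P k) (fun θ => if k = s then θ else !θ) (fun b => by split_ifs <;> simp),
    fun z => η z.1.1 z.2 / √(2 * N : ℝ), fun z => sA_invol z, ?_, ?_, ?_, ?_, ?_, ?_⟩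
  · rintro ⟨⟨i, _ | _⟩, G⟩
    · simp [sA, b1]
    · have := b1 (i - 1) (Φ ∘ G)
      rw [sub_add_cancel] at this
      simp only [Function.Involutive.coe_toPerm, sA, if_true, Bool.not_true]
      rw [← this, ← mul_assoc, genA_sq, one_mul]
  · rintro k ⟨⟨i, θ⟩, G⟩
    simp only [sP_apply]
    by_cases hk : k = s
    · subst hk
      rw [p1, e4 _ _ _ (h3 _ _)]
    · rw [p2 k hk, e5, e4 _ _ _ (h3 _ _)]
      rw [a1, Function.update_of_ne (hne i)]
  · rintro k ⟨⟨i, θ⟩, G⟩ hz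
    have hβ : β (G (-i)) ≠ 0 := e3 i G fun h0 => hz (by simp only [h0, zero_div])
    simp only [sP_apply]
    by_cases hk : k = s
    · subst hk
      rw [p1, b2, if_pos rfl, Function.comp_update, h4 _ _ hβ]
      rfl
    · rw [p2 k hk, b3 k hk, if_neg hk, Function.comp_update, Function.comp_update, h4 _ _ hβ, h2]
      rfl
  · simp only [div_pow, hs, Fintype.sum_prod_type, ← sum_div, e1]
    simp only [sum_const, card_univ, Fintype.card_bool, ZMod.card, nsmul_eq_mul]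
    rw [div_eq_one_iff_eq hR.ne']
    push_cast
    ring
  · rw [Fintype.card_prod, Fintype.card_prod, Fintype.card_fun, ZMod.card, Fintype.card_bool]
    calc N * 2 * Fintype.card Z ^ N ≤ N * 2 * (2 ^ M) ^ N := by gcongr
      _ = 2 ^ (L + 2 + 2 ^ (L + 1) * M) := by
        rw [← pow_mul, pow_add, pow_add, hN]
        ring
  · have e6 : ∀ i, ∑ G, η i G * η (i - 1) G = Q1 (2 ^ L) (1 - (1 - ∑ z, β z * β (A z)) / 2) T /
        Q0 (2 ^ L) (1 - (1 - ∑ z, β z * β (A z)) / 2) T := by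
      intro i
      rw [← e2 (i - 1), sub_add_cancel]
      exact sum_congr rfl fun G _ => mul_comm _ _
    have e7 : ∀ a b : ℝ, a / √(2 * N : ℝ) * (b / √(2 * N : ℝ)) = a * b / (2 * N) := by
      intro a b
      rw [div_mul_div_comm, ← sq, hs]
    simp only [Function.Involutive.coe_toPerm, sA, e7, Fintype.sum_prod_type, ← sum_div,
      Fintype.sum_bool, if_true, Bool.false_eq_true, if_false, e2, e6]
    simp only [sum_const, card_univ, ZMod.card, nsmul_eq_mul]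
    generalize Q0 (2 ^ L) (1 - (1 - ∑ z, β z * β (A z)) / 2) T = q0 at *
    generalize Q1 (2 ^ L) (1 - (1 - ∑ z, β z * β (A z)) / 2) T = q1 at *
    have hN1 : (0 : ℝ) < N := by exact_mod_cast hN0
    have e8 : 1 - N * (q1 / q0 + q1 / q0) / (2 * N) = (q0 - q1) / q0 := by
      field_simp
      ring
    rw [e8, ← mul_div_assoc, div_le_iff₀ hQ]
    exact hT'

end Pool.Agent.P.MP_0b0f5a_al.Fo
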